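import Pool.Agent.H20.ML.ConstSel

/-!
# Project ML, block CONST: the main theorem for extensions that are not constant
-/

set_option autoImplicit false

open Polynomial IsDedekindDomain NumberField

namespace Pool.Agent.H20.ML

open Filter Pool.Agent.H35.AN in
theorem main2 (k : Type) [Field k] [NumberField k] (n : ℕ) (G : Subgroup (Equiv.Perm (Fin n)))
    (main : ∀ (L : IntermediateField (RatFunc k) (AlgebraicClosure (RatFunc k)))
      (_ : Module.finrank (RatFunc k) L = n) [FiniteDimensional (RatFunc k) L]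
      (_ : HasGroup (RatFunc k) n G L) (_ : RamHyp k L)
      (ω : Fin n → L) (_ : LinearIndependent (RatFunc k) ω) (a : Fin n → ℕ)
      (_ : ∀ i, Weight k L (a i) (ω i)) (ε : ℝ) (_ : 0 < ε),
      ∀ᶠ B : ℝ in atTop, B ^ (1 / ((∑ i, a i : ℕ) : ℝ) - ε) ≤ (malleCount k n G B : ℝ))
    (L : IntermediateField (RatFunc k) (AlgebraicClosure (RatFunc k)))
    (hn : Module.finrank (RatFunc k) L = n) [FiniteDimensional (RatFunc k) L]
    (hG : HasGroup (RatFunc k) n G L)
    (hL : IntermediateField.adjoin (RatFunc k) {x : L | IsAlgebraic k x} ≠ ⊤)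
    (ω : Fin n → L) (hω : LinearIndependent (RatFunc k) ω) (a : Fin n → ℕ)
    (ha : ∀ i, Weight k L (a i) (ω i)) (ε : ℝ) (hε : 0 < ε) :
    ∀ᶠ B : ℝ in atTop, B ^ (1 / ((∑ i, a i : ℕ) : ℝ) - ε) ≤ (malleCount k n G B : ℝ) := by
  rcases exists_coord L hL with h | ⟨s, σ, L', ρ, hfd, hσ, hρ, hG', h⟩
  · exact main L hn hG h ω hω a ha ε hε
  · exact main L' ((finrank_twist L L' σ ρ hρ).trans hn) (hG' n G hG) h
      (fun i => algebraMap k[X] L' X ^ a i * ρ (ω i)) (linInd_twist L L' σ ρ hρ ω hω a) a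
      (fun i => weight_twist L L' s σ hσ ρ hρ (a i) (ω i) (ha i)) ε hε

end Pool.Agent.H20.ML
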