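import Pool.Agent.H20.ML.Reduce2
import Pool.Agent.H20.ML.ConstMain

/-!
# Project ML: the closed form of the main theorem
-/

set_option autoImplicit false

open Polynomial IsDedekindDomain NumberField Filter

namespace Pool.Agent.H20.ML

open Pool.Agent.H35.AN

section closed

variable {k : Type} [Field k] {L : Type} [Field L] [Algebra (RatFunc k) L]
  [Algebra k[X] L] [IsScalarTower k[X] (RatFunc k) L] [FiniteDimensional (RatFunc k) L]
  [Algebra k L] [IsScalarTower k (RatFunc k) L]

omit [FiniteDimensional (RatFunc k) L] in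
theorem isAlgebraic_of_weight_zero {y : L} (hy : Weight k L 0 y) : IsAlgebraic k y := by
  obtain ⟨P, hP, hP0, hdeg⟩ := hy
  have htow : IsScalarTower k k[X] L := by
    refine IsScalarTower.of_algebraMap_eq fun c => ?_
    rw [IsScalarTower.algebraMap_apply k (RatFunc k) L,
      IsScalarTower.algebraMap_apply k k[X] (RatFunc k),
      ← IsScalarTower.algebraMap_apply k[X] (RatFunc k) L]
  have hcoef : ∀ j, P.coeff j = C ((P.coeff j).coeff 0) := by
    intro j
    by_cases hj : j ≤ P.natDegree
    · have h1 := hdeg j hj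
      rw [zero_mul, Nat.le_zero] at h1
      exact eq_C_of_natDegree_eq_zero h1
    · rw [coeff_eq_zero_of_natDegree_lt (not_le.1 hj)]
      simp
  have hPmap : P = (P.map (evalRingHom (0 : k))).map (C : k →+* k[X]) := by
    ext1 j
    rw [coeff_map, coeff_map]
    conv_lhs => rw [hcoef j]
    congr 1
    rw [coe_evalRingHom, coeff_zero_eq_eval_zero]
  refine IsIntegral.isAlgebraic ⟨P.map (evalRingHom (0 : k)), hP.map _, ?_⟩
  rw [hPmap] at hP0
  have h2 : aeval y ((P.map (evalRingHom (0 : k))).map (C : k →+* k[X])) =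
      aeval y (P.map (evalRingHom (0 : k))) := by
    have h3 : (C : k →+* k[X]) = algebraMap k k[X] := rfl
    rw [h3, aeval_map_algebraMap]
  rw [h2] at hP0
  exact hP0

theorem adjoin_eq_top_of_weights {n : ℕ} (hn : Module.finrank (RatFunc k) L = n) (ω : Fin n → L)
    (hli : LinearIndependent (RatFunc k) ω) (a : Fin n → ℕ) (hW : ∀ i, Weight k L (a i) (ω i))
    (h0 : ∑ i, a i = 0) : IntermediateField.adjoin (RatFunc k) {x : L | IsAlgebraic k x} = ⊤ := by
  have hn0 : Nonempty (Fin n) := by
    rw [← Fin.pos_iff_nonempty, ← hn]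
    exact Module.finrank_pos
  have ha : ∀ i, a i = 0 := fun i => (Finset.sum_eq_zero_iff.1 h0) i (Finset.mem_univ i)
  have hspan := hli.span_eq_top_of_card_eq_finrank (by rw [hn, Fintype.card_fin])
  rw [eq_top_iff]
  intro y _
  have hy : y ∈ Submodule.span (RatFunc k) (Set.range ω) := by
    rw [hspan]
    trivial
  have hle : Submodule.span (RatFunc k) (Set.range ω) ≤ Subalgebra.toSubmodule
      (IntermediateField.adjoin (RatFunc k) {x : L | IsAlgebraic k x}).toSubalgebra := by
    rw [Submodule.span_le]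
    rintro _ ⟨i, rfl⟩
    have h1 := hW i
    rw [ha i] at h1
    exact IntermediateField.subset_adjoin _ _ (isAlgebraic_of_weight_zero h1)
  exact hle hy

end closed

open Filter Pool.Agent.H35.AN in
theorem main3 (k : Type) [Field k] [NumberField k] (n : ℕ) (G : Subgroup (Equiv.Perm (Fin n)))
    (main : ∀ (L : IntermediateField (RatFunc k) (AlgebraicClosure (RatFunc k)))
      (_ : Module.finrank (RatFunc k) L = n) [FiniteDimensional (RatFunc k) L]
      (_ : HasGroup (RatFunc k) n G L) (_ : RamHyp k L)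
      (ω : Fin n → L) (_ : LinearIndependent (RatFunc k) ω) (a : Fin n → ℕ)
      (_ : ∀ i, Weight k L (a i) (ω i)) (ε : ℝ) (_ : 0 < ε),
      ∀ᶠ B : ℝ in atTop, B ^ (1 / ((∑ i, a i : ℕ) : ℝ) - ε) ≤ (malleCount k n G B : ℝ))
    (L : IntermediateField (RatFunc k) (AlgebraicClosure (RatFunc k)))
    (hn : Module.finrank (RatFunc k) L = n) [FiniteDimensional (RatFunc k) L]
    (hG : HasGroup (RatFunc k) n G L)
    (hL : IntermediateField.adjoin (RatFunc k) {x : L | IsAlgebraic k x} ≠ ⊤) :
    ∃ A : ℕ, 0 < A ∧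
      (∀ᶠ m : ℕ in atTop, Module.finrank k (Submodule.span k {y : L | Weight k L m y}) + A =
        n * (m + 1)) ∧
      ∀ ε : ℝ, 0 < ε → ∀ᶠ B : ℝ in atTop, B ^ (1 / (A : ℝ) - ε) ≤ (malleCount k n G B : ℝ) := by
  obtain ⟨ω, a, hli, hW, hmin⟩ := exists_minima (k := k) (L := L) hn
  have hW' : ∀ i, Weight k L (a i) (ω i) := fun i => weight_iff_wt.2 (hW i)
  refine ⟨∑ i, a i, ?_, ?_, fun ε hε => main2 k n G main L hn hG hL ω hli a hW' ε hε⟩
  · rw [Nat.pos_iff_ne_zero]
    intro h0
    exact hL (adjoin_eq_top_of_weights hn ω hli a hW' h0)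
  · filter_upwards [eventually_ge_atTop (Finset.univ.sup a)] with m hm
    exact finrank_Wspace ω a hli hW hmin hn m
      (fun i => (Finset.le_sup (Finset.mem_univ i)).trans hm)

end Pool.Agent.H20.ML
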