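import Pool.Agent.H20.ML.Defs
import Pool.Agent.H35.AN.Count

/-!
# Project ML, ML-22: from the key statement to the counting function
-/

set_option autoImplicit false

open Polynomial IsDedekindDomain NumberField Filter

namespace Pool.Agent.H20.ML

open Pool.Agent.H35.AN

/-- few large prime divisors -/
theorem ml22_few {X : ℕ} (hX : 2 ≤ X) {δ : ℝ} (hδ1 : δ ≤ 1 / 2) {a : ℕ} {Δ : ℤ}
    (hΔ : Δ ≠ 0) (hΔX : |(Δ : ℝ)| ≤ (X : ℝ) ^ ((a : ℝ) + δ)) :
    (Δ.natAbs.primeFactors.filter (fun p : ℕ => (X : ℝ) ^ (1 - δ) < (p : ℝ))).card ≤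
      2 * a + 2 := by
  classical
  set T := Δ.natAbs.primeFactors.filter (fun p : ℕ => (X : ℝ) ^ (1 - δ) < (p : ℝ)) with hT
  have hX1 : (1 : ℝ) < X := by exact_mod_cast (by omega : 1 < X)
  have hX0 : (0 : ℝ) ≤ X := by linarith
  have h1 : ∏ p ∈ T, p ∣ Δ.natAbs :=
    (Finset.prod_dvd_prod_of_subset _ _ _ (Finset.filter_subset _ _)).trans
      (Nat.prod_primeFactors_dvd _)
  have h2 : ((∏ p ∈ T, p : ℕ) : ℝ) ≤ (X : ℝ) ^ ((a : ℝ) + δ) := by
    refine le_trans ?_ hΔX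
    have h3 : ∏ p ∈ T, p ≤ Δ.natAbs := Nat.le_of_dvd (Int.natAbs_pos.mpr hΔ) h1
    have h4 : ((Δ.natAbs : ℕ) : ℝ) = |(Δ : ℝ)| := by
      rw [Nat.cast_natAbs]
      push_cast
      rfl
    rw [← h4]
    exact_mod_cast h3
  have h3 : ((X : ℝ) ^ (1 - δ)) ^ T.card ≤ ((∏ p ∈ T, p : ℕ) : ℝ) := by
    rw [Nat.cast_prod, ← Finset.prod_const]
    refine Finset.prod_le_prod (fun p _ => by positivity) fun p hp => ?_
    exact (Finset.mem_filter.mp hp).2.le
  have h4 := h3.trans h2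
  rw [← Real.rpow_natCast, ← Real.rpow_mul hX0] at h4
  have h5 := (Real.rpow_le_rpow_left_iff hX1).mp h4
  have h6 : (T.card : ℝ) ≤ 2 * a + 2 := by
    have h7 : (0 : ℝ) ≤ T.card := Nat.cast_nonneg _
    nlinarith
  exact_mod_cast h6

section

variable (k : Type) [Field k] [NumberField k]

/-- the count at one level -/
theorem ml22_count {n : ℕ} {G : Subgroup (Equiv.Perm (Fin n))} {a X : ℕ} {δ : ℝ} (hX : 2 ≤ X)
    (hδ1 : δ ≤ 1 / 2) {S : Finset (ℕ × ℕ)}
    (hS : ∀ p ∈ S, p.1.Prime ∧ p.2.Prime ∧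
      (X : ℝ) ^ (1 - δ) < (p.1 : ℝ) ∧ (X : ℝ) ^ (1 - δ) < (p.2 : ℝ) ∧
      ∃ (K : IntermediateField k (AlgebraicClosure k)) (_ : NumberField K),
        Module.finrank k K = n ∧ HasGroup k n G K ∧
        |(NumberField.discr K : ℝ)| ≤ (X : ℝ) ^ ((a : ℝ) + δ) ∧
        (p.1 : ℤ) ∣ NumberField.discr K ∧ (p.2 : ℤ) ∣ NumberField.discr K)
    {B : ℝ} (hB : (X : ℝ) ^ ((a : ℝ) + δ) ≤ B) :
    S.card ≤ (2 * a + 2) ^ 2 * malleCount k n G B := by
  classical
  have h0 : ∀ p ∈ S, ∃ (K : IntermediateField k (AlgebraicClosure k)) (_ : NumberField K),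
        Module.finrank k K = n ∧ HasGroup k n G K ∧
        |(NumberField.discr K : ℝ)| ≤ (X : ℝ) ^ ((a : ℝ) + δ) ∧
        (p.1 : ℤ) ∣ NumberField.discr K ∧ (p.2 : ℤ) ∣ NumberField.discr K :=
    fun p hp => (hS p hp).2.2.2.2
  choose! K hK h1 h2 h3 h4 h5 using h0
  have hk1 : (1 : ℝ) ≤ ((|NumberField.discr k| : ℤ) : ℝ) ^ n := by
    refine one_le_pow₀ ?_
    exact_mod_cast Int.one_le_abs (NumberField.discr_ne_zero k)
  have hX' : ∀ z ∈ S, Module.finrank k (K z) = n ∧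
      (∃ e : (K z →ₐ[k] AlgebraicClosure k) ≃ Fin n, ∀ π : Equiv.Perm (Fin n),
        π ∈ G ↔ ∃ σ : AlgebraicClosure k ≃ₐ[k] AlgebraicClosure k,
          ∀ φ : K z →ₐ[k] AlgebraicClosure k, e (σ.toAlgHom.comp φ) = π (e φ)) ∧
      ∃ h : NumberField (K z),
        ((|@NumberField.discr (K z) _ h| : ℤ) : ℝ) ≤
          B * ((|NumberField.discr k| : ℤ) : ℝ) ^ n := by
    intro z hz
    refine ⟨h1 z hz, h2 z hz, hK z hz, ?_⟩
    have h6 := (h3 z hz).trans hB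
    have h7 : 0 ≤ B := (abs_nonneg _).trans h6
    have h8 := mul_le_mul_of_nonneg_left hk1 h7
    push_cast at h8 ⊢
    linarith
  let F : {z // z ∈ S} → an35_X k n G B := fun z => ⟨K z.1, hX' z.1 z.2⟩
  have hfin := an35_finite k n G B
  have hr : Equivalence (fun L L' : an35_X k n G B => Nonempty (L.1 ≃ₐ[k] L'.1)) :=
    ⟨fun L => ⟨AlgEquiv.refl⟩, fun ⟨e⟩ => ⟨e.symm⟩, fun ⟨e⟩ ⟨f⟩ => ⟨e.trans f⟩⟩
  have key := an35_fibres (fun L L' : an35_X k n G B => Nonempty (L.1 ≃ₐ[k] L'.1)) hr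
    S.attach F ((2 * a + 2) ^ 2) ?_
  · rw [Finset.card_attach] at key
    exact key
  · intro z₀ _ S' _ hS'
    have hK₀ := hK z₀.1 z₀.2
    set Δ : ℤ := NumberField.discr (K z₀.1) with hΔ
    have hΔ0 : Δ ≠ 0 := NumberField.discr_ne_zero _
    set T := Δ.natAbs.primeFactors.filter (fun p : ℕ => (X : ℝ) ^ (1 - δ) < (p : ℝ)) with hT
    have hTc : T.card ≤ 2 * a + 2 := ml22_few hX hδ1 hΔ0 (h3 z₀.1 z₀.2)
    have h6 : S'.card ≤ (T ×ˢ T).card := by
      refine Finset.card_le_card_of_injOn (fun z => z.1) ?_ (Subtype.val_injective.injOn)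
      intro z hz
      obtain ⟨e⟩ := hS' z hz
      have hKz := hK z.1 z.2
      have h7 : NumberField.discr (K z.1) = NumberField.discr (K z₀.1) :=
        NumberField.discr_eq_discr_of_ringEquiv (K z.1) (L := K z₀.1) (e : (F z).1 ≃+* (F z₀).1)
      have h8 := hS z.1 z.2
      have h9 : ∀ q : ℕ, q.Prime → (X : ℝ) ^ (1 - δ) < (q : ℝ) →
          (q : ℤ) ∣ NumberField.discr (K z.1) → q ∈ T := by
        intro q hq hqX hqd
        rw [hT, Finset.mem_filter, Nat.mem_primeFactors]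
        refine ⟨⟨hq, ?_, Int.natAbs_ne_zero.mpr hΔ0⟩, hqX⟩
        rw [h7] at hqd
        exact Int.natCast_dvd.mp hqd
      have h10 : z.1 ∈ T ×ˢ T := by
        rw [Finset.mem_product]
        exact ⟨h9 _ h8.1 h8.2.2.1 (h4 z.1 z.2), h9 _ h8.2.1 h8.2.2.2.1 (h5 z.1 z.2)⟩
      exact h10
    refine h6.trans ?_
    rw [Finset.card_product, pow_two]
    exact Nat.mul_le_mul hTc hTc

theorem count_of_keyCount {n : ℕ} (hn : 0 < n) (G : Subgroup (Equiv.Perm (Fin n))) (A w : ℕ)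
    (hw : 0 < w) (h : KeyCount k n G A w) (ε : ℝ) (hε : 0 < ε) :
    ∀ᶠ B : ℝ in atTop, B ^ (1 / (A : ℝ) - ε) ≤ (malleCount k n G B : ℝ) := by
  classical
  rcases Nat.eq_zero_or_pos A with hA | hA
  · -- `A = 0` is impossible
    exfalso
    have h1 := (h (1 / 4) (by norm_num)).and (eventually_ge_atTop 2)
    obtain ⟨X, ⟨S, hS1, hS2⟩, hX⟩ := h1.exists
    have hX1 : (1 : ℝ) < X := by exact_mod_cast (by omega : 1 < X)
    have hS0 : (0 : ℝ) < (S.card : ℝ) :=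
      lt_of_lt_of_le (Real.rpow_pos_of_pos (by linarith) _) hS1
    have hS3 : 0 < S.card := by exact_mod_cast hS0
    obtain ⟨p, hp⟩ := Finset.card_pos.mp hS3
    obtain ⟨hp1, -, hp3, -, K, hK, -, -, hK3, hK4, -⟩ := hS2 p hp
    have h2 : ((p.1 : ℕ) : ℤ) ≤ |NumberField.discr K| :=
      Int.le_of_dvd (abs_pos.mpr (NumberField.discr_ne_zero K)) ((dvd_abs _ _).mpr hK4)
    have h3 : ((p.1 : ℕ) : ℝ) ≤ |(NumberField.discr K : ℝ)| := by exact_mod_cast h2
    have h4 : (X : ℝ) ^ (1 - 1 / 4 : ℝ) < (X : ℝ) ^ ((w : ℝ) * (A : ℝ) + 1 / 4) :=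
      lt_of_lt_of_le hp3 (h3.trans hK3)
    have h5 := (Real.rpow_lt_rpow_left_iff hX1).mp h4
    rw [hA] at h5
    norm_num at h5
  · -- the parameter
    set δ : ℝ := min (ε / 4) (1 / 2) with hδ
    have hδ0 : 0 < δ := lt_min (by linarith) (by norm_num)
    have hδ1 : δ ≤ 1 / 2 := min_le_right _ _
    have hδ2 : δ ≤ ε / 4 := min_le_left _ _
    have hA1 : (1 : ℝ) ≤ A := by exact_mod_cast hA
    have hw1 : (1 : ℝ) ≤ w := by exact_mod_cast hw
    have hwA : (1 : ℝ) ≤ (w : ℝ) * A := by nlinarith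
    set E : ℝ := (w : ℝ) * A + δ with hE
    have hE0 : 0 < E := by linarith
    set c : ℝ := 2 ^ w * (2 * ((w : ℝ) * A) + 2) ^ 2 with hc
    have hc0 : 0 < c := by positivity
    have hy : Tendsto (fun B : ℝ => B ^ (1 / E)) atTop atTop := tendsto_rpow_atTop (by positivity)
    have hX : Tendsto (fun B : ℝ => ⌊B ^ (1 / E)⌋₊) atTop atTop :=
      tendsto_nat_floor_atTop.comp hy
    have hc' : Tendsto (fun B : ℝ => B ^ (ε / 2)) atTop atTop := tendsto_rpow_atTop (by positivity)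
    filter_upwards [eventually_ge_atTop 1, hX.eventually (h δ hδ0),
      hX.eventually_ge_atTop 2, hc'.eventually_ge_atTop c] with B hB hBS hBX hBc
    obtain ⟨S, hS1, hS2⟩ := hBS
    have hB0 : 0 < B := by linarith
    set y : ℝ := B ^ (1 / E) with hydef
    have hy0 : 0 ≤ y := by positivity
    set X : ℕ := ⌊y⌋₊ with hXdef
    have hX1 : (X : ℝ) ≤ y := Nat.floor_le hy0
    have hX2 : y < X + 1 := Nat.lt_floor_add_one y
    have hX3 : (2 : ℝ) ≤ X := by exact_mod_cast hBX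
    have hyE : y ^ E = B := by
      rw [hydef, ← Real.rpow_mul hB0.le, one_div_mul_cancel hE0.ne', Real.rpow_one]
    have hXE : (X : ℝ) ^ (((w * A : ℕ) : ℝ) + δ) ≤ B := by
      rw [Nat.cast_mul, ← hE, ← hyE]
      exact Real.rpow_le_rpow (by linarith) hX1 hE0.le
    have hcount := ml22_count k (n := n) (G := G) (a := w * A) (X := X) (δ := δ) hBX hδ1 (S := S)
      (by
        intro p hp
        have := hS2 p hp
        rw [Nat.cast_mul]
        exact this) hXE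
    have hcount' : (S.card : ℝ) ≤ (2 * ((w : ℝ) * A) + 2) ^ 2 * (malleCount k n G B : ℝ) := by
      exact_mod_cast hcount
    have hyX : y / 2 ≤ X := by linarith
    have hlow : y ^ ((w : ℝ) - δ) / 2 ^ w ≤ (S.card : ℝ) := by
      refine le_trans ?_ hS1
      have h1 : (y / 2) ^ ((w : ℝ) - δ) ≤ (X : ℝ) ^ ((w : ℝ) - δ) :=
        Real.rpow_le_rpow (by positivity) hyX (by linarith)
      refine le_trans ?_ h1
      rw [Real.div_rpow hy0 (by norm_num)]
      refine div_le_div_of_nonneg_left (by positivity) (by positivity) ?_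
      rw [← Real.rpow_natCast]
      exact Real.rpow_le_rpow_of_exponent_le (by norm_num) (by linarith)
    have hexp : 1 / (A : ℝ) - ε / 2 ≤ (1 / E) * ((w : ℝ) - δ) := by
      have h1 : 1 / (A : ℝ) - 2 * δ ≤ (1 / E) * ((w : ℝ) - δ) := by
        rw [one_div_mul_eq_div, le_div_iff₀ hE0, sub_mul, hE]
        have h2 : 1 / (A : ℝ) * ((w : ℝ) * A + δ) = w + δ / A := by
          field_simp
        rw [h2]
        have h3 : δ / A ≤ δ := div_le_self hδ0.le hA1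
        nlinarith
      linarith
    have hB2 : B ^ (1 / (A : ℝ) - ε / 2) ≤ y ^ ((w : ℝ) - δ) := by
      rw [hydef, ← Real.rpow_mul hB0.le]
      exact Real.rpow_le_rpow_of_exponent_le hB hexp
    have hB3 : B ^ (1 / (A : ℝ) - ε) * B ^ (ε / 2) = B ^ (1 / (A : ℝ) - ε / 2) := by
      rw [← Real.rpow_add hB0]
      congr 1
      ring
    have h8 : B ^ (1 / (A : ℝ) - ε) * c ≤ c * (malleCount k n G B : ℝ) := by
      calc B ^ (1 / (A : ℝ) - ε) * c ≤ B ^ (1 / (A : ℝ) - ε) * B ^ (ε / 2) :=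
            mul_le_mul_of_nonneg_left hBc (by positivity)
        _ ≤ y ^ ((w : ℝ) - δ) := by rw [hB3]; exact hB2
        _ = 2 ^ w * (y ^ ((w : ℝ) - δ) / 2 ^ w) := by field_simp
        _ ≤ 2 ^ w * ((2 * ((w : ℝ) * A) + 2) ^ 2 * (malleCount k n G B : ℝ)) :=
            mul_le_mul_of_nonneg_left (hlow.trans hcount') (by positivity)
        _ = c * (malleCount k n G B : ℝ) := by rw [hc]; ring
    rw [mul_comm] at h8
    exact le_of_mul_le_mul_left h8 hc0

end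

end Pool.Agent.H20.ML
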