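import Pool.Agent.H20.ML.Key
import Pool.Agent.H20.ML.CountML
import Pool.Agent.H20.ML.Closed

/-!
# Project ML (MP_a3214d): the main theorem

For every extension `L` of `k(t)`, `k` a number field, with the permutation group `G`, not
generated by constants, the number of extensions of `k` with the group `G` and discriminant at most
`B` is at least `B^(1/A - ε)`, where `A` is the defect in the dimensions of the spaces of elements
of bounded weight (`A = n + g - 1` for an extension of genus `g` without new constants).
-/

set_option autoImplicit false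

open Polynomial IsDedekindDomain NumberField Filter

namespace Pool.Agent.H20.ML

open Pool.Agent.H35.AN

/-- the theorem for a basis with weights, under the hypothesis on the ramification -/
theorem main (k : Type) [Field k] [NumberField k] (n : ℕ) (G : Subgroup (Equiv.Perm (Fin n)))
    (L : IntermediateField (RatFunc k) (AlgebraicClosure (RatFunc k)))
    (hn : Module.finrank (RatFunc k) L = n) [FiniteDimensional (RatFunc k) L]
    (hG : HasGroup (RatFunc k) n G L) (hram : RamHyp k L)
    (ω : Fin n → L) (hω : LinearIndependent (RatFunc k) ω) (a : Fin n → ℕ)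
    (ha : ∀ i, Weight k L (a i) (ω i)) (ε : ℝ) (hε : 0 < ε) :
    ∀ᶠ B : ℝ in atTop, B ^ (1 / ((∑ i, a i : ℕ) : ℝ) - ε) ≤ (malleCount k n G B : ℝ) := by
  have hn0 : 0 < n := by
    rw [← hn]
    exact Module.finrank_pos
  rcases key k n G L hn hG hram ω hω a ha with h | h
  · exact count_of_keyCount k hn0 G _ 1 one_pos h ε hε
  · exact count_of_keyCount k hn0 G _ 2 two_pos h ε hε

/-- the theorem with the intrinsic exponent -/
theorem main_intrinsic (k : Type) [Field k] [NumberField k] (n : ℕ)
    (G : Subgroup (Equiv.Perm (Fin n)))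
    (L : IntermediateField (RatFunc k) (AlgebraicClosure (RatFunc k)))
    (hn : Module.finrank (RatFunc k) L = n) [FiniteDimensional (RatFunc k) L]
    (hG : HasGroup (RatFunc k) n G L)
    (hL : IntermediateField.adjoin (RatFunc k) {x : L | IsAlgebraic k x} ≠ ⊤) :
    ∃ A : ℕ, 0 < A ∧
      (∀ᶠ m : ℕ in atTop, Module.finrank k (Submodule.span k {y : L | Weight k L m y}) + A =
        n * (m + 1)) ∧
      ∀ ε : ℝ, 0 < ε → ∀ᶠ B : ℝ in atTop, B ^ (1 / (A : ℝ) - ε) ≤ (malleCount k n G B : ℝ) :=
  main3 k n G (fun L hn _ hG hram ω hω a ha ε hε => main k n G L hn hG hram ω hω a ha ε hε)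
    L hn hG hL

end Pool.Agent.H20.ML
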