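import Pool.Agent.H20.ML.Roots

/-!
# Project ML, row ML-20: the exceptional values are avoided
-/

set_option autoImplicit false

open Polynomial IsDedekindDomain NumberField Filter

namespace Pool.Agent.H20.ML

open Pool.Agent.H35.AN

/-- the valuation vanishes at large primes -/
theorem ml20_ord {K : Type} [Field K] [NumberField K] (x : K) :
    ∃ N : ℕ, ∀ (P : HeightOneSpectrum (𝓞 K)) (p : ℕ), p.Prime → N < p →
      ((p : ℕ) : 𝓞 K) ∈ P.asIdeal → ord P x = 0 := by
  rcases eq_or_ne x 0 with rfl | hx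
  · exact ⟨0, fun P p _ _ _ => ord_zero P⟩
  · obtain ⟨N1, h1⟩ := ml14_int x
    obtain ⟨N2, h2⟩ := ml14_int x⁻¹
    refine ⟨N1 + N2, fun P p hp hN hP => ?_⟩
    have h3 := (ge_iff P hx).1 (h1 P p hp (by omega) hP)
    have h4 := (ge_iff P (inv_ne_zero hx)).1 (h2 P p hp (by omega) hP)
    rw [ord_inv] at h4
    omega

section

variable (k : Type) [Field k] [NumberField k]

theorem avoid (f : k[X]) (hf : Irreducible f) (D : k[X]) (hD : D ≠ 0) : ∃ Y : ℕ,
    ∀ (t : k) (𝔭 : HeightOneSpectrum (𝓞 k)) (r : ℕ), r.Prime → Y < r → (r : 𝓞 k) ∈ 𝔭.asIdeal →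
      ord 𝔭 (f.eval t) = 1 → D.eval t ≠ 0 := by
  classical
  choose N hN using fun z : k => ml20_ord (f.eval z)
  refine ⟨∑ z ∈ D.roots.toFinset, N z, fun t 𝔭 r hr hY hP h1 h0 => ?_⟩
  have ht : t ∈ D.roots.toFinset := by
    rw [Multiset.mem_toFinset, mem_roots hD]
    exact h0
  have h2 := Finset.single_le_sum (f := N) (fun j _ => Nat.zero_le _) ht
  have h3 := hN t 𝔭 r hr (by omega) hP
  omega

end

end Pool.Agent.H20.ML
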