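import Pool.Agent.H20.ML.Defs
import Pool.Agent.H35.AN.Val

/-!
# Project ML, row 16: few primes with a short vector
-/

set_option autoImplicit false

open Polynomial IsDedekindDomain NumberField

namespace Pool.Agent.H20.ML

open Pool.Agent.H35.AN

/-- few primes larger than `√X` divide an integer of polynomial size -/
private theorem ml16_primes (n X A D : ℕ) (hn : n ≠ 0) (hle : n ≤ A * X ^ D) (hX : 2 ≤ X)
    (s : Finset ℕ) (hs : ∀ p ∈ s, p.Prime ∧ X < p ^ 2 ∧ p ∣ n) : s.card ≤ 2 * D + A ^ 2 := by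
  by_contra hcon
  push Not at hcon
  have h1 : ∏ p ∈ s, p ∣ n :=
    Finset.prod_primes_dvd n (fun p hp => (hs p hp).1.prime) (fun p hp => (hs p hp).2.2)
  have h2 : ∏ p ∈ s, p ≤ n := Nat.le_of_dvd (Nat.pos_of_ne_zero hn) h1
  have h3 : X ^ s.card ≤ (∏ p ∈ s, p) ^ 2 := by
    rw [← Finset.prod_pow, ← Finset.prod_const]
    exact Finset.prod_le_prod' (fun p hp => (hs p hp).2.1.le)
  have h4 : X ^ s.card ≤ A ^ 2 * X ^ (2 * D) := by
    calc X ^ s.card ≤ (∏ p ∈ s, p) ^ 2 := h3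
      _ ≤ n ^ 2 := Nat.pow_le_pow_left h2 2
      _ ≤ (A * X ^ D) ^ 2 := Nat.pow_le_pow_left hle 2
      _ = A ^ 2 * X ^ (2 * D) := by ring
  have h5 : X ^ (2 * D + A ^ 2) ≤ X ^ s.card := Nat.pow_le_pow_right (by omega) hcon.le
  have h6 : A ^ 2 < 2 ^ (A ^ 2) := Nat.lt_two_pow_self
  have h7 : 2 ^ (A ^ 2) ≤ X ^ (A ^ 2) := Nat.pow_le_pow_left hX _
  have h8 : 0 < X ^ (2 * D) := Nat.pow_pos (by omega)
  have h9 : A ^ 2 * X ^ (2 * D) < X ^ (2 * D + A ^ 2) := by
    calc A ^ 2 * X ^ (2 * D) < 2 ^ (A ^ 2) * X ^ (2 * D) := Nat.mul_lt_mul_of_pos_right h6 h8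
      _ ≤ X ^ (A ^ 2) * X ^ (2 * D) := Nat.mul_le_mul_right _ h7
      _ = X ^ (2 * D + A ^ 2) := by ring
  omega

section

variable (k : Type) [Field k] [NumberField k]

variable {k} in
private theorem ml16_csum {ι : Type*} (s : Finset ι) (g : ι → 𝓞 k) :
    ((∑ i ∈ s, g i : 𝓞 k) : k) = ∑ i ∈ s, (g i : k) := map_sum (algebraMap (𝓞 k) k) _ _

variable {k} in
private theorem ml16_cmul (x y : 𝓞 k) : ((x * y : 𝓞 k) : k) = (x : k) * (y : k) :=
  map_mul (algebraMap (𝓞 k) k) _ _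

variable {k} in
private theorem ml16_cpow (x : 𝓞 k) (n : ℕ) : ((x ^ n : 𝓞 k) : k) = (x : k) ^ n :=
  map_pow (algebraMap (𝓞 k) k) _ _

variable {k} in
private theorem ml16_cint (n : ℤ) : ((n : 𝓞 k) : k) = (n : k) :=
  map_intCast (algebraMap (𝓞 k) k) _

variable {k} in
private theorem ml16_norm_le {B : ℝ} {a : 𝓞 k} (ha : ∀ φ : k →+* ℂ, ‖φ (a : k)‖ ≤ B) :
    ((Algebra.norm ℤ a).natAbs : ℝ) ≤ B ^ Module.finrank ℚ k := by
  have h1 : ((Algebra.norm ℤ a).natAbs : ℝ) = ‖(((Algebra.norm ℤ a : ℤ) : ℚ) : ℂ)‖ := by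
    rw [Nat.cast_natAbs]
    simp
  rw [h1]
  have h2 : (((Algebra.norm ℤ a : ℤ) : ℚ) : ℂ) = ∏ φ : k →+* ℂ, φ (a : k) := by
    have h3 : ((Algebra.norm ℤ a : ℤ) : ℚ) = Algebra.norm ℚ (a : k) := by
      exact Algebra.coe_norm_int a
    rw [h3]
    have h4 := Algebra.norm_eq_prod_embeddings ℚ ℂ (a : k)
    have h5 : ((Algebra.norm ℚ (a : k) : ℚ) : ℂ) = algebraMap ℚ ℂ (Algebra.norm ℚ (a : k)) := rfl
    rw [h5, h4]
    exact Fintype.prod_equiv (RingHom.equivRatAlgHom (R := k) (S := ℂ)).symm _ _ (fun φ => rfl)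
  rw [h2, norm_prod]
  calc ∏ φ : k →+* ℂ, ‖φ (a : k)‖ ≤ ∏ _φ : k →+* ℂ, B :=
        Finset.prod_le_prod (fun φ _ => norm_nonneg _) (fun φ _ => ha φ)
    _ = B ^ Module.finrank ℚ k := by
        rw [Finset.prod_const, Finset.card_univ, NumberField.Embeddings.card]

private theorem ml16_short : ∃ C : ℝ, 1 ≤ C ∧ ∀ (H : ℕ) (u : 𝓞 k), Short H u →
    ∀ φ : k →+* ℂ, ‖φ (u : k)‖ ≤ C * H := by
  classical
  set b := RingOfIntegers.basis k with hb
  refine ⟨1 + ∑ φ : k →+* ℂ, ∑ i, ‖φ ((b i : 𝓞 k) : k)‖, ?_, ?_⟩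
  · have : 0 ≤ ∑ φ : k →+* ℂ, ∑ i, ‖φ ((b i : 𝓞 k) : k)‖ :=
      Finset.sum_nonneg (fun φ _ => Finset.sum_nonneg (fun i _ => norm_nonneg _))
    linarith
  · intro H u hu φ
    have hH : (0 : ℝ) ≤ H := Nat.cast_nonneg _
    have h1 : φ (u : k) = ∑ i, ((b.repr u i : ℤ) : ℂ) * φ ((b i : 𝓞 k) : k) := by
      have h2 : (u : k) = ∑ i, ((b.repr u i : ℤ) : k) * ((b i : 𝓞 k) : k) := by
        conv_lhs => rw [← b.sum_repr u]
        rw [ml16_csum]
        refine Finset.sum_congr rfl (fun i _ => ?_)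
        rw [zsmul_eq_mul, ml16_cmul, ml16_cint]
      rw [h2, map_sum]
      refine Finset.sum_congr rfl (fun i _ => ?_)
      rw [map_mul, map_intCast]
    rw [h1]
    calc ‖∑ i, ((b.repr u i : ℤ) : ℂ) * φ ((b i : 𝓞 k) : k)‖
        ≤ ∑ i, ‖((b.repr u i : ℤ) : ℂ) * φ ((b i : 𝓞 k) : k)‖ := norm_sum_le _ _
      _ ≤ ∑ i, (H : ℝ) * ‖φ ((b i : 𝓞 k) : k)‖ := by
          refine Finset.sum_le_sum (fun i _ => ?_)
          rw [norm_mul]
          refine mul_le_mul_of_nonneg_right ?_ (norm_nonneg _)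
          rw [Complex.norm_intCast, ← Int.cast_abs]
          have := hu i
          exact_mod_cast this.le
      _ = (∑ i, ‖φ ((b i : 𝓞 k) : k)‖) * H := by
          rw [← Finset.mul_sum]; ring
      _ ≤ (1 + ∑ φ : k →+* ℂ, ∑ i, ‖φ ((b i : 𝓞 k) : k)‖) * H := by
          refine mul_le_mul_of_nonneg_right ?_ hH
          have : ∑ i, ‖φ ((b i : 𝓞 k) : k)‖ ≤ ∑ φ : k →+* ℂ, ∑ i, ‖φ ((b i : 𝓞 k) : k)‖ :=
            Finset.single_le_sum (f := fun φ : k →+* ℂ => ∑ i, ‖φ ((b i : 𝓞 k) : k)‖)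
              (fun φ _ => Finset.sum_nonneg (fun i _ => norm_nonneg _)) (Finset.mem_univ φ)
          linarith

open scoped Classical in
/-- the coordinate vectors of the short elements -/
private noncomputable def ml16_box (H : ℕ) : Finset (Idx k → ℤ) :=
  Fintype.piFinset (fun _ => Finset.Ioo (-(H : ℤ)) H)

private theorem ml16_box_card (H : ℕ) : (ml16_box k H).card ≤ (2 * H) ^ Module.finrank ℚ k := by
  classical
  unfold ml16_box
  rw [Fintype.card_piFinset]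
  simp only [Int.card_Ioo, Finset.prod_const, Finset.card_univ]
  have h1 : Fintype.card (Idx k) = Module.finrank ℚ k := by
    rw [← RingOfIntegers.rank k, ← Module.finrank_eq_card_chooseBasisIndex]
  rw [h1]
  apply Nat.pow_le_pow_left
  omega

variable {k} in
private theorem ml16_mem_box {H : ℕ} {u : 𝓞 k} (hu : Short H u) :
    (fun i => (RingOfIntegers.basis k).repr u i) ∈ ml16_box k H := by
  classical
  unfold ml16_box
  rw [Fintype.mem_piFinset]
  intro i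
  rw [Finset.mem_Ioo]
  exact abs_lt.mp (hu i)

/-- the element with given coordinates -/
private noncomputable def ml16_elt (y : Idx k → ℤ) : 𝓞 k := ∑ i, y i • RingOfIntegers.basis k i

variable {k} in
private theorem ml16_elt_repr (u : 𝓞 k) :
    ml16_elt k (fun i => (RingOfIntegers.basis k).repr u i) = u :=
  (RingOfIntegers.basis k).sum_repr u

/-- the homogenised polynomial with integral coefficients -/
private noncomputable def ml16_F {k : Type} [Field k] [NumberField k] (d : ℕ) (a : ℕ → 𝓞 k)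
    (u v : 𝓞 k) : 𝓞 k := ∑ i ∈ Finset.range (d + 1), a i * u ^ i * v ^ (d - i)

variable {k} in
private theorem ml16_coeffs (f : k[X]) : ∃ (c : 𝓞 k) (a : ℕ → 𝓞 k), c ≠ 0 ∧
    ∀ i, i < f.natDegree + 1 → ((a i : 𝓞 k) : k) = (c : k) * f.coeff i := by
  classical
  obtain ⟨c, hc⟩ := IsLocalization.exist_integer_multiples (nonZeroDivisors (𝓞 k))
    (Finset.range (f.natDegree + 1)) (fun i => f.coeff i)
  have h1 : ∀ i, ∃ a : 𝓞 k, i < f.natDegree + 1 → ((a : 𝓞 k) : k) = ((c : 𝓞 k) : k) * f.coeff i := by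
    intro i
    by_cases hi : i < f.natDegree + 1
    · obtain ⟨a, ha⟩ := hc i (Finset.mem_range.mpr hi)
      refine ⟨a, fun _ => ?_⟩
      have h2 : algebraMap (𝓞 k) k a = (c : 𝓞 k) • f.coeff i := ha
      rw [Algebra.smul_def] at h2
      exact h2
    · exact ⟨0, fun h => absurd h hi⟩
  choose a ha using h1
  exact ⟨c, a, nonZeroDivisors.coe_ne_zero c, ha⟩

variable {k} in
private theorem ml16_F_ne (f : k[X]) (hf : Irreducible f) (hd : 2 ≤ f.natDegree) (c : 𝓞 k)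
    (a : ℕ → 𝓞 k) (hc : c ≠ 0)
    (ha : ∀ i, i < f.natDegree + 1 → ((a i : 𝓞 k) : k) = (c : k) * f.coeff i) (u v : 𝓞 k)
    (huv : u ≠ 0 ∨ v ≠ 0) : ml16_F f.natDegree a u v ≠ 0 := by
  intro h0
  have hck : (c : k) ≠ 0 := fun h => hc (RingOfIntegers.coe_eq_zero_iff.mp h)
  have h1 : ((ml16_F f.natDegree a u v : 𝓞 k) : k) = 0 := by rw [h0]; exact map_zero _
  have h2 : ((ml16_F f.natDegree a u v : 𝓞 k) : k) =
      ∑ i ∈ Finset.range (f.natDegree + 1),
        (c : k) * f.coeff i * (u : k) ^ i * (v : k) ^ (f.natDegree - i) := by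
    unfold ml16_F
    rw [ml16_csum]
    refine Finset.sum_congr rfl (fun i hi => ?_)
    rw [ml16_cmul, ml16_cmul, ml16_cpow, ml16_cpow, ha i (Finset.mem_range.mp hi)]
  by_cases hv : v = 0
  · have hu : u ≠ 0 := by
      rcases huv with h | h
      · exact h
      · exact absurd hv h
    have huk : (u : k) ≠ 0 := fun h => hu (RingOfIntegers.coe_eq_zero_iff.mp h)
    have hvk : (v : k) = 0 := by rw [hv]; exact map_zero _
    rw [h2, Finset.sum_range_succ] at h1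
    rw [Finset.sum_eq_zero] at h1
    · rw [Nat.sub_self, pow_zero, mul_one, zero_add] at h1
      have h3 : f.coeff f.natDegree ≠ 0 := by
        rw [coeff_natDegree, Ne, leadingCoeff_eq_zero]
        exact hf.ne_zero
      exact (mul_ne_zero (mul_ne_zero hck h3) (pow_ne_zero _ huk)) h1
    · intro i hi
      rw [Finset.mem_range] at hi
      rw [hvk, zero_pow (by omega), mul_zero]
  · have hvk : (v : k) ≠ 0 := fun h => hv (RingOfIntegers.coe_eq_zero_iff.mp h)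
    have h3 : ((ml16_F f.natDegree a u v : 𝓞 k) : k) =
        (c : k) * (v : k) ^ f.natDegree * f.eval ((u : k) / (v : k)) := by
      rw [h2, eval_eq_sum_range, Finset.mul_sum]
      refine Finset.sum_congr rfl (fun i hi => ?_)
      rw [Finset.mem_range] at hi
      have h4 : (v : k) ^ f.natDegree = (v : k) ^ i * (v : k) ^ (f.natDegree - i) := by
        rw [← pow_add]; congr 1; omega
      rw [h4, div_pow]
      field_simp
    rw [h3] at h1
    have h5 : f.eval ((u : k) / (v : k)) = 0 := by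
      rcases mul_eq_zero.mp h1 with h | h
      · exact absurd h (mul_ne_zero hck (pow_ne_zero _ hvk))
      · exact h
    have h6 : f.degree = 1 := degree_eq_one_of_irreducible_of_root hf h5
    have h7 : f.natDegree = 1 := natDegree_eq_of_degree_eq_some h6
    omega

variable {k} in
private theorem ml16_F_mem (f : k[X]) (c : 𝓞 k) (a : ℕ → 𝓞 k)
    (ha : ∀ i, i < f.natDegree + 1 → ((a i : 𝓞 k) : k) = (c : k) * f.coeff i) (u v : 𝓞 k)
    (𝔭 : HeightOneSpectrum (𝓞 k)) (r : ℤ) (hr : Ge 𝔭 1 (f.eval (r : k)))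
    (huv : u - r * v ∈ 𝔭.asIdeal) : ml16_F f.natDegree a u v ∈ 𝔭.asIdeal := by
  set g : 𝓞 k := ∑ i ∈ Finset.range (f.natDegree + 1), a i * (r : 𝓞 k) ^ i with hg
  have h1 : (g : k) = (c : k) * f.eval (r : k) := by
    rw [hg, ml16_csum, eval_eq_sum_range, Finset.mul_sum]
    refine Finset.sum_congr rfl (fun i hi => ?_)
    rw [ml16_cmul, ml16_cpow, ha i (Finset.mem_range.mp hi), ml16_cint, mul_assoc]
  have h2 : g ∈ 𝔭.asIdeal := by
    rw [mem_iff_ge_one, h1]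
    have h3 := ge_mul 𝔭 (an1_ge_coe 𝔭 c) hr
    rwa [zero_add] at h3
  have h4 : ml16_F f.natDegree a u v - v ^ f.natDegree * g ∈ 𝔭.asIdeal := by
    have h5 : ml16_F f.natDegree a u v - v ^ f.natDegree * g =
        ∑ i ∈ Finset.range (f.natDegree + 1),
          a i * v ^ (f.natDegree - i) * (u ^ i - ((r : 𝓞 k) * v) ^ i) := by
      unfold ml16_F
      rw [hg, Finset.mul_sum, ← Finset.sum_sub_distrib]
      refine Finset.sum_congr rfl (fun i hi => ?_)
      rw [Finset.mem_range] at hi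
      have h6 : v ^ f.natDegree = v ^ i * v ^ (f.natDegree - i) := by
        rw [← pow_add]; congr 1; omega
      rw [h6, mul_pow]
      ring
    rw [h5]
    refine Ideal.sum_mem _ (fun i _ => Ideal.mul_mem_left _ _ ?_)
    exact Ideal.mem_of_dvd _ (sub_dvd_pow_sub_pow u ((r : 𝓞 k) * v) i) huv
  have h7 := Ideal.add_mem _ h4 (Ideal.mul_mem_left _ (v ^ f.natDegree) h2)
  rwa [sub_add_cancel] at h7

/-- the norm of the value of the homogenised polynomial has polynomial size -/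
private theorem ml16_F_norm (d : ℕ) (a : ℕ → 𝓞 k) : ∃ A : ℕ, ∀ (H : ℕ) (u v : 𝓞 k), Short H u →
    Short H v → (Algebra.norm ℤ (ml16_F d a u v)).natAbs ≤ A * H ^ (d * Module.finrank ℚ k) := by
  classical
  obtain ⟨C, hC1, hC⟩ := ml16_short k
  set A₁ : ℝ := ∑ φ : k →+* ℂ, ∑ i ∈ Finset.range (d + 1), ‖φ ((a i : 𝓞 k) : k)‖ with hA₁
  have hA₁0 : 0 ≤ A₁ := Finset.sum_nonneg (fun φ _ => Finset.sum_nonneg (fun i _ => norm_nonneg _))
  obtain ⟨A, hA⟩ := exists_nat_ge ((A₁ * C ^ d) ^ Module.finrank ℚ k)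
  refine ⟨A, fun H u v hu hv => ?_⟩
  have hH : (0 : ℝ) ≤ H := Nat.cast_nonneg _
  have hCH : 0 ≤ C * H := by positivity
  have h1 : ∀ φ : k →+* ℂ, ‖φ ((ml16_F d a u v : 𝓞 k) : k)‖ ≤ A₁ * C ^ d * (H : ℝ) ^ d := by
    intro φ
    have h2 : φ ((ml16_F d a u v : 𝓞 k) : k) = ∑ i ∈ Finset.range (d + 1),
        φ ((a i : 𝓞 k) : k) * φ (u : k) ^ i * φ (v : k) ^ (d - i) := by
      unfold ml16_F
      rw [ml16_csum, map_sum]
      refine Finset.sum_congr rfl (fun i _ => ?_)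
      rw [ml16_cmul, ml16_cmul, ml16_cpow, ml16_cpow, map_mul, map_mul, map_pow, map_pow]
    rw [h2]
    calc ‖∑ i ∈ Finset.range (d + 1),
          φ ((a i : 𝓞 k) : k) * φ (u : k) ^ i * φ (v : k) ^ (d - i)‖
        ≤ ∑ i ∈ Finset.range (d + 1),
          ‖φ ((a i : 𝓞 k) : k) * φ (u : k) ^ i * φ (v : k) ^ (d - i)‖ := norm_sum_le _ _
      _ ≤ ∑ i ∈ Finset.range (d + 1), ‖φ ((a i : 𝓞 k) : k)‖ * (C * H) ^ d := by
          refine Finset.sum_le_sum (fun i hi => ?_)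
          rw [Finset.mem_range] at hi
          rw [norm_mul, norm_mul, norm_pow, norm_pow, mul_assoc]
          refine mul_le_mul_of_nonneg_left ?_ (norm_nonneg _)
          calc ‖φ (u : k)‖ ^ i * ‖φ (v : k)‖ ^ (d - i) ≤ (C * H) ^ i * (C * H) ^ (d - i) :=
                mul_le_mul (pow_le_pow_left₀ (norm_nonneg _) (hC H u hu φ) _)
                  (pow_le_pow_left₀ (norm_nonneg _) (hC H v hv φ) _)
                  (pow_nonneg (norm_nonneg _) _) (pow_nonneg hCH _)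
            _ = (C * H) ^ d := by rw [← pow_add]; congr 1; omega
      _ = (∑ i ∈ Finset.range (d + 1), ‖φ ((a i : 𝓞 k) : k)‖) * (C * H) ^ d := by
          rw [Finset.sum_mul]
      _ ≤ A₁ * (C * H) ^ d := by
          refine mul_le_mul_of_nonneg_right ?_ (pow_nonneg hCH _)
          exact Finset.single_le_sum
            (f := fun φ : k →+* ℂ => ∑ i ∈ Finset.range (d + 1), ‖φ ((a i : 𝓞 k) : k)‖)
            (fun φ _ => Finset.sum_nonneg (fun i _ => norm_nonneg _)) (Finset.mem_univ φ)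
      _ = A₁ * C ^ d * (H : ℝ) ^ d := by rw [mul_pow]; ring
  have h3 := ml16_norm_le h1
  have h4 : (A₁ * C ^ d * (H : ℝ) ^ d) ^ Module.finrank ℚ k ≤
      (A : ℝ) * (H : ℝ) ^ (d * Module.finrank ℚ k) := by
    rw [mul_pow, ← pow_mul]
    exact mul_le_mul_of_nonneg_right hA (pow_nonneg hH _)
  have h5 := h3.trans h4
  exact_mod_cast h5

theorem few_bad (f : k[X]) (hf : Irreducible f) (hd : 2 ≤ f.natDegree) :
    ∃ C Y : ℕ, ∀ X H : ℕ, 1 ≤ H → H ≤ X →
      Set.ncard {p : ℕ | p.Prime ∧ Y < p ∧ X < p ^ 2 ∧ p ≤ X ∧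
        ∃ (𝔭 : HeightOneSpectrum (𝓞 k)) (r : ℤ), Ideal.absNorm 𝔭.asIdeal = p ∧
          Ge 𝔭 1 (f.eval (r : k)) ∧ ∃ u v : 𝓞 k, Short H u ∧ Short H v ∧
            (u ≠ 0 ∨ v ≠ 0) ∧ u - r * v ∈ 𝔭.asIdeal} ≤ C * H ^ (2 * Module.finrank ℚ k) := by
  classical
  set d := f.natDegree with hdd
  set m := Module.finrank ℚ k with hm
  obtain ⟨c, a, hc, ha⟩ := ml16_coeffs f
  obtain ⟨A, hA⟩ := ml16_F_norm k d a
  refine ⟨4 ^ m * (2 * (d * m) + A ^ 2), 0, fun X H hH hHX => ?_⟩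
  set N : (Idx k → ℤ) × (Idx k → ℤ) → ℕ := fun y =>
    (Algebra.norm ℤ (ml16_F d a (ml16_elt k y.1) (ml16_elt k y.2))).natAbs with hN
  set T : (Idx k → ℤ) × (Idx k → ℤ) → Finset ℕ := fun y =>
    if N y ≠ 0 ∧ N y ≤ A * X ^ (d * m) then
      (N y).primeFactors.filter (fun p => X < p ^ 2) else ∅ with hT
  by_cases hX : 2 ≤ X
  swap
  · -- no primes
    have h0 : {p : ℕ | p.Prime ∧ 0 < p ∧ X < p ^ 2 ∧ p ≤ X ∧
        ∃ (𝔭 : HeightOneSpectrum (𝓞 k)) (r : ℤ), Ideal.absNorm 𝔭.asIdeal = p ∧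
          Ge 𝔭 1 (f.eval (r : k)) ∧ ∃ u v : 𝓞 k, Short H u ∧ Short H v ∧
            (u ≠ 0 ∨ v ≠ 0) ∧ u - r * v ∈ 𝔭.asIdeal} = ∅ := by
      ext p
      simp only [Set.mem_ofPred_eq, Set.mem_empty_iff_false, iff_false]
      rintro ⟨hp, -, -, hpX, -⟩
      have := hp.two_le
      omega
    rw [h0, Set.ncard_empty]
    exact Nat.zero_le _
  have hsub : {p : ℕ | p.Prime ∧ 0 < p ∧ X < p ^ 2 ∧ p ≤ X ∧
        ∃ (𝔭 : HeightOneSpectrum (𝓞 k)) (r : ℤ), Ideal.absNorm 𝔭.asIdeal = p ∧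
          Ge 𝔭 1 (f.eval (r : k)) ∧ ∃ u v : 𝓞 k, Short H u ∧ Short H v ∧
            (u ≠ 0 ∨ v ≠ 0) ∧ u - r * v ∈ 𝔭.asIdeal} ⊆
      (((ml16_box k H ×ˢ ml16_box k H).biUnion T : Finset ℕ) : Set ℕ) := by
    rintro p ⟨hp, -, hpX, -, 𝔭, r, hN𝔭, hge, u, v, hu, hv, huv, hmem⟩
    rw [Finset.mem_coe, Finset.mem_biUnion]
    refine ⟨(fun i => (RingOfIntegers.basis k).repr u i,
      fun i => (RingOfIntegers.basis k).repr v i), ?_, ?_⟩
    · rw [Finset.mem_product]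
      exact ⟨ml16_mem_box hu, ml16_mem_box hv⟩
    · have hNval : N (fun i => (RingOfIntegers.basis k).repr u i,
          fun i => (RingOfIntegers.basis k).repr v i) =
          (Algebra.norm ℤ (ml16_F d a u v)).natAbs := by
        rw [hN]
        simp only
        rw [ml16_elt_repr, ml16_elt_repr]
      have hne : ml16_F d a u v ≠ 0 := ml16_F_ne f hf hd c a hc ha u v huv
      have hNne : (Algebra.norm ℤ (ml16_F d a u v)).natAbs ≠ 0 := by
        rw [Ne, Int.natAbs_eq_zero, Algebra.norm_eq_zero_iff]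
        exact hne
      have hle : (Algebra.norm ℤ (ml16_F d a u v)).natAbs ≤ A * X ^ (d * m) :=
        (hA H u v hu hv).trans (Nat.mul_le_mul_left _ (Nat.pow_le_pow_left hHX _))
      have hFm : ml16_F d a u v ∈ 𝔭.asIdeal := ml16_F_mem f c a ha u v 𝔭 r hge hmem
      have hdv : p ∣ (Algebra.norm ℤ (ml16_F d a u v)).natAbs := by
        have h1 := Ideal.absNorm_dvd_norm_of_mem hFm
        rw [hN𝔭] at h1
        exact Int.natCast_dvd.mp h1
      rw [hT]
      simp only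
      rw [hNval, if_pos ⟨hNne, hle⟩, Finset.mem_filter, Nat.mem_primeFactors]
      exact ⟨⟨hp, hdv, hNne⟩, hpX⟩
  calc Set.ncard _ ≤ Set.ncard (((ml16_box k H ×ˢ ml16_box k H).biUnion T : Finset ℕ) : Set ℕ) :=
        Set.ncard_le_ncard hsub (Finset.finite_toSet _)
    _ = ((ml16_box k H ×ˢ ml16_box k H).biUnion T).card := Set.ncard_coe_finset _
    _ ≤ (ml16_box k H ×ˢ ml16_box k H).card * (2 * (d * m) + A ^ 2) := by
        refine Finset.card_biUnion_le_card_mul _ _ _ (fun y _ => ?_)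
        rw [hT]
        simp only
        split_ifs with h
        · refine ml16_primes (N y) X A (d * m) h.1 h.2 hX _ (fun p hp => ?_)
          rw [Finset.mem_filter, Nat.mem_primeFactors] at hp
          exact ⟨hp.1.1, hp.2, hp.1.2.1⟩
        · rw [Finset.card_empty]
          exact Nat.zero_le _
    _ ≤ (4 ^ m * H ^ (2 * m)) * (2 * (d * m) + A ^ 2) := by
        refine Nat.mul_le_mul_right _ ?_
        rw [Finset.card_product]
        calc (ml16_box k H).card * (ml16_box k H).card ≤ (2 * H) ^ m * (2 * H) ^ m :=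
              Nat.mul_le_mul (ml16_box_card k H) (ml16_box_card k H)
          _ = 4 ^ m * H ^ (2 * m) := by
              rw [← mul_pow, show 2 * H * (2 * H) = 4 * H ^ 2 by ring, mul_pow, ← pow_mul]
    _ = 4 ^ m * (2 * (d * m) + A ^ 2) * H ^ (2 * m) := by ring

end

end Pool.Agent.H20.ML
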