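import Mathlib
import Pool.Agent.H35.AN.Defs

/-!
# Project ML (MP_a3214d): definitions

Lower bounds for Malle's counting function `N(k, G; B)` for every group `G` that is the Galois
group of an extension `L` of `k(t)`, over every number field `k`.
-/

set_option autoImplicit false

open Polynomial IsDedekindDomain NumberField

namespace Pool.Agent.H20.ML

open Pool.Agent.H35.AN

/-- The Galois group of the Galois closure of `M / K`, acting on the `n` embeddings of `M` in an
algebraic closure of `K`, is the permutation group `G`, as in the frozen statement. -/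
def HasGroup (K : Type*) [Field K] (n : ℕ) (G : Subgroup (Equiv.Perm (Fin n)))
    (M : IntermediateField K (AlgebraicClosure K)) : Prop :=
  ∃ e : (M →ₐ[K] AlgebraicClosure K) ≃ Fin n, ∀ π : Equiv.Perm (Fin n),
    π ∈ G ↔ ∃ σ : AlgebraicClosure K ≃ₐ[K] AlgebraicClosure K,
      ∀ φ : M →ₐ[K] AlgebraicClosure K, e (σ.toAlgHom.comp φ) = π (e φ)

section

variable (k : Type) [Field k]
variable (L : Type) [Field L] [Algebra (RatFunc k) L] [Algebra k[X] L]

/-- The integral closure of `k[t]` in `L`. -/
abbrev RR : Type := integralClosure k[X] L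

variable {k}

/-- The polynomial `f` (meant: irreducible) is ramified in `L`: it is in the square of a nonzero
prime ideal of the integral closure of `k[t]` in `L`. -/
def Ramified (f : k[X]) : Prop :=
  ∃ P : Ideal (RR k L), P.IsPrime ∧ P ≠ ⊥ ∧ algebraMap k[X] (RR k L) f ∈ P ^ 2

/-- A certificate of ramification. -/
def Cert (f : k[X]) : Prop :=
  ∃ (e : ℕ) (π z w v α β : RR k L) (p : k[X]), 2 ≤ e ∧
    algebraMap k[X] (RR k L) f * z = π ^ e * w ∧
    1 = z * w * v + α * π + β * algebraMap k[X] (RR k L) f ∧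
    algebraMap k[X] (RatFunc k) p = Algebra.norm (RatFunc k) (π : L) ∧ f ∣ p

variable (k) in
/-- `x` satisfies an equation `Y^N + c_1 Y^(N-1) + ... + c_N = 0` with `c_j` in `k[t]` of degree
at most `a * j`. -/
def Weight (a : ℕ) (x : L) : Prop :=
  ∃ P : k[X][X], P.Monic ∧ aeval x P = 0 ∧
    ∀ j ≤ P.natDegree, (P.coeff j).natDegree ≤ a * (P.natDegree - j)

/-- `P` is the characteristic polynomial of `θ` over `k[t]`, for a Galois extension. -/
def IsChi (θ : L) (P : k[X][X]) : Prop :=
  P.Monic ∧ P.map (algebraMap k[X] L) = ∏ᶠ σ : L ≃ₐ[RatFunc k] L, (X - C (σ θ))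

variable (k) in
/-- The hypothesis on the ramification of `L`: a place of degree at least two is ramified, or two
rational places are ramified. -/
def RamHyp : Prop :=
  (∃ f : k[X], Irreducible f ∧ 2 ≤ f.natDegree ∧ Ramified L f) ∨
    ∃ c₁ c₂ : k, c₁ ≠ c₂ ∧ Ramified L (X - C c₁) ∧ Ramified L (X - C c₂)

end

section

variable (k : Type) [Field k] [NumberField k]

variable {k} in
/-- The coordinates of `u` with respect to the integral basis are smaller than `H`. -/
def Short (H : ℕ) (u : 𝓞 k) : Prop :=
  ∀ i, |(RingOfIntegers.basis k).repr u i| < (H : ℤ)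

/-- A specialisation at `t` of the Galois extension `N` of `k(t)` with the full Galois group. -/
structure Spc (N : Type) [Field N] [Algebra (RatFunc k) N] [Algebra k[X] N] (t : k) where
  /-- the specialised field -/
  E : Type
  [field : Field E]
  [nf : NumberField E]
  [alg : Algebra k E]
  [gal : IsGalois k E]
  /-- the specialisation map -/
  sp : RR k N →+* E
  sp_alg : ∀ p : k[X], sp (algebraMap k[X] (RR k N) p) = algebraMap k E (p.eval t)
  /-- the isomorphism of the Galois groups -/
  Γ : (N ≃ₐ[RatFunc k] N) ≃* (E ≃ₐ[k] E)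
  equiv : ∀ (σ : N ≃ₐ[RatFunc k] N) (s s' : RR k N), (s' : N) = σ (s : N) →
    sp s' = Γ σ (sp s)

/-- A field `K` of degree `n` over `k` with the group `G`, and a specialisation map at `t` from
the integral closure of `k[t]` in `L` to `K`. -/
structure FieldAt (n : ℕ) (G : Subgroup (Equiv.Perm (Fin n))) (L : Type) [Field L]
    [Algebra (RatFunc k) L] [Algebra k[X] L] (t : k) where
  /-- the specialised field -/
  K : IntermediateField k (AlgebraicClosure k)
  nf : NumberField K
  fin : Module.finrank k K = n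
  gal : HasGroup k n G K
  /-- the specialisation map -/
  sp : RR k L →+* K
  sp_alg : ∀ p : k[X], sp (algebraMap k[X] (RR k L) p) = algebraMap k K (p.eval t)
  norm : ∀ (y : RR k L) (p : k[X]),
    algebraMap k[X] (RatFunc k) p = Algebra.norm (RatFunc k) (y : L) →
      Algebra.norm k (sp y) = p.eval t
  trace : ∀ (y : RR k L) (p : k[X]),
    algebraMap k[X] (RatFunc k) p = Algebra.trace (RatFunc k) L (y : L) →
      Algebra.trace k K (sp y) = p.eval t

/-- The key statement for the count: `X^(w-ε)` fields of discriminant at most `X^(w A + ε)`,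
determined by one (`w = 1`) or two (`w = 2`) primes larger than `X^(1-ε)` that divide the
discriminant. -/
def KeyCount (n : ℕ) (G : Subgroup (Equiv.Perm (Fin n))) (A w : ℕ) : Prop :=
  ∀ ε : ℝ, 0 < ε → ∀ᶠ X : ℕ in Filter.atTop, ∃ S : Finset (ℕ × ℕ),
    (X : ℝ) ^ ((w : ℝ) - ε) ≤ (S.card : ℝ) ∧ ∀ p ∈ S, p.1.Prime ∧ p.2.Prime ∧
      (X : ℝ) ^ (1 - ε) < (p.1 : ℝ) ∧ (X : ℝ) ^ (1 - ε) < (p.2 : ℝ) ∧
      ∃ (K : IntermediateField k (AlgebraicClosure k)) (_ : NumberField K),
        Module.finrank k K = n ∧ HasGroup k n G K ∧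
        |(NumberField.discr K : ℝ)| ≤ (X : ℝ) ^ ((w : ℝ) * A + ε) ∧
        (p.1 : ℤ) ∣ NumberField.discr K ∧ (p.2 : ℤ) ∣ NumberField.discr K

end

end Pool.Agent.H20.ML
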