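import Mathlib
import Pool.Agent.H35.AN.Defs
import Pool.Agent.H20.ML.Defs

/-!
# Project ML, row ML-15: the short vectors cover the residue classes (Cauchy-Davenport)
-/

set_option autoImplicit false

open Polynomial IsDedekindDomain NumberField

open scoped Pointwise

namespace Pool.Agent.H20.ML

open Pool.Agent.H35.AN

/-- Cauchy-Davenport for a box. -/
theorem ml15_box {ι : Type*} [Fintype ι] {p : ℕ} (hp : p.Prime) (g : (ι → ℤ) →+ ZMod p)
    (H j : ℕ) (hj : 0 < j) (hjp : p ≤ j * (H ^ Fintype.card ι - 1) + 1) (hH : 0 < H)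
    (hs : ∀ w : ι → ℤ, (∀ i, |w i| < (H : ℤ)) → g w = 0 → w = 0) (c : ZMod p) :
    ∃ w : ι → ℤ, (∀ i, |w i| < ((j * H : ℕ) : ℤ)) ∧ g w = c := by
  classical
  have : Fact p.Prime := ⟨hp⟩
  -- the box and its image
  let box : Finset (ι → ℤ) := Fintype.piFinset fun _ => Finset.Ico (0 : ℤ) H
  have hbox : box.card = H ^ Fintype.card ι := by
    simp [box, Fintype.card_piFinset]
  let A : Finset (ZMod p) := box.image g
  have hA : A.card = H ^ Fintype.card ι := by
    rw [← hbox]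
    refine Finset.card_image_of_injOn ?_
    intro u hu v hv huv
    have hu' : ∀ i, 0 ≤ u i ∧ u i < H := fun i => by
      have := Fintype.mem_piFinset.mp hu i
      exact Finset.mem_Ico.mp this
    have hv' : ∀ i, 0 ≤ v i ∧ v i < H := fun i => by
      have := Fintype.mem_piFinset.mp hv i
      exact Finset.mem_Ico.mp this
    have h1 : u - v = 0 := hs (u - v) (fun i => by
      rw [Pi.sub_apply, abs_lt]
      constructor <;> linarith [(hu' i).1, (hu' i).2, (hv' i).1, (hv' i).2]) (by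
      rw [map_sub, sub_eq_zero]; exact huv)
    exact sub_eq_zero.mp h1
  have hA1 : 1 ≤ A.card := by
    rw [hA]
    exact Nat.one_le_pow _ _ hH
  have hAne : A.Nonempty := Finset.card_pos.mp (by omega)
  have key : ∀ j : ℕ, ∃ S : Finset (ZMod p), min p (j * (A.card - 1) + 1) ≤ S.card ∧
      ∀ x ∈ S, ∃ w : ι → ℤ, (∀ i, 0 ≤ w i ∧ w i ≤ j * ((H : ℤ) - 1)) ∧ g w = x := by
    intro j
    induction j with
    | zero =>
      refine ⟨{0}, by simp, ?_⟩
      intro x hx
      rw [Finset.mem_singleton] at hx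
      subst hx
      exact ⟨0, fun i => by simp, map_zero g⟩
    | succ j ih =>
      obtain ⟨S, hS1, hS2⟩ := ih
      have hSne : S.Nonempty := Finset.card_pos.mp (lt_of_lt_of_le (by
        have := hp.pos
        simp [this]) hS1)
      refine ⟨S + A, ?_, ?_⟩
      · refine le_trans ?_ (ZMod.cauchy_davenport hp hSne hAne)
        have h1 : (j + 1) * (A.card - 1) = j * (A.card - 1) + (A.card - 1) := by ring
        rw [h1]
        omega
      · intro x hx
        obtain ⟨y, hy, z, hz, rfl⟩ := Finset.mem_add.mp hx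
        obtain ⟨w, hw1, rfl⟩ := hS2 y hy
        obtain ⟨v, hv, rfl⟩ := Finset.mem_image.mp hz
        refine ⟨w + v, fun i => ?_, map_add g w v⟩
        have h2 := Finset.mem_Ico.mp (Fintype.mem_piFinset.mp hv i)
        have h3 := hw1 i
        rw [Pi.add_apply]
        push_cast
        constructor
        · linarith
        · have : v i ≤ (H : ℤ) - 1 := by linarith [h2.2]
          linarith
  obtain ⟨S, hS1, hS2⟩ := key j
  rw [hA, min_eq_left hjp] at hS1
  have hSuniv : S = Finset.univ := by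
    apply Finset.eq_univ_of_card
    apply le_antisymm (Finset.card_le_univ S)
    rw [ZMod.card]
    exact hS1
  obtain ⟨w, hw1, hw2⟩ := hS2 c (by rw [hSuniv]; exact Finset.mem_univ c)
  refine ⟨w, fun i => ?_, hw2⟩
  rw [abs_of_nonneg (hw1 i).1]
  have h4 := (hw1 i).2
  have h5 : (1 : ℤ) ≤ j := by exact_mod_cast hj
  push_cast
  linarith

section

variable (k : Type) [Field k] [NumberField k]

theorem short_norm : ∃ C : ℝ, 1 ≤ C ∧ ∀ (H : ℕ) (u : 𝓞 k), Short H u →
    ∀ φ : k →+* ℂ, ‖φ (u : k)‖ ≤ C * H := by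
  classical
  refine ⟨1 + ∑ φ : k →+* ℂ, ∑ i, ‖φ ((RingOfIntegers.basis k i : 𝓞 k) : k)‖, ?_, ?_⟩
  · have : 0 ≤ ∑ φ : k →+* ℂ, ∑ i, ‖φ ((RingOfIntegers.basis k i : 𝓞 k) : k)‖ :=
      Finset.sum_nonneg fun _ _ => Finset.sum_nonneg fun _ _ => norm_nonneg _
    linarith
  · intro H u hu φ
    have h1 : (u : k) = ∑ i, ((RingOfIntegers.basis k).repr u i : k) *
        ((RingOfIntegers.basis k i : 𝓞 k) : k) := by
      have h0 := congrArg (algebraMap (𝓞 k) k) ((RingOfIntegers.basis k).sum_repr u)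
      refine h0.symm.trans ?_
      rw [map_sum]
      refine Finset.sum_congr rfl fun i _ => ?_
      rw [zsmul_eq_mul, map_mul, map_intCast]
    have h2 : ‖φ (u : k)‖ ≤ ∑ i, (H : ℝ) * ‖φ ((RingOfIntegers.basis k i : 𝓞 k) : k)‖ := by
      rw [h1, map_sum]
      refine (norm_sum_le _ _).trans (Finset.sum_le_sum fun i _ => ?_)
      rw [map_mul, norm_mul, map_intCast, Complex.norm_intCast]
      refine mul_le_mul_of_nonneg_right ?_ (norm_nonneg _)
      have := (hu i).le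
      exact_mod_cast this
    rw [← Finset.mul_sum] at h2
    have h3 : ∑ i, ‖φ ((RingOfIntegers.basis k i : 𝓞 k) : k)‖ ≤
        ∑ φ : k →+* ℂ, ∑ i, ‖φ ((RingOfIntegers.basis k i : 𝓞 k) : k)‖ :=
      Finset.single_le_sum (f := fun φ : k →+* ℂ =>
        ∑ i, ‖φ ((RingOfIntegers.basis k i : 𝓞 k) : k)‖)
        (fun _ _ => Finset.sum_nonneg fun _ _ => norm_nonneg _) (Finset.mem_univ φ)
    have h4 : (0 : ℝ) ≤ H := Nat.cast_nonneg H
    nlinarith [mul_le_mul_of_nonneg_left h3 h4]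

/-- a prime ideal of prime norm is the kernel of a homomorphism to `ZMod p` -/
theorem ml15_hom {p : ℕ} (hp : p.Prime) (𝔭 : HeightOneSpectrum (𝓞 k))
    (h𝔭 : Ideal.absNorm 𝔭.asIdeal = p) :
    ∃ φ : 𝓞 k →+* ZMod p, Function.Surjective φ ∧ ∀ x, φ x = 0 ↔ x ∈ 𝔭.asIdeal := by
  classical
  have hcard : Nat.card (𝓞 k ⧸ 𝔭.asIdeal) = p := h𝔭
  have hfin : Finite (𝓞 k ⧸ 𝔭.asIdeal) := by
    apply Nat.finite_of_card_ne_zero
    rw [hcard]
    exact hp.ne_zero
  have := Fintype.ofFinite (𝓞 k ⧸ 𝔭.asIdeal)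
  rw [Nat.card_eq_fintype_card] at hcard
  let e : ZMod p ≃+* (𝓞 k ⧸ 𝔭.asIdeal) := ZMod.ringEquivOfPrime _ hp hcard
  refine ⟨e.symm.toRingHom.comp (Ideal.Quotient.mk 𝔭.asIdeal), ?_, ?_⟩
  · exact e.symm.surjective.comp Ideal.Quotient.mk_surjective
  · intro x
    have h1 : (e.symm.toRingHom.comp (Ideal.Quotient.mk 𝔭.asIdeal)) x =
        e.symm (Ideal.Quotient.mk 𝔭.asIdeal x) := rfl
    rw [h1, map_eq_zero_iff _ e.symm.injective, Ideal.Quotient.eq_zero_iff_mem]

theorem ml15_card : Fintype.card (Module.Free.ChooseBasisIndex ℤ (𝓞 k)) =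
    Module.finrank ℚ k := by
  rw [← Module.finrank_eq_card_basis (RingOfIntegers.basis k), RingOfIntegers.rank]

theorem cover_two {p : ℕ} (hp : p.Prime) (𝔭 : HeightOneSpectrum (𝓞 k))
    (h𝔭 : Ideal.absNorm 𝔭.asIdeal = p) (r : ℤ) (H j : ℕ) (hj : 0 < j)
    (hjp : p ≤ j * (H ^ (2 * Module.finrank ℚ k) - 1) + 1)
    (hs : ∀ u v : 𝓞 k, Short H u → Short H v → u - r * v ∈ 𝔭.asIdeal → u = 0 ∧ v = 0)
    (c : 𝓞 k) :
    ∃ u v : 𝓞 k, Short (j * H) u ∧ Short (j * H) v ∧ u - r * v - c ∈ 𝔭.asIdeal := by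
  classical
  have hm : 0 < Module.finrank ℚ k := Module.finrank_pos
  have hH : 0 < H := by
    rcases Nat.eq_zero_or_pos H with rfl | h
    · rw [zero_pow (by omega)] at hjp
      have := hp.two_le
      omega
    · exact h
  obtain ⟨φ, -, hφ⟩ := ml15_hom k hp 𝔭 h𝔭
  let B := RingOfIntegers.basis k
  let ι := Module.Free.ChooseBasisIndex ℤ (𝓞 k)
  let U : (ι → ℤ) →+ 𝓞 k := B.equivFun.symm.toLinearMap.toAddMonoidHom
  have hU : ∀ w i, B.repr (U w) i = w i := fun w i => by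
    have : B.equivFun (B.equivFun.symm w) i = w i := by rw [LinearEquiv.apply_symm_apply]
    exact this
  let pl : (ι ⊕ ι → ℤ) →+ (ι → ℤ) :=
    { toFun := fun w i => w (Sum.inl i), map_zero' := rfl, map_add' := fun _ _ => rfl }
  let pr : (ι ⊕ ι → ℤ) →+ (ι → ℤ) :=
    { toFun := fun w i => w (Sum.inr i), map_zero' := rfl, map_add' := fun _ _ => rfl }
  let g : (ι ⊕ ι → ℤ) →+ ZMod p :=
    φ.toAddMonoidHom.comp (U.comp pl) - (AddMonoidHom.mulLeft (r : ZMod p)).comp
      (φ.toAddMonoidHom.comp (U.comp pr))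
  have hg : ∀ w, g w = φ (U (pl w) - r * U (pr w)) := fun w => by
    rw [map_sub, map_mul, map_intCast]
    rfl
  obtain ⟨w, hw1, hw2⟩ := ml15_box hp g H j hj (by
    rw [Fintype.card_sum, ml15_card]
    rwa [← two_mul]) hH (by
    intro w hw hgw
    rw [hg, hφ] at hgw
    obtain ⟨h1, h2⟩ := hs _ _ (fun i => by
      change |B.repr (U (pl w)) i| < _
      rw [hU]; exact hw _) (fun i => by
      change |B.repr (U (pr w)) i| < _
      rw [hU]; exact hw _) hgw
    funext i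
    rcases i with i | i
    · have h3 := hU (pl w) i
      rw [h1, map_zero, Finsupp.zero_apply] at h3
      exact h3.symm
    · have h3 := hU (pr w) i
      rw [h2, map_zero, Finsupp.zero_apply] at h3
      exact h3.symm) (φ c)
  refine ⟨U (pl w), U (pr w), fun i => ?_, fun i => ?_, ?_⟩
  · change |B.repr (U (pl w)) i| < _
    rw [hU]; exact hw1 _
  · change |B.repr (U (pr w)) i| < _
    rw [hU]; exact hw1 _
  · rw [← hφ, map_sub, ← hg, hw2, sub_self]

theorem cover_one {p : ℕ} (hp : p.Prime) (𝔭 : HeightOneSpectrum (𝓞 k))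
    (h𝔭 : Ideal.absNorm 𝔭.asIdeal = p) (H j : ℕ) (hj : 0 < j)
    (hjp : p ≤ j * (H ^ (Module.finrank ℚ k) - 1) + 1)
    (hs : ∀ u : 𝓞 k, Short H u → u ∈ 𝔭.asIdeal → u = 0)
    (c : 𝓞 k) :
    ∃ u : 𝓞 k, Short (j * H) u ∧ u - c ∈ 𝔭.asIdeal := by
  classical
  have hm : 0 < Module.finrank ℚ k := Module.finrank_pos
  have hH : 0 < H := by
    rcases Nat.eq_zero_or_pos H with rfl | h
    · rw [zero_pow (by omega)] at hjp
      have := hp.two_le
      omega
    · exact h
  obtain ⟨φ, -, hφ⟩ := ml15_hom k hp 𝔭 h𝔭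
  let B := RingOfIntegers.basis k
  let ι := Module.Free.ChooseBasisIndex ℤ (𝓞 k)
  let U : (ι → ℤ) →+ 𝓞 k := B.equivFun.symm.toLinearMap.toAddMonoidHom
  have hU : ∀ w i, B.repr (U w) i = w i := fun w i => by
    have : B.equivFun (B.equivFun.symm w) i = w i := by rw [LinearEquiv.apply_symm_apply]
    exact this
  let g : (ι → ℤ) →+ ZMod p := φ.toAddMonoidHom.comp U
  have hg : ∀ w, g w = φ (U w) := fun w => rfl
  obtain ⟨w, hw1, hw2⟩ := ml15_box hp g H j hj (by rwa [ml15_card]) hH (by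
    intro w hw hgw
    rw [hg, hφ] at hgw
    have h1 := hs _ (fun i => by
      change |B.repr (U w) i| < _
      rw [hU]; exact hw _) hgw
    funext i
    have h3 := hU w i
    rw [h1] at h3
    simpa using h3.symm) (φ c)
  refine ⟨U w, fun i => ?_, ?_⟩
  · change |B.repr (U w) i| < _
    rw [hU]; exact hw1 _
  · rw [← hφ, map_sub, ← hg, hw2, sub_self]

end

end Pool.Agent.H20.ML
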