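import Pool.Agent.H20.ML.Defs
import Pool.Agent.H54.Zeta.Main

/-!
# ML-13: primes that are norms, in `(X^(1-ε), X]` (Mertens for ideals)
-/

set_option autoImplicit false

open NumberField Filter Topology

namespace Pool.Agent.H20.ML

open Pool.Agent.H54.Zeta

section

variable (F : Type) [Field F] [NumberField F]

/-- number of ideals of norm `n` -/
noncomputable def ml13_c (n : ℕ) : ℝ := (cnt F n : ℝ)

/-- number of ideals of norm at most `n` -/
noncomputable def ml13_I (n : ℕ) : ℝ := ∑ k ∈ Finset.Icc 1 n, ml13_c F k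

theorem ml13_c_nonneg (n : ℕ) : 0 ≤ ml13_c F n := Nat.cast_nonneg _

theorem ml13_I_nonneg (n : ℕ) : 0 ≤ ml13_I F n :=
  Finset.sum_nonneg fun k _ => ml13_c_nonneg F k

theorem ml13_I_mono {m n : ℕ} (h : m ≤ n) : ml13_I F m ≤ ml13_I F n := by
  unfold ml13_I
  exact Finset.sum_le_sum_of_subset_of_nonneg (Finset.Icc_subset_Icc_right h)
    fun k _ _ => ml13_c_nonneg F k

theorem ml13_I_zero : ml13_I F 0 = 0 := by simp [ml13_I]

/-- the residue -/
noncomputable def ml13_r : ℝ := dedekindZeta_residue F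

theorem ml13_r_pos : 0 < ml13_r F := dedekindZeta_residue_pos F

theorem ml13_lin (η : ℝ) (hη : 0 < η) : ∃ C : ℝ, 0 ≤ C ∧ ∀ n : ℕ,
    ml13_I F n ≤ (ml13_r F + η) * n + C ∧ (ml13_r F - η) * n - C ≤ ml13_I F n := by
  have h := tendsto_avg F
  rw [Metric.tendsto_atTop] at h
  obtain ⟨N, hN⟩ := h η hη
  have hr := ml13_r_pos F
  refine ⟨ml13_I F N + ml13_r F * N, by
    have := ml13_I_nonneg F N
    positivity, fun n => ?_⟩
  have hI := ml13_I_nonneg F N
  have hn0 : (0 : ℝ) ≤ n := Nat.cast_nonneg n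
  have hN0 : (0 : ℝ) ≤ ml13_r F * N := by positivity
  rcases lt_or_ge n N with h1 | h1
  · have h2 := ml13_I_mono F h1.le
    have h3 : (n : ℝ) ≤ N := by exact_mod_cast h1.le
    have h4 := ml13_I_nonneg F n
    constructor
    · nlinarith [mul_nonneg hr.le hn0, mul_nonneg hη.le hn0]
    · nlinarith [mul_nonneg hη.le hn0, mul_le_mul_of_nonneg_left h3 hr.le]
  · rcases Nat.eq_zero_or_pos n with rfl | hpos
    · rw [ml13_I_zero]
      constructor <;> simp <;> linarith
    · have h2 := hN n h1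
      have hn : (0 : ℝ) < n := by exact_mod_cast hpos
      rw [Real.dist_eq] at h2
      change |ml13_I F n / n - ml13_r F| < η at h2
      rw [abs_lt] at h2
      obtain ⟨h3, h4⟩ := h2
      have h5 : ml13_I F n < (ml13_r F + η) * n := by
        rw [← div_lt_iff₀ hn]; linarith
      have h6 : (ml13_r F - η) * n < ml13_I F n := by
        rw [← lt_div_iff₀ hn]; linarith
      constructor <;> linarith

theorem ml13_K : ∃ K : ℝ, 1 ≤ K ∧ ∀ n : ℕ, ml13_I F n ≤ K * n := by
  obtain ⟨C, hC, h⟩ := ml13_lin F 1 one_pos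
  have hr := ml13_r_pos F
  refine ⟨ml13_r F + 1 + C, by linarith, fun n => ?_⟩
  rcases Nat.eq_zero_or_pos n with rfl | hpos
  · simp [ml13_I_zero]
  · have hn : (1 : ℝ) ≤ n := by exact_mod_cast hpos
    have := (h n).1
    nlinarith

/-- the degree -/
noncomputable def ml13_m : ℕ := Module.finrank ℤ (𝓞 F)

theorem ml13_c_pow {p : ℕ} (hp : p.Prime) (e : ℕ) :
    ml13_c F (p ^ e) ≤ ((e : ℝ) + 1) ^ ml13_m F := by
  have := cnt_prime_pow_le (K := F) hp e
  unfold ml13_c ml13_m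
  exact_mod_cast this

theorem ml13_c_mul {m n : ℕ} (hm : m ≠ 0) (hn : n ≠ 0) (h : Nat.Coprime m n) :
    ml13_c F (m * n) = ml13_c F m * ml13_c F n := by
  unfold ml13_c
  rw [cnt_mul hm hn h]
  push_cast
  rfl

/-- the constant -/
noncomputable def ml13_G (a : ℕ) : ℝ := ∑' i : ℕ, ((i : ℝ) + 1) ^ a * (1 / 2) ^ i

theorem ml13_G_summable (a : ℕ) : Summable (fun i : ℕ => ((i : ℝ) + 1) ^ a * (1 / 2) ^ i) := by
  have h := summable_pow_mul_geometric_of_norm_lt_one a (r := (1 / 2 : ℝ))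
    (by rw [Real.norm_eq_abs, abs_of_pos] <;> norm_num)
  have h2 := (summable_nat_add_iff 1).mpr h
  refine (h2.mul_left 2).congr fun e => ?_
  push_cast
  rw [pow_succ]
  ring

theorem ml13_G_nonneg (a : ℕ) : 0 ≤ ml13_G a := tsum_nonneg fun i => by positivity

/-- `∑ (v_p(t) + 1)^a c(t / p^v)` -/
noncomputable def ml13_D (p a y : ℕ) : ℝ :=
  ∑ t ∈ Finset.Icc 1 y, ((t.factorization p : ℝ) + 1) ^ a * ml13_c F (t / p ^ t.factorization p)

theorem ml13_D_le {K : ℝ} (hK : ∀ n : ℕ, ml13_I F n ≤ K * n) (hK1 : 1 ≤ K) {p : ℕ}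
    (hp : p.Prime) (a y : ℕ) : ml13_D F p a y ≤ K * ml13_G a * y := by
  classical
  have h1 : ml13_D F p a y ≤ ∑ z ∈ (Finset.range (y + 1)).sigma
      (fun i => Finset.Icc 1 (y / p ^ i)), ((z.1 : ℝ) + 1) ^ a * ml13_c F z.2 := by
    unfold ml13_D
    rw [← Finset.sum_image (f := fun z : (_ : ℕ) × ℕ => ((z.1 : ℝ) + 1) ^ a * ml13_c F z.2)
      (s := Finset.Icc 1 y) (g := fun t => (⟨t.factorization p, t / p ^ t.factorization p⟩ :
        (_ : ℕ) × ℕ))]
    · apply Finset.sum_le_sum_of_subset_of_nonneg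
      · intro z hz
        rw [Finset.mem_image] at hz
        obtain ⟨t, ht, rfl⟩ := hz
        rw [Finset.mem_Icc] at ht
        have ht0 : t ≠ 0 := by omega
        rw [Finset.mem_sigma, Finset.mem_range, Finset.mem_Icc]
        have hle : p ^ t.factorization p ≤ t := Nat.ordProj_le p ht0
        refine ⟨?_, ?_, ?_⟩
        · have h6 : t.factorization p < p ^ t.factorization p := Nat.lt_pow_self hp.one_lt
          show t.factorization p < y + 1
          omega
        · exact Nat.div_pos hle (pow_pos hp.pos _)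
        · exact Nat.div_le_div_right ht.2
      · intro z _ _
        have := ml13_c_nonneg F z.2
        positivity
    · intro s hs t ht hst
      simp only [Sigma.mk.injEq, heq_eq_eq] at hst
      obtain ⟨e1, e2⟩ := hst
      rw [← Nat.ordProj_mul_ordCompl_eq_self s p, ← Nat.ordProj_mul_ordCompl_eq_self t p, e2, e1]
  refine h1.trans ?_
  rw [Finset.sum_sigma]
  have h2 : ∀ i ∈ Finset.range (y + 1), ∑ s ∈ Finset.Icc 1 (y / p ^ i),
      ((i : ℝ) + 1) ^ a * ml13_c F s ≤ K * y * (((i : ℝ) + 1) ^ a * (1 / 2) ^ i) := by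
    intro i _
    rw [← Finset.mul_sum]
    have h3 : ∑ s ∈ Finset.Icc 1 (y / p ^ i), ml13_c F s ≤ K * y * (1 / 2) ^ i := by
      refine (hK (y / p ^ i)).trans ?_
      rw [mul_assoc]
      apply mul_le_mul_of_nonneg_left _ (by linarith)
      have h4 : ((y / p ^ i : ℕ) : ℝ) ≤ (y : ℝ) / ((p ^ i : ℕ) : ℝ) := Nat.cast_div_le
      refine h4.trans ?_
      rw [div_eq_mul_inv]
      apply mul_le_mul_of_nonneg_left _ (Nat.cast_nonneg y)
      push_cast
      rw [← inv_pow]
      apply pow_le_pow_left₀ (by positivity)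
      rw [one_div]
      apply inv_anti₀ (by norm_num)
      exact_mod_cast hp.two_le
    calc ((i : ℝ) + 1) ^ a * ∑ s ∈ Finset.Icc 1 (y / p ^ i), ml13_c F s
        ≤ ((i : ℝ) + 1) ^ a * (K * y * (1 / 2) ^ i) :=
          mul_le_mul_of_nonneg_left h3 (by positivity)
      _ = _ := by ring
  refine (Finset.sum_le_sum h2).trans ?_
  rw [← Finset.mul_sum]
  have h5 : ∑ i ∈ Finset.range (y + 1), ((i : ℝ) + 1) ^ a * (1 / 2) ^ i ≤ ml13_G a :=
    (ml13_G_summable a).sum_le_tsum _ fun i _ => by positivity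
  calc K * y * ∑ i ∈ Finset.range (y + 1), ((i : ℝ) + 1) ^ a * (1 / 2) ^ i
      ≤ K * y * ml13_G a := mul_le_mul_of_nonneg_left h5 (by positivity)
    _ = _ := by ring

/-- sums over multiples of `p` -/
theorem ml13_mult {p : ℕ} (hp : 0 < p) (x : ℕ) (f : ℕ → ℝ) :
    ∑ n ∈ (Finset.Icc 1 x).filter (p ∣ ·), f n = ∑ t ∈ Finset.Icc 1 (x / p), f (p * t) := by
  classical
  rw [← Finset.sum_image (g := fun t => p * t)]
  · apply Finset.sum_congr _ fun _ _ => rfl
    ext n
    rw [Finset.mem_filter, Finset.mem_Icc, Finset.mem_image]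
    constructor
    · rintro ⟨⟨h1, h2⟩, t, rfl⟩
      refine ⟨t, ?_, rfl⟩
      rw [Finset.mem_Icc]
      refine ⟨Nat.pos_of_ne_zero ?_, ?_⟩
      · rintro rfl
        simp at h1
      · rw [Nat.le_div_iff_mul_le hp]
        rw [mul_comm]; exact h2
    · rintro ⟨t, ht, rfl⟩
      rw [Finset.mem_Icc, Nat.le_div_iff_mul_le hp] at ht
      refine ⟨⟨Nat.mul_pos hp ht.1, ?_⟩, dvd_mul_right _ _⟩
      rw [mul_comm]; exact ht.2
  · intro s _ t _ hst
    exact Nat.eq_of_mul_eq_mul_left hp hst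

theorem ml13_fact_mul {p t : ℕ} (hp : p.Prime) (ht : t ≠ 0) :
    (p * t).factorization p = t.factorization p + 1 ∧
      (p * t) / p ^ (p * t).factorization p = t / p ^ t.factorization p := by
  have h1 : (p * t).factorization p = t.factorization p + 1 := by
    rw [Nat.factorization_mul hp.ne_zero ht, Finsupp.add_apply, hp.factorization_self, add_comm]
  refine ⟨h1, ?_⟩
  rw [h1, pow_succ, mul_comm (p ^ _) p, Nat.mul_div_mul_left _ _ hp.pos]

theorem ml13_c_le {p t : ℕ} (hp : p.Prime) (ht : t ≠ 0) :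
    ml13_c F t ≤ ((t.factorization p : ℝ) + 1) ^ ml13_m F *
      ml13_c F (t / p ^ t.factorization p) := by
  have h1 : t = p ^ t.factorization p * (t / p ^ t.factorization p) :=
    (Nat.ordProj_mul_ordCompl_eq_self t p).symm
  have h2 : Nat.Coprime (p ^ t.factorization p) (t / p ^ t.factorization p) :=
    Nat.Coprime.pow_left _ (Nat.coprime_ordCompl hp ht)
  have h3 : t / p ^ t.factorization p ≠ 0 := by
    intro h0
    rw [h0, mul_zero] at h1
    exact ht h1
  calc ml13_c F t = ml13_c F (p ^ t.factorization p * (t / p ^ t.factorization p)) := by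
        rw [← h1]
    _ = ml13_c F (p ^ t.factorization p) * ml13_c F (t / p ^ t.factorization p) :=
        ml13_c_mul F (pow_ne_zero _ hp.ne_zero) h3 h2
    _ ≤ _ := mul_le_mul_of_nonneg_right (ml13_c_pow F hp _) (ml13_c_nonneg F _)

/-- `∑ v_p(n) c(n)` -/
noncomputable def ml13_V (p x : ℕ) : ℝ :=
  ∑ n ∈ Finset.Icc 1 x, (n.factorization p : ℝ) * ml13_c F n

theorem ml13_V_eq {p : ℕ} (hp : p.Prime) (x : ℕ) :
    ml13_V F p x = ∑ t ∈ Finset.Icc 1 (x / p), ((t.factorization p : ℝ) + 1) *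
      ml13_c F (p * t) := by
  have h1 : ml13_V F p x = ∑ n ∈ (Finset.Icc 1 x).filter (p ∣ ·),
      (n.factorization p : ℝ) * ml13_c F n := by
    unfold ml13_V
    rw [Finset.sum_filter]
    refine Finset.sum_congr rfl fun n _ => ?_
    split_ifs with h
    · rfl
    · rw [Nat.factorization_eq_zero_of_not_dvd h]; simp
  rw [h1, ml13_mult hp.pos]
  refine Finset.sum_congr rfl fun t ht => ?_
  rw [Finset.mem_Icc] at ht
  rw [(ml13_fact_mul hp (t := t) (by omega)).1]
  push_cast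
  rfl

theorem ml13_c_pt {p t : ℕ} (hp : p.Prime) (ht : t ≠ 0) (h : ¬ p ∣ t) :
    ml13_c F (p * t) = ml13_c F p * ml13_c F t :=
  ml13_c_mul F hp.ne_zero ht ((Nat.Prime.coprime_iff_not_dvd hp).2 h)

/-- the multiples of `p` in the sum of `c` -/
theorem ml13_mult_le {K : ℝ} (hK : ∀ n : ℕ, ml13_I F n ≤ K * n) (hK1 : 1 ≤ K) {p : ℕ}
    (hp : p.Prime) (y : ℕ) : ∑ t ∈ (Finset.Icc 1 y).filter (p ∣ ·), ml13_c F t ≤
      2 ^ ml13_m F * (K * ml13_G (ml13_m F) * (y / p : ℕ)) := by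
  rw [ml13_mult hp.pos]
  have h1 : ∀ s ∈ Finset.Icc 1 (y / p), ml13_c F (p * s) ≤
      2 ^ ml13_m F * (((s.factorization p : ℝ) + 1) ^ ml13_m F *
        ml13_c F (s / p ^ s.factorization p)) := by
    intro s hs
    rw [Finset.mem_Icc] at hs
    have hs0 : s ≠ 0 := by omega
    have h2 := ml13_c_le F hp (t := p * s) (mul_ne_zero hp.ne_zero hs0)
    obtain ⟨e1, e2⟩ := ml13_fact_mul hp hs0
    rw [e2, e1] at h2
    refine h2.trans ?_
    rw [← mul_assoc, ← mul_pow]
    apply mul_le_mul_of_nonneg_right _ (ml13_c_nonneg F _)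
    apply pow_le_pow_left₀ (by positivity)
    push_cast
    have : (0 : ℝ) ≤ (s.factorization p : ℝ) := Nat.cast_nonneg _
    linarith
  refine (Finset.sum_le_sum h1).trans ?_
  rw [← Finset.mul_sum]
  exact mul_le_mul_of_nonneg_left (ml13_D_le F hK hK1 hp _ _) (by positivity)

theorem ml13_V_bounds {K : ℝ} (hK : ∀ n : ℕ, ml13_I F n ≤ K * n) (hK1 : 1 ≤ K) :
    ∃ C : ℝ, 0 ≤ C ∧ ∀ (p : ℕ), p.Prime → ∀ x : ℕ,
      ml13_V F p x ≤ ml13_c F p * ml13_I F (x / p) + C * (x / (p : ℝ) ^ 2) ∧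
      ml13_c F p * ml13_I F (x / p) - C * (x / (p : ℝ) ^ 2) ≤ ml13_V F p x := by
  classical
  set m := ml13_m F with hm
  refine ⟨3 ^ (m + 1) * (K * ml13_G (m + 1)) + 2 ^ m * (2 ^ m * (K * ml13_G m)), by
    have := ml13_G_nonneg (m + 1)
    have := ml13_G_nonneg m
    have : 0 ≤ K := by linarith
    positivity, fun p hp x => ?_⟩
  have hG1 := ml13_G_nonneg (m + 1)
  have hG0 := ml13_G_nonneg m
  have hK0 : 0 ≤ K := by linarith
  have hp0 : (0 : ℝ) < p := by exact_mod_cast hp.pos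
  have hdd : ((x / p / p : ℕ) : ℝ) ≤ x / (p : ℝ) ^ 2 := by
    rw [Nat.div_div_eq_div_mul]
    refine (Nat.cast_div_le).trans (le_of_eq ?_)
    push_cast
    rw [sq]
  have hxp : (0 : ℝ) ≤ x / (p : ℝ) ^ 2 := by positivity
  have hcp : ml13_c F p ≤ 2 ^ m := by
    have := ml13_c_pow F hp 1
    rw [pow_one] at this
    norm_num at this
    exact this
  rw [ml13_V_eq F hp]
  constructor
  · -- upper bound
    have h1 : ∀ t ∈ Finset.Icc 1 (x / p), ((t.factorization p : ℝ) + 1) * ml13_c F (p * t) ≤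
        ml13_c F p * ml13_c F t + (if p ∣ t then ((t.factorization p : ℝ) + 1) *
          ((((t.factorization p : ℝ) + 1) + 1) ^ m * ml13_c F (t / p ^ t.factorization p))
          else 0) := by
      intro t ht
      rw [Finset.mem_Icc] at ht
      have ht0 : t ≠ 0 := by omega
      split_ifs with h
      · have h2 := ml13_c_le F hp (t := p * t) (mul_ne_zero hp.ne_zero ht0)
        obtain ⟨e1, e2⟩ := ml13_fact_mul hp ht0
        rw [e2, e1] at h2
        push_cast at h2
        have h3 := mul_nonneg (ml13_c_nonneg F p) (ml13_c_nonneg F t)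
        have h4 : ((t.factorization p : ℝ) + 1) * ml13_c F (p * t) ≤
            ((t.factorization p : ℝ) + 1) * ((((t.factorization p : ℝ) + 1) + 1) ^ m *
              ml13_c F (t / p ^ t.factorization p)) :=
          mul_le_mul_of_nonneg_left h2 (by positivity)
        linarith
      · rw [ml13_c_pt F hp ht0 h, Nat.factorization_eq_zero_of_not_dvd h]
        simp
    refine (Finset.sum_le_sum h1).trans ?_
    rw [Finset.sum_add_distrib, ← Finset.mul_sum, ← Finset.sum_filter, ml13_mult hp.pos]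
    have h5 : ∀ s ∈ Finset.Icc 1 (x / p / p), (((p * s).factorization p : ℝ) + 1) *
          (((((p * s).factorization p : ℝ) + 1) + 1) ^ m *
            ml13_c F ((p * s) / p ^ (p * s).factorization p)) ≤
        3 ^ (m + 1) * (((s.factorization p : ℝ) + 1) ^ (m + 1) *
          ml13_c F (s / p ^ s.factorization p)) := by
      intro s hs
      rw [Finset.mem_Icc] at hs
      obtain ⟨e1, e2⟩ := ml13_fact_mul hp (t := s) (by omega)
      rw [e2, e1, ← mul_assoc, ← mul_assoc, ← mul_pow]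
      apply mul_le_mul_of_nonneg_right _ (ml13_c_nonneg F _)
      have h0 : (0 : ℝ) ≤ (s.factorization p : ℝ) := Nat.cast_nonneg _
      push_cast
      rw [pow_succ, mul_comm]
      apply mul_le_mul _ _ (by positivity) (by positivity)
      · apply pow_le_pow_left₀ (by positivity)
        linarith
      · linarith
    have h6 := Finset.sum_le_sum h5
    rw [← Finset.mul_sum] at h6
    have h7 := ml13_D_le F hK hK1 hp (m + 1) (x / p / p)
    unfold ml13_D at h7
    have h8 : 3 ^ (m + 1) * (K * ml13_G (m + 1) * ((x / p / p : ℕ) : ℝ)) ≤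
        (3 ^ (m + 1) * (K * ml13_G (m + 1))) * (x / (p : ℝ) ^ 2) := by
      rw [← mul_assoc]
      exact mul_le_mul_of_nonneg_left hdd (by positivity)
    have h9 : 0 ≤ 2 ^ m * (2 ^ m * (K * ml13_G m)) * (x / (p : ℝ) ^ 2) := by positivity
    have h10 := mul_le_mul_of_nonneg_left h7 (show (0 : ℝ) ≤ 3 ^ (m + 1) by positivity)
    unfold ml13_I
    rw [add_mul]
    linarith
  · -- lower bound
    have h1 : ∀ t ∈ Finset.Icc 1 (x / p), ml13_c F p * ml13_c F t -
        (if p ∣ t then ml13_c F p * ml13_c F t else 0) ≤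
        ((t.factorization p : ℝ) + 1) * ml13_c F (p * t) := by
      intro t ht
      rw [Finset.mem_Icc] at ht
      have ht0 : t ≠ 0 := by omega
      split_ifs with h
      · rw [sub_self]
        have := ml13_c_nonneg F (p * t)
        positivity
      · rw [ml13_c_pt F hp ht0 h, Nat.factorization_eq_zero_of_not_dvd h]
        simp
    have h2 := Finset.sum_le_sum h1
    rw [Finset.sum_sub_distrib, ← Finset.mul_sum, ← Finset.sum_filter, ← Finset.mul_sum] at h2
    have h3 := ml13_mult_le F hK hK1 hp (x / p)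
    have h4 : ml13_c F p * ∑ t ∈ (Finset.Icc 1 (x / p)).filter (p ∣ ·), ml13_c F t ≤
        2 ^ m * (2 ^ m * (K * ml13_G m * ((x / p / p : ℕ) : ℝ))) := by
      apply mul_le_mul hcp h3 (Finset.sum_nonneg fun t _ => ml13_c_nonneg F t) (by positivity)
    have h8 : 2 ^ m * (2 ^ m * (K * ml13_G m * ((x / p / p : ℕ) : ℝ))) ≤
        (2 ^ m * (2 ^ m * (K * ml13_G m))) * (x / (p : ℝ) ^ 2) := by
      rw [← mul_assoc, ← mul_assoc, mul_assoc (2 ^ m : ℝ) (2 ^ m) (K * ml13_G m), ← mul_assoc]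
      exact mul_le_mul_of_nonneg_left hdd (by positivity)
    have h9 : 0 ≤ 3 ^ (m + 1) * (K * ml13_G (m + 1)) * (x / (p : ℝ) ^ 2) := by positivity
    unfold ml13_I
    rw [add_mul]
    linarith

/-- the primes up to `x` -/
def ml13_P (x : ℕ) : Finset ℕ := (Finset.Icc 1 x).filter Nat.Prime

theorem ml13_mem_P {x p : ℕ} : p ∈ ml13_P x ↔ p.Prime ∧ p ≤ x := by
  unfold ml13_P
  rw [Finset.mem_filter, Finset.mem_Icc]
  exact ⟨fun h => ⟨h.2, h.1.2⟩, fun h => ⟨⟨h.1.one_le, h.2⟩, h.1⟩⟩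

theorem ml13_theta (x : ℕ) : ∑ p ∈ ml13_P x, Real.log p ≤ Real.log 4 * x := by
  have h := Chebyshev.theta_le_log4_mul_x (x := (x : ℝ)) (Nat.cast_nonneg x)
  rw [Chebyshev.theta_eq_sum_primesLE_log] at h
  refine le_trans (le_of_eq ?_) h
  apply Finset.sum_congr _ fun _ _ => rfl
  ext p
  rw [ml13_mem_P, Nat.mem_primesLE]
  tauto

theorem ml13_c_prime {p : ℕ} (hp : p.Prime) : ml13_c F p ≤ 2 ^ ml13_m F := by
  have := ml13_c_pow F hp 1
  rw [pow_one] at this
  norm_num at this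
  exact this

theorem ml13_theta_c (x : ℕ) : ∑ p ∈ ml13_P x, Real.log p * ml13_c F p ≤
    2 ^ ml13_m F * Real.log 4 * x := by
  have h1 : ∀ p ∈ ml13_P x, Real.log p * ml13_c F p ≤ 2 ^ ml13_m F * Real.log p := by
    intro p hp
    rw [ml13_mem_P] at hp
    rw [mul_comm]
    exact mul_le_mul_of_nonneg_right (ml13_c_prime F hp.1) (Real.log_natCast_nonneg p)
  refine (Finset.sum_le_sum h1).trans ?_
  rw [← Finset.mul_sum, mul_assoc]
  exact mul_le_mul_of_nonneg_left (ml13_theta x) (by positivity)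

/-- `∑ c(n) log n` -/
noncomputable def ml13_S (x : ℕ) : ℝ := ∑ n ∈ Finset.Icc 1 x, ml13_c F n * Real.log n

/-- the main term -/
noncomputable def ml13_T (x : ℕ) : ℝ := ∑ p ∈ ml13_P x, Real.log p * ml13_c F p * ml13_I F (x / p)

/-- `∑ c(p) log p / p` -/
noncomputable def ml13_A (x : ℕ) : ℝ := ∑ p ∈ ml13_P x, Real.log p * ml13_c F p / p

theorem ml13_S_eq (x : ℕ) : ml13_S F x = ∑ p ∈ ml13_P x, Real.log p * ml13_V F p x := by
  unfold ml13_S ml13_V
  have h1 : ∀ n ∈ Finset.Icc 1 x, ml13_c F n * Real.log n =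
      ∑ p ∈ ml13_P x, Real.log p * ((n.factorization p : ℝ) * ml13_c F n) := by
    intro n hn
    rw [Finset.mem_Icc] at hn
    have h2 : Real.log n = ∑ p ∈ ml13_P x, (n.factorization p : ℝ) * Real.log p := by
      rw [Real.log_nat_eq_sum_factorization, Finsupp.sum]
      apply Finset.sum_subset
      · intro p hp
        rw [Nat.support_factorization, Nat.mem_primeFactors] at hp
        rw [ml13_mem_P]
        exact ⟨hp.1, (Nat.le_of_dvd (by omega) hp.2.1).trans hn.2⟩
      · intro p _ hp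
        rw [Finsupp.notMem_support_iff] at hp
        rw [hp]; simp
    rw [h2, Finset.mul_sum]
    exact Finset.sum_congr rfl fun p _ => by ring
  rw [Finset.sum_congr rfl h1, Finset.sum_comm]
  exact Finset.sum_congr rfl fun p _ => by rw [← Finset.mul_sum]

theorem ml13_log_sq : ∃ C : ℝ, 0 ≤ C ∧ ∀ x : ℕ, ∑ p ∈ ml13_P x, Real.log p / (p : ℝ) ^ 2 ≤ C := by
  have hs : Summable (fun n : ℕ => 2 * (n : ℝ) ^ (-(3 / 2 : ℝ))) :=
    (Real.summable_nat_rpow.mpr (by norm_num)).mul_left 2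
  refine ⟨∑' n : ℕ, 2 * (n : ℝ) ^ (-(3 / 2 : ℝ)), tsum_nonneg fun n => by positivity,
    fun x => ?_⟩
  have h1 : ∀ p ∈ ml13_P x, Real.log p / (p : ℝ) ^ 2 ≤ 2 * (p : ℝ) ^ (-(3 / 2 : ℝ)) := by
    intro p hp
    rw [ml13_mem_P] at hp
    have hp0 : (0 : ℝ) < p := by exact_mod_cast hp.1.pos
    have h2 := Real.log_le_rpow_div hp0.le (show (0 : ℝ) < 1 / 2 by norm_num)
    rw [div_le_iff₀ (by positivity)]
    refine h2.trans (le_of_eq ?_)
    rw [mul_assoc, ← Real.rpow_natCast (p : ℝ) 2, ← Real.rpow_add hp0]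
    norm_num
    ring
  exact (Finset.sum_le_sum h1).trans (hs.sum_le_tsum _ fun n _ => by positivity)

theorem ml13_ST : ∃ C : ℝ, 0 ≤ C ∧ ∀ x : ℕ, ml13_S F x ≤ ml13_T F x + C * x ∧
    ml13_T F x - C * x ≤ ml13_S F x := by
  obtain ⟨K, hK1, hK⟩ := ml13_K F
  obtain ⟨C, hC, h⟩ := ml13_V_bounds F hK hK1
  obtain ⟨C', hC', h'⟩ := ml13_log_sq
  refine ⟨C * C', mul_nonneg hC hC', fun x => ?_⟩
  rw [ml13_S_eq]
  unfold ml13_T
  have hx : (0 : ℝ) ≤ x := Nat.cast_nonneg x
  have h3 : ∑ p ∈ ml13_P x, Real.log p * (C * (x / (p : ℝ) ^ 2)) ≤ C * C' * x := by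
    calc ∑ p ∈ ml13_P x, Real.log p * (C * (x / (p : ℝ) ^ 2))
        = C * x * ∑ p ∈ ml13_P x, Real.log p / (p : ℝ) ^ 2 := by
          rw [Finset.mul_sum]
          exact Finset.sum_congr rfl fun p _ => by ring
      _ ≤ C * x * C' := mul_le_mul_of_nonneg_left (h' x) (by positivity)
      _ = _ := by ring
  constructor
  · have h1 : ∀ p ∈ ml13_P x, Real.log p * ml13_V F p x ≤
        Real.log p * ml13_c F p * ml13_I F (x / p) + Real.log p * (C * (x / (p : ℝ) ^ 2)) := by
      intro p hp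
      rw [ml13_mem_P] at hp
      have h2 := mul_le_mul_of_nonneg_left (h p hp.1 x).1 (Real.log_natCast_nonneg p)
      refine h2.trans (le_of_eq ?_)
      ring
    have h4 := Finset.sum_le_sum h1
    rw [Finset.sum_add_distrib] at h4
    linarith
  · have h1 : ∀ p ∈ ml13_P x, Real.log p * ml13_c F p * ml13_I F (x / p) -
        Real.log p * (C * (x / (p : ℝ) ^ 2)) ≤ Real.log p * ml13_V F p x := by
      intro p hp
      rw [ml13_mem_P] at hp
      have h2 := mul_le_mul_of_nonneg_left (h p hp.1 x).2 (Real.log_natCast_nonneg p)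
      refine le_trans (le_of_eq ?_) h2
      ring
    have h4 := Finset.sum_le_sum h1
    rw [Finset.sum_sub_distrib] at h4
    linarith

/-- upper bound for `A` -/
theorem ml13_A_le (τ : ℝ) (hτ : 0 < τ) (hτ1 : τ < 1) : ∃ C : ℝ, 0 ≤ C ∧ ∀ y : ℕ, 1 ≤ y →
    (1 - τ) * ml13_A F y ≤ (1 + τ) * Real.log y + C := by
  have hr := ml13_r_pos F
  obtain ⟨C1, hC1, h1⟩ := ml13_lin F (ml13_r F * τ) (by positivity)
  obtain ⟨C2, hC2, h2⟩ := ml13_ST F
  have hl4 : 0 ≤ Real.log 4 := Real.log_nonneg (by norm_num)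
  set E := C1 + C2 + (ml13_r F + C1) * (2 ^ ml13_m F * Real.log 4) with hE
  have hE0 : 0 ≤ E := by positivity
  refine ⟨E / ml13_r F, by positivity, fun y hy => ?_⟩
  have hy0 : (0 : ℝ) < y := by exact_mod_cast hy
  have hlog0 : 0 ≤ Real.log y := Real.log_natCast_nonneg y
  have hlogy : Real.log y ≤ y := (Real.log_le_sub_one_of_pos hy0).trans (by linarith)
  -- S y ≤ log y * I y
  have h3 : ml13_S F y ≤ Real.log y * ml13_I F y := by
    unfold ml13_S ml13_I
    rw [Finset.mul_sum]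
    refine Finset.sum_le_sum fun n hn => ?_
    rw [Finset.mem_Icc] at hn
    rw [mul_comm]
    apply mul_le_mul_of_nonneg_right _ (ml13_c_nonneg F n)
    apply Real.log_le_log (by exact_mod_cast hn.1)
    exact_mod_cast hn.2
  have h4 := mul_le_mul_of_nonneg_left (h1 y).1 hlog0
  have h5 := (h2 y).2
  -- lower bound of T
  have h6 : ml13_r F * (1 - τ) * (y * ml13_A F y) -
      (ml13_r F + C1) * ∑ p ∈ ml13_P y, Real.log p * ml13_c F p ≤ ml13_T F y := by
    unfold ml13_A ml13_T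
    rw [Finset.mul_sum, Finset.mul_sum, Finset.mul_sum, ← Finset.sum_sub_distrib]
    refine Finset.sum_le_sum fun p hp => ?_
    rw [ml13_mem_P] at hp
    have hp0 : (0 : ℝ) < p := by exact_mod_cast hp.1.pos
    have hw : 0 ≤ Real.log p * ml13_c F p :=
      mul_nonneg (Real.log_natCast_nonneg p) (ml13_c_nonneg F p)
    have h7 := (h1 (y / p)).2
    have h8 : (y : ℝ) / p - 1 ≤ ((y / p : ℕ) : ℝ) := by
      have := Nat.lt_floor_add_one ((y : ℝ) / p)
      rw [Nat.floor_div_natCast, Nat.floor_natCast] at this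
      linarith
    have h9 : ml13_r F * (1 - τ) * ((y : ℝ) / p) - (ml13_r F + C1) ≤ ml13_I F (y / p) := by
      have h10 : 0 ≤ ml13_r F * (1 - τ) := mul_nonneg hr.le (by linarith)
      have h11 := mul_le_mul_of_nonneg_left h8 h10
      have h12 : ml13_r F * (1 - τ) ≤ ml13_r F := by nlinarith
      nlinarith
    have h13 := mul_le_mul_of_nonneg_left h9 hw
    refine le_trans (le_of_eq ?_) h13
    field_simp
  have h14 := mul_le_mul_of_nonneg_left (ml13_theta_c F y) (show 0 ≤ ml13_r F + C1 by positivity)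
  have h15 : C1 * Real.log y ≤ C1 * y := mul_le_mul_of_nonneg_left hlogy hC1
  have h16 : ml13_r F * (1 - τ) * (y * ml13_A F y) ≤
      Real.log y * (ml13_r F + ml13_r F * τ) * y + E * y := by
    rw [hE]
    nlinarith
  have h17 : (ml13_r F * y) * ((1 - τ) * ml13_A F y) ≤
      (ml13_r F * y) * ((1 + τ) * Real.log y + E / ml13_r F) := by
    refine le_trans (le_of_eq ?_) (h16.trans (le_of_eq ?_))
    · ring
    · field_simp
  exact le_of_mul_le_mul_left h17 (by positivity)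

/-- lower bound for `S` -/
theorem ml13_S_ge (τ : ℝ) (hτ : 0 < τ) : ∃ (C : ℝ) (L : ℕ), 0 ≤ C ∧ 1 ≤ L ∧
    ∀ x : ℕ, L ≤ x → (ml13_r F * (1 - 2 * τ) * x - C) * (Real.log x - Real.log L) ≤
      ml13_S F x := by
  classical
  have hr := ml13_r_pos F
  obtain ⟨C1, hC1, h1⟩ := ml13_lin F (ml13_r F * τ) (by positivity)
  obtain ⟨L, hL⟩ := exists_nat_gt ((1 + τ) / τ)
  have hL0 : (0 : ℝ) < L := lt_trans (by positivity) hL
  have hL1 : 1 ≤ L := by exact_mod_cast hL0
  refine ⟨2 * C1, L, by positivity, hL1, fun x hx => ?_⟩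
  have hx0 : (0 : ℝ) < x := lt_of_lt_of_le hL0 (by exact_mod_cast hx)
  have hd : 0 ≤ Real.log x - Real.log L := by
    rw [sub_nonneg]
    exact Real.log_le_log hL0 (by exact_mod_cast hx)
  have h2 : ml13_r F * (1 - 2 * τ) * x - 2 * C1 ≤ ml13_I F x - ml13_I F (x / L) := by
    have h3 := (h1 x).2
    have h4 := (h1 (x / L)).1
    have h5 : ((x / L : ℕ) : ℝ) ≤ (x : ℝ) / L := Nat.cast_div_le
    have h6 : (ml13_r F + ml13_r F * τ) * ((x / L : ℕ) : ℝ) ≤ ml13_r F * τ * x := by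
      have h7 := mul_le_mul_of_nonneg_left h5
        (show 0 ≤ ml13_r F + ml13_r F * τ by positivity)
      refine h7.trans ?_
      rw [mul_div_assoc', div_le_iff₀ hL0]
      rw [div_lt_iff₀ hτ] at hL
      have h8 : 0 ≤ ml13_r F * x := by positivity
      nlinarith
    nlinarith
  refine (mul_le_mul_of_nonneg_right h2 hd).trans ?_
  have h9 : ml13_I F x - ml13_I F (x / L) = ∑ n ∈ Finset.Ioc (x / L) x, ml13_c F n := by
    unfold ml13_I
    have h10 : Finset.Icc 1 x = Finset.Icc 1 (x / L) ∪ Finset.Ioc (x / L) x := by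
      ext n
      have e1 := Nat.div_le_self x L
      have e2 := Nat.zero_le (x / L)
      rw [Finset.mem_union, Finset.mem_Icc, Finset.mem_Icc, Finset.mem_Ioc]
      omega
    rw [h10, Finset.sum_union]
    · ring
    · rw [Finset.disjoint_left]
      intro n hn hn2
      rw [Finset.mem_Icc] at hn
      rw [Finset.mem_Ioc] at hn2
      omega
  rw [h9, Finset.sum_mul]
  unfold ml13_S
  calc ∑ n ∈ Finset.Ioc (x / L) x, ml13_c F n * (Real.log x - Real.log L)
      ≤ ∑ n ∈ Finset.Ioc (x / L) x, ml13_c F n * Real.log n := by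
        refine Finset.sum_le_sum fun n hn => ?_
        rw [Finset.mem_Ioc] at hn
        apply mul_le_mul_of_nonneg_left _ (ml13_c_nonneg F n)
        rw [← Real.log_div hx0.ne' hL0.ne']
        apply Real.log_le_log (by positivity)
        have := Nat.lt_floor_add_one ((x : ℝ) / L)
        rw [Nat.floor_div_natCast, Nat.floor_natCast] at this
        have h11 : ((x / L : ℕ) : ℝ) + 1 ≤ n := by exact_mod_cast hn.1
        linarith
    _ ≤ _ := by
        apply Finset.sum_le_sum_of_subset_of_nonneg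
        · intro n hn
          have e2 := Nat.zero_le (x / L)
          rw [Finset.mem_Ioc] at hn
          rw [Finset.mem_Icc]
          omega
        · intro n _ _
          exact mul_nonneg (ml13_c_nonneg F n) (Real.log_natCast_nonneg n)

theorem ml13_alg {r τ ε X l A C1 C2 C3 C4 lL D L4 Q S Sm Lg ly E : ℝ}
    (hr : 0 < r) (hε : 0 < ε) (hε1 : ε < 1) (hτ : τ = ε / 10) (hX : 0 < X) (hl1 : 1 ≤ l)
    (hlX : l ≤ X) (hC4 : 0 ≤ C4) (hlL : 0 ≤ lL)
    (hS1 : (r * (1 - 2 * τ) * X - C4) * (l - lL) ≤ S)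
    (hS2 : S ≤ Sm + Lg + C2 * X)
    (hsmall : Sm ≤ r * (1 + τ) * X * A + C1 * (D * L4 * X))
    (hA : (1 - τ) * A ≤ (1 + τ) * ly + C3) (hly : ly ≤ (1 - ε) * l)
    (hlarge : Lg ≤ Q)
    (hE : E = r * (1 + τ) * C3 / (1 - τ) + C1 * (D * L4) + C2 + r * lL + C4)
    (hXE : E ≤ r * ε / 5 * l) : r * ε / 10 * X * l ≤ Q := by
  have hτ0 : 0 < τ := by rw [hτ]; positivity
  have hτ1 : τ < 1 / 10 := by rw [hτ]; linarith
  have h1τ : 0 < 1 - τ := by linarith
  have hA2 : r * (1 + τ) * X * A ≤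
      r * X * ((1 + 5 * τ) * ((1 - ε) * l)) + r * (1 + τ) * C3 / (1 - τ) * X := by
    have h6 : A ≤ ((1 + τ) * ((1 - ε) * l) + C3) / (1 - τ) := by
      rw [le_div_iff₀ h1τ, mul_comm]
      refine hA.trans ?_
      have := mul_le_mul_of_nonneg_left hly (show 0 ≤ 1 + τ by linarith)
      linarith
    have h7 := mul_le_mul_of_nonneg_left h6 (show 0 ≤ r * (1 + τ) * X by positivity)
    refine h7.trans ?_
    have h8 : r * (1 + τ) * X * (((1 + τ) * ((1 - ε) * l) + C3) / (1 - τ)) =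
        r * X * ((1 + τ) ^ 2 / (1 - τ) * ((1 - ε) * l)) +
          r * (1 + τ) * C3 / (1 - τ) * X := by
      field_simp
    rw [h8]
    have h9 : (1 + τ) ^ 2 / (1 - τ) ≤ 1 + 5 * τ := by
      rw [div_le_iff₀ h1τ]
      nlinarith
    have h10 : 0 ≤ (1 - ε) * l := mul_nonneg (by linarith) (by linarith)
    have h11 := mul_le_mul_of_nonneg_left (mul_le_mul_of_nonneg_right h9 h10)
      (show 0 ≤ r * X by positivity)
    linarith
  have h6 : r * (1 - 2 * τ) * X * l - r * X * lL - C4 * X ≤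
      (r * (1 - 2 * τ) * X - C4) * (l - lL) := by
    have e2 : C4 * l ≤ C4 * X := mul_le_mul_of_nonneg_left hlX hC4
    have e3 : 0 ≤ C4 * lL := mul_nonneg hC4 hlL
    have e4 : r * (1 - 2 * τ) * X * lL ≤ r * X * lL := by
      have h1 : 0 ≤ r * X * lL := by positivity
      have h2 : 0 ≤ 2 * τ * (r * X * lL) := by positivity
      linarith
    have e5 : (r * (1 - 2 * τ) * X - C4) * (l - lL) =
        r * (1 - 2 * τ) * X * l - r * (1 - 2 * τ) * X * lL - C4 * l + C4 * lL := by ring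
    linarith
  have h7 : r * (1 - 2 * τ) * X * l ≤ r * X * ((1 + 5 * τ) * ((1 - ε) * l)) + E * X + Q := by
    have e6 : E * X = r * (1 + τ) * C3 / (1 - τ) * X + C1 * (D * L4 * X) + C2 * X +
        r * X * lL + C4 * X := by
      rw [hE]; ring
    linarith
  have h8 : E * X ≤ r * ε / 5 * l * X := mul_le_mul_of_nonneg_right hXE hX.le
  have h9 : r * X * l * (3 * ε / 10) ≤
      r * (1 - 2 * τ) * X * l - r * X * ((1 + 5 * τ) * ((1 - ε) * l)) := by
    have h10 : 3 * ε / 10 ≤ (1 - 2 * τ) - (1 + 5 * τ) * (1 - ε) := by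
      rw [hτ]
      nlinarith
    have h11 := mul_le_mul_of_nonneg_left h10 (show 0 ≤ r * X * l by positivity)
    have e7 : r * X * l * ((1 - 2 * τ) - (1 + 5 * τ) * (1 - ε)) =
      r * (1 - 2 * τ) * X * l - r * X * ((1 + 5 * τ) * ((1 - ε) * l)) := by ring
    linarith
  have e8 : r * X * l * (3 * ε / 10) - r * ε / 5 * l * X = r * ε / 10 * X * l := by ring
  linarith

/-- the primes in `(X^(1-ε), X]` that are norms -/
theorem ml13_count (ε : ℝ) (hε : 0 < ε) (hε1 : ε < 1) : ∃ c : ℝ, 0 < c ∧ ∀ᶠ X : ℕ in atTop,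
    c * (X : ℝ) ^ (1 - ε) ≤ ((((ml13_P X).filter (fun p : ℕ => (X : ℝ) ^ (1 - ε) < (p : ℝ) ∧
      ml13_c F p ≠ 0)).card : ℕ) : ℝ) := by
  classical
  have hr := ml13_r_pos F
  obtain ⟨K, hK1, hK⟩ := ml13_K F
  set τ : ℝ := ε / 10 with hτdef
  have hτ : 0 < τ := by positivity
  have hτ1 : τ < 1 / 10 := by rw [hτdef]; linarith
  obtain ⟨C1, hC1, h1⟩ := ml13_lin F (ml13_r F * τ) (by positivity)
  obtain ⟨C2, hC2, h2⟩ := ml13_ST F
  obtain ⟨C3, hC3, h3⟩ := ml13_A_le F τ hτ (by linarith)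
  obtain ⟨C4, L, hC4, hL1, h4⟩ := ml13_S_ge F τ hτ
  set D : ℝ := 2 ^ ml13_m F with hD
  have hD0 : 0 < D := by rw [hD]; positivity
  have hl4 : 0 ≤ Real.log 4 := Real.log_nonneg (by norm_num)
  have hlL : 0 ≤ Real.log L := Real.log_natCast_nonneg L
  -- the constants
  set E : ℝ := ml13_r F * (1 + τ) * C3 / (1 - τ) + C1 * (D * Real.log 4) + C2 +
    ml13_r F * Real.log L + C4 with hE
  have h1τ : 0 < 1 - τ := by linarith
  have hE0 : 0 ≤ E := by positivity
  refine ⟨ml13_r F * ε / 10 / (D * K), by positivity, ?_⟩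
  have hlog : Tendsto (fun X : ℕ => Real.log (X : ℝ)) atTop atTop :=
    Real.tendsto_log_atTop.comp tendsto_natCast_atTop_atTop
  filter_upwards [hlog.eventually_ge_atTop (E / (ml13_r F * ε / 5)), eventually_ge_atTop L,
    eventually_ge_atTop 3] with X hXE hXL hX3
  have hX0 : (0 : ℝ) < X := by
    have : 0 < X := by omega
    exact_mod_cast this
  have hX1 : (1 : ℝ) ≤ X := by
    have : 1 ≤ X := by omega
    exact_mod_cast this
  set Y : ℝ := (X : ℝ) ^ (1 - ε) with hY
  have hY0 : 0 < Y := Real.rpow_pos_of_pos hX0 _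
  have hY1 : 1 ≤ Y := Real.one_le_rpow hX1 (by linarith)
  set l : ℝ := Real.log X with hl
  have hl1 : 1 ≤ l := by
    rw [hl, Real.le_log_iff_exp_le hX0]
    have : (3 : ℝ) ≤ X := by exact_mod_cast hX3
    linarith [Real.exp_one_lt_d9]
  have hlY : Real.log Y = (1 - ε) * l := by rw [hY, Real.log_rpow hX0]
  set y : ℕ := ⌊Y⌋₊ with hy
  have hy1 : 1 ≤ y := by rw [hy, Nat.one_le_floor_iff]; exact hY1
  have hyY : (y : ℝ) ≤ Y := Nat.floor_le hY0.le
  have hyX : y ≤ X := by
    have : (y : ℝ) ≤ X := by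
      refine hyY.trans ?_
      rw [hY]
      calc (X : ℝ) ^ (1 - ε) ≤ (X : ℝ) ^ (1 : ℝ) :=
            Real.rpow_le_rpow_of_exponent_le hX1 (by linarith)
        _ = X := Real.rpow_one _
    exact_mod_cast this
  have hly : Real.log y ≤ (1 - ε) * l := by
    rw [← hlY]
    exact Real.log_le_log (by exact_mod_cast hy1) hyY
  set S' := (ml13_P X).filter (fun p : ℕ => Y < (p : ℝ) ∧ ml13_c F p ≠ 0) with hS'
  -- split T
  have hsplit : ml13_T F X = ∑ p ∈ (ml13_P X).filter (fun p : ℕ => ¬ Y < (p : ℝ)),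
      Real.log p * ml13_c F p * ml13_I F (X / p) +
      ∑ p ∈ (ml13_P X).filter (fun p : ℕ => Y < (p : ℝ)),
        Real.log p * ml13_c F p * ml13_I F (X / p) := by
    unfold ml13_T
    rw [add_comm]
    exact (Finset.sum_filter_add_sum_filter_not _ _ _).symm
  -- small primes
  have hsub : (ml13_P X).filter (fun p : ℕ => ¬ Y < (p : ℝ)) = ml13_P y := by
    ext p
    rw [Finset.mem_filter, ml13_mem_P, ml13_mem_P, not_lt, hy, Nat.le_floor_iff hY0.le]
    constructor
    · rintro ⟨⟨a, _⟩, b⟩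
      exact ⟨a, b⟩
    · rintro ⟨a, b⟩
      refine ⟨⟨a, ?_⟩, b⟩
      have : p ≤ y := by rw [hy, Nat.le_floor_iff hY0.le]; exact b
      omega
  have hsmall : ∑ p ∈ ml13_P y, Real.log p * ml13_c F p * ml13_I F (X / p) ≤
      ml13_r F * (1 + τ) * X * ml13_A F y + C1 * (D * Real.log 4 * X) := by
    have h5 : ∀ p ∈ ml13_P y, Real.log p * ml13_c F p * ml13_I F (X / p) ≤
        ml13_r F * (1 + τ) * X * (Real.log p * ml13_c F p / p) +
          C1 * (Real.log p * ml13_c F p) := by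
      intro p hp
      rw [ml13_mem_P] at hp
      have hp0 : (0 : ℝ) < p := by exact_mod_cast hp.1.pos
      have hw : 0 ≤ Real.log p * ml13_c F p :=
        mul_nonneg (Real.log_natCast_nonneg p) (ml13_c_nonneg F p)
      have h6 := (h1 (X / p)).1
      have h7 : ((X / p : ℕ) : ℝ) ≤ (X : ℝ) / p := Nat.cast_div_le
      have h8 := mul_le_mul_of_nonneg_left h7
        (show 0 ≤ ml13_r F + ml13_r F * τ by positivity)
      have h9 : ml13_I F (X / p) ≤ (ml13_r F + ml13_r F * τ) * ((X : ℝ) / p) + C1 := by linarith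
      refine (mul_le_mul_of_nonneg_left h9 hw).trans (le_of_eq ?_)
      ring
    refine (Finset.sum_le_sum h5).trans ?_
    rw [Finset.sum_add_distrib, ← Finset.mul_sum, ← Finset.mul_sum]
    have h10 := ml13_theta_c F y
    have h11 : 2 ^ ml13_m F * Real.log 4 * (y : ℝ) ≤ D * Real.log 4 * X := by
      apply mul_le_mul_of_nonneg_left _ (by positivity)
      exact_mod_cast hyX
    have h12 := mul_le_mul_of_nonneg_left (h10.trans h11) hC1
    unfold ml13_A
    linarith
  -- large primes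
  have hlarge : ∑ p ∈ (ml13_P X).filter (fun p : ℕ => Y < (p : ℝ)),
      Real.log p * ml13_c F p * ml13_I F (X / p) ≤ S'.card * (l * D * (K * (X / Y))) := by
    have h5 : ∑ p ∈ (ml13_P X).filter (fun p : ℕ => Y < (p : ℝ)),
        Real.log p * ml13_c F p * ml13_I F (X / p) =
        ∑ p ∈ S', Real.log p * ml13_c F p * ml13_I F (X / p) := by
      rw [hS', ← Finset.filter_filter]
      refine (Finset.sum_filter_of_ne ?_).symm
      intro p _ hp h0
      apply hp
      rw [h0]; ring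
    rw [h5, ← nsmul_eq_mul]
    apply Finset.sum_le_card_nsmul
    intro p hp
    rw [hS', Finset.mem_filter, ml13_mem_P] at hp
    obtain ⟨⟨hpp, hpX⟩, hpY, -⟩ := hp
    have hp0 : (0 : ℝ) < p := by exact_mod_cast hpp.pos
    have e1 : Real.log p ≤ l := Real.log_le_log hp0 (by exact_mod_cast hpX)
    have e2 : ml13_c F p ≤ D := ml13_c_prime F hpp
    have e3 : ml13_I F (X / p) ≤ K * (X / Y) := by
      refine (hK _).trans ?_
      apply mul_le_mul_of_nonneg_left _ (by linarith)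
      refine (Nat.cast_div_le).trans ?_
      exact div_le_div_of_nonneg_left hX0.le hY0 hpY.le
    exact mul_le_mul (mul_le_mul e1 e2 (ml13_c_nonneg F p) (by linarith)) e3
      (ml13_I_nonneg F _) (by positivity)
  -- put together
  have hS1 := h4 X hXL
  have hS2 := (h2 X).1
  rw [hsplit, hsub] at hS2
  have hA := h3 y hy1
  have hmain : ml13_r F * ε / 10 * X * l ≤ S'.card * (l * D * (K * (X / Y))) := by
    refine ml13_alg hr hε hε1 hτdef hX0 hl1 ?_ hC4 hlL hS1 hS2 hsmall hA hly hlarge hE ?_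
    · exact (Real.log_le_sub_one_of_pos hX0).trans (by linarith)
    · rw [div_le_iff₀ (by positivity)] at hXE
      linarith
  have hl0 : 0 < l := by linarith
  have h12 : ml13_r F * ε / 10 * Y ≤ S'.card * (D * K) := by
    have h13 : (X * l / Y) * (ml13_r F * ε / 10 * Y) ≤ (X * l / Y) * (S'.card * (D * K)) := by
      refine le_trans (le_of_eq ?_) (hmain.trans (le_of_eq ?_))
      · field_simp
      · field_simp
    exact le_of_mul_le_mul_left h13 (by positivity)
  rw [div_mul_eq_mul_div, div_le_iff₀ (by positivity)]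
  exact h12

end

theorem many_primes (F : Type) [Field F] [NumberField F] (ε : ℝ) (hε : 0 < ε) :
    ∀ᶠ X : ℕ in atTop, ∃ S : Finset ℕ, (X : ℝ) ^ (1 - ε) ≤ (S.card : ℝ) ∧
      ∀ p ∈ S, p.Prime ∧ (X : ℝ) ^ (1 - ε) < (p : ℝ) ∧ p ≤ X ∧
        ∃ I : Ideal (𝓞 F), Ideal.absNorm I = p := by
  classical
  set δ : ℝ := min ε 1 / 2 with hδ
  have hδ0 : 0 < δ := by rw [hδ]; positivity
  have hδ1 : δ < 1 := by
    rw [hδ]
    have := min_le_right ε 1
    linarith
  have hδε : δ < ε := by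
    rw [hδ]
    have := min_le_left ε 1
    linarith
  obtain ⟨c, hc, h⟩ := ml13_count F δ hδ0 hδ1
  have hgrow : Tendsto (fun X : ℕ => (X : ℝ) ^ (ε - δ)) atTop atTop :=
    (tendsto_rpow_atTop (sub_pos.mpr hδε)).comp tendsto_natCast_atTop_atTop
  filter_upwards [h, hgrow.eventually_ge_atTop (1 / c), eventually_ge_atTop 1] with X hX hg hX1
  have hX0 : (0 : ℝ) < X := by exact_mod_cast hX1
  have hX1' : (1 : ℝ) ≤ X := by exact_mod_cast hX1
  refine ⟨_, le_trans ?_ hX, ?_⟩
  · have h1 : (X : ℝ) ^ (1 - δ) = (X : ℝ) ^ (1 - ε) * (X : ℝ) ^ (ε - δ) := by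
      rw [← Real.rpow_add hX0]; congr 1; ring
    rw [h1]
    have h2 : 0 ≤ (X : ℝ) ^ (1 - ε) := by positivity
    have h3 : 1 ≤ c * (X : ℝ) ^ (ε - δ) := by
      rw [div_le_iff₀ hc] at hg
      linarith
    nlinarith
  · intro p hp
    rw [Finset.mem_filter, ml13_mem_P] at hp
    obtain ⟨⟨hpp, hpX⟩, hpY, hpc⟩ := hp
    refine ⟨hpp, lt_of_le_of_lt ?_ hpY, hpX, ?_⟩
    · exact Real.rpow_le_rpow_of_exponent_le hX1' (by linarith)
    · unfold ml13_c cnt at hpc
      have h4 : Nat.card {I : Ideal (𝓞 F) // Ideal.absNorm I = p} ≠ 0 := by exact_mod_cast hpc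
      have h5 : Nonempty {I : Ideal (𝓞 F) // Ideal.absNorm I = p} := by
        by_contra hcon
        rw [not_nonempty_iff] at hcon
        exact h4 Nat.card_of_isEmpty
      obtain ⟨I, hI⟩ := h5
      exact ⟨I, hI⟩

end Pool.Agent.H20.ML
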