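import Pool.Agent.H20.ML.Exact
import Pool.Agent.H20.ML.Mertens
import Pool.Agent.H20.ML.Cover
import Pool.Agent.H20.ML.Bad

/-!
# Project ML, row ML-18: a place of degree at least two is ramified

`case_one`: for at least `X^(1-ε)` primes `p` there are a prime `𝔭` above `p` and small `a`, `b`
with `f (a/b)` exactly divisible by `𝔭`.
-/

set_option autoImplicit false

open Polynomial IsDedekindDomain NumberField Filter

namespace Pool.Agent.H20.ML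

open Pool.Agent.H35.AN

theorem ml18_lt (a b C : ℝ) (hab : a < b) : ∀ᶠ X : ℕ in atTop, C * (X : ℝ) ^ a < (X : ℝ) ^ b := by
  have h1 : Tendsto (fun X : ℕ => (X : ℝ) ^ (b - a)) atTop atTop :=
    (tendsto_rpow_atTop (sub_pos.2 hab)).comp tendsto_natCast_atTop_atTop
  filter_upwards [h1.eventually_gt_atTop C, eventually_gt_atTop 0] with X hX h0
  have hx : (0 : ℝ) < X := by exact_mod_cast h0
  have h2 : (X : ℝ) ^ b = (X : ℝ) ^ (b - a) * (X : ℝ) ^ a := by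
    rw [← Real.rpow_add hx]
    ring_nf
  rw [h2]
  exact mul_lt_mul_of_pos_right hX (Real.rpow_pos_of_pos hx a)

theorem ml18_num (m : ℕ) (hm : 0 < m) (ε : ℝ) (hε : 0 < ε) (C K : ℝ)
    (hK : 0 ≤ K) (Y : ℕ) :
    ∃ δ : ℝ, 0 < δ ∧ δ ≤ ε ∧ ∀ᶠ X : ℕ in atTop, ∃ H j : ℕ, 1 ≤ H ∧ H ≤ X ∧ 0 < j ∧
      X ≤ j * (H ^ (2 * m) - 1) + 1 ∧ (Y : ℝ) < (X : ℝ) ^ (1 - δ) ∧
      (X : ℝ) < ((X : ℝ) ^ (1 - δ)) ^ 2 ∧
      (X : ℝ) ^ (1 - ε) ≤ (X : ℝ) ^ (1 - δ) - C * (H : ℝ) ^ (2 * m) ∧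
      K * (j * H) ≤ (X : ℝ) ^ (1 / (2 * (m : ℝ)) + ε) ∧
      (K * (j * H)) ^ m < (X : ℝ) ^ (1 - δ) ∧
      (2 * (K * (j * H)) ^ 2) ^ m < ((X : ℝ) ^ (1 - δ)) ^ 2 ∧
      (X : ℝ) ^ (1 - ε) ≤ (X : ℝ) ^ (1 - δ) := by
  have hm' : (0 : ℝ) < m := by exact_mod_cast hm
  have hm1 : (1 : ℝ) ≤ m := by exact_mod_cast hm
  set δ : ℝ := min (ε / 4) (1 / (16 * m)) with hδ
  have hδ0 : 0 < δ := by
    rw [hδ]
    exact lt_min (by positivity) (by positivity)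
  have hδ1 : δ ≤ ε / 4 := min_le_left _ _
  have hδ2 : δ ≤ 1 / (16 * m) := min_le_right _ _
  have hδ3 : δ * m ≤ 1 / 16 := by
    have := mul_le_mul_of_nonneg_right hδ2 hm'.le
    have h2 : (1 : ℝ) / (16 * m) * m = 1 / 16 := by field_simp
    linarith
  have hδ4 : δ ≤ 1 / 16 := by nlinarith
  set e : ℝ := 3 * δ + (1 - 2 * δ) / (2 * m) with he
  have hem : e * m = 1 / 2 + 3 * (δ * m) - δ := by
    rw [he]
    field_simp
    ring
  have he1 : e < 1 / (2 * (m : ℝ)) + ε := by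
    have h1 : (1 - 2 * δ) / (2 * m) ≤ 1 / (2 * (m : ℝ)) :=
      div_le_div_of_nonneg_right (by linarith) (by positivity)
    rw [he]
    linarith
  refine ⟨δ, hδ0, by linarith, ?_⟩
  filter_upwards [eventually_ge_atTop 1, ml18_lt 0 (1 - 2 * δ) (2 * 4 ^ m) (by linarith),
    ml18_lt 1 (1 + δ) (2 * 4 ^ m) (by linarith), ml18_lt e (1 / (2 * (m : ℝ)) + ε) (2 * K) he1,
    ml18_lt (e * m) (1 - δ) ((2 * K) ^ m) (by rw [hem]; linarith),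
    ml18_lt (e * (2 * m)) ((1 - δ) * 2) ((8 * K ^ 2) ^ m)
      (by rw [show e * (2 * m) = 2 * (e * m) by ring, hem]; linarith),
    ml18_lt (1 - 2 * δ) (1 - δ) (2 * |C|) (by linarith),
    ml18_lt (1 - ε) (1 - δ) 2 (by linarith),
    ml18_lt 0 (1 - δ) Y (by linarith),
    ml18_lt 1 ((1 - δ) * 2) 1 (by linarith)] with X hX1 E1 E2 E3 E4 E5 E6 E7 E8 E9
  have hx1 : (1 : ℝ) ≤ X := by exact_mod_cast hX1
  have hx0 : (0 : ℝ) < X := by linarith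
  set y : ℝ := (X : ℝ) ^ ((1 - 2 * δ) / (2 * m)) with hy
  have hexp0 : 0 ≤ (1 - 2 * δ) / (2 * (m : ℝ)) := div_nonneg (by linarith) (by positivity)
  have hexp1 : (1 - 2 * δ) / (2 * (m : ℝ)) ≤ 1 := by
    rw [div_le_one (by positivity)]
    linarith
  have hy1 : 1 ≤ y := Real.one_le_rpow hx1 hexp0
  have hyx : y ≤ X := by
    calc y ≤ (X : ℝ) ^ (1 : ℝ) := Real.rpow_le_rpow_of_exponent_le hx1 hexp1
      _ = X := Real.rpow_one _
  set z : ℝ := (X : ℝ) ^ (3 * δ) with hz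
  have hz1 : 1 ≤ z := Real.one_le_rpow hx1 (by linarith)
  have hy2m : y ^ (2 * m) = (X : ℝ) ^ (1 - 2 * δ) := by
    rw [hy, ← Real.rpow_natCast, ← Real.rpow_mul hx0.le]
    congr 1
    push_cast
    field_simp
  have hH1 : 1 ≤ ⌊y⌋₊ := Nat.le_floor (by exact_mod_cast hy1)
  have hH1' : (1 : ℝ) ≤ (⌊y⌋₊ : ℝ) := by exact_mod_cast hH1
  have hHy : (⌊y⌋₊ : ℝ) ≤ y := Nat.floor_le (by linarith)
  have hyH : y / 2 ≤ (⌊y⌋₊ : ℝ) := by
    have := Nat.lt_floor_add_one y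
    linarith
  have hjz : z ≤ (⌈z⌉₊ : ℝ) := Nat.le_ceil z
  have hjz2 : (⌈z⌉₊ : ℝ) ≤ 2 * z := by
    have := Nat.ceil_lt_add_one (show (0 : ℝ) ≤ z by linarith)
    linarith
  have hj0 : 0 < ⌈z⌉₊ := Nat.ceil_pos.2 (by linarith)
  have hjH : (⌈z⌉₊ : ℝ) * (⌊y⌋₊ : ℝ) ≤ 2 * (X : ℝ) ^ e := by
    calc (⌈z⌉₊ : ℝ) * (⌊y⌋₊ : ℝ) ≤ (2 * z) * y :=
          mul_le_mul hjz2 hHy (by positivity) (by linarith)
      _ = 2 * (X : ℝ) ^ e := by
          rw [hz, hy, mul_assoc, ← Real.rpow_add hx0]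
  have hjH0 : (0 : ℝ) ≤ (⌈z⌉₊ : ℝ) * (⌊y⌋₊ : ℝ) := by positivity
  have hKjH : K * ((⌈z⌉₊ : ℝ) * (⌊y⌋₊ : ℝ)) ≤ 2 * K * (X : ℝ) ^ e := by
    calc K * ((⌈z⌉₊ : ℝ) * (⌊y⌋₊ : ℝ)) ≤ K * (2 * (X : ℝ) ^ e) :=
          mul_le_mul_of_nonneg_left hjH hK
      _ = _ := by ring
  have hKjH0 : 0 ≤ K * ((⌈z⌉₊ : ℝ) * (⌊y⌋₊ : ℝ)) := mul_nonneg hK hjH0
  have hHm : (X : ℝ) ^ (1 - 2 * δ) / 4 ^ m ≤ (⌊y⌋₊ : ℝ) ^ (2 * m) := by
    calc (X : ℝ) ^ (1 - 2 * δ) / 4 ^ m = (y / 2) ^ (2 * m) := by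
          rw [div_pow, hy2m, pow_mul (2 : ℝ)]
          norm_num
      _ ≤ _ := pow_le_pow_left₀ (by positivity) hyH _
  have h4 : (0 : ℝ) < 4 ^ m := by positivity
  refine ⟨⌊y⌋₊, ⌈z⌉₊, hH1, ?_, hj0, ?_, ?_, ?_, ?_, ?_, ?_, ?_, ?_⟩
  · exact_mod_cast hHy.trans hyx
  · have hge1 : 1 ≤ ⌊y⌋₊ ^ (2 * m) := Nat.one_le_pow _ _ (by omega)
    have hreal : (X : ℝ) ≤ (⌈z⌉₊ : ℝ) * ((⌊y⌋₊ : ℝ) ^ (2 * m) - 1) + 1 := by
      rw [Real.rpow_zero, mul_one] at E1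
      rw [Real.rpow_one] at E2
      have h5 : (X : ℝ) ^ (1 - 2 * δ) / (2 * 4 ^ m) ≤ (⌊y⌋₊ : ℝ) ^ (2 * m) - 1 := by
        have h6 : 1 ≤ (X : ℝ) ^ (1 - 2 * δ) / (2 * 4 ^ m) := by
          rw [le_div_iff₀ (by positivity)]
          linarith
        have h7 : (X : ℝ) ^ (1 - 2 * δ) / 4 ^ m = 2 * ((X : ℝ) ^ (1 - 2 * δ) / (2 * 4 ^ m)) := by
          field_simp
        linarith
      have h8 : (X : ℝ) ≤ z * ((X : ℝ) ^ (1 - 2 * δ) / (2 * 4 ^ m)) := by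
        rw [← mul_div_assoc, hz, ← Real.rpow_add hx0,
          show 3 * δ + (1 - 2 * δ) = 1 + δ by ring, le_div_iff₀ (by positivity)]
        linarith
      have h9 : z * ((X : ℝ) ^ (1 - 2 * δ) / (2 * 4 ^ m)) ≤
          (⌈z⌉₊ : ℝ) * ((⌊y⌋₊ : ℝ) ^ (2 * m) - 1) :=
        mul_le_mul hjz h5 (by positivity) (by positivity)
      linarith
    have hcast : ((⌈z⌉₊ * (⌊y⌋₊ ^ (2 * m) - 1) + 1 : ℕ) : ℝ) =
        (⌈z⌉₊ : ℝ) * ((⌊y⌋₊ : ℝ) ^ (2 * m) - 1) + 1 := by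
      push_cast [Nat.cast_sub hge1]
      ring
    exact_mod_cast hcast ▸ hreal
  · rw [Real.rpow_zero, mul_one] at E8
    exact E8
  · rw [Real.rpow_one, one_mul, Real.rpow_mul hx0.le] at E9
    exact_mod_cast E9
  · have h5 : C * (⌊y⌋₊ : ℝ) ^ (2 * m) ≤ |C| * (X : ℝ) ^ (1 - 2 * δ) := by
      calc C * (⌊y⌋₊ : ℝ) ^ (2 * m) ≤ |C| * (⌊y⌋₊ : ℝ) ^ (2 * m) :=
            mul_le_mul_of_nonneg_right (le_abs_self C) (by positivity)
        _ ≤ |C| * y ^ (2 * m) := mul_le_mul_of_nonneg_left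
            (pow_le_pow_left₀ (by positivity) hHy _) (abs_nonneg C)
        _ = _ := by rw [hy2m]
    have h6 : 0 < (X : ℝ) ^ (1 - ε) := Real.rpow_pos_of_pos hx0 _
    nlinarith
  · linarith
  · calc (K * ((⌈z⌉₊ : ℝ) * (⌊y⌋₊ : ℝ))) ^ m ≤ (2 * K * (X : ℝ) ^ e) ^ m :=
          pow_le_pow_left₀ hKjH0 hKjH _
      _ = (2 * K) ^ m * (X : ℝ) ^ (e * m) := by
          rw [mul_pow, Real.rpow_mul hx0.le, Real.rpow_natCast]
      _ < _ := E4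
  · calc (2 * (K * ((⌈z⌉₊ : ℝ) * (⌊y⌋₊ : ℝ))) ^ 2) ^ m ≤ (2 * (2 * K * (X : ℝ) ^ e) ^ 2) ^ m := by
          refine pow_le_pow_left₀ (by positivity) ?_ _
          have := pow_le_pow_left₀ hKjH0 hKjH 2
          linarith
      _ = (8 * K ^ 2) ^ m * (X : ℝ) ^ (e * (2 * m)) := by
          rw [show 2 * (2 * K * (X : ℝ) ^ e) ^ 2 = (8 * K ^ 2) * ((X : ℝ) ^ e) ^ 2 by ring,
            mul_pow, ← pow_mul, Real.rpow_mul hx0.le]
          congr 1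
          rw [← Real.rpow_natCast]
          push_cast
          rfl
      _ < (X : ℝ) ^ ((1 - δ) * 2) := E5
      _ = ((X : ℝ) ^ (1 - δ)) ^ 2 := by
          rw [Real.rpow_mul hx0.le]
          exact_mod_cast rfl
  · have h6 : 0 < (X : ℝ) ^ (1 - ε) := Real.rpow_pos_of_pos hx0 _
    linarith


theorem ml18_norm {k : Type} [Field k] [NumberField k] (x : 𝓞 k) (T : ℝ)
    (h : ∀ φ : k →+* ℂ, ‖φ (x : k)‖ ≤ T) :
    ((Algebra.norm ℤ x).natAbs : ℝ) ≤ T ^ Module.finrank ℚ k := by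
  have h1 : ((Algebra.norm ℤ x : ℤ) : ℚ) = Algebra.norm ℚ (x : k) := Algebra.coe_norm_int x
  have h2 := Algebra.norm_eq_prod_embeddings ℚ ℂ (x : k)
  have h3 : ((Algebra.norm ℤ x).natAbs : ℝ) = ‖algebraMap ℚ ℂ (Algebra.norm ℚ (x : k))‖ := by
    rw [← h1, Nat.cast_natAbs]
    simp
  rw [h3, h2, norm_prod]
  calc ∏ σ : k →ₐ[ℚ] ℂ, ‖σ (x : k)‖ ≤ ∏ _σ : k →ₐ[ℚ] ℂ, T :=
        Finset.prod_le_prod (fun _ _ => norm_nonneg _) (fun σ _ => h (σ : k →+* ℂ))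
    _ = T ^ Module.finrank ℚ k := by
        rw [Finset.prod_const, Finset.card_univ, AlgHom.card]

theorem ml18_mem {k : Type} [Field k] [NumberField k] (𝔭 : HeightOneSpectrum (𝓞 k)) (p e : ℕ)
    (h : Ideal.absNorm 𝔭.asIdeal = p) (x : 𝓞 k) (hx : x ≠ 0) (hm : x ∈ 𝔭.asIdeal ^ e) :
    p ^ e ≤ (Algebra.norm ℤ x).natAbs := by
  have h1 := Ideal.absNorm_dvd_absNorm_of_le ((Ideal.span_singleton_le_iff_mem _).2 hm)
  rw [map_pow, h, Ideal.absNorm_span_singleton] at h1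
  exact Nat.le_of_dvd (Int.natAbs_pos.2 (Algebra.norm_ne_zero_iff.2 hx)) h1

theorem ml18_half {k : Type} [Field k] [NumberField k] (x : 𝓞 k) (h : 2 * x = 1) : False := by
  obtain ⟨P, hP⟩ := exists_prime_over k Nat.prime_two
  apply P.isPrime.ne_top
  rw [Ideal.eq_top_iff_one, ← h]
  exact P.asIdeal.mul_mem_right _ (by simpa using hP)

/-- a solution of a linear congruence modulo `𝔭` -/
theorem ml18_bez {k : Type} [Field k] [NumberField k] (𝔭 : HeightOneSpectrum (𝓞 k)) (p : ℕ)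
    (hp : p.Prime) (h : Ideal.absNorm 𝔭.asIdeal = p) (M : ℕ) (hM : 0 < M) (hMp : M < p) (s : ℤ) :
    ∃ c : ℤ, (M : 𝓞 k) * c - s ∈ 𝔭.asIdeal := by
  have hpm : ((p : ℕ) : 𝓞 k) ∈ 𝔭.asIdeal := by
    rw [← h]
    exact Ideal.absNorm_mem _
  have hcop : IsCoprime (M : ℤ) (p : ℤ) := by
    rw [Nat.isCoprime_iff_coprime]
    exact (Nat.coprime_of_lt_prime (by omega) hMp hp).symm
  obtain ⟨A, B, hAB⟩ := hcop
  refine ⟨A * s, ?_⟩
  have h1 : (M : 𝓞 k) * ((A * s : ℤ) : 𝓞 k) - s = (p : 𝓞 k) * (-(B * s : ℤ) : 𝓞 k) := by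
    have h2 : ((A * M + B * p : ℤ) : 𝓞 k) = 1 := by rw [hAB, Int.cast_one]
    push_cast at h2 ⊢
    linear_combination (s : 𝓞 k) * h2
  rw [h1]
  exact 𝔭.asIdeal.mul_mem_right _ hpm

section

variable (k : Type) [Field k] [NumberField k]

theorem case_one (f : k[X]) (hf : Irreducible f) (hd : 2 ≤ f.natDegree) (M : ℕ) (hM : 0 < M)
    (τ : ℤ) (ε : ℝ) (hε : 0 < ε) :
    ∀ᶠ X : ℕ in atTop, ∃ S : Finset ℕ, (X : ℝ) ^ (1 - ε) ≤ (S.card : ℝ) ∧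
      ∀ p ∈ S, p.Prime ∧ (X : ℝ) ^ (1 - ε) < (p : ℝ) ∧ p ≤ X ∧
        ∃ (𝔭 : HeightOneSpectrum (𝓞 k)) (a b : 𝓞 k), (p : 𝓞 k) ∈ 𝔭.asIdeal ∧
          (M : 𝓞 k) ∣ a - τ ∧ (M : 𝓞 k) ∣ b - 1 ∧ b ≠ 0 ∧
          (∀ φ : k →+* ℂ, ‖φ (a : k)‖ ≤ (X : ℝ) ^ (1 / (2 * (Module.finrank ℚ k : ℝ)) + ε) ∧
            ‖φ (b : k)‖ ≤ (X : ℝ) ^ (1 / (2 * (Module.finrank ℚ k : ℝ)) + ε)) ∧
          Ge 𝔭 0 ((a : k) / (b : k)) ∧ ord 𝔭 (f.eval ((a : k) / (b : k))) = 1 := by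
  classical
  obtain ⟨Cs, hCs1, hCs⟩ := short_norm k
  obtain ⟨F, iF, nF, Y1, hY1⟩ := exists_root_of_norm k f hf
  obtain ⟨C2, Y2, hbad⟩ := few_bad k f hf hd
  obtain ⟨Y3, hexact⟩ := exact_one k f hf
  set m := Module.finrank ℚ k with hm
  have hm0 : 0 < m := Module.finrank_pos
  have hroot : ∀ t : k, f.eval t ≠ 0 := by
    intro t ht
    have h1 := Polynomial.degree_eq_one_of_irreducible_of_root hf ht
    have h2 := Polynomial.natDegree_eq_of_degree_eq_some (show f.degree = ((1 : ℕ) : WithBot ℕ) from h1)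
    omega
  set K : ℝ := |(τ : ℝ)| + M + 2 * M * Cs + 1 with hK
  have hK0 : 0 ≤ K := by positivity
  obtain ⟨δ, hδ0, hδε, hev⟩ := ml18_num m hm0 ε hε C2 K hK0 (Y1 + Y2 + Y3 + 2 * M)
  filter_upwards [hev, many_primes F δ hδ0] with X hX hS
  obtain ⟨H, j, hH1, hHX, hj, hjX, hYX, hXsq, hcard, hsize, hn1, hn2, hεδ⟩ := hX
  obtain ⟨S0, hS0c, hS0⟩ := hS
  set Bd : Set ℕ := {p : ℕ | p.Prime ∧ Y2 < p ∧ X < p ^ 2 ∧ p ≤ X ∧
        ∃ (𝔭 : HeightOneSpectrum (𝓞 k)) (r : ℤ), Ideal.absNorm 𝔭.asIdeal = p ∧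
          Ge 𝔭 1 (f.eval (r : k)) ∧ ∃ u v : 𝓞 k, Short H u ∧ Short H v ∧
            (u ≠ 0 ∨ v ≠ 0) ∧ u - r * v ∈ 𝔭.asIdeal} with hBd
  have hBfin : Bd.Finite := (Set.finite_Iic X).subset fun p hp => hp.2.2.2.1
  have hBc : Bd.ncard ≤ C2 * H ^ (2 * m) := hbad X H hH1 hHX
  refine ⟨S0.filter (fun p => p ∉ Bd), ?_, fun p hp => ?_⟩
  · have h1 : (S0.filter (fun p => p ∈ Bd)).card ≤ Bd.ncard := by
      rw [← Set.ncard_coe_finset]
      exact Set.ncard_le_ncard (fun p hp => by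
        have := Finset.mem_coe.1 hp
        exact (Finset.mem_filter.1 this).2) hBfin
    have h2 := Finset.card_filter_add_card_filter_not (s := S0) (fun p => p ∈ Bd)
    have h3 : ((S0.filter (fun p => p ∈ Bd)).card : ℝ) ≤ C2 * (H : ℝ) ^ (2 * m) := by
      exact_mod_cast h1.trans hBc
    have h4 : (S0.card : ℝ) = ((S0.filter (fun p => p ∈ Bd)).card : ℝ) +
        ((S0.filter (fun p => p ∉ Bd)).card : ℝ) := by
      exact_mod_cast h2.symm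
    linarith
  · rw [Finset.mem_filter] at hp
    obtain ⟨hpS, hpB⟩ := hp
    obtain ⟨hpp, hpX, hpX', hI⟩ := hS0 p hpS
    have hYp : ((Y1 + Y2 + Y3 + 2 * M : ℕ) : ℝ) < (p : ℝ) := hYX.trans hpX
    have hYp' : Y1 + Y2 + Y3 + 2 * M < p := by exact_mod_cast hYp
    obtain ⟨𝔭, r, h𝔭, hr⟩ := hY1 p hpp (by omega) hI
    have hppos : (0 : ℝ) ≤ (X : ℝ) ^ (1 - δ) := Real.rpow_nonneg (Nat.cast_nonneg X) _
    have hsq : X < p ^ 2 := by
      have h1 : ((X : ℝ) ^ (1 - δ)) ^ 2 ≤ (p : ℝ) ^ 2 := pow_le_pow_left₀ hppos hpX.le 2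
      have h2 : (X : ℝ) < (p : ℝ) ^ 2 := lt_of_lt_of_le hXsq h1
      exact_mod_cast h2
    have hs : ∀ u v : 𝓞 k, Short H u → Short H v → u - r * v ∈ 𝔭.asIdeal → u = 0 ∧ v = 0 := by
      intro u v hu hv huv
      by_contra hne
      apply hpB
      refine ⟨hpp, by omega, hsq, hpX', 𝔭, r, h𝔭, hr, u, v, hu, hv, ?_, huv⟩
      by_contra hne2
      push Not at hne2
      exact hne hne2
    have hjp : p ≤ j * (H ^ (2 * m) - 1) + 1 := hpX'.trans hjX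
    have hpm : ((p : ℕ) : 𝓞 k) ∈ 𝔭.asIdeal := by
      rw [← h𝔭]
      exact Ideal.absNorm_mem _
    obtain ⟨c, hc⟩ := ml18_bez 𝔭 p hpp h𝔭 (2 * M) (by omega) (by omega) (r - τ)
    obtain ⟨c', hc'⟩ := ml18_bez 𝔭 p hpp h𝔭 (2 * M) (by omega) (by omega) (r - τ - M)
    obtain ⟨u, v, hu, hv, huv⟩ := cover_two k hpp 𝔭 h𝔭 r H j hj hjp hs (c : 𝓞 k)
    obtain ⟨u', v', hu', hv', huv'⟩ := cover_two k hpp 𝔭 h𝔭 r H j hj hjp hs (c' : 𝓞 k)
    have hjH1 : (1 : ℝ) ≤ (j : ℝ) * (H : ℝ) := by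
      have : 1 ≤ j * H := Nat.mul_pos hj hH1
      exact_mod_cast this
    have hsz : ∀ (w : 𝓞 k), Short (j * H) w → ∀ φ : k →+* ℂ, ‖φ (w : k)‖ ≤ Cs * (j * H) := by
      intro w hw φ
      have := hCs (j * H) w hw φ
      push_cast at this
      exact this
    -- the general bound
    have hgen : ∀ (s : ℤ) (w : 𝓞 k), |(s : ℝ)| ≤ |(τ : ℝ)| + M + 1 → Short (j * H) w →
        ∀ φ : k →+* ℂ, ‖φ ((((s : 𝓞 k) + (2 * M : ℕ) * w : 𝓞 k)) : k)‖ ≤ K * (j * H) := by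
      intro s w hs' hw φ
      have h1 : φ ((((s : 𝓞 k) + (2 * M : ℕ) * w : 𝓞 k)) : k) = (s : ℂ) + (2 * M) * φ (w : k) := by
        simp [map_ofNat]
      rw [h1]
      calc ‖(s : ℂ) + (2 * M) * φ (w : k)‖ ≤ ‖(s : ℂ)‖ + ‖(2 * M : ℂ) * φ (w : k)‖ := norm_add_le _ _
        _ = |(s : ℝ)| + 2 * M * ‖φ (w : k)‖ := by
            rw [norm_mul]
            congr 1
            · exact Complex.norm_intCast s
            · simp
        _ ≤ (|(τ : ℝ)| + M + 1) * (j * H) + 2 * M * (Cs * (j * H)) := by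
            refine add_le_add ?_ ?_
            · nlinarith [abs_nonneg (τ : ℝ)]
            · exact mul_le_mul_of_nonneg_left (hsz w hw φ) (by positivity)
        _ = K * (j * H) := by
            rw [hK]
            ring
    have hτb : |((τ : ℤ) : ℝ)| ≤ |(τ : ℝ)| + M + 1 := by
      have : (0 : ℝ) ≤ M := Nat.cast_nonneg M
      linarith
    have h1b : |((1 : ℤ) : ℝ)| ≤ |(τ : ℝ)| + M + 1 := by
      have : (0 : ℝ) ≤ M := Nat.cast_nonneg M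
      have h2 := abs_nonneg (τ : ℝ)
      simp
      linarith
    have hτMb : |((τ + M : ℤ) : ℝ)| ≤ |(τ : ℝ)| + M + 1 := by
      push_cast
      have h2 := abs_add_le (τ : ℝ) (M : ℝ)
      rw [Nat.abs_cast] at h2
      linarith
    set a : 𝓞 k := ((τ : ℤ) : 𝓞 k) + (2 * M : ℕ) * u with ha
    set b : 𝓞 k := ((1 : ℤ) : 𝓞 k) + (2 * M : ℕ) * v with hb
    set a' : 𝓞 k := ((τ + M : ℤ) : 𝓞 k) + (2 * M : ℕ) * u' with ha'
    set b' : 𝓞 k := ((1 : ℤ) : 𝓞 k) + (2 * M : ℕ) * v' with hb'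
    have hba := hgen τ u hτb hu
    have hbb := hgen 1 v h1b hv
    have hba' := hgen (τ + M) u' hτMb hu'
    have hbb' := hgen 1 v' h1b hv'
    rw [← ha] at hba
    rw [← hb] at hbb
    rw [← ha'] at hba'
    rw [← hb'] at hbb'
    -- congruences
    have hcong : a - r * b ∈ 𝔭.asIdeal := by
      have h1 : a - r * b = ((2 * M : ℕ) : 𝓞 k) * (u - r * v - c) +
          (((2 * M : ℕ) : 𝓞 k) * c - ((r - τ : ℤ) : 𝓞 k)) := by
        rw [ha, hb]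
        push_cast
        ring
      rw [h1]
      exact 𝔭.asIdeal.add_mem (𝔭.asIdeal.mul_mem_left _ huv) hc
    have hcong' : a' - r * b' ∈ 𝔭.asIdeal := by
      have h1 : a' - r * b' = ((2 * M : ℕ) : 𝓞 k) * (u' - r * v' - c') +
          (((2 * M : ℕ) : 𝓞 k) * c' - ((r - τ - M : ℤ) : 𝓞 k)) := by
        rw [ha', hb']
        push_cast
        ring
      rw [h1]
      exact 𝔭.asIdeal.add_mem (𝔭.asIdeal.mul_mem_left _ huv') hc'
    -- nonvanishing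
    have hb0 : ∀ w : 𝓞 k, ((1 : ℤ) : 𝓞 k) + (2 * M : ℕ) * w ≠ 0 := by
      intro w hw
      apply ml18_half (-(M : 𝓞 k) * w)
      push_cast at hw
      linear_combination (-1 : 𝓞 k) * hw
    have hbne : b ≠ 0 := hb0 v
    have hbne' : b' ≠ 0 := hb0 v'
    have hnot : ∀ w : 𝓞 k, w ≠ 0 → (∀ φ : k →+* ℂ, ‖φ (w : k)‖ ≤ K * (j * H)) →
        w ∉ 𝔭.asIdeal := by
      intro w hw0 hw hmem
      have h1 := ml18_mem 𝔭 p 1 h𝔭 w hw0 (by rwa [pow_one])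
      have h2 := ml18_norm w _ hw
      have h3 : (p : ℝ) ≤ ((Algebra.norm ℤ w).natAbs : ℝ) := by
        rw [pow_one] at h1
        exact_mod_cast h1
      linarith
    have hdet0 : a * b' - a' * b ≠ 0 := by
      intro h0
      have h1 : (M : 𝓞 k) * (1 + 2 * (-(u + τ * v' + 2 * M * u * v') +
          (u' + (τ + M) * v + 2 * M * u' * v))) = 0 := by
        rw [ha, hb, ha', hb'] at h0
        push_cast at h0
        linear_combination (-1 : 𝓞 k) * h0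
      rcases mul_eq_zero.1 h1 with h2 | h2
      · have : (M : ℤ) = 0 := by exact_mod_cast h2
        omega
      · apply ml18_half (-(-(u + (τ : 𝓞 k) * v' + 2 * (M : 𝓞 k) * u * v') +
          (u' + ((τ : 𝓞 k) + (M : 𝓞 k)) * v + 2 * (M : 𝓞 k) * u' * v)))
        linear_combination (-1 : 𝓞 k) * h2
    have hKjH0 : 0 ≤ K * ((j : ℝ) * H) := by positivity
    have hdet : a * b' - a' * b ∉ 𝔭.asIdeal ^ 2 := by
      intro hmem
      have h1 := ml18_mem 𝔭 p 2 h𝔭 _ hdet0 hmem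
      have h2 := ml18_norm (a * b' - a' * b) (2 * (K * (j * H)) ^ 2) (by
        intro φ
        have h3 : φ (((a * b' - a' * b : 𝓞 k)) : k) = φ (a : k) * φ (b' : k) -
            φ (a' : k) * φ (b : k) := by
          simp
        rw [h3]
        calc _ ≤ ‖φ (a : k) * φ (b' : k)‖ + ‖φ (a' : k) * φ (b : k)‖ := norm_sub_le _ _
          _ ≤ (K * (j * H)) * (K * (j * H)) + (K * (j * H)) * (K * (j * H)) := by
              rw [norm_mul, norm_mul]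
              exact add_le_add
                (mul_le_mul (hba φ) (hbb' φ) (norm_nonneg _) hKjH0)
                (mul_le_mul (hba' φ) (hbb φ) (norm_nonneg _) hKjH0)
          _ = _ := by ring)
      have h3 : ((X : ℝ) ^ (1 - δ)) ^ 2 ≤ (p : ℝ) ^ 2 := pow_le_pow_left₀ hppos hpX.le 2
      have h4 : (p : ℝ) ^ 2 ≤ ((Algebra.norm ℤ (a * b' - a' * b)).natAbs : ℝ) := by
        exact_mod_cast h1
      linarith
    have hfin : ∀ (x y : 𝓞 k), y ≠ 0 → y ∉ 𝔭.asIdeal → Ge 𝔭 0 ((x : k) / (y : k)) := by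
      intro x y hy0 hy
      by_cases hx : x = 0
      · rw [hx]
        simp only [map_zero, zero_div]
        exact ge_zero 𝔭 0
      · have hx' : (x : k) ≠ 0 := by simpa using hx
        have hy' : (y : k) ≠ 0 := by simpa using hy0
        rw [ge_iff 𝔭 (div_ne_zero hx' hy'), ord_div 𝔭 hx' hy', an1_ord_coe_eq_zero 𝔭 hy, sub_zero,
          ← ge_iff 𝔭 hx']
        exact an1_ge_coe 𝔭 x
    have hbnot := hnot b hbne hbb
    have hbnot' := hnot b' hbne' hbb'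
    refine ⟨hpp, lt_of_le_of_lt hεδ hpX, hpX', 𝔭, ?_⟩
    rcases hexact p 𝔭 r a b a' b' hpp (by omega) h𝔭 hr hcong hcong' hbnot hbnot' hdet
      (hroot _) (hroot _) with hord | hord
    · refine ⟨a, b, hpm, ⟨2 * u, ?_⟩, ⟨2 * v, ?_⟩, hbne,
        fun φ => ⟨(hba φ).trans hsize, (hbb φ).trans hsize⟩, hfin a b hbne hbnot, hord⟩
      · rw [ha]
        push_cast
        ring
      · rw [hb]
        push_cast
        ring
    · refine ⟨a', b', hpm, ⟨1 + 2 * u', ?_⟩, ⟨2 * v', ?_⟩, hbne',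
        fun φ => ⟨(hba' φ).trans hsize, (hbb' φ).trans hsize⟩, hfin a' b' hbne' hbnot', hord⟩
      · rw [ha']
        push_cast
        ring
      · rw [hb']
        push_cast
        ring

end

end Pool.Agent.H20.ML
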