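import Pool.Agent.H20.ML.CaseOne

/-!
# Project ML, row ML-19: two rational places are ramified

`case_two`: for at least `X^(2-ε)` pairs of primes `p`, `p'` there are primes `𝔭`, `𝔭'` above
them and small `a`, `b` with `a/b - c₁` exactly divisible by `𝔭` and `a/b - c₂` exactly divisible
by `𝔭'`.
-/

set_option autoImplicit false

open Polynomial IsDedekindDomain NumberField Filter

namespace Pool.Agent.H20.ML

open Pool.Agent.H35.AN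

theorem ml19_num (m : ℕ) (hm : 0 < m) (ε : ℝ) (hε : 0 < ε) (C K : ℝ)
    (hC : 0 ≤ C) (hK : 0 ≤ K) (Y : ℕ) :
    ∃ δ : ℝ, 0 < δ ∧ δ ≤ ε ∧ ∀ᶠ X : ℕ in atTop, ∃ H j : ℕ, 1 ≤ H ∧ 0 < j ∧
      X ≤ j * (H ^ m - 1) + 1 ∧ (Y : ℝ) < (X : ℝ) ^ (1 - δ) ∧
      (C * H) ^ m < (X : ℝ) ^ (1 - δ) ∧
      K * (j * H) ≤ (X : ℝ) ^ (1 / (m : ℝ) + ε) ∧
      (K * (j * H)) ^ m < ((X : ℝ) ^ (1 - δ)) ^ 2 ∧
      1 ≤ (X : ℝ) ^ (1 - δ) ∧
      (X : ℝ) ^ (2 - ε) ≤ (X : ℝ) ^ (1 - δ) * ((X : ℝ) ^ (1 - δ) - 1) ∧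
      (X : ℝ) ^ (1 - ε) ≤ (X : ℝ) ^ (1 - δ) := by
  have hm' : (0 : ℝ) < m := by exact_mod_cast hm
  have hm1 : (1 : ℝ) ≤ m := by exact_mod_cast hm
  set δ : ℝ := min (ε / 4) (1 / (16 * m)) with hδ
  have hδ0 : 0 < δ := by
    rw [hδ]
    exact lt_min (by positivity) (by positivity)
  have hδ1 : δ ≤ ε / 4 := min_le_left _ _
  have hδ2 : δ ≤ 1 / (16 * m) := min_le_right _ _
  have hδ3 : δ * m ≤ 1 / 16 := by
    have := mul_le_mul_of_nonneg_right hδ2 hm'.le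
    have h2 : (1 : ℝ) / (16 * m) * m = 1 / 16 := by field_simp
    linarith
  have hδ4 : δ ≤ 1 / 16 := by nlinarith
  set e : ℝ := 3 * δ + (1 - 2 * δ) / m with he
  have hem : e * m = 1 + 3 * (δ * m) - 2 * δ := by
    rw [he]
    field_simp
    ring
  have he1 : e < 1 / (m : ℝ) + ε := by
    have h1 : (1 - 2 * δ) / m ≤ 1 / (m : ℝ) :=
      div_le_div_of_nonneg_right (by linarith) (by positivity)
    rw [he]
    linarith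
  refine ⟨δ, hδ0, by linarith, ?_⟩
  filter_upwards [eventually_ge_atTop 1, ml18_lt 0 (1 - 2 * δ) (2 * 2 ^ m) (by linarith),
    ml18_lt 1 (1 + δ) (2 * 2 ^ m) (by linarith), ml18_lt e (1 / (m : ℝ) + ε) (2 * K) he1,
    ml18_lt (1 - 2 * δ) (1 - δ) (C ^ m) (by linarith),
    ml18_lt (e * m) ((1 - δ) * 2) ((2 * K) ^ m) (by rw [hem]; linarith),
    ml18_lt (2 - ε) ((1 - δ) * 2) 2 (by linarith),
    ml18_lt (1 - ε) (1 - δ) 1 (by linarith),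
    ml18_lt 0 (1 - δ) Y (by linarith),
    ml18_lt 0 (1 - δ) 2 (by linarith)] with X hX1 E1 E2 E3 E4 E5 E6 E7 E8 E9
  have hx1 : (1 : ℝ) ≤ X := by exact_mod_cast hX1
  have hx0 : (0 : ℝ) < X := by linarith
  set y : ℝ := (X : ℝ) ^ ((1 - 2 * δ) / m) with hy
  have hexp0 : 0 ≤ (1 - 2 * δ) / (m : ℝ) := div_nonneg (by linarith) (by positivity)
  have hy1 : 1 ≤ y := Real.one_le_rpow hx1 hexp0
  set z : ℝ := (X : ℝ) ^ (3 * δ) with hz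
  have hz1 : 1 ≤ z := Real.one_le_rpow hx1 (by linarith)
  have hym : y ^ m = (X : ℝ) ^ (1 - 2 * δ) := by
    rw [hy, ← Real.rpow_natCast, ← Real.rpow_mul hx0.le]
    congr 1
    field_simp
  have hH1 : 1 ≤ ⌊y⌋₊ := Nat.le_floor (by exact_mod_cast hy1)
  have hH1' : (1 : ℝ) ≤ (⌊y⌋₊ : ℝ) := by exact_mod_cast hH1
  have hHy : (⌊y⌋₊ : ℝ) ≤ y := Nat.floor_le (by linarith)
  have hyH : y / 2 ≤ (⌊y⌋₊ : ℝ) := by
    have := Nat.lt_floor_add_one y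
    linarith
  have hjz : z ≤ (⌈z⌉₊ : ℝ) := Nat.le_ceil z
  have hjz2 : (⌈z⌉₊ : ℝ) ≤ 2 * z := by
    have := Nat.ceil_lt_add_one (show (0 : ℝ) ≤ z by linarith)
    linarith
  have hj0 : 0 < ⌈z⌉₊ := Nat.ceil_pos.2 (by linarith)
  have hjH : (⌈z⌉₊ : ℝ) * (⌊y⌋₊ : ℝ) ≤ 2 * (X : ℝ) ^ e := by
    calc (⌈z⌉₊ : ℝ) * (⌊y⌋₊ : ℝ) ≤ (2 * z) * y :=
          mul_le_mul hjz2 hHy (by positivity) (by linarith)
      _ = 2 * (X : ℝ) ^ e := by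
          rw [hz, hy, mul_assoc, ← Real.rpow_add hx0]
  have hjH0 : (0 : ℝ) ≤ (⌈z⌉₊ : ℝ) * (⌊y⌋₊ : ℝ) := by positivity
  have hKjH : K * ((⌈z⌉₊ : ℝ) * (⌊y⌋₊ : ℝ)) ≤ 2 * K * (X : ℝ) ^ e := by
    calc K * ((⌈z⌉₊ : ℝ) * (⌊y⌋₊ : ℝ)) ≤ K * (2 * (X : ℝ) ^ e) :=
          mul_le_mul_of_nonneg_left hjH hK
      _ = _ := by ring
  have hKjH0 : 0 ≤ K * ((⌈z⌉₊ : ℝ) * (⌊y⌋₊ : ℝ)) := mul_nonneg hK hjH0
  have hHm : (X : ℝ) ^ (1 - 2 * δ) / 2 ^ m ≤ (⌊y⌋₊ : ℝ) ^ m := by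
    calc (X : ℝ) ^ (1 - 2 * δ) / 2 ^ m = (y / 2) ^ m := by
          rw [div_pow, hym]
      _ ≤ _ := pow_le_pow_left₀ (by positivity) hyH _
  have h4 : (0 : ℝ) < 2 ^ m := by positivity
  refine ⟨⌊y⌋₊, ⌈z⌉₊, hH1, hj0, ?_, ?_, ?_, ?_, ?_, ?_, ?_, ?_⟩
  · have hge1 : 1 ≤ ⌊y⌋₊ ^ m := Nat.one_le_pow _ _ (by omega)
    have hreal : (X : ℝ) ≤ (⌈z⌉₊ : ℝ) * ((⌊y⌋₊ : ℝ) ^ m - 1) + 1 := by
      rw [Real.rpow_zero, mul_one] at E1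
      rw [Real.rpow_one] at E2
      have h5 : (X : ℝ) ^ (1 - 2 * δ) / (2 * 2 ^ m) ≤ (⌊y⌋₊ : ℝ) ^ m - 1 := by
        have h6 : 1 ≤ (X : ℝ) ^ (1 - 2 * δ) / (2 * 2 ^ m) := by
          rw [le_div_iff₀ (by positivity)]
          linarith
        have h7 : (X : ℝ) ^ (1 - 2 * δ) / 2 ^ m = 2 * ((X : ℝ) ^ (1 - 2 * δ) / (2 * 2 ^ m)) := by
          field_simp
        linarith
      have h8 : (X : ℝ) ≤ z * ((X : ℝ) ^ (1 - 2 * δ) / (2 * 2 ^ m)) := by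
        rw [← mul_div_assoc, hz, ← Real.rpow_add hx0,
          show 3 * δ + (1 - 2 * δ) = 1 + δ by ring, le_div_iff₀ (by positivity)]
        linarith
      have h9 : z * ((X : ℝ) ^ (1 - 2 * δ) / (2 * 2 ^ m)) ≤
          (⌈z⌉₊ : ℝ) * ((⌊y⌋₊ : ℝ) ^ m - 1) :=
        mul_le_mul hjz h5 (by positivity) (by positivity)
      linarith
    have hcast : ((⌈z⌉₊ * (⌊y⌋₊ ^ m - 1) + 1 : ℕ) : ℝ) =
        (⌈z⌉₊ : ℝ) * ((⌊y⌋₊ : ℝ) ^ m - 1) + 1 := by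
      push_cast [Nat.cast_sub hge1]
      ring
    exact_mod_cast hcast ▸ hreal
  · rw [Real.rpow_zero, mul_one] at E8
    exact E8
  · calc (C * (⌊y⌋₊ : ℝ)) ^ m ≤ (C * y) ^ m :=
          pow_le_pow_left₀ (by positivity) (mul_le_mul_of_nonneg_left hHy hC) _
      _ = C ^ m * (X : ℝ) ^ (1 - 2 * δ) := by rw [mul_pow, hym]
      _ < _ := E4
  · linarith
  · calc (K * ((⌈z⌉₊ : ℝ) * (⌊y⌋₊ : ℝ))) ^ m ≤ (2 * K * (X : ℝ) ^ e) ^ m :=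
          pow_le_pow_left₀ hKjH0 hKjH _
      _ = (2 * K) ^ m * (X : ℝ) ^ (e * m) := by
          rw [mul_pow, Real.rpow_mul hx0.le, Real.rpow_natCast]
      _ < (X : ℝ) ^ ((1 - δ) * 2) := E5
      _ = ((X : ℝ) ^ (1 - δ)) ^ 2 := by
          rw [Real.rpow_mul hx0.le]
          exact_mod_cast rfl
  · rw [Real.rpow_zero, mul_one] at E9
    linarith
  · have h5 : (X : ℝ) ^ ((1 - δ) * 2) = (X : ℝ) ^ (1 - δ) * (X : ℝ) ^ (1 - δ) := by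
      rw [← Real.rpow_add hx0]
      ring_nf
    rw [h5] at E6
    rw [Real.rpow_zero, mul_one] at E9
    have h6 : 0 ≤ (X : ℝ) ^ (1 - δ) * ((X : ℝ) ^ (1 - δ) - 2) :=
      mul_nonneg (by linarith) (by linarith)
    nlinarith
  · rw [one_mul] at E7
    exact E7.le

section

variable {k : Type} [Field k] [NumberField k]

/-- the sum of the absolute values of the conjugates -/
noncomputable def ml19B (x : 𝓞 k) : ℝ := ∑ φ : k →+* ℂ, ‖φ (x : k)‖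

theorem ml19B_nonneg (x : 𝓞 k) : 0 ≤ ml19B x := Finset.sum_nonneg fun _ _ => norm_nonneg _

theorem ml19B_le (x : 𝓞 k) (φ : k →+* ℂ) : ‖φ (x : k)‖ ≤ ml19B x :=
  Finset.single_le_sum (f := fun φ : k →+* ℂ => ‖φ (x : k)‖) (fun _ _ => norm_nonneg _)
    (Finset.mem_univ φ)

/-- a small solution of `α + β u = 0` modulo `𝔭` that is not a solution over `k` -/
theorem ml19_sel (Cs : ℝ) (hCs1 : 1 ≤ Cs)
    (hCs : ∀ (H : ℕ) (u : 𝓞 k), Short H u → ∀ φ : k →+* ℂ, ‖φ (u : k)‖ ≤ Cs * H)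
    (α β : 𝓞 k) (hβ : β ≠ 0) {p : ℕ} (hp : p.Prime) (𝔭 : HeightOneSpectrum (𝓞 k))
    (h𝔭 : Ideal.absNorm 𝔭.asIdeal = p) (hβp : 2 * β ∉ 𝔭.asIdeal) (H j : ℕ) (hH : 1 ≤ H)
    (hj : 0 < j) (hjp : p ≤ j * (H ^ (Module.finrank ℚ k) - 1) + 1)
    (hHp : (Cs * H) ^ (Module.finrank ℚ k) < (p : ℝ)) :
    ∃ u : 𝓞 k, (∀ φ : k →+* ℂ, ‖φ (u : k)‖ ≤ 3 * Cs * (j * H)) ∧ α + β * u ∈ 𝔭.asIdeal ∧
      α + β * u ≠ 0 := by
  have hs : ∀ u : 𝓞 k, Short H u → u ∈ 𝔭.asIdeal → u = 0 := by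
    intro u hu hmem
    by_contra h0
    have h1 := ml18_mem 𝔭 p 1 h𝔭 u h0 (by rwa [pow_one])
    have h2 := ml18_norm u _ (hCs H u hu)
    have h3 : (p : ℝ) ≤ ((Algebra.norm ℤ u).natAbs : ℝ) := by
      rw [pow_one] at h1
      exact_mod_cast h1
    linarith
  have hjH1 : (1 : ℝ) ≤ (j : ℝ) * (H : ℝ) := by
    have : 1 ≤ j * H := Nat.mul_pos hj hH
    exact_mod_cast this
  have hmax : 𝔭.asIdeal.IsMaximal := 𝔭.isPrime.isMaximal 𝔭.ne_bot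
  obtain ⟨y, i, hi, hy⟩ := hmax.exists_inv hβp
  have hsz : ∀ (w : 𝓞 k), Short (j * H) w → ∀ φ : k →+* ℂ, ‖φ (w : k)‖ ≤ Cs * (j * H) := by
    intro w hw φ
    have := hCs (j * H) w hw φ
    push_cast at this
    exact this
  obtain ⟨u₀, hu₀, hc₀⟩ := cover_one k hp 𝔭 h𝔭 H j hj hjp hs (-(y * α))
  obtain ⟨u₁, hu₁, hc₁⟩ := cover_one k hp 𝔭 h𝔭 H j hj hjp hs (-(y * (α + β)))
  have hm0 : α + β * (2 * u₀) ∈ 𝔭.asIdeal := by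
    have h1 : α + β * (2 * u₀) = (2 * β) * (u₀ - -(y * α)) + α * i := by
      linear_combination (-α) * hy
    rw [h1]
    exact 𝔭.asIdeal.add_mem (𝔭.asIdeal.mul_mem_left _ hc₀) (𝔭.asIdeal.mul_mem_left _ hi)
  have hm1 : α + β * (1 + 2 * u₁) ∈ 𝔭.asIdeal := by
    have h1 : α + β * (1 + 2 * u₁) = (2 * β) * (u₁ - -(y * (α + β))) + (α + β) * i := by
      linear_combination (-(α + β)) * hy
    rw [h1]
    exact 𝔭.asIdeal.add_mem (𝔭.asIdeal.mul_mem_left _ hc₁) (𝔭.asIdeal.mul_mem_left _ hi)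
  by_cases h0 : α + β * (2 * u₀) = 0
  · refine ⟨1 + 2 * u₁, fun φ => ?_, hm1, fun h1 => ?_⟩
    · have h1 : φ (((1 + 2 * u₁ : 𝓞 k)) : k) = 1 + 2 * φ (u₁ : k) := by
        simp [map_ofNat]
      rw [h1]
      calc ‖(1 : ℂ) + 2 * φ (u₁ : k)‖ ≤ ‖(1 : ℂ)‖ + ‖(2 : ℂ) * φ (u₁ : k)‖ := norm_add_le _ _
        _ = 1 + 2 * ‖φ (u₁ : k)‖ := by
            rw [norm_mul]
            simp
        _ ≤ Cs * (j * H) + 2 * (Cs * (j * H)) := by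
            refine add_le_add ?_ ?_
            · nlinarith
            · exact mul_le_mul_of_nonneg_left (hsz u₁ hu₁ φ) (by norm_num)
        _ = _ := by ring
    · have h2 : β * (2 * (u₀ - u₁) - 1) = 0 := by
        linear_combination h0 - h1
      rcases mul_eq_zero.1 h2 with h3 | h3
      · exact hβ h3
      · exact ml18_half (u₀ - u₁) (by linear_combination h3)
  · refine ⟨2 * u₀, fun φ => ?_, hm0, h0⟩
    have h1 : φ (((2 * u₀ : 𝓞 k)) : k) = 2 * φ (u₀ : k) := by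
      simp [map_ofNat]
    rw [h1]
    calc ‖2 * φ (u₀ : k)‖ = 2 * ‖φ (u₀ : k)‖ := by
          rw [norm_mul]
          simp
      _ ≤ 2 * (Cs * (j * H)) := mul_le_mul_of_nonneg_left (hsz u₀ hu₀ φ) (by norm_num)
      _ ≤ _ := by
          have : 0 ≤ Cs * ((j : ℝ) * H) := by positivity
          linarith

theorem ml19_two (𝔭 𝔮 : HeightOneSpectrum (𝓞 k)) {p q : ℕ} (hp : p.Prime) (hq : q.Prime)
    (hpq : p ≠ q) (h𝔭 : Ideal.absNorm 𝔭.asIdeal = p) (h𝔮 : Ideal.absNorm 𝔮.asIdeal = q)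
    (x : 𝓞 k) (hx : x ≠ 0) (h1 : x ∈ 𝔭.asIdeal) (h2 : x ∈ 𝔮.asIdeal) :
    p * q ≤ (Algebra.norm ℤ x).natAbs := by
  have e1 := Ideal.absNorm_dvd_absNorm_of_le ((Ideal.span_singleton_le_iff_mem _).2 h1)
  have e2 := Ideal.absNorm_dvd_absNorm_of_le ((Ideal.span_singleton_le_iff_mem _).2 h2)
  rw [h𝔭, Ideal.absNorm_span_singleton] at e1
  rw [h𝔮, Ideal.absNorm_span_singleton] at e2
  refine Nat.le_of_dvd (Int.natAbs_pos.2 (Algebra.norm_ne_zero_iff.2 hx)) ?_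
  exact Nat.Coprime.mul_dvd_of_dvd_of_dvd ((Nat.coprime_primes hp hq).2 hpq) e1 e2

theorem ml19_exact (𝔭 : HeightOneSpectrum (𝓞 k)) {p : ℕ} (h𝔭 : Ideal.absNorm 𝔭.asIdeal = p)
    (x : 𝓞 k) (hx : x ≠ 0) (h1 : x ∈ 𝔭.asIdeal) (h2 : (Algebra.norm ℤ x).natAbs < p ^ 2) :
    ord 𝔭 (x : k) = 1 := by
  have hx' : (x : k) ≠ 0 := by simpa using hx
  have h3 := (mem_iff_ge_one 𝔭 x).1 h1
  rw [ge_iff 𝔭 hx'] at h3
  have h4 : ¬ (2 : ℤ) ≤ ord 𝔭 (x : k) := by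
    intro h4
    have h5 := (mem_pow_iff 𝔭 x 2).2 ((ge_iff 𝔭 hx').2 (by exact_mod_cast h4))
    have h6 := ml18_mem 𝔭 p 2 h𝔭 x hx h5
    omega
  omega

theorem ml19_prime {p : ℕ} (hp : p.Prime) (I : Ideal (𝓞 k)) (hI : Ideal.absNorm I = p) :
    ∃ 𝔭 : HeightOneSpectrum (𝓞 k), Ideal.absNorm 𝔭.asIdeal = p := by
  have h1 : I.IsPrime := Ideal.isPrime_of_irreducible_absNorm (by rw [hI]; exact hp)
  have h2 : I ≠ ⊥ := by
    rintro rfl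
    rw [Ideal.absNorm_bot] at hI
    exact hp.ne_zero hI.symm
  exact ⟨⟨I, h1, h2⟩, hI⟩

theorem ml19_ord (𝔭 : HeightOneSpectrum (𝓞 k)) (a b d γ : 𝓞 k) (c : k)
    (hdc : (d : k) * c = (γ : k)) (hd : d ∉ 𝔭.asIdeal) (hb : b ∉ 𝔭.asIdeal)
    (hA0 : d * a - γ * b ≠ 0) (hA : ord 𝔭 ((d * a - γ * b : 𝓞 k) : k) = 1) :
    Ge 𝔭 0 ((a : k) / (b : k)) ∧ ord 𝔭 ((a : k) / (b : k) - c) = 1 := by
  have hb0 : b ≠ 0 := by
    rintro rfl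
    exact hb 𝔭.asIdeal.zero_mem
  have hd0 : d ≠ 0 := by
    rintro rfl
    exact hd 𝔭.asIdeal.zero_mem
  have hb' : (b : k) ≠ 0 := by simpa using hb0
  have hd' : (d : k) ≠ 0 := by simpa using hd0
  have hA' : ((d * a - γ * b : 𝓞 k) : k) ≠ 0 := by
    intro h
    exact hA0 (by exact_mod_cast h)
  constructor
  · refine ml14_ge_of_mul 𝔭 hb' (an1_ord_coe_eq_zero 𝔭 hb) ?_
    rw [mul_div_cancel₀ _ hb']
    exact an1_ge_coe 𝔭 a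
  · have h1 : (a : k) / (b : k) - c = ((d * a - γ * b : 𝓞 k) : k) / ((d : k) * (b : k)) := by
      have h2 : ((d * a - γ * b : 𝓞 k) : k) = (d : k) * a - (γ : k) * b := by
        simp
      rw [h2, ← hdc]
      field_simp
    rw [h1, ord_div 𝔭 hA' (mul_ne_zero hd' hb'), ord_mul 𝔭 hd' hb', hA, an1_ord_coe_eq_zero 𝔭 hd,
      an1_ord_coe_eq_zero 𝔭 hb]
    norm_num

theorem ml19_notMem {p : ℕ} (𝔭 : HeightOneSpectrum (𝓞 k)) (h𝔭 : Ideal.absNorm 𝔭.asIdeal = p)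
    (x : 𝓞 k) (hx : x ≠ 0) (h : (Algebra.norm ℤ x).natAbs < p) : x ∉ 𝔭.asIdeal := by
  intro hm
  have := ml18_mem 𝔭 p 1 h𝔭 x hx (by rwa [pow_one])
  rw [pow_one] at this
  omega

theorem ml19_lin (α β u : 𝓞 k) (A B T : ℝ) (hT : 1 ≤ T)
    (hA : ∀ φ : k →+* ℂ, ‖φ (α : k)‖ ≤ A) (hB : ∀ φ : k →+* ℂ, ‖φ (β : k)‖ ≤ B)
    (s : ℝ) (hs : 0 ≤ s) (hu : ∀ φ : k →+* ℂ, ‖φ (u : k)‖ ≤ s * T) (φ : k →+* ℂ) :
    ‖φ ((α + β * u : 𝓞 k) : k)‖ ≤ (A + B * s) * T := by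
  have h1 : φ ((α + β * u : 𝓞 k) : k) = φ (α : k) + φ (β : k) * φ (u : k) := by
    simp
  have hA0 : 0 ≤ A := (norm_nonneg _).trans (hA φ)
  have hB0 : 0 ≤ B := (norm_nonneg _).trans (hB φ)
  rw [h1]
  calc _ ≤ ‖φ (α : k)‖ + ‖φ (β : k) * φ (u : k)‖ := norm_add_le _ _
    _ ≤ A * T + B * (s * T) := by
        rw [norm_mul]
        refine add_le_add ?_ (mul_le_mul (hB φ) (hu φ) (norm_nonneg _) hB0)
        have := hA φ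
        nlinarith
    _ = _ := by ring

end

section

variable (k : Type) [Field k] [NumberField k]

theorem case_two (c₁ c₂ : k) (hc : c₁ ≠ c₂) (M : ℕ) (hM : 0 < M) (τ : ℤ) (ε : ℝ) (hε : 0 < ε) :
    ∀ᶠ X : ℕ in atTop, ∃ S : Finset (ℕ × ℕ), (X : ℝ) ^ (2 - ε) ≤ (S.card : ℝ) ∧
      ∀ p ∈ S, p.1.Prime ∧ p.2.Prime ∧ (X : ℝ) ^ (1 - ε) < (p.1 : ℝ) ∧
        (X : ℝ) ^ (1 - ε) < (p.2 : ℝ) ∧
        ∃ (𝔭₁ 𝔭₂ : HeightOneSpectrum (𝓞 k)) (a b : 𝓞 k), (p.1 : 𝓞 k) ∈ 𝔭₁.asIdeal ∧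
          (p.2 : 𝓞 k) ∈ 𝔭₂.asIdeal ∧
          (M : 𝓞 k) ∣ a - τ ∧ (M : 𝓞 k) ∣ b - 1 ∧ b ≠ 0 ∧
          (∀ φ : k →+* ℂ, ‖φ (a : k)‖ ≤ (X : ℝ) ^ (1 / (Module.finrank ℚ k : ℝ) + ε) ∧
            ‖φ (b : k)‖ ≤ (X : ℝ) ^ (1 / (Module.finrank ℚ k : ℝ) + ε)) ∧
          Ge 𝔭₁ 0 ((a : k) / (b : k)) ∧ ord 𝔭₁ ((a : k) / (b : k) - c₁) = 1 ∧
          Ge 𝔭₂ 0 ((a : k) / (b : k)) ∧ ord 𝔭₂ ((a : k) / (b : k) - c₂) = 1 := by
  classical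
  obtain ⟨Cs, hCs1, hCs⟩ := short_norm k
  -- the common denominator
  obtain ⟨x₁, y₁, hy₁, hx₁⟩ := IsFractionRing.div_surjective (A := 𝓞 k) c₁
  obtain ⟨x₂, y₂, hy₂, hx₂⟩ := IsFractionRing.div_surjective (A := 𝓞 k) c₂
  have hy₁0 : (y₁ : k) ≠ 0 := by
    have := nonZeroDivisors.ne_zero hy₁
    simpa using this
  have hy₂0 : (y₂ : k) ≠ 0 := by
    have := nonZeroDivisors.ne_zero hy₂
    simpa using this
  obtain ⟨d, γ₁, γ₂, hd0, hdc₁, hdc₂⟩ : ∃ d γ₁ γ₂ : 𝓞 k, d ≠ 0 ∧ (d : k) * c₁ = (γ₁ : k) ∧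
      (d : k) * c₂ = (γ₂ : k) := by
    refine ⟨y₁ * y₂, x₁ * y₂, x₂ * y₁,
      mul_ne_zero (nonZeroDivisors.ne_zero hy₁) (nonZeroDivisors.ne_zero hy₂), ?_, ?_⟩
    · rw [← hx₁]
      change algebraMap (𝓞 k) k (y₁ * y₂) * _ = algebraMap (𝓞 k) k (x₁ * y₂)
      change algebraMap (𝓞 k) k y₁ ≠ 0 at hy₁0
      rw [map_mul, map_mul]
      field_simp
    · rw [← hx₂]
      change algebraMap (𝓞 k) k (y₁ * y₂) * _ = algebraMap (𝓞 k) k (x₂ * y₁)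
      change algebraMap (𝓞 k) k y₂ ≠ 0 at hy₂0
      rw [map_mul, map_mul]
      field_simp
  have hd' : (d : k) ≠ 0 := by simpa using hd0
  have hγ : γ₂ - γ₁ ≠ 0 := by
    intro h
    have h1 : γ₂ = γ₁ := sub_eq_zero.1 h
    apply hc
    apply mul_left_cancel₀ hd'
    rw [hdc₁, hdc₂, h1]
  set m := Module.finrank ℚ k with hm
  have hm0 : 0 < m := Module.finrank_pos
  set N : 𝓞 k := ((2 * M : ℕ) : 𝓞 k) with hN
  have hN0 : N ≠ 0 := by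
    rw [hN, Nat.cast_ne_zero]
    omega
  set α₁ : 𝓞 k := d * τ - γ₁ with hα₁
  set α₂ : 𝓞 k := d * τ - γ₂ with hα₂
  set β : 𝓞 k := N * d * (γ₂ - γ₁) with hβ
  have hβ0 : β ≠ 0 := mul_ne_zero (mul_ne_zero hN0 hd0) hγ
  have h2β0 : 2 * β ≠ 0 := mul_ne_zero two_ne_zero hβ0
  set s : ℝ := 3 * Cs with hs
  have hs0 : 0 ≤ s := by rw [hs]; linarith
  set K : ℝ := 1 + |(τ : ℝ)| + ml19B α₁ + ml19B α₂ + ml19B β * s +
    (ml19B (N * γ₂) + ml19B (N * γ₁)) * s + (ml19B (N * d) + ml19B (N * d)) * s with hK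
  have b1 := ml19B_nonneg α₁
  have b2 := ml19B_nonneg α₂
  have b3 : 0 ≤ ml19B β * s := mul_nonneg (ml19B_nonneg β) hs0
  have b4 : 0 ≤ (ml19B (N * γ₂) + ml19B (N * γ₁)) * s :=
    mul_nonneg (add_nonneg (ml19B_nonneg _) (ml19B_nonneg _)) hs0
  have b5 : 0 ≤ (ml19B (N * d) + ml19B (N * d)) * s :=
    mul_nonneg (add_nonneg (ml19B_nonneg _) (ml19B_nonneg _)) hs0
  have b6 := abs_nonneg (τ : ℝ)
  have hK0 : 0 ≤ K := by rw [hK]; linarith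
  obtain ⟨δ, hδ0, hδε, hev⟩ := ml19_num m hm0 ε hε Cs K (by linarith) hK0
    ((Algebra.norm ℤ (2 * β)).natAbs + (Algebra.norm ℤ d).natAbs)
  filter_upwards [hev, many_primes k δ hδ0] with X hX hS
  obtain ⟨H, j, hH1, hj, hjX, hYX, hCH, hsize, hn1, hone, hcard, hεδ⟩ := hX
  obtain ⟨S0, hS0c, hS0⟩ := hS
  refine ⟨S0.offDiag, ?_, fun p hp => ?_⟩
  · rw [Finset.offDiag_card, Nat.cast_sub (Nat.le_mul_self _), Nat.cast_mul]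
    have h1 : (X : ℝ) ^ (1 - δ) * ((X : ℝ) ^ (1 - δ) - 1) ≤
        (S0.card : ℝ) * ((S0.card : ℝ) - 1) :=
      mul_le_mul hS0c (by linarith) (by linarith) (by positivity)
    linarith
  · obtain ⟨p, q⟩ := p
    rw [Finset.mem_offDiag] at hp
    obtain ⟨hpS, hqS, hpq⟩ := hp
    simp only at hpS hqS hpq ⊢
    obtain ⟨hpp, hpX, hpX', I, hI⟩ := hS0 p hpS
    obtain ⟨hqp, hqX, hqX', I', hI'⟩ := hS0 q hqS
    obtain ⟨𝔭, h𝔭⟩ := ml19_prime hpp I hI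
    obtain ⟨𝔮, h𝔮⟩ := ml19_prime hqp I' hI'
    have hYp : (Algebra.norm ℤ (2 * β)).natAbs + (Algebra.norm ℤ d).natAbs < p := by
      exact_mod_cast hYX.trans hpX
    have hYq : (Algebra.norm ℤ (2 * β)).natAbs + (Algebra.norm ℤ d).natAbs < q := by
      exact_mod_cast hYX.trans hqX
    have hpm : ((p : ℕ) : 𝓞 k) ∈ 𝔭.asIdeal := by
      rw [← h𝔭]
      exact Ideal.absNorm_mem _
    have hqm : ((q : ℕ) : 𝓞 k) ∈ 𝔮.asIdeal := by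
      rw [← h𝔮]
      exact Ideal.absNorm_mem _
    have hdp : d ∉ 𝔭.asIdeal := ml19_notMem 𝔭 h𝔭 d hd0 (by omega)
    have hdq : d ∉ 𝔮.asIdeal := ml19_notMem 𝔮 h𝔮 d hd0 (by omega)
    have hjH1 : (1 : ℝ) ≤ (j : ℝ) * (H : ℝ) := by
      have : 1 ≤ j * H := Nat.mul_pos hj hH1
      exact_mod_cast this
    obtain ⟨u, hu, hu1, hu2⟩ := ml19_sel Cs hCs1 hCs α₁ β hβ0 hpp 𝔭 h𝔭
      (ml19_notMem 𝔭 h𝔭 _ h2β0 (by omega)) H j hH1 hj (hpX'.trans hjX) (hCH.trans hpX)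
    obtain ⟨v, hv, hv1, hv2⟩ := ml19_sel Cs hCs1 hCs α₂ β hβ0 hqp 𝔮 h𝔮
      (ml19_notMem 𝔮 h𝔮 _ h2β0 (by omega)) H j hH1 hj (hqX'.trans hjX) (hCH.trans hqX)
    rw [← hs] at hu hv
    set a : 𝓞 k := τ + (N * γ₂) * u + (-(N * γ₁)) * v with ha
    set b : 𝓞 k := 1 + (N * d) * u + (-(N * d)) * v with hb
    have hA₁ : d * a - γ₁ * b = α₁ + β * u := by
      rw [ha, hb, hα₁, hβ]
      ring
    have hA₂ : d * a - γ₂ * b = α₂ + β * v := by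
      rw [ha, hb, hα₂, hβ]
      ring
    -- the sizes
    have hnA₁ : ∀ φ : k →+* ℂ, ‖φ ((α₁ + β * u : 𝓞 k) : k)‖ ≤ K * (j * H) := by
      intro φ
      refine (ml19_lin α₁ β u _ _ _ hjH1 (ml19B_le α₁) (ml19B_le β) s hs0 hu φ).trans ?_
      refine mul_le_mul_of_nonneg_right ?_ (by positivity)
      rw [hK]
      linarith
    have hnA₂ : ∀ φ : k →+* ℂ, ‖φ ((α₂ + β * v : 𝓞 k) : k)‖ ≤ K * (j * H) := by
      intro φ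
      refine (ml19_lin α₂ β v _ _ _ hjH1 (ml19B_le α₂) (ml19B_le β) s hs0 hv φ).trans ?_
      refine mul_le_mul_of_nonneg_right ?_ (by positivity)
      rw [hK]
      linarith
    have hjH0 : (0 : ℝ) ≤ (j : ℝ) * H := by linarith
    have hgen : ∀ (c x y : 𝓞 k) (C : ℝ), (∀ φ : k →+* ℂ, ‖φ (c : k)‖ ≤ C) →
        C + (ml19B x + ml19B y) * s ≤ K → ∀ φ : k →+* ℂ,
          ‖φ ((c + x * u + (-y) * v : 𝓞 k) : k)‖ ≤ K * (j * H) := by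
      intro c x y C hC hCK φ
      have h1 := ml19_lin c x u C _ _ hjH1 hC (ml19B_le x) s hs0 hu
      have h2 : ‖φ ((y * v : 𝓞 k) : k)‖ ≤ ml19B y * s * (j * H) := by
        have h3 : φ ((y * v : 𝓞 k) : k) = φ (y : k) * φ (v : k) := by simp
        rw [h3, norm_mul, mul_assoc]
        exact mul_le_mul (ml19B_le y φ) (hv φ) (norm_nonneg _) (ml19B_nonneg y)
      have h4 : φ ((c + x * u + (-y) * v : 𝓞 k) : k) =
          φ ((c + x * u : 𝓞 k) : k) - φ ((y * v : 𝓞 k) : k) := by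
        rw [← map_sub]
        congr 1
        push_cast
        ring
      rw [h4]
      refine (norm_sub_le _ _).trans ((add_le_add (h1 φ) h2).trans ?_)
      have h5 := mul_le_mul_of_nonneg_right hCK hjH0
      nlinarith
    have hna : ∀ φ : k →+* ℂ, ‖φ (a : k)‖ ≤ K * (j * H) := by
      refine hgen (τ : 𝓞 k) (N * γ₂) (N * γ₁) |(τ : ℝ)| (fun φ => ?_) (by rw [hK]; linarith)
      have h1 : φ (((τ : ℤ) : 𝓞 k) : k) = (τ : ℂ) := by simp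
      rw [h1, Complex.norm_intCast]
    have hnb : ∀ φ : k →+* ℂ, ‖φ (b : k)‖ ≤ K * (j * H) := by
      refine hgen 1 (N * d) (N * d) 1 (fun φ => ?_) (by rw [hK]; linarith)
      simp
    -- norms
    have hpos : (0 : ℝ) ≤ (X : ℝ) ^ (1 - δ) := Real.rpow_nonneg (Nat.cast_nonneg X) _
    have hN₁ : ∀ x : 𝓞 k, (∀ φ : k →+* ℂ, ‖φ (x : k)‖ ≤ K * (j * H)) → ∀ r r' : ℕ,
        (X : ℝ) ^ (1 - δ) < r → (X : ℝ) ^ (1 - δ) < r' →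
          (Algebra.norm ℤ x).natAbs < r * r' := by
      intro x hx r r' hr hr'
      have h1 := ml18_norm x _ hx
      have h2 : ((X : ℝ) ^ (1 - δ)) ^ 2 ≤ (r : ℝ) * r' := by
        rw [pow_two]
        exact mul_le_mul hr.le hr'.le hpos (by positivity)
      have h3 : ((Algebra.norm ℤ x).natAbs : ℝ) < (r : ℝ) * r' := by
        refine lt_of_le_of_lt h1 (lt_of_lt_of_le ?_ h2)
        exact hn1
      exact_mod_cast h3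
    -- `b` is prime to both
    have hbp : b ∉ 𝔭.asIdeal := by
      intro hbm
      have h1 : α₂ + β * v ∈ 𝔭.asIdeal := by
        have h2 : α₂ + β * v = (α₁ + β * u) + (γ₁ - γ₂) * b := by
          rw [← hA₁, ← hA₂]
          ring
        rw [h2]
        exact 𝔭.asIdeal.add_mem hu1 (𝔭.asIdeal.mul_mem_left _ hbm)
      have h3 := ml19_two 𝔭 𝔮 hpp hqp hpq h𝔭 h𝔮 _ hv2 h1 hv1
      have h4 := hN₁ _ hnA₂ p q hpX hqX
      omega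
    have hbq : b ∉ 𝔮.asIdeal := by
      intro hbm
      have h1 : α₁ + β * u ∈ 𝔮.asIdeal := by
        have h2 : α₁ + β * u = (α₂ + β * v) + (γ₂ - γ₁) * b := by
          rw [← hA₁, ← hA₂]
          ring
        rw [h2]
        exact 𝔮.asIdeal.add_mem hv1 (𝔮.asIdeal.mul_mem_left _ hbm)
      have h3 := ml19_two 𝔭 𝔮 hpp hqp hpq h𝔭 h𝔮 _ hu2 hu1 h1
      have h4 := hN₁ _ hnA₁ p q hpX hqX
      omega
    have hb0 : b ≠ 0 := by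
      rintro h0
      apply hbp
      rw [h0]
      exact 𝔭.asIdeal.zero_mem
    have ho₁ : ord 𝔭 ((α₁ + β * u : 𝓞 k) : k) = 1 :=
      ml19_exact 𝔭 h𝔭 _ hu2 hu1 (by
        rw [pow_two]
        exact hN₁ _ hnA₁ p p hpX hpX)
    have ho₂ : ord 𝔮 ((α₂ + β * v : 𝓞 k) : k) = 1 :=
      ml19_exact 𝔮 h𝔮 _ hv2 hv1 (by
        rw [pow_two]
        exact hN₁ _ hnA₂ q q hqX hqX)
    rw [← hA₁] at ho₁ hu2
    rw [← hA₂] at ho₂ hv2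
    obtain ⟨g₁, o₁⟩ := ml19_ord 𝔭 a b d γ₁ c₁ hdc₁ hdp hbp hu2 ho₁
    obtain ⟨g₂, o₂⟩ := ml19_ord 𝔮 a b d γ₂ c₂ hdc₂ hdq hbq hv2 ho₂
    refine ⟨hpp, hqp, lt_of_le_of_lt hεδ hpX, lt_of_le_of_lt hεδ hqX, 𝔭, 𝔮, a, b, hpm, hqm,
      ⟨2 * (γ₂ * u - γ₁ * v), ?_⟩, ⟨2 * (d * u - d * v), ?_⟩, hb0,
      fun φ => ⟨(hna φ).trans hsize, (hnb φ).trans hsize⟩, g₁, o₁, g₂, o₂⟩
    · rw [ha, hN]
      push_cast
      ring
    · rw [hb, hN]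
      push_cast
      ring

end

end Pool.Agent.H20.ML
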