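import Mathlib
import Pool.Agent.H20.ML.Defs

/-!
# Project ML (MP_a3214d): certificates of ramification
-/

set_option autoImplicit false

open Polynomial IsDedekindDomain NumberField

namespace Pool.Agent.H20.ML

/-- The certificate in a Dedekind domain. -/
theorem ml10_dedekind {R : Type*} [CommRing R] [IsDedekindDomain R] (P : Ideal R)
    (hP : P.IsPrime) (hP0 : P ≠ ⊥) (f : R) (hf0 : f ≠ 0) (hf : f ∈ P ^ 2) :
    ∃ (e : ℕ) (π z w v α β : R), 2 ≤ e ∧ f * z = π ^ e * w ∧
      1 = z * w * v + α * π + β * f ∧ π ∈ P := by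
  have hPm : P.IsMaximal := hP.isMaximal hP0
  have hPp : Prime P := Ideal.prime_of_isPrime hP0 hP
  have hfP : f ∈ P := Ideal.pow_le_self (by norm_num) hf
  obtain ⟨π, hπ⟩ := IsDedekindDomain.exists_sup_span_eq (I := Ideal.span {f}) (J := P)
    ((Ideal.span_singleton_le_iff_mem _).2 hfP)
    (by rw [Ne, Ideal.zero_eq_bot, Ideal.span_singleton_eq_bot]; exact hf0)
  have hπP : π ∈ P := by
    rw [← hπ]
    exact Ideal.mem_sup_right (Ideal.mem_span_singleton_self π)
  have hPne : P ≠ ⊤ := hP.ne_top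
  have hπ2 : π ∉ P ^ 2 := by
    intro h
    have h1 : P ≤ P ^ 2 := by
      conv_lhs => rw [← hπ]
      exact sup_le ((Ideal.span_singleton_le_iff_mem _).2 hf)
        ((Ideal.span_singleton_le_iff_mem _).2 h)
    have h2 : P ^ 2 ∣ P ^ 1 := by
      rw [Ideal.dvd_iff_le, pow_one]
      exact h1
    have h3 := (pow_dvd_pow_iff hPp.ne_zero hPp.not_isUnit).1 h2
    omega
  have hf0' : Ideal.span {f} ≠ 0 := by
    rw [Ne, Ideal.zero_eq_bot, Ideal.span_singleton_eq_bot]; exact hf0
  obtain ⟨e, I', hI', hfI⟩ := WfDvdMonoid.max_power_factor hf0' hPp.irreducible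
  have hPe0 : P ^ e ≠ 0 := pow_ne_zero _ hPp.ne_zero
  have he : 2 ≤ e := by
    by_contra hlt
    have h1 : P ^ (e + 1) ∣ P ^ 2 := pow_dvd_pow _ (by omega)
    have h2 : P ^ 2 ∣ Ideal.span {f} := by
      rw [Ideal.dvd_iff_le]
      exact (Ideal.span_singleton_le_iff_mem _).2 hf
    have h3 : P ^ e * P ∣ P ^ e * I' := by
      rw [← pow_succ, ← hfI]
      exact h1.trans h2
    exact hI' ((mul_dvd_mul_iff_left hPe0).1 h3)
  obtain ⟨J', hJ⟩ : P ∣ Ideal.span {π} := by
    rw [Ideal.dvd_iff_le]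
    exact (Ideal.span_singleton_le_iff_mem _).2 hπP
  have hJ' : ¬ P ∣ J' := by
    rintro ⟨J2, hJ2⟩
    apply hπ2
    rw [← Ideal.span_singleton_le_iff_mem, ← Ideal.dvd_iff_le]
    exact ⟨J2, by rw [hJ, hJ2, sq, mul_assoc]⟩
  have hz : ∃ z ∈ J' ^ e, z ∉ P := by
    by_contra hcon
    push Not at hcon
    apply hJ'
    have : P ∣ J' ^ e := by
      rw [Ideal.dvd_iff_le]
      exact fun x hx => hcon x hx
    exact hPp.dvd_of_dvd_pow this
  obtain ⟨z, hz, hzP⟩ := hz
  have hfz : f * z ∈ Ideal.span {π ^ e} * I' := by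
    have h1 : f * z ∈ Ideal.span {f} * J' ^ e :=
      Ideal.mul_mem_mul (Ideal.mem_span_singleton_self f) hz
    have h2 : Ideal.span {f} * J' ^ e = Ideal.span {π ^ e} * I' := by
      rw [← Ideal.span_singleton_pow, hfI, hJ]
      ring
    rwa [h2] at h1
  obtain ⟨w, hw, hwe⟩ := Ideal.mem_span_singleton_mul.1 hfz
  have hwP : w ∉ P := by
    intro hwP
    have h1 : f * z ∈ P ^ (e + 1) := by
      rw [← hwe, pow_succ]
      exact Ideal.mul_mem_mul (Ideal.pow_mem_pow hπP e) hwP
    have h2 : P ^ e * P ∣ P ^ e * (I' * Ideal.span {z}) := by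
      rw [← pow_succ, ← mul_assoc, ← hfI, Ideal.span_singleton_mul_span_singleton,
        Ideal.dvd_iff_le]
      exact (Ideal.span_singleton_le_iff_mem _).2 h1
    rcases hPp.dvd_or_dvd ((mul_dvd_mul_iff_left hPe0).1 h2) with h | h
    · exact hI' h
    · rw [Ideal.dvd_iff_le, Ideal.span_singleton_le_iff_mem] at h
      exact hzP h
  have hzw : z * w ∉ P := fun h => (hP.mem_or_mem h).elim hzP hwP
  obtain ⟨v, i, hi, hvi⟩ := hPm.exists_inv hzw
  rw [← hπ] at hi
  obtain ⟨a, ha, b, hb, hab⟩ := Submodule.mem_sup.1 hi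
  obtain ⟨β, hβ⟩ := Ideal.mem_span_singleton'.1 ha
  obtain ⟨α, hα⟩ := Ideal.mem_span_singleton'.1 hb
  refine ⟨e, π, z, w, v, α, β, he, hwe.symm, ?_, hπP⟩
  rw [← hvi, ← hab, ← hβ, ← hα]
  ring

variable {k : Type} [Field k] [NumberField k]

/-- The norm of an element of a prime above `f` is divisible by `f`. -/
theorem ml10_norm (L : Type) [Field L] [Algebra (RatFunc k) L] [Algebra k[X] L]
    [IsScalarTower k[X] (RatFunc k) L] [FiniteDimensional (RatFunc k) L] (f : k[X])
    (hf : Irreducible f) (P : Ideal (RR k L)) (hP : P.IsPrime)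
    (hfP : algebraMap k[X] (RR k L) f ∈ P) (π : RR k L) (hπ : π ∈ P) :
    ∃ p : k[X], algebraMap k[X] (RatFunc k) p = Algebra.norm (RatFunc k) (π : L) ∧ f ∣ p := by
  have hsep : Algebra.IsSeparable (RatFunc k) L := inferInstance
  have hint : IsIntegral k[X] (π : L) := π.2
  have hintK : IsIntegral (RatFunc k) (π : L) := hint.tower_top
  set q : k[X][X] := minpoly k[X] (π : L) with hq
  have hqK : minpoly (RatFunc k) (π : L) = q.map (algebraMap k[X] (RatFunc k)) :=
    minpoly.isIntegrallyClosed_eq_field_fractions' (RatFunc k) hint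
  have hdvd : f ∣ q.coeff 0 := by
    -- the constant coefficient is in `P`
    have h0 : aeval (π : L) q = 0 := minpoly.aeval _ _
    have h0' : aeval π q = 0 := by
      apply Subtype.ext
      have := Polynomial.aeval_algebraMap_apply L π q
      rw [show (algebraMap (RR k L) L) π = (π : L) from rfl, h0] at this
      exact this.symm
    have hmem : algebraMap k[X] (RR k L) (q.coeff 0) ∈ P := by
      have h1 := Polynomial.divX_mul_X_add q
      have h2 : aeval π (q.divX * X + C (q.coeff 0)) = 0 := by rw [h1]; exact h0'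
      rw [map_add, map_mul, aeval_X, aeval_C] at h2
      have h3 : algebraMap k[X] (RR k L) (q.coeff 0) = - (aeval π q.divX * π) := by
        linear_combination h2
      rw [h3]
      exact P.neg_mem (P.mul_mem_left _ hπ)
    by_contra hnd
    have hcop : IsCoprime f (q.coeff 0) := (hf.coprime_iff_not_dvd).2 hnd
    obtain ⟨a, b, hab⟩ := hcop
    apply hP.ne_top
    rw [Ideal.eq_top_iff_one]
    have : (1 : RR k L) = algebraMap k[X] (RR k L) a * algebraMap k[X] (RR k L) f +
        algebraMap k[X] (RR k L) b * algebraMap k[X] (RR k L) (q.coeff 0) := by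
      rw [← map_mul, ← map_mul, ← map_add, hab, map_one]
    rw [this]
    exact P.add_mem (P.mul_mem_left _ hfP) (P.mul_mem_left _ hmem)
  set m := Module.finrank (IntermediateField.adjoin (RatFunc k) {(π : L)}) L with hm
  have hmpos : 0 < m := Module.finrank_pos
  refine ⟨((-1) ^ (minpoly (RatFunc k) (π : L)).natDegree * q.coeff 0) ^ m, ?_, ?_⟩
  · rw [Algebra.norm_eq_norm_adjoin (RatFunc k) (π : L)]
    have h1 := Algebra.PowerBasis.norm_gen_eq_coeff_zero_minpoly
      (IntermediateField.adjoin.powerBasis hintK)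
    rw [IntermediateField.adjoin.powerBasis_gen] at h1
    rw [h1, IntermediateField.adjoin.powerBasis_dim, IntermediateField.minpoly_gen, hqK,
      Polynomial.coeff_map]
    rw [map_pow, map_mul, map_pow, map_neg, map_one]
  · exact dvd_pow (Dvd.dvd.mul_left hdvd _) hmpos.ne'

variable (k) in
theorem cert_of_ramified (L : Type) [Field L] [Algebra (RatFunc k) L] [Algebra k[X] L]
    [IsScalarTower k[X] (RatFunc k) L] [FiniteDimensional (RatFunc k) L] (f : k[X])
    (hf : Irreducible f) (h : Ramified L f) : Cert L f := by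
  obtain ⟨P, hP, hP0, hfP⟩ := h
  have : Algebra.IsSeparable (RatFunc k) L := inferInstance
  have : IsDedekindDomain (RR k L) := integralClosure.isDedekindDomain k[X] (RatFunc k) L
  have hinj : Function.Injective (algebraMap k[X] L) := by
    rw [IsScalarTower.algebraMap_eq k[X] (RatFunc k) L]
    exact (algebraMap (RatFunc k) L).injective.comp (IsFractionRing.injective k[X] (RatFunc k))
  have hf0 : algebraMap k[X] (RR k L) f ≠ 0 := by
    intro h0
    apply hf.ne_zero
    apply hinj
    have := congrArg (fun x : RR k L => (x : L)) h0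
    rw [map_zero]
    exact this
  obtain ⟨e, π, z, w, v, α, β, he, h1, h2, hπ⟩ :=
    ml10_dedekind P hP hP0 (algebraMap k[X] (RR k L) f) hf0 hfP
  obtain ⟨p, hp, hfp⟩ := ml10_norm L f hf P hP (Ideal.pow_le_self (by norm_num) hfP) π hπ
  exact ⟨e, π, z, w, v, α, β, p, he, h1, h2, hp, hfp⟩

end Pool.Agent.H20.ML
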