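import Mathlib
import Pool.Agent.H20.ML.Defs

/-!
# Project ML, row ML-5: stabilisers and characteristic polynomials over `k[t]`
-/

set_option autoImplicit false

open Polynomial IsDedekindDomain NumberField

namespace Pool.Agent.H20.ML

section

variable {k : Type} [Field k] [CharZero k]
variable (N : Type) [Field N] [Algebra (RatFunc k) N] [Algebra k[X] N]
  [IsScalarTower k[X] (RatFunc k) N] [FiniteDimensional (RatFunc k) N] [IsGalois (RatFunc k) N]

omit [CharZero k] in
theorem exists_isChi (θ : RR k N) : ∃ P : k[X][X], IsChi N (θ : N) P := by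
  classical
  haveI : IsFractionRing (RR k N) N :=
    integralClosure.isFractionRing_of_finite_extension (RatFunc k) N
  letI : MulSemiringAction (N ≃ₐ[RatFunc k] N) (RR k N) :=
    IsIntegralClosure.MulSemiringAction k[X] (RatFunc k) N (RR k N)
  haveI : Algebra.IsInvariant k[X] (RR k N) (N ≃ₐ[RatFunc k] N) :=
    Algebra.isInvariant_of_isGalois k[X] (RatFunc k) N (RR k N)
  obtain ⟨P, hP, -, hmon⟩ := Polynomial.lifts_and_natDegree_eq_and_monic
    (Algebra.IsInvariant.charpoly_mem_lifts k[X] (RR k N) (N ≃ₐ[RatFunc k] N) θ)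
    (MulSemiringAction.monic_charpoly (N ≃ₐ[RatFunc k] N) θ)
  refine ⟨P, hmon, ?_⟩
  have h1 : P.map (algebraMap k[X] N) =
      (P.map (algebraMap k[X] (RR k N))).map (algebraMap (RR k N) N) := by
    rw [Polynomial.map_map, ← IsScalarTower.algebraMap_eq]
  rw [h1, hP, MulSemiringAction.charpoly_eq, finprod_eq_prod_of_fintype, Polynomial.map_prod]
  refine Finset.prod_congr rfl fun σ _ => ?_
  rw [Polynomial.map_sub, Polynomial.map_X, Polynomial.map_C]
  congr 2
  exact algebraMap_galRestrict_apply k[X] σ θ

theorem exists_stab (U : Subgroup (N ≃ₐ[RatFunc k] N)) : ∃ θ : RR k N,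
    ∀ σ : N ≃ₐ[RatFunc k] N, σ (θ : N) = θ ↔ σ ∈ U := by
  classical
  haveI : CharZero (RatFunc k) := charZero_of_injective_algebraMap
    (algebraMap k (RatFunc k)).injective
  obtain ⟨α, hα⟩ := Field.exists_primitive_element (RatFunc k)
    (IntermediateField.fixedField U)
  have hαN : IntermediateField.adjoin (RatFunc k) {(α : N)} =
      IntermediateField.fixedField U := by
    have h := congrArg (IntermediateField.map (IntermediateField.fixedField U).val) hα
    rw [IntermediateField.adjoin_map, Set.image_singleton] at h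
    rw [← AlgHom.fieldRange_eq_map, IntermediateField.fieldRange_val] at h
    exact h
  have halg : IsAlgebraic k[X] (α : N) := by
    have : Algebra.IsAlgebraic k[X] N := by
      have := IsFractionRing.comap_isAlgebraic_iff (A := k[X]) (K := RatFunc k) (C := N)
      exact this.mpr inferInstance
    exact Algebra.IsAlgebraic.isAlgebraic _
  obtain ⟨y, hy0, hy⟩ := halg.exists_integral_multiple
  refine ⟨⟨y • (α : N), hy⟩, fun σ => ?_⟩
  have h1 : σ (y • (α : N)) = y • σ (α : N) := by
    rw [← algebraMap_smul (RatFunc k) y (α : N), map_smul, algebraMap_smul]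
  have hinj : Function.Injective (algebraMap k[X] N) := by
    rw [IsScalarTower.algebraMap_eq k[X] (RatFunc k) N]
    exact (algebraMap (RatFunc k) N).injective.comp (IsFractionRing.injective k[X] (RatFunc k))
  have hy' : algebraMap k[X] N y ≠ 0 := fun h => hy0 (hinj (by rw [h, map_zero]))
  show σ (y • (α : N)) = y • (α : N) ↔ σ ∈ U
  rw [h1, Algebra.smul_def, Algebra.smul_def, mul_right_inj' hy']
  constructor
  · intro h
    rw [← IntermediateField.fixingSubgroup_fixedField U, ← hαN]
    rw [IntermediateField.mem_fixingSubgroup_iff]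
    intro x hx
    have hle : IntermediateField.adjoin (RatFunc k) {(α : N)} ≤
        IntermediateField.fixedField (Subgroup.zpowers σ) := by
      rw [IntermediateField.adjoin_simple_le_iff, IntermediateField.mem_fixedField_iff]
      intro f hf
      obtain ⟨n, rfl⟩ := Subgroup.mem_zpowers_iff.mp hf
      have : σ ∈ MulAction.stabilizer (N ≃ₐ[RatFunc k] N) (α : N) := h
      exact (Subgroup.zpow_mem _ this n)
    have := (IntermediateField.mem_fixedField_iff _ x).mp (hle hx) σ (Subgroup.mem_zpowers σ)
    exact this
  · intro h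
    exact (IntermediateField.mem_fixedField_iff _ _).mp α.2 σ h

end

end Pool.Agent.H20.ML
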