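import Mathlib
import Pool.Agent.H20.ML.Defs

/-!
# Project ML, block CONST: finite places of an extension of `k(t)`
-/

set_option autoImplicit false

open Polynomial IsDedekindDomain

namespace Pool.Agent.H20.ML

section Gen

variable {k : Type} [Field k] [CharZero k] (L : Type) [Field L] [Algebra (RatFunc k) L]
  [Algebra k[X] L] [IsScalarTower k[X] (RatFunc k) L] [Algebra k L]
  [IsScalarTower k (RatFunc k) L] [FiniteDimensional (RatFunc k) L]

theorem co3_charZero {k : Type} [Field k] [CharZero k] : CharZero (RatFunc k) :=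
  charZero_of_injective_algebraMap (algebraMap k (RatFunc k)).injective

theorem isDedekind_RR : IsDedekindDomain (RR k L) := by
  have := co3_charZero (k := k)
  exact integralClosure.isDedekindDomain k[X] (RatFunc k) L

theorem isFractionRing_RR : IsFractionRing (RR k L) L :=
  integralClosure.isFractionRing_of_finite_extension (RatFunc k) L

attribute [local instance] isDedekind_RR isFractionRing_RR

theorem co3_tower : IsScalarTower k k[X] L := by
  refine IsScalarTower.of_algebraMap_eq fun c => ?_
  rw [IsScalarTower.algebraMap_apply k[X] (RatFunc k) L,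
    ← IsScalarTower.algebraMap_apply k k[X] (RatFunc k),
    ← IsScalarTower.algebraMap_apply k (RatFunc k) L]

theorem co3_finite : Module.Finite k[X] (RR k L) := by
  have := co3_charZero (k := k)
  exact IsIntegralClosure.finite k[X] (RatFunc k) L (RR k L)

theorem val_const (Q : HeightOneSpectrum (RR k L)) (c : k) (hc : c ≠ 0) :
    Q.valuation L (algebraMap k L c) = 1 := by
  have := co3_tower (k := k) L
  have h1 : ∀ a : k, Q.valuation L (algebraMap k L a) ≤ 1 := by
    intro a
    rw [IsScalarTower.algebraMap_apply k k[X] L, IsScalarTower.algebraMap_apply k[X] (RR k L) L]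
    exact Q.valuation_le_one _
  have h2 : Q.valuation L (algebraMap k L c) * Q.valuation L (algebraMap k L c⁻¹) = 1 := by
    rw [← map_mul, ← map_mul, mul_inv_cancel₀ hc, map_one, map_one]
  refine le_antisymm (h1 c) ?_
  rw [← h2]
  exact mul_le_of_le_one_right' (h1 _)

/-- continuity of polynomials with coefficients in `k` -/
theorem co3_aeval (Q : HeightOneSpectrum (RR k L)) (g : k[X]) {y s : L}
    (hy : Q.valuation L y ≤ 1) (hs : Q.valuation L s ≤ 1) (hys : Q.valuation L (y - s) < 1) :
    Q.valuation L (aeval y g - aeval s g) < 1 := by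
  have hpow : ∀ n : ℕ, Q.valuation L (y ^ n - s ^ n) < 1 := by
    intro n
    induction n with
    | zero => simp
    | succ n ih =>
      have h1 : y ^ (n + 1) - s ^ (n + 1) = y ^ n * (y - s) + s * (y ^ n - s ^ n) := by ring
      rw [h1]
      refine Valuation.map_add_lt _ ?_ ?_
      · rw [map_mul, map_pow]
        exact mul_lt_one_of_nonneg_of_lt_one_right (pow_le_one' hy n) zero_le hys
      · rw [map_mul]
        exact mul_lt_one_of_nonneg_of_lt_one_right hs zero_le ih
  induction g using Polynomial.induction_on' with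
  | add p q hp hq =>
    have h1 : aeval y (p + q) - aeval s (p + q) =
        (aeval y p - aeval s p) + (aeval y q - aeval s q) := by
      rw [map_add, map_add]
      ring
    rw [h1]
    exact Valuation.map_add_lt _ hp hq
  | monomial n a =>
    rw [aeval_monomial, aeval_monomial, ← mul_sub, map_mul]
    by_cases ha : a = 0
    · rw [ha]
      simp
    · rw [val_const L Q a ha, one_mul]
      exact hpow n

theorem val_res (Q : HeightOneSpectrum (RR k L)) (y : L) (hy : Q.valuation L y ≤ 1) :
    ∃ g : k[X], g ≠ 0 ∧ Q.valuation L (aeval y g) < 1 := by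
  have := co3_tower (k := k) L
  have := co3_finite (k := k) L
  obtain ⟨s, hs⟩ := Q.exists_valuation_sub_lt_of_integer hy 1
  have hs1 : Q.valuation L (y - algebraMap (RR k L) L s) < 1 := by
    rw [Valuation.map_sub_swap]
    simpa using hs
  have hmax : Q.asIdeal.IsMaximal := Q.isMaximal
  let _ : Field (RR k L ⧸ Q.asIdeal) := Ideal.Quotient.field Q.asIdeal
  have hft : Algebra.FiniteType k (RR k L) :=
    Algebra.FiniteType.trans (S := k[X]) inferInstance inferInstance
  have hft2 : Algebra.FiniteType k (RR k L ⧸ Q.asIdeal) :=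
    Algebra.FiniteType.trans hft inferInstance
  have hfin : Module.Finite k (RR k L ⧸ Q.asIdeal) :=
    finite_of_finite_type_of_isJacobsonRing k (RR k L ⧸ Q.asIdeal)
  obtain ⟨g, hg, hg0⟩ := Algebra.IsIntegral.isIntegral (R := k)
    (Ideal.Quotient.mk Q.asIdeal s)
  refine ⟨g, hg.ne_zero, ?_⟩
  have h1 : aeval s g ∈ Q.asIdeal := by
    rw [← Ideal.Quotient.eq_zero_iff_mem]
    have h2 := Polynomial.hom_eval₂ g (algebraMap k (RR k L)) (Ideal.Quotient.mk Q.asIdeal) s
    rw [aeval_def, h2]
    exact hg0
  have h3 : Q.valuation L (aeval (algebraMap (RR k L) L s) g) < 1 := by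
    rw [aeval_algebraMap_apply]
    exact (Q.valuation_lt_one_iff_mem _).mpr h1
  have h4 := co3_aeval L Q g hy (Q.valuation_le_one s) hs1
  have h5 := Valuation.map_add_lt _ h4 h3
  rwa [sub_add_cancel] at h5

/-- derivations that respect the polynomials are bounded at the finite places -/
theorem val_bdd (Q : HeightOneSpectrum (RR k L)) (D : Derivation k L L)
    (hD : ∀ p : k[X], ∃ q : k[X], D (algebraMap k[X] L p) = algebraMap k[X] L q) :
    ∃ c : ℕ, ∀ y, Q.valuation L y ≤ 1 → Q.valuation L (D y) ≤ WithZero.exp (c : ℤ) := by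
  have := co3_finite (k := k) L
  -- a bound for a single element
  have hone : ∀ y : L, ∃ c : ℕ, Q.valuation L y ≤ WithZero.exp (c : ℤ) := by
    intro y
    by_cases hy : Q.valuation L y = 0
    · exact ⟨0, by rw [hy]; exact zero_le⟩
    · refine ⟨(WithZero.log (Q.valuation L y)).toNat, ?_⟩
      rw [← WithZero.log_le_iff_le_exp hy]
      exact Int.self_le_toNat _
  have hpol : ∀ p : k[X], Q.valuation L (algebraMap k[X] L p) ≤ 1 := by
    intro p
    rw [IsScalarTower.algebraMap_apply k[X] (RR k L) L]
    exact Q.valuation_le_one _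
  have h1exp : ∀ c : ℕ, (1 : WithZero (Multiplicative ℤ)) ≤ WithZero.exp (c : ℤ) := by
    intro c
    rw [← WithZero.exp_zero, WithZero.exp_le_exp]
    exact Int.natCast_nonneg c
  -- a bound on the integral elements
  have hint : ∃ c : ℕ, ∀ s : RR k L,
      Q.valuation L (D (algebraMap (RR k L) L s)) ≤ WithZero.exp (c : ℤ) := by
    obtain ⟨S, hS⟩ := (‹Module.Finite k[X] (RR k L)›).fg_top
    choose c hc using fun s : RR k L => hone (D (algebraMap (RR k L) L s))
    refine ⟨∑ s ∈ S, c s, fun s => ?_⟩
    have hs : s ∈ Submodule.span k[X] (S : Set (RR k L)) := by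
      rw [hS]
      trivial
    induction hs using Submodule.span_induction with
    | mem x hx =>
      refine (hc x).trans ?_
      rw [WithZero.exp_le_exp]
      exact_mod_cast Finset.single_le_sum (f := c) (fun _ _ => Nat.zero_le _) hx
    | zero =>
      rw [map_zero, map_zero, map_zero]
      exact zero_le
    | add x y _ _ hx hy =>
      rw [map_add, map_add]
      exact Valuation.map_add_le _ hx hy
    | smul p x _ hx =>
      rw [Algebra.smul_def, map_mul, ← IsScalarTower.algebraMap_apply k[X] (RR k L) L,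
        Derivation.leibniz, smul_eq_mul, smul_eq_mul]
      obtain ⟨q, hq⟩ := hD p
      refine Valuation.map_add_le _ ?_ ?_
      · rw [map_mul]
        exact (mul_le_of_le_one_left' (hpol p)).trans hx
      · rw [hq, map_mul]
        exact (mul_le_one' (Q.valuation_le_one x) (hpol q)).trans (h1exp _)
  obtain ⟨c, hc⟩ := hint
  refine ⟨c, fun y hy => ?_⟩
  obtain ⟨a, ⟨d, hd⟩, had⟩ := Q.exists_primeCompl_mul_eq_of_integer y hy
  have hd1 : Q.valuation L (algebraMap (RR k L) L d) = 1 :=
    (Q.valuation_eq_one_iff_notMem).mpr hd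
  have h2 : D y * algebraMap (RR k L) L d =
      D (algebraMap (RR k L) L a) - y * D (algebraMap (RR k L) L d) := by
    have h3 := congrArg D had
    rw [Derivation.leibniz, smul_eq_mul, smul_eq_mul] at h3
    rw [← h3]
    ring
  have h4 : Q.valuation L (D y * algebraMap (RR k L) L d) ≤ WithZero.exp (c : ℤ) := by
    rw [h2]
    refine (Valuation.map_sub _ _ _).trans (max_le (hc a) ?_)
    rw [map_mul]
    exact (mul_le_of_le_one_left' hy).trans (hc d)
  rwa [map_mul, hd1, mul_one] at h4

theorem val_unif (Q : HeightOneSpectrum (RR k L)) :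
    ∃ π : L, Q.valuation L π = WithZero.exp (-1 : ℤ) :=
  Q.valuation_exists_uniformizer L

theorem integral_of_val (y : L) (hy : ∀ Q : HeightOneSpectrum (RR k L), Q.valuation L y ≤ 1) :
    IsIntegral k[X] y := by
  obtain ⟨s, hs⟩ := HeightOneSpectrum.mem_integers_of_valuation_le_one (R := RR k L) L y hy
  rw [← hs]
  exact s.2

/-- at an unramified place the generator of the prime below is a uniformiser -/
theorem val_unram (h : ∀ f : k[X], Irreducible f → ¬ Ramified L f)
    (Q : HeightOneSpectrum (RR k L)) : ∃ f : k[X], Irreducible f ∧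
      Q.valuation L (algebraMap k[X] L f) = WithZero.exp (-1 : ℤ) := by
  set I : Ideal k[X] := Q.asIdeal.comap (algebraMap k[X] (RR k L)) with hI
  have hIp : I.IsPrime := Ideal.comap_isPrime _ _
  have hI0 : I ≠ ⊥ := Ideal.comap_ne_bot_of_integral_mem (x := (Q.asIdeal.ne_bot_iff.mp Q.ne_bot).choose)
    (Q.asIdeal.ne_bot_iff.mp Q.ne_bot).choose_spec.2
    (Q.asIdeal.ne_bot_iff.mp Q.ne_bot).choose_spec.1 (Algebra.IsIntegral.isIntegral _)
  obtain ⟨f, hf⟩ := (inferInstance : I.IsPrincipal)
  have hf0 : f ≠ 0 := by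
    rintro rfl
    apply hI0
    rw [hf]
    simp
  have hfp : Prime f := by
    rw [← Ideal.span_singleton_prime hf0]
    rw [Ideal.submodule_span_eq] at hf
    rw [← hf]
    exact hIp
  refine ⟨f, hfp.irreducible, ?_⟩
  have h1 : algebraMap k[X] (RR k L) f ∈ Q.asIdeal := by
    have : f ∈ I := by
      rw [hf]
      exact Submodule.mem_span_singleton_self f
    exact this
  have h2 : algebraMap k[X] (RR k L) f ∉ Q.asIdeal ^ 2 := by
    intro h3
    exact h f hfp.irreducible ⟨Q.asIdeal, Q.isPrime, Q.ne_bot, h3⟩
  rw [IsScalarTower.algebraMap_apply k[X] (RR k L) L, Q.valuation_of_algebraMap]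
  have h3 : Q.intValuation (algebraMap k[X] (RR k L) f) ≤ WithZero.exp (-(1 : ℕ) : ℤ) := by
    rw [Q.intValuation_le_pow_iff_mem, pow_one]
    exact h1
  have h4 : ¬ Q.intValuation (algebraMap k[X] (RR k L) f) ≤ WithZero.exp (-(2 : ℕ) : ℤ) := by
    rw [Q.intValuation_le_pow_iff_mem]
    exact h2
  have hne : Q.intValuation (algebraMap k[X] (RR k L) f) ≠ 0 := by
    intro h5
    rw [h5] at h4
    exact h4 zero_le
  obtain ⟨m, hm⟩ : ∃ m : ℤ, Q.intValuation (algebraMap k[X] (RR k L) f) = WithZero.exp m :=
    ⟨_, (WithZero.exp_log hne).symm⟩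
  rw [hm, WithZero.exp_le_exp] at h3 h4
  rw [hm]
  congr 1
  push_cast at h3 h4
  omega

end Gen

end Pool.Agent.H20.ML
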