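import Mathlib
import Pool.Agent.H20.ML.Defs

/-!
# Project ML (MP_a3214d), row CO-2: the derivation `d/dt` on a finite extension of `k(t)`
-/

set_option autoImplicit false

open Polynomial IsDedekindDomain NumberField

namespace Pool.Agent.H20.ML

section Der

variable {k : Type} [Field k] [CharZero k] (L : Type) [Field L] [Algebra (RatFunc k) L]
  [Algebra k[X] L] [IsScalarTower k[X] (RatFunc k) L] [Algebra k L]
  [IsScalarTower k (RatFunc k) L] [FiniteDimensional (RatFunc k) L]

omit [CharZero k] [FiniteDimensional (RatFunc k) L] in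
theorem co2_tower : IsScalarTower k k[X] L :=
  IsScalarTower.of_algebraMap_eq fun c => by
    rw [IsScalarTower.algebraMap_apply k (RatFunc k) L,
      IsScalarTower.algebraMap_apply k k[X] (RatFunc k),
      ← IsScalarTower.algebraMap_apply k[X] (RatFunc k) L]

theorem co2_exists : ∃ D : Derivation k L L,
    ∀ p : k[X], D (algebraMap k[X] L p) = algebraMap k[X] L (derivative p) := by
  have := co2_tower (k := k) L
  have h1 : Algebra.FormallyEtale k[X] (RatFunc k) :=
    Algebra.FormallyEtale.of_isLocalization (nonZeroDivisors k[X])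
  have h2 : Algebra.FormallyEtale (RatFunc k) L := Algebra.FormallyEtale.of_isSeparable _ _
  have h3 : Algebra.FormallyEtale k[X] L := Algebra.FormallyEtale.comp k[X] (RatFunc k) L
  let d : Derivation k k[X] L := Polynomial.mkDerivation k (1 : L)
  let e := KaehlerDifferential.tensorKaehlerEquivOfFormallyEtale k k[X] L
  refine ⟨((d.liftKaehlerDifferential.liftBaseChange L) ∘ₗ e.symm.toLinearMap).compDer
    (KaehlerDifferential.D k L), fun p => ?_⟩
  have h4 : e.symm (KaehlerDifferential.D k L (algebraMap k[X] L p)) =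
      1 ⊗ₜ[k[X]] (KaehlerDifferential.D k k[X] p) :=
    KaehlerDifferential.tensorKaehlerEquivOfFormallyEtale_symm_D_algebraMap k k[X] L p
  have h5 : (((d.liftKaehlerDifferential.liftBaseChange L) ∘ₗ e.symm.toLinearMap).compDer
      (KaehlerDifferential.D k L)) (algebraMap k[X] L p) =
      (d.liftKaehlerDifferential.liftBaseChange L)
        (e.symm (KaehlerDifferential.D k L (algebraMap k[X] L p))) := rfl
  rw [h5, h4, LinearMap.liftBaseChange_tmul, Derivation.liftKaehlerDifferential_comp_D, one_smul]
  change Polynomial.mkDerivation k (1 : L) p = _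
  rw [Polynomial.mkDerivation_apply, Algebra.smul_def, mul_one]

variable {L}

omit [CharZero k] [Algebra (RatFunc k) L] [IsScalarTower k[X] (RatFunc k) L]
  [IsScalarTower k (RatFunc k) L] [FiniteDimensional (RatFunc k) L] in
theorem co2_const_zero [IsScalarTower k k[X] L] {c : L} (P : k[X][X]) (hP : P ≠ 0)
    (hc : aeval c P = 0) (hd : ∀ i, (P.coeff i).natDegree = 0) : IsAlgebraic k c := by
  have h1 : (P.map (evalRingHom (0 : k))).map (algebraMap k k[X]) = P := by
    ext1 i
    rw [coeff_map, coeff_map, coe_evalRingHom, ← C_eq_algebraMap]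
    obtain ⟨a, ha⟩ := natDegree_eq_zero.1 (hd i)
    rw [← ha, eval_C]
  refine ⟨P.map (evalRingHom (0 : k)), ?_, ?_⟩
  · intro h0
    rw [h0, Polynomial.map_zero] at h1
    exact hP h1.symm
  · rw [← aeval_map_algebraMap k[X], h1, hc]

omit [Algebra (RatFunc k) L] [IsScalarTower k[X] (RatFunc k) L]
  [IsScalarTower k (RatFunc k) L] [FiniteDimensional (RatFunc k) L] in
theorem co2_const [IsScalarTower k k[X] L] (D : Derivation k L L)
    (hD : ∀ p : k[X], D (algebraMap k[X] L p) = algebraMap k[X] L (derivative p)) {c : L}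
    (hDc : D c = 0) (m : ℕ) : ∀ P : k[X][X], P ≠ 0 → aeval c P = 0 →
      (∀ i, (P.coeff i).natDegree ≤ m) → IsAlgebraic k c := by
  induction m with
  | zero =>
    intro P hP hc hd
    exact co2_const_zero P hP hc fun i => Nat.le_zero.1 (hd i)
  | succ m ih =>
    intro P hP hc hd
    set Q : k[X][X] := ∑ i ∈ Finset.range (P.natDegree + 1), C (derivative (P.coeff i)) * X ^ i
      with hQ
    have hQc : ∀ i, Q.coeff i = derivative (P.coeff i) := by
      intro i
      rw [hQ, finsetSum_coeff]
      simp only [coeff_C_mul, coeff_X_pow, mul_ite, mul_one, mul_zero]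
      rw [Finset.sum_ite_eq]
      split_ifs with h
      · rfl
      · rw [coeff_eq_zero_of_natDegree_lt, derivative_zero]
        rw [Finset.mem_range] at h
        omega
    by_cases hQ0 : Q = 0
    · refine co2_const_zero P hP hc fun i => ?_
      rw [← derivative_eq_zero, ← hQc, hQ0, coeff_zero]
    · refine ih Q hQ0 ?_ fun i => ?_
      · have h1 : D (aeval c P) = aeval c Q := by
          rw [aeval_eq_sum_range, map_sum, hQ, map_sum]
          refine Finset.sum_congr rfl fun i _ => ?_
          rw [Algebra.smul_def, D.leibniz, D.leibniz_pow, hDc, hD, map_mul, aeval_C, map_pow,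
            aeval_X]
          simp only [smul_eq_mul, mul_zero, smul_zero, zero_add]
          ring
        rw [← h1, hc, map_zero]
      · rw [hQc]
        have := natDegree_derivative_le (P.coeff i)
        have := hd i
        omega

omit [CharZero k] [Algebra (RatFunc k) L] [IsScalarTower k[X] (RatFunc k) L]
  [IsScalarTower k (RatFunc k) L] [FiniteDimensional (RatFunc k) L] in
theorem co2_fact (D : Derivation k L L) (hD : D (algebraMap k[X] L X) = 1) {c : L}
    (hDc : D c = 0) (N : ℕ) :
    ((D : L →ₗ[k] L) ^ N) ((algebraMap k[X] L X) ^ N * c) = (N.factorial : k) • c := by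
  induction N with
  | zero => simp
  | succ N ih =>
    rw [pow_succ, Module.End.mul_apply]
    have h1 : (D : L →ₗ[k] L) ((algebraMap k[X] L X) ^ (N + 1) * c) =
        ((N + 1 : ℕ) : k) • ((algebraMap k[X] L X) ^ N * c) := by
      change D _ = _
      rw [D.leibniz, D.leibniz_pow, hDc, hD]
      simp only [smul_eq_mul, mul_zero, zero_add, nsmul_eq_mul, mul_one, Nat.add_sub_cancel]
      rw [Algebra.smul_def, map_natCast]
      ring
    rw [h1, map_smul, ih, smul_smul, ← Nat.cast_mul, Nat.factorial_succ]

variable (L)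

theorem exists_deriv : ∃ D : Derivation k L L,
    (∀ p : k[X], D (algebraMap k[X] L p) = algebraMap k[X] L (derivative p)) ∧
    (∀ c : L, D c = 0 → IsAlgebraic k c) ∧
    ∀ (N : ℕ) (y : L), (D^[N]) y = 0 →
      y ∈ IntermediateField.adjoin (RatFunc k) {x : L | IsAlgebraic k x} := by
  have := co2_tower (k := k) L
  obtain ⟨D, hD⟩ := co2_exists (k := k) L
  have hDX : D (algebraMap k[X] L X) = 1 := by rw [hD, derivative_X, map_one]
  have hcon : ∀ c : L, D c = 0 → IsAlgebraic k c := by
    intro c hDc
    have h1 : IsAlgebraic k[X] c := (IsFractionRing.isAlgebraic_iff k[X] (RatFunc k) L).2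
      (Algebra.IsAlgebraic.isAlgebraic c)
    obtain ⟨P, hP, hc⟩ := h1
    refine co2_const D hD hDc (∑ i ∈ Finset.range (P.natDegree + 1), (P.coeff i).natDegree)
      P hP hc fun i => ?_
    by_cases hi : i ∈ Finset.range (P.natDegree + 1)
    · exact Finset.single_le_sum (f := fun i => (P.coeff i).natDegree) (fun _ _ => Nat.zero_le _) hi
    · rw [coeff_eq_zero_of_natDegree_lt (by rw [Finset.mem_range] at hi; omega), natDegree_zero]
      exact Nat.zero_le _
  refine ⟨D, hD, hcon, fun N => ?_⟩
  induction N with
  | zero =>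
    intro y hy
    rw [Function.iterate_zero, id_eq] at hy
    rw [hy]
    exact zero_mem _
  | succ N ih =>
    intro y hy
    set c : L := (D^[N]) y with hc
    have hDc : D c = 0 := (Function.iterate_succ_apply' (⇑D) N y).symm.trans hy
    have hit : ∀ z, (D^[N]) z = ((D : L →ₗ[k] L) ^ N) z := fun z => by
      rw [Module.End.pow_apply]
      rfl
    have hN : (N.factorial : k) ≠ 0 := Nat.cast_ne_zero.2 (Nat.factorial_ne_zero N)
    have h1 : (D^[N]) (y - (N.factorial : k)⁻¹ • ((algebraMap k[X] L X) ^ N * c)) = 0 := by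
      rw [hit, map_sub, map_smul, co2_fact D hDX hDc N, ← hit, ← hc, smul_smul,
        inv_mul_cancel₀ hN, one_smul, sub_self]
    have h2 := ih _ h1
    have h3 : (algebraMap k[X] L X) ^ N * c ∈
        IntermediateField.adjoin (RatFunc k) {x : L | IsAlgebraic k x} := by
      refine mul_mem (pow_mem ?_ N) (IntermediateField.subset_adjoin _ _ (hcon c hDc))
      rw [IsScalarTower.algebraMap_apply k[X] (RatFunc k) L]
      exact IntermediateField.algebraMap_mem _ _
    have h4 : (N.factorial : k)⁻¹ • ((algebraMap k[X] L X) ^ N * c) ∈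
        IntermediateField.adjoin (RatFunc k) {x : L | IsAlgebraic k x} := by
      rw [← algebraMap_smul (RatFunc k) ((N.factorial : k)⁻¹)]
      exact IntermediateField.smul_mem _ h3
    have h5 := add_mem h2 h4
    rwa [sub_add_cancel] at h5

end Der

end Pool.Agent.H20.ML
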