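import Mathlib
import Pool.Agent.H20.ML.Defs
import Pool.Agent.H20.ML.ConstBdd

/-!
# Project ML, block CONST: the places at infinity, seen in a second copy of the extension
-/

set_option autoImplicit false
set_option linter.unusedSectionVars false

open Polynomial IsDedekindDomain

namespace Pool.Agent.H20.ML

section Abs

/-- a root of a monic equation with integral coefficients is integral -/
theorem co4_le_one {K : Type*} [Field K] (v : Valuation K (WithZero (Multiplicative ℤ))) (N : ℕ)
    (b : ℕ → K) (a : K) (h : a ^ N + ∑ i ∈ Finset.range N, b i * a ^ i = 0)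
    (hb : ∀ i < N, v (b i) ≤ 1) : v a ≤ 1 := by
  by_contra hlt
  rw [not_le] at hlt
  have h0 : v a ≠ 0 := fun h => by rw [h] at hlt; exact absurd hlt (by simp)
  have h1 : v (∑ i ∈ Finset.range N, b i * a ^ i) < v a ^ N := by
    refine Valuation.map_sum_lt _ (pow_ne_zero _ h0) fun i hi => ?_
    rw [Finset.mem_range] at hi
    rw [map_mul, map_pow]
    calc v (b i) * v a ^ i ≤ 1 * v a ^ i := by gcongr; exact hb i hi
      _ = v a ^ i := one_mul _
      _ < v a ^ N := pow_lt_pow_right₀ hlt hi
  have h2 : a ^ N = -∑ i ∈ Finset.range N, b i * a ^ i := by linear_combination h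
  have h3 := congrArg v h2
  rw [map_pow, Valuation.map_neg] at h3
  exact absurd h1 (by rw [← h3]; exact lt_irrefl _)

/-- the reversed polynomial -/
noncomputable def co4_rev {k : Type*} [Field k] (m : ℕ) (p : k[X]) : k[X] :=
  ∑ j ∈ Finset.range (m + 1), C (p.coeff j) * X ^ (m - j)

theorem co4_rev_coeff_zero {k : Type*} [Field k] (m : ℕ) (p : k[X]) :
    (co4_rev m p).coeff 0 = p.coeff m := by
  unfold co4_rev
  rw [finsetSum_coeff, Finset.sum_range_succ, Finset.sum_eq_zero, zero_add, Nat.sub_self, pow_zero,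
    mul_one, coeff_C_zero]
  intro j hj
  rw [Finset.mem_range] at hj
  rw [coeff_C_mul, coeff_X_pow, if_neg (by omega), mul_zero]

/-- a ring homomorphism which sends `X` to the inverse of `x` -/
theorem co4_hom {k K : Type*} [Field k] [Field K] (φ ψ : k[X] →+* K)
    (hC : ∀ c, φ (C c) = ψ (C c)) (hX : φ X * ψ X = 1) (p : k[X]) {m : ℕ}
    (hm : p.natDegree ≤ m) : ψ X ^ m * φ p = ψ (co4_rev m p) := by
  conv_lhs => rw [p.as_sum_range' (m + 1) (by omega)]
  unfold co4_rev
  rw [map_sum, map_sum, Finset.mul_sum]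
  refine Finset.sum_congr rfl fun j hj => ?_
  rw [Finset.mem_range] at hj
  rw [← C_mul_X_pow_eq_monomial, map_mul, map_mul, map_pow, map_pow, hC]
  have h1 : ψ X ^ m = ψ X ^ (m - j) * ψ X ^ j := by rw [← pow_add]; congr 1; omega
  have h2 : ψ X ^ j * φ X ^ j = 1 := by rw [← mul_pow, mul_comm, hX, one_pow]
  rw [h1]
  linear_combination (ψ X ^ (m - j) * ψ (C (p.coeff j))) * h2

end Abs

section Inf

variable {k : Type} [Field k] [CharZero k] (L : Type) [Field L] [Algebra (RatFunc k) L]
  [Algebra k[X] L] [IsScalarTower k[X] (RatFunc k) L] [Algebra k L]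
  [IsScalarTower k (RatFunc k) L] [FiniteDimensional (RatFunc k) L]
  (L' : Type) [Field L'] [Algebra (RatFunc k) L']
  [Algebra k[X] L'] [IsScalarTower k[X] (RatFunc k) L'] [Algebra k L']
  [IsScalarTower k (RatFunc k) L'] [FiniteDimensional (RatFunc k) L']

attribute [local instance] isDedekind_RR isFractionRing_RR

omit [CharZero k] in
theorem co4_sigma_C (σ : RatFunc k ≃ₐ[k] RatFunc k) (c : k) :
    σ (algebraMap k[X] (RatFunc k) (C c)) = algebraMap k[X] (RatFunc k) (C c) := by
  have h : algebraMap k[X] (RatFunc k) (C c) = algebraMap k (RatFunc k) c := by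
    rw [RatFunc.algebraMap_C, RatFunc.algebraMap_eq_C]
  rw [h, AlgEquiv.commutes]

theorem co4_poly_le (Q : HeightOneSpectrum (RR k L')) (p : k[X]) :
    Q.valuation L' (algebraMap k[X] L' p) ≤ 1 := by
  rw [IsScalarTower.algebraMap_apply k[X] (RR k L') L']
  exact Q.valuation_le_one _

/-- the image of a polynomial in `L'` -/
theorem co4_rho (σ : RatFunc k ≃ₐ[k] RatFunc k) (hσ : σ RatFunc.X = RatFunc.X⁻¹)
    (ρ : L ≃+* L') (hρ : ∀ c, ρ (algebraMap (RatFunc k) L c) = algebraMap (RatFunc k) L' (σ c))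
    (p : k[X]) {m : ℕ} (hm : p.natDegree ≤ m) :
    algebraMap k[X] L' X ^ m * ρ (algebraMap k[X] L p) = algebraMap k[X] L' (co4_rev m p) := by
  refine co4_hom (ρ.toRingHom.comp (algebraMap k[X] L)) (algebraMap k[X] L') ?_ ?_ p hm
  · intro c
    show ρ (algebraMap k[X] L (C c)) = _
    rw [IsScalarTower.algebraMap_apply k[X] (RatFunc k) L, hρ, co4_sigma_C,
      ← IsScalarTower.algebraMap_apply k[X] (RatFunc k) L']
  · show ρ (algebraMap k[X] L X) * _ = 1
    rw [IsScalarTower.algebraMap_apply k[X] (RatFunc k) L, hρ, RatFunc.algebraMap_X, hσ,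
      IsScalarTower.algebraMap_apply k[X] (RatFunc k) L', RatFunc.algebraMap_X, ← map_mul,
      inv_mul_cancel₀ RatFunc.X_ne_zero, map_one]

/-- the equation of an integral element -/
theorem co4_eqn (ρ : L ≃+* L') (y : L) (hy : IsIntegral k[X] y) :
    ρ y ^ (minpoly k[X] y).natDegree + ∑ i ∈ Finset.range (minpoly k[X] y).natDegree,
      ρ (algebraMap k[X] L ((minpoly k[X] y).coeff i)) * ρ y ^ i = 0 := by
  have h1 := minpoly.aeval k[X] y
  rw [aeval_eq_sum_range, Finset.sum_range_succ, (minpoly.monic hy).coeff_natDegree, one_smul] at h1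
  have h2 := congrArg ρ h1
  rw [map_add, map_sum, map_pow, map_zero] at h2
  rw [← h2, add_comm]
  congr 1
  refine Finset.sum_congr rfl fun i _ => ?_
  rw [Algebra.smul_def, map_mul, map_pow]

/-- every integral element has bounded poles at infinity -/
theorem inf_bound (σ : RatFunc k ≃ₐ[k] RatFunc k) (hσ : σ RatFunc.X = RatFunc.X⁻¹)
    (ρ : L ≃+* L') (hρ : ∀ c, ρ (algebraMap (RatFunc k) L c) = algebraMap (RatFunc k) L' (σ c))
    (y : L) (hy : IsIntegral k[X] y) : ∃ m : ℕ, ∀ Q : HeightOneSpectrum (RR k L'),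
      Q.valuation L' (algebraMap k[X] L' X) < 1 →
      Q.valuation L' (ρ y) * Q.valuation L' (algebraMap k[X] L' X) ^ m ≤ 1 := by
  set P := minpoly k[X] y with hP
  set N := P.natDegree with hN
  set m := (Finset.range N).sup (fun i => (P.coeff i).natDegree) with hm
  refine ⟨m, fun Q hQ => ?_⟩
  rw [← map_pow, ← map_mul]
  set x := algebraMap k[X] L' X with hx
  refine co4_le_one (Q.valuation L') N
    (fun i => x ^ (m * (N - i)) * ρ (algebraMap k[X] L (P.coeff i))) _ ?_ ?_
  · have h1 := co4_eqn L L' ρ y hy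
    have h2 : (ρ y * x ^ m) ^ N + ∑ i ∈ Finset.range N,
        x ^ (m * (N - i)) * ρ (algebraMap k[X] L (P.coeff i)) * (ρ y * x ^ m) ^ i =
        x ^ (m * N) * (ρ y ^ N + ∑ i ∈ Finset.range N,
          ρ (algebraMap k[X] L (P.coeff i)) * ρ y ^ i) := by
      rw [mul_add, Finset.mul_sum, mul_pow, ← pow_mul, mul_comm (ρ y ^ N)]
      congr 1
      refine Finset.sum_congr rfl fun i hi => ?_
      rw [Finset.mem_range] at hi
      have h3 : x ^ (m * N) = x ^ (m * (N - i)) * x ^ (m * i) := by
        rw [← pow_add, ← mul_add]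
        congr 2
        omega
      rw [h3, mul_pow, ← pow_mul]
      ring
    rw [h2, h1, mul_zero]
  · intro i hi
    have h4 : (P.coeff i).natDegree ≤ m :=
      Finset.le_sup (f := fun i => (P.coeff i).natDegree) (Finset.mem_range.mpr hi)
    have h3 : m * (N - i) = m * (N - i - 1) + m := by
      have : N - i = (N - i - 1) + 1 := by omega
      conv_lhs => rw [this]
      ring
    rw [h3, pow_add, mul_assoc, co4_rho L L' σ hσ ρ hρ _ h4, map_mul, map_pow]
    exact mul_le_one' (pow_le_one' hQ.le _) (co4_poly_le L' Q _)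

/-- a polynomial whose image under `X ↦ 1/X` is a polynomial is constant -/
theorem co4_const (σ : RatFunc k ≃ₐ[k] RatFunc k) (hσ : σ RatFunc.X = RatFunc.X⁻¹) (p q : k[X])
    (h : σ (algebraMap k[X] (RatFunc k) p) = algebraMap k[X] (RatFunc k) q) :
    p = C (p.coeff 0) := by
  have h1 := co4_hom (σ.toRingEquiv.toRingHom.comp (algebraMap k[X] (RatFunc k)))
    (algebraMap k[X] (RatFunc k)) (fun c => co4_sigma_C σ c)
    (by
      show σ (algebraMap k[X] (RatFunc k) X) * _ = 1
      rw [RatFunc.algebraMap_X, hσ, inv_mul_cancel₀ RatFunc.X_ne_zero]) p le_rfl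
  have h2 : (σ.toRingEquiv.toRingHom.comp (algebraMap k[X] (RatFunc k))) p =
      algebraMap k[X] (RatFunc k) q := h
  rw [h2, ← map_pow, ← map_mul] at h1
  have h3 := (IsFractionRing.injective k[X] (RatFunc k)) h1
  by_contra hne
  have hd : p.natDegree ≠ 0 := fun h0 => hne (eq_C_of_natDegree_eq_zero h0)
  have h4 : (X ^ p.natDegree * q).coeff 0 = (co4_rev p.natDegree p).coeff 0 := by rw [h3]
  rw [co4_rev_coeff_zero, mul_coeff_zero, coeff_X_pow, if_neg (Ne.symm hd), zero_mul] at h4
  exact hne (by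
    have h5 : p = 0 := leadingCoeff_eq_zero.mp h4.symm
    rw [h5]; simp)

/-- there is a place over `X` -/
theorem co4_exists_place : ∃ Q : HeightOneSpectrum (RR k L'),
    Q.valuation L' (algebraMap k[X] L' X) < 1 := by
  have hinj : Function.Injective (algebraMap k[X] (RR k L')) := by
    have h : Function.Injective (algebraMap k[X] L') := by
      rw [IsScalarTower.algebraMap_eq k[X] (RatFunc k) L']
      exact (algebraMap (RatFunc k) L').injective.comp (IsFractionRing.injective k[X] (RatFunc k))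
    rw [IsScalarTower.algebraMap_eq k[X] (RR k L') L', RingHom.coe_comp] at h
    exact Function.Injective.of_comp h
  have hnu : ¬ IsUnit (algebraMap k[X] (RR k L') X) := by
    intro h
    have : FaithfulSMul k[X] (RR k L') := (faithfulSMul_iff_algebraMap_injective _ _).mpr hinj
    have h1 : IsUnit (X : k[X]) := isUnit_of_map_unit (algebraMap k[X] (RR k L')) X h
    exact not_isUnit_X h1
  obtain ⟨M, hM, hXM⟩ := exists_max_ideal_of_mem_nonunits hnu
  have h0 : algebraMap k[X] (RR k L') X ≠ 0 := by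
    intro h
    exact X_ne_zero (hinj (by rw [h, map_zero]))
  refine ⟨⟨M, hM.isPrime, fun h => h0 (by rw [h] at hXM; exact hXM)⟩, ?_⟩
  rw [IsScalarTower.algebraMap_apply k[X] (RR k L') L', HeightOneSpectrum.valuation_lt_one_iff_mem]
  exact hXM

/-- an integral element that vanishes at all places at infinity is zero -/
theorem inf_zero (σ : RatFunc k ≃ₐ[k] RatFunc k) (hσ : σ RatFunc.X = RatFunc.X⁻¹)
    (ρ : L ≃+* L') (hρ : ∀ c, ρ (algebraMap (RatFunc k) L c) = algebraMap (RatFunc k) L' (σ c))
    (z : L) (hz : IsIntegral k[X] z) (h : ∀ Q : HeightOneSpectrum (RR k L'),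
      Q.valuation L' (algebraMap k[X] L' X) < 1 → Q.valuation L' (ρ z) < 1) : z = 0 := by
  -- `ρ z` is integral
  have hint : IsIntegral k[X] (ρ z) := by
    refine integral_of_val L' (ρ z) fun Q => ?_
    by_cases hQ : Q.valuation L' (algebraMap k[X] L' X) < 1
    · exact (h Q hQ).le
    · have hQ1 : Q.valuation L' (algebraMap k[X] L' X) = 1 :=
        le_antisymm (co4_poly_le L' Q X) (not_lt.mp hQ)
      refine co4_le_one (Q.valuation L') _ _ _ (co4_eqn L L' ρ z hz) fun i _ => ?_
      have h1 := congrArg (Q.valuation L') (co4_rho L L' σ hσ ρ hρ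
        ((minpoly k[X] z).coeff i) le_rfl)
      rw [map_mul, map_pow, hQ1, one_pow, one_mul] at h1
      rw [h1]
      exact co4_poly_le L' Q _
  -- the minimal polynomials
  have hmz := minpoly.isIntegrallyClosed_eq_field_fractions' (RatFunc k) hz
  have hmw := minpoly.isIntegrallyClosed_eq_field_fractions' (RatFunc k) hint
  have hrel : minpoly (RatFunc k) (ρ z) = (minpoly (RatFunc k) z).map σ.toRingEquiv.toRingHom := by
    have hzi : IsIntegral (RatFunc k) z := Algebra.IsIntegral.isIntegral z
    symm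
    refine minpoly.eq_of_irreducible_of_monic ?_ ?_ ((minpoly.monic hzi).map _)
    · exact (MulEquiv.irreducible_iff (Polynomial.mapEquiv σ.toRingEquiv)).mpr
        (minpoly.irreducible hzi)
    · have h1 := congrArg ρ (minpoly.aeval (RatFunc k) z)
      rw [map_zero] at h1
      rw [← h1, aeval_def, aeval_def, eval₂_map]
      change _ = ρ.toRingHom _
      rw [hom_eval₂]
      congr 1
      ext c
      exact (hρ c).symm
  have hc0 : σ (algebraMap k[X] (RatFunc k) ((minpoly k[X] z).coeff 0)) =
      algebraMap k[X] (RatFunc k) ((minpoly k[X] (ρ z)).coeff 0) := by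
    have h1 := congrArg (fun r => coeff r 0) hrel
    simp only [hmz, hmw, coeff_map] at h1
    exact h1.symm
  have hconst := co4_const σ hσ _ _ hc0
  have hc1 : (minpoly k[X] (ρ z)).coeff 0 = C ((minpoly k[X] z).coeff 0 |>.coeff 0) := by
    apply IsFractionRing.injective k[X] (RatFunc k)
    rw [← hc0, hconst, co4_sigma_C, coeff_C_zero]
  -- the constant vanishes
  obtain ⟨Q, hQ⟩ := co4_exists_place (k := k) L'
  have hzero : ((minpoly k[X] z).coeff 0).coeff 0 = 0 := by
    by_contra hne
    have hv1 : Q.valuation L' (algebraMap k[X] L' ((minpoly k[X] (ρ z)).coeff 0)) = 1 := by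
      have hv : algebraMap k[X] L' ((minpoly k[X] (ρ z)).coeff 0) =
          algebraMap k L' (((minpoly k[X] z).coeff 0).coeff 0) := by
        have := co3_tower (k := k) L'
        rw [hc1, IsScalarTower.algebraMap_apply k k[X] L']
        rfl
      rw [hv]
      exact val_const L' Q _ hne
    have h1 := minpoly.aeval k[X] (ρ z)
    rw [aeval_eq_sum_range, Finset.sum_range_succ'] at h1
    rw [pow_zero, Algebra.smul_def, mul_one] at h1
    have h2 : Q.valuation L' (∑ i ∈ Finset.range (minpoly k[X] (ρ z)).natDegree,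
        (minpoly k[X] (ρ z)).coeff (i + 1) • ρ z ^ (i + 1)) < 1 := by
      refine Valuation.map_sum_lt _ one_ne_zero fun i _ => ?_
      rw [Algebra.smul_def, map_mul, map_pow]
      calc Q.valuation L' (algebraMap k[X] L' ((minpoly k[X] (ρ z)).coeff (i + 1))) *
          Q.valuation L' (ρ z) ^ (i + 1) ≤ 1 * Q.valuation L' (ρ z) ^ (i + 1) := by
            gcongr
            exact co4_poly_le L' Q _
        _ = Q.valuation L' (ρ z) ^ (i + 1) := one_mul _
        _ < 1 := pow_lt_one' (h Q hQ) (Nat.succ_ne_zero i)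
    have h3 : algebraMap k[X] L' ((minpoly k[X] (ρ z)).coeff 0) =
        -∑ i ∈ Finset.range (minpoly k[X] (ρ z)).natDegree,
          (minpoly k[X] (ρ z)).coeff (i + 1) • ρ z ^ (i + 1) := by
      linear_combination h1
    rw [h3, Valuation.map_neg] at hv1
    exact absurd h2 (by rw [hv1]; exact lt_irrefl _)
  have hw0 : (minpoly (RatFunc k) z).coeff 0 = 0 := by
    rw [hmz, coeff_map, hconst, hzero, map_zero, map_zero]
  exact (minpoly.coeff_zero_eq_zero (Algebra.IsIntegral.isIntegral z)).mp hw0

end Inf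

end Pool.Agent.H20.ML
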