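import Mathlib
import Pool.Agent.H20.ML.Defs

/-!
# Project ML, CO-6: the automorphisms `t ↦ s + 1/t` of `k(t)`
-/

set_option autoImplicit false

open Polynomial IsDedekindDomain NumberField

namespace Pool.Agent.H20.ML

section Mob

variable {k : Type} [Field k]

/-- the variable is transcendental -/
theorem co6_X : Transcendental k (RatFunc.X : RatFunc k) := by
  have h := (transcendental_algebraMap_iff (R := k) (A := RatFunc k)
    (RatFunc.algebraMap_injective (K := k))).2 (Polynomial.transcendental_X k)
  rwa [RatFunc.algebraMap_X] at h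

/-- algebra homomorphisms with the same value at the variable agree -/
theorem co6_ext {f g : RatFunc k →ₐ[k] RatFunc k} (h : f RatFunc.X = g RatFunc.X) (x : RatFunc k) :
    f x = g x := by
  have h1 : (f : RatFunc k →+* RatFunc k) = (g : RatFunc k →+* RatFunc k) := by
    refine IsFractionRing.ringHom_ext (A := k[X]) fun p => ?_
    have h2 : f.comp (IsScalarTower.toAlgHom k k[X] (RatFunc k)) =
        g.comp (IsScalarTower.toAlgHom k k[X] (RatFunc k)) := by
      apply Polynomial.algHom_ext
      simpa using h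
    exact DFunLike.congr_fun h2 p
  exact DFunLike.congr_fun h1 x

/-- the homomorphism with a given transcendental value at the variable -/
theorem co6_hom {u : RatFunc k} (hu : Transcendental k u) :
    ∃ f : RatFunc k →ₐ[k] RatFunc k, f RatFunc.X = u := by
  have hinj := transcendental_iff_injective.1 hu
  have hφ : nonZeroDivisors k[X] ≤ (nonZeroDivisors (RatFunc k)).comap (aeval (R := k) u) := by
    intro p hp
    rw [Submonoid.mem_comap, mem_nonZeroDivisors_iff_ne_zero]
    intro h0
    exact nonZeroDivisors.ne_zero hp (hinj (h0.trans (map_zero _).symm))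
  refine ⟨RatFunc.liftAlgHom (aeval (R := k) u) hφ, ?_⟩
  have h1 : RatFunc.liftAlgHom (aeval (R := k) u) hφ (algebraMap k[X] (RatFunc k) X) =
      aeval (R := k) u X := RatFunc.liftRingHom_algebraMap _ hφ _
  rwa [RatFunc.algebraMap_X, aeval_X] at h1

theorem exists_mob (s : k) : ∃ σ : RatFunc k ≃ₐ[k] RatFunc k,
    σ RatFunc.X = RatFunc.C s + RatFunc.X⁻¹ := by
  have hC : RatFunc.C s = algebraMap k (RatFunc k) s := rfl
  have hs : IsAlgebraic k (algebraMap k (RatFunc k) s) := isAlgebraic_algebraMap s
  have h1 : Transcendental k (RatFunc.C s + RatFunc.X⁻¹ : RatFunc k) := by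
    intro h
    rw [hC] at h
    have h2 := h.sub hs
    rw [add_sub_cancel_left, IsAlgebraic.inv_iff] at h2
    exact co6_X h2
  have h2 : Transcendental k ((RatFunc.X - RatFunc.C s : RatFunc k)⁻¹) := by
    intro h
    rw [hC, IsAlgebraic.inv_iff] at h
    have h3 := h.add hs
    rw [sub_add_cancel] at h3
    exact co6_X h3
  obtain ⟨f, hf⟩ := co6_hom h1
  obtain ⟨g, hg⟩ := co6_hom h2
  have hfC : ∀ a : k, f (RatFunc.C a) = RatFunc.C a := fun a => f.commutes a
  have hgC : ∀ a : k, g (RatFunc.C a) = RatFunc.C a := fun a => g.commutes a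
  refine ⟨AlgEquiv.ofAlgHom f g ?_ ?_, hf⟩
  · refine AlgHom.ext fun x => co6_ext (f := f.comp g) (g := AlgHom.id k _) ?_ x
    rw [AlgHom.comp_apply, hg, map_inv₀, map_sub, hf, hfC, add_sub_cancel_left, inv_inv,
      AlgHom.id_apply]
  · refine AlgHom.ext fun x => co6_ext (f := g.comp f) (g := AlgHom.id k _) ?_ x
    rw [AlgHom.comp_apply, hf, map_add, map_inv₀, hg, hgC, inv_inv, add_sub_cancel,
      AlgHom.id_apply]

end Mob

end Pool.Agent.H20.ML
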