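import Mathlib
import Pool.Agent.H20.ML.Defs

/-!
# CO-9 : the same place in two coordinates
-/

set_option autoImplicit false

open Polynomial IsDedekindDomain NumberField

namespace Pool.Agent.H20.ML

/-! ### CO-9 ConstPlace.lean : the same place in two coordinates -/

/-- The prime ideal of a valuation. -/
def co9_ideal {S : Type} [CommRing S] {M : Type} [Field M]
    [Algebra S M] (v : Valuation M (WithZero (Multiplicative ℤ)))
    (hv : ∀ s : S, v (algebraMap S M s) ≤ 1) : Ideal S where
  carrier := {s | v (algebraMap S M s) < 1}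
  add_mem' := by
    intro a b ha hb
    simp only [Set.mem_setOf_eq, map_add] at *
    exact lt_of_le_of_lt (v.map_add _ _) (max_lt ha hb)
  zero_mem' := by simp
  smul_mem' := by
    intro c x hx
    simp only [Set.mem_setOf_eq, smul_eq_mul, map_mul] at *
    exact lt_of_le_of_lt (mul_le_of_le_one_left' (hv c)) hx

theorem co9_mem {S : Type} [CommRing S] {M : Type} [Field M]
    [Algebra S M] (v : Valuation M (WithZero (Multiplicative ℤ)))
    (hv : ∀ s : S, v (algebraMap S M s) ≤ 1) (s : S) :
    s ∈ co9_ideal v hv ↔ v (algebraMap S M s) < 1 := Iff.rfl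

/-- A normalised discrete valuation that is integral on a Dedekind domain is the valuation of a
prime. -/
theorem exists_same_place {S : Type} [CommRing S] [IsDedekindDomain S] {M : Type} [Field M]
    [Algebra S M] [IsFractionRing S M] (v : Valuation M (WithZero (Multiplicative ℤ)))
    (hv : ∀ s : S, v (algebraMap S M s) ≤ 1) (hπ : ∃ π, v π = WithZero.exp (-1 : ℤ)) :
    ∃ Q : HeightOneSpectrum S, ∀ x : M, Q.valuation M x = v x := by
  have hout : ∀ s : S, s ∉ co9_ideal v hv → v (algebraMap S M s) = 1 := by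
    intro s hs
    rw [co9_mem, not_lt] at hs
    exact le_antisymm (hv s) hs
  have hprime : (co9_ideal v hv).IsPrime := by
    refine Ideal.isPrime_iff.2 ⟨?_, ?_⟩
    · rw [Ne, Ideal.eq_top_iff_one, co9_mem]
      simp
    · intro x y hxy
      by_contra hcon
      rw [not_or] at hcon
      rw [co9_mem, map_mul, map_mul, hout x hcon.1, hout y hcon.2] at hxy
      simp at hxy
  have hbot : co9_ideal v hv ≠ ⊥ := by
    intro hb
    obtain ⟨π, hπ⟩ := hπ
    obtain ⟨a, b, hb0, hab⟩ := IsFractionRing.div_surjective (A := S) π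
    have hb1 : b ≠ 0 := nonZeroDivisors.ne_zero hb0
    have h1 : ∀ s : S, s ≠ 0 → v (algebraMap S M s) = 1 := by
      intro s hs
      refine hout s ?_
      rw [hb]
      simpa using hs
    have ha1 : a ≠ 0 := by
      rintro rfl
      rw [map_zero, zero_div] at hab
      rw [← hab, map_zero] at hπ
      exact WithZero.exp_ne_zero hπ.symm
    rw [← hab, map_div₀, h1 a ha1, h1 b hb1, div_one] at hπ
    have h2 : (1 : WithZero (Multiplicative ℤ)) = WithZero.exp (0 : ℤ) := rfl
    rw [h2, WithZero.exp_inj] at hπ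
    omega
  let Q : HeightOneSpectrum S := ⟨co9_ideal v hv, hprime, hbot⟩
  refine ⟨Q, ?_⟩
  have hunit : ∀ x : M, Q.valuation M x = 1 → v x = 1 := by
    intro x hx
    obtain ⟨n, d, hnd⟩ := HeightOneSpectrum.exists_primeCompl_mul_eq_of_integer Q x hx.le
    have hd : v (algebraMap S M (d : S)) = 1 := hout d d.2
    have hd' : Q.valuation M (algebraMap S M (d : S)) = 1 :=
      (HeightOneSpectrum.valuation_eq_one_iff_notMem Q).2 d.2
    have hn : Q.valuation M (algebraMap S M n) = 1 := by
      rw [← hnd, map_mul, hx, hd', one_mul]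
    have hn' : v (algebraMap S M n) = 1 :=
      hout n ((HeightOneSpectrum.valuation_eq_one_iff_notMem Q).1 hn)
    have h3 := congrArg v hnd
    rw [map_mul, hd, mul_one, hn'] at h3
    exact h3
  obtain ⟨p, hp⟩ := Q.valuation_exists_uniformizer M
  have hp0 : p ≠ 0 := by
    rintro rfl
    rw [map_zero] at hp
    exact WithZero.exp_ne_zero hp.symm
  have hvp0 : v p ≠ 0 := (Valuation.ne_zero_iff v).2 hp0
  -- every element has the form `p ^ m * unit`
  have hgen : ∀ x : M, x ≠ 0 → ∃ m : ℤ, Q.valuation M x = WithZero.exp (-m) ∧ v x = v p ^ m := by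
    intro x hx
    have hqx : Q.valuation M x ≠ 0 := (Valuation.ne_zero_iff _).2 hx
    refine ⟨-WithZero.log (Q.valuation M x), ?_, ?_⟩
    · rw [neg_neg, WithZero.exp_log hqx]
    · have h4 : Q.valuation M (x * p ^ (WithZero.log (Q.valuation M x))) = 1 := by
        rw [map_mul, map_zpow₀, hp, ← WithZero.exp_zsmul]
        rw [smul_neg, smul_eq_mul, mul_one, WithZero.exp_neg, WithZero.exp_log hqx]
        exact mul_inv_cancel₀ hqx
      have h5 := hunit _ h4
      rw [map_mul, map_zpow₀] at h5
      rw [zpow_neg]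
      exact eq_inv_of_mul_eq_one_left h5
  obtain ⟨π, hπ⟩ := hπ
  have hπ0 : π ≠ 0 := by
    rintro rfl
    rw [map_zero] at hπ
    exact WithZero.exp_ne_zero hπ.symm
  obtain ⟨m, -, hm⟩ := hgen π hπ0
  have hle : v p ≤ 1 := by
    obtain ⟨n, d, hnd⟩ := HeightOneSpectrum.exists_primeCompl_mul_eq_of_integer Q p (by
      rw [hp]
      exact (WithZero.exp_le_exp.2 (by norm_num : (-1 : ℤ) ≤ 0)))
    have hd : v (algebraMap S M (d : S)) = 1 := hout d d.2
    have h3 := congrArg v hnd
    rw [map_mul, hd, mul_one] at h3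
    rw [h3]
    exact hv n
  have hlog : WithZero.log (v p) = -1 := by
    rw [hπ] at hm
    have h6 := congrArg WithZero.log hm
    rw [WithZero.log_exp, WithZero.log_zpow] at h6
    rw [smul_eq_mul] at h6
    have h7 : WithZero.log (v p) ≤ 0 := by
      have := (WithZero.log_le_log hvp0 one_ne_zero).2 hle
      simpa using this
    have h8 : IsUnit (WithZero.log (v p)) := by
      refine IsUnit.of_mul_eq_one (-m) ?_
      linarith
    rcases Int.isUnit_iff.1 h8 with h | h
    · omega
    · exact h
  have hvp : v p = WithZero.exp (-1 : ℤ) := by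
    rw [← hlog, WithZero.exp_log hvp0]
  intro x
  rcases eq_or_ne x 0 with rfl | hx
  · simp
  · obtain ⟨m, h1, h2⟩ := hgen x hx
    rw [h1, h2, hvp, ← WithZero.exp_zsmul]
    congr 1
    simp

theorem co9_val_one {S : Type} [CommRing S] [IsDedekindDomain S] {M : Type} [Field M]
    [Algebra S M] [IsFractionRing S M] (Q : HeightOneSpectrum S) (s : S) (hs : s ∉ Q.asIdeal) :
    Q.valuation M (algebraMap S M s) = 1 :=
  (HeightOneSpectrum.valuation_eq_one_iff_notMem (K := M) Q).2 hs

theorem co9_val_le {S : Type} [CommRing S] [IsDedekindDomain S] {M : Type} [Field M]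
    [Algebra S M] [IsFractionRing S M] (Q : HeightOneSpectrum S) (s : S) :
    Q.valuation M (algebraMap S M s) ≤ 1 := by
  rw [HeightOneSpectrum.valuation_of_algebraMap]
  exact Q.intValuation_le_one s

theorem co9_val_two {S : Type} [CommRing S] [IsDedekindDomain S] {M : Type} [Field M]
    [Algebra S M] [IsFractionRing S M] (Q : HeightOneSpectrum S) (s : S) :
    Q.valuation M (algebraMap S M s) ≤ WithZero.exp (-((2 : ℕ) : ℤ)) ↔ s ∈ Q.asIdeal ^ 2 := by
  rw [HeightOneSpectrum.valuation_of_algebraMap, HeightOneSpectrum.intValuation_le_pow_iff_mem]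

/-- transport of a valuation that is at most one on the polynomials -/
theorem co9_int {k : Type} [Field k] {M : Type} [Field M] [Algebra k[X] M]
    (v : Valuation M (WithZero (Multiplicative ℤ)))
    (hv : ∀ p : k[X], v (algebraMap k[X] M p) ≤ 1) (s : M) (hs : IsIntegral k[X] s) :
    v s ≤ 1 := by
  obtain ⟨g, hg, hgs⟩ := hs
  have h5 : IsIntegral v.integer s := by
    let φ : k[X] →+* v.integer := (algebraMap k[X] M).codRestrict v.integer hv
    refine ⟨g.map φ, hg.map φ, ?_⟩
    rw [eval₂_map]
    exact hgs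
  exact Valuation.Integers.mem_of_integral (Valuation.integer.integers v) h5

section Weight

variable {k : Type} [Field k] [CharZero k] (L : Type) [Field L] [Algebra (RatFunc k) L]
  [Algebra k[X] L] [IsScalarTower k[X] (RatFunc k) L] [Algebra k L]
  [IsScalarTower k (RatFunc k) L] [FiniteDimensional (RatFunc k) L]
  (L' : Type) [Field L'] [Algebra (RatFunc k) L']
  [Algebra k[X] L'] [IsScalarTower k[X] (RatFunc k) L'] [Algebra k L']
  [IsScalarTower k (RatFunc k) L'] [FiniteDimensional (RatFunc k) L']

omit [IsScalarTower k (RatFunc k) L] [Algebra k L] in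
theorem co9_dedekind : IsDedekindDomain (RR k L) :=
  integralClosure.isDedekindDomain k[X] (RatFunc k) L

omit [CharZero k] [IsScalarTower k (RatFunc k) L] [Algebra k L] in
theorem co9_fraction : IsFractionRing (RR k L) L :=
  integralClosure.isFractionRing_of_finite_extension (RatFunc k) L

attribute [local instance] co9_dedekind co9_fraction

theorem ramified_twist (σ : RatFunc k ≃ₐ[k] RatFunc k)
    (ρ : L ≃+* L') (hρ : ∀ c, ρ (algebraMap (RatFunc k) L c) = algebraMap (RatFunc k) L' (σ c))
    (f f' : k[X]) (hf : Irreducible f) (hR : Ramified L f) (a b c d : k[X]) (hb : ¬ f ∣ b)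
    (hX : σ.symm RatFunc.X * algebraMap k[X] (RatFunc k) b = algebraMap k[X] (RatFunc k) a)
    (hc : ¬ f ∣ c) (hd : ¬ f ∣ d)
    (hf' : σ.symm (algebraMap k[X] (RatFunc k) f') * algebraMap k[X] (RatFunc k) d =
      algebraMap k[X] (RatFunc k) (f * c)) : Ramified L' f' := by
  obtain ⟨P, hP, hPbot, hfP⟩ := hR
  let Q : HeightOneSpectrum (RR k L) := ⟨P, hP, hPbot⟩
  -- polynomials prime to `f` have valuation one
  have htow : ∀ p : k[X], algebraMap (RatFunc k) L (algebraMap k[X] (RatFunc k) p) =
      algebraMap (RR k L) L (algebraMap k[X] (RR k L) p) := by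
    intro p
    rw [← IsScalarTower.algebraMap_apply]
    rfl
  have htow' : ∀ p : k[X], algebraMap (RatFunc k) L' (algebraMap k[X] (RatFunc k) p) =
      algebraMap (RR k L') L' (algebraMap k[X] (RR k L') p) := by
    intro p
    rw [← IsScalarTower.algebraMap_apply]
    rfl
  have hfmem : algebraMap k[X] (RR k L) f ∈ P := Ideal.pow_le_self two_ne_zero hfP
  have hone : ∀ p : k[X], ¬ f ∣ p →
      Q.valuation L (algebraMap (RatFunc k) L (algebraMap k[X] (RatFunc k) p)) = 1 := by
    intro p hp
    rw [htow]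
    refine co9_val_one Q _ ?_
    intro hmem
    have hcop : IsCoprime f p := (hf.coprime_iff_not_dvd).2 hp
    obtain ⟨u, w, huw⟩ := hcop
    refine hP.ne_top ((Ideal.eq_top_iff_one _).2 ?_)
    rw [← map_one (algebraMap k[X] (RR k L)), ← huw, map_add, map_mul, map_mul]
    exact P.add_mem (P.mul_mem_left _ hfmem) (P.mul_mem_left _ hmem)
  have hleone : ∀ p : k[X],
      Q.valuation L (algebraMap (RatFunc k) L (algebraMap k[X] (RatFunc k) p)) ≤ 1 := by
    intro p
    rw [htow]
    exact co9_val_le Q _
  let v : Valuation L' (WithZero (Multiplicative ℤ)) :=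
    (Q.valuation L).comap (ρ.symm : L' →+* L)
  have hvdef : ∀ x : L', v x = Q.valuation L (ρ.symm x) := fun x => rfl
  have hρ' : ∀ c, ρ.symm (algebraMap (RatFunc k) L' c) = algebraMap (RatFunc k) L (σ.symm c) := by
    intro c
    rw [RingEquiv.symm_apply_eq, hρ, AlgEquiv.apply_symm_apply]
  have hvX : v (algebraMap (RatFunc k) L' RatFunc.X) ≤ 1 := by
    rw [hvdef, hρ']
    have h1 := congrArg (fun x => Q.valuation L (algebraMap (RatFunc k) L x)) hX
    simp only [map_mul, hone b hb, mul_one] at h1
    rw [h1]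
    exact hleone a
  have hvC : ∀ c : k, v (algebraMap (RatFunc k) L' (RatFunc.C c)) ≤ 1 := by
    intro c
    rw [hvdef, hρ']
    have h2 : σ.symm (RatFunc.C c) = RatFunc.C c := by
      rw [← RatFunc.algebraMap_eq_C]
      exact σ.symm.commutes c
    rw [h2, ← RatFunc.algebraMap_C]
    exact hleone (C c)
  have hvp : ∀ p : k[X], v (algebraMap (RatFunc k) L' (algebraMap k[X] (RatFunc k) p)) ≤ 1 := by
    intro p
    induction p using Polynomial.induction_on' with
    | add p q hp hq =>
      rw [map_add, map_add]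
      exact (v.map_add _ _).trans (max_le hp hq)
    | monomial n c =>
      rw [← C_mul_X_pow_eq_monomial, map_mul, map_pow, RatFunc.algebraMap_C,
        RatFunc.algebraMap_X, map_mul, map_pow, map_mul, map_pow]
      exact mul_le_one' (hvC c) (pow_le_one' hvX n)
  have hvp' : ∀ p : k[X], v (algebraMap k[X] L' p) ≤ 1 := by
    intro p
    rw [IsScalarTower.algebraMap_apply k[X] (RatFunc k) L' p]
    exact hvp p
  have hint : ∀ s : RR k L', v (algebraMap (RR k L') L' s) ≤ 1 :=
    fun s => co9_int v hvp' _ s.2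
  have hunif : ∃ π : L', v π = WithZero.exp (-1 : ℤ) := by
    obtain ⟨π, hπ⟩ := Q.valuation_exists_uniformizer L
    refine ⟨ρ π, ?_⟩
    rw [hvdef, RingEquiv.symm_apply_apply, hπ]
  obtain ⟨Q', hQ'⟩ := exists_same_place (S := RR k L') v hint hunif
  refine ⟨Q'.asIdeal, Q'.isPrime, Q'.ne_bot, ?_⟩
  have h6 : v (algebraMap (RatFunc k) L' (algebraMap k[X] (RatFunc k) f')) ≤
      WithZero.exp (-((2 : ℕ) : ℤ)) := by
    rw [hvdef, hρ']
    have h7 := congrArg (fun x => Q.valuation L (algebraMap (RatFunc k) L x)) hf'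
    simp only [map_mul, hone d hd, hone c hc, mul_one] at h7
    rw [h7, htow]
    exact (co9_val_two Q _).2 hfP
  rw [htow', ← hQ'] at h6
  exact (co9_val_two Q' _).1 h6

end Weight

end Pool.Agent.H20.ML
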