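import Pool.Agent.H20.ML.ConstVal
import Pool.Agent.H20.ML.ConstDer
import Pool.Agent.H20.ML.ConstBdd
import Pool.Agent.H20.ML.ConstInf

/-!
# Project ML, block CONST: an extension of `k(t)` that is unramified over the affine line is
generated by constants

The derivation `d/dt` preserves the integral elements at unramified places and lowers the pole
orders at infinity, so it is locally nilpotent on the integral closure of `k[t]`.
-/

set_option autoImplicit false

open Polynomial IsDedekindDomain NumberField

namespace Pool.Agent.H20.ML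

section Inf

variable {k : Type} [Field k] [CharZero k] (L : Type) [Field L] [Algebra (RatFunc k) L]
  [Algebra k[X] L] [IsScalarTower k[X] (RatFunc k) L] [Algebra k L]
  [IsScalarTower k (RatFunc k) L] [FiniteDimensional (RatFunc k) L]
  (L' : Type) [Field L'] [Algebra (RatFunc k) L']
  [Algebra k[X] L'] [IsScalarTower k[X] (RatFunc k) L'] [Algebra k L']
  [IsScalarTower k (RatFunc k) L'] [FiniteDimensional (RatFunc k) L']

attribute [local instance] isDedekind_RR isFractionRing_RR

variable {L L'} in
/-- the constants are preserved by a semilinear isomorphism -/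
theorem co5_const (σ : RatFunc k ≃ₐ[k] RatFunc k) (ρ : L ≃+* L')
    (hρ : ∀ c, ρ (algebraMap (RatFunc k) L c) = algebraMap (RatFunc k) L' (σ c)) (c : k) :
    ρ (algebraMap k L c) = algebraMap k L' c := by
  rw [IsScalarTower.algebraMap_apply k (RatFunc k) L, hρ, AlgEquiv.commutes,
    ← IsScalarTower.algebraMap_apply k (RatFunc k) L']

variable {L} in
/-- polynomials act through the value at `X` -/
theorem co5_aeval (p : k[X]) : algebraMap k[X] L p = aeval (algebraMap k[X] L X) p := by
  have h1 : (algebraMap k[X] L).comp C = algebraMap k L := by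
    ext c
    rw [RingHom.comp_apply, IsScalarTower.algebraMap_apply k[X] (RatFunc k) L, RatFunc.algebraMap_C,
      IsScalarTower.algebraMap_apply k (RatFunc k) L, RatFunc.algebraMap_eq_C]
  rw [aeval_def, ← h1, ← hom_eval₂, eval₂_C_X]

variable {L L'} in
/-- transport of a derivation -/
noncomputable def co5_der (ρ : L ≃+* L') (hk : ∀ c : k, ρ (algebraMap k L c) = algebraMap k L' c)
    (E : Derivation k L L) : Derivation k L' L' where
  toFun y := ρ (E (ρ.symm y))
  map_add' a b := by simp
  map_smul' c y := by
    have h1 : ρ.symm (c • y) = c • ρ.symm y := by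
      rw [Algebra.smul_def, Algebra.smul_def, map_mul, ← hk, RingEquiv.symm_apply_apply]
    rw [h1, E.map_smul, Algebra.smul_def, map_mul, hk, RingHom.id_apply, ← Algebra.smul_def]
  map_one_eq_zero' := by simp
  leibniz' a b := by simp

/-- the derivation `d/dt` respects the integral elements -/
theorem co5_int (h : ∀ f : k[X], Irreducible f → ¬ Ramified L f) (D : Derivation k L L)
    (hD : ∀ p : k[X], D (algebraMap k[X] L p) = algebraMap k[X] L (derivative p)) (y : L)
    (hy : IsIntegral k[X] y) : IsIntegral k[X] (D y) := by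
  refine integral_of_val L _ fun Q => ?_
  obtain ⟨f, hf, hf1⟩ := val_unram L h Q
  refine val_deriv_unram (Q.valuation L) D (fun c hc => val_const L Q c hc)
    (fun y hy => val_res L Q y hy) (val_bdd L Q D fun p => ⟨_, hD p⟩) _ hf1 ?_ y ?_
  · rw [hD]
    exact Q.valuation_le_one (⟨algebraMap k[X] L (derivative f),
      isIntegral_algebraMap⟩ : RR k L)
  · exact Q.valuation_le_one (⟨y, hy⟩ : RR k L)

variable {L L'} in
/-- at infinity: one differentiation lowers the pole order -/
theorem co5_inf (σ : RatFunc k ≃ₐ[k] RatFunc k) (hσ : σ RatFunc.X = RatFunc.X⁻¹)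
    (ρ : L ≃+* L') (hρ : ∀ c, ρ (algebraMap (RatFunc k) L c) = algebraMap (RatFunc k) L' (σ c))
    (D : Derivation k L L)
    (hD : ∀ p : k[X], D (algebraMap k[X] L p) = algebraMap k[X] L (derivative p))
    (Q : HeightOneSpectrum (RR k L'))
    (hQ : Q.valuation L' (algebraMap k[X] L' X) < 1) (y : L) :
    Q.valuation L' (ρ (D y)) ≤ Q.valuation L' (algebraMap k[X] L' X) * Q.valuation L' (ρ y) := by
  have hX : ρ (algebraMap k[X] L X) = (algebraMap k[X] L' X)⁻¹ := by
    rw [IsScalarTower.algebraMap_apply k[X] (RatFunc k) L, hρ, RatFunc.algebraMap_X, hσ, map_inv₀,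
      ← RatFunc.algebraMap_X, ← IsScalarTower.algebraMap_apply k[X] (RatFunc k) L']
  have hX0 : algebraMap k[X] L' X ≠ 0 := by
    rw [IsScalarTower.algebraMap_apply k[X] (RatFunc k) L', RatFunc.algebraMap_X]
    exact (_root_.map_ne_zero _).mpr RatFunc.X_ne_zero
  -- the derivation `t d/dt`
  set E : Derivation k L L := algebraMap k[X] L X • D with hE
  set E' := co5_der ρ (co5_const σ ρ hρ) E with hE'
  have hE'1 : ∀ z, E' z = ρ (E (ρ.symm z)) := fun z => rfl
  have hE'X : E' (algebraMap k[X] L' X) = - algebraMap k[X] L' X := by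
    have h1 : ρ.symm (algebraMap k[X] L' X) = (algebraMap k[X] L X)⁻¹ := by
      rw [RingEquiv.symm_apply_eq, map_inv₀, hX, inv_inv]
    have h2 : algebraMap k[X] L X ≠ 0 := by
      intro h0
      rw [h0, map_zero] at hX
      exact inv_ne_zero hX0 hX.symm
    have h3 : E ((algebraMap k[X] L X)⁻¹) = - (algebraMap k[X] L X)⁻¹ := by
      rw [hE, Derivation.smul_apply, Derivation.leibniz_inv, hD, derivative_X, map_one,
        smul_eq_mul, smul_eq_mul]
      field_simp
    rw [hE'1, h1, h3, map_neg, map_inv₀, hX, inv_inv]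
  have hE'p : ∀ p : k[X], ∃ q : k[X], E' (algebraMap k[X] L' p) = algebraMap k[X] L' q := by
    intro p
    refine ⟨- (X * derivative p), ?_⟩
    rw [co5_aeval, Derivation.map_aeval, hE'X, ← co5_aeval, map_neg, map_mul, smul_eq_mul]
    ring
  have h4 := val_deriv_tame (Q.valuation L') E' (fun c hc => val_const L' Q c hc)
    (fun y hy => val_res L' Q y hy) (val_bdd L' Q E' hE'p) (val_unif L' Q) _ hX0 hQ
    (by rw [hE'X, Valuation.map_neg]) (ρ y)
  rw [hE'1, RingEquiv.symm_apply_apply, hE, Derivation.smul_apply, smul_eq_mul, map_mul, hX,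
    map_mul, map_inv₀] at h4
  have h5 : Q.valuation L' (algebraMap k[X] L' X) ≠ 0 := by
    rwa [Ne, Valuation.zero_iff]
  calc Q.valuation L' (ρ (D y)) = Q.valuation L' (algebraMap k[X] L' X) *
      ((Q.valuation L' (algebraMap k[X] L' X))⁻¹ * Q.valuation L' (ρ (D y))) := by
        rw [← mul_assoc, mul_inv_cancel₀ h5, one_mul]
    _ ≤ _ := mul_le_mul_right h4 _

theorem const_of_unram (σ : RatFunc k ≃ₐ[k] RatFunc k) (hσ : σ RatFunc.X = RatFunc.X⁻¹)
    (ρ : L ≃+* L') (hρ : ∀ c, ρ (algebraMap (RatFunc k) L c) = algebraMap (RatFunc k) L' (σ c))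
    (h : ∀ f : k[X], Irreducible f → ¬ Ramified L f) :
    IntermediateField.adjoin (RatFunc k) {x : L | IsAlgebraic k x} = ⊤ := by
  obtain ⟨D, hD, -, hDN⟩ := exists_deriv (k := k) L
  -- every integral element is in the field generated by the constants
  have key : ∀ y : L, IsIntegral k[X] y →
      y ∈ IntermediateField.adjoin (RatFunc k) {x : L | IsAlgebraic k x} := by
    intro y hy
    obtain ⟨m, hm⟩ := inf_bound L L' σ hσ ρ hρ y hy
    refine hDN (m + 1) y (inf_zero L L' σ hσ ρ hρ _ ?_ fun Q hQ => ?_)
    · clear hm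
      induction m + 1 with
      | zero => exact hy
      | succ n ih =>
        rw [Function.iterate_succ_apply']
        exact co5_int L h D hD _ ih
    · have h1 : ∀ n : ℕ, Q.valuation L' (ρ ((D^[n]) y)) ≤
          Q.valuation L' (algebraMap k[X] L' X) ^ n * Q.valuation L' (ρ y) := by
        intro n
        induction n with
        | zero => simp
        | succ n ih =>
          rw [Function.iterate_succ_apply', pow_succ', mul_assoc]
          exact (co5_inf σ hσ ρ hρ D hD Q hQ _).trans (mul_le_mul_right ih _)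
      refine (h1 (m + 1)).trans_lt ?_
      rw [pow_succ', mul_assoc]
      have h2 := hm Q hQ
      rw [mul_comm] at h2
      calc _ ≤ Q.valuation L' (algebraMap k[X] L' X) * 1 := mul_le_mul_right h2 _
        _ < 1 := by rwa [mul_one]
  rw [eq_top_iff]
  rintro x -
  obtain ⟨a, b, hb, rfl⟩ := IsFractionRing.div_surjective (A := RR k L) x
  exact div_mem (key _ a.2) (key _ b.2)

end Inf

end Pool.Agent.H20.ML
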