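import Pool.Agent.H20.ML.Defs

/-!
# Project ML, CO-7: the twist of `L` by an automorphism of `k(t)`
-/

set_option autoImplicit false

open Polynomial IsDedekindDomain NumberField

namespace Pool.Agent.H20.ML

section General

variable {K : Type} [Field K]

/-- an automorphism of `K` extends to the algebraic closure -/
theorem co7_ext (σ : K ≃+* K) : ∃ E : AlgebraicClosure K ≃+* AlgebraicClosure K,
    ∀ c : K, E (algebraMap K (AlgebraicClosure K) c) = algebraMap K (AlgebraicClosure K) (σ c) :=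
  ⟨IsAlgClosure.equivOfEquiv (AlgebraicClosure K) (AlgebraicClosure K) σ,
    fun c => IsAlgClosure.equivOfEquiv_algebraMap _ _ σ c⟩

/-- the transport of embeddings -/
noncomputable def co7_emb (σ : K ≃+* K) (E : AlgebraicClosure K ≃+* AlgebraicClosure K)
    (hE : ∀ c : K, E (algebraMap K (AlgebraicClosure K) c) =
      algebraMap K (AlgebraicClosure K) (σ c))
    {L L' : Type} [Field L] [Field L'] [Algebra K L] [Algebra K L'] (ρ : L ≃+* L')
    (hρ : ∀ c, ρ (algebraMap K L c) = algebraMap K L' (σ c)) (φ : L →ₐ[K] AlgebraicClosure K) :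
    L' →ₐ[K] AlgebraicClosure K :=
  { ((E : AlgebraicClosure K →+* AlgebraicClosure K).comp (φ : L →+* AlgebraicClosure K)).comp
      (ρ.symm : L' →+* L) with
    commutes' := by
      intro c
      change E (φ (ρ.symm (algebraMap K L' c))) = algebraMap K (AlgebraicClosure K) c
      have h1 : ρ.symm (algebraMap K L' c) = algebraMap K L (σ.symm c) := by
        rw [RingEquiv.symm_apply_eq, hρ, RingEquiv.apply_symm_apply]
      rw [h1, AlgHom.commutes, hE, RingEquiv.apply_symm_apply] }

theorem co7_emb_apply (σ : K ≃+* K) (E : AlgebraicClosure K ≃+* AlgebraicClosure K)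
    (hE : ∀ c : K, E (algebraMap K (AlgebraicClosure K) c) =
      algebraMap K (AlgebraicClosure K) (σ c))
    {L L' : Type} [Field L] [Field L'] [Algebra K L] [Algebra K L'] (ρ : L ≃+* L')
    (hρ : ∀ c, ρ (algebraMap K L c) = algebraMap K L' (σ c)) (φ : L →ₐ[K] AlgebraicClosure K)
    (x : L') : co7_emb σ E hE ρ hρ φ x = E (φ (ρ.symm x)) := rfl

theorem co7_symm {σ : K ≃+* K} {E : AlgebraicClosure K ≃+* AlgebraicClosure K}
    (hE : ∀ c : K, E (algebraMap K (AlgebraicClosure K) c) =
      algebraMap K (AlgebraicClosure K) (σ c)) (c : K) :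
    E.symm (algebraMap K (AlgebraicClosure K) c) =
      algebraMap K (AlgebraicClosure K) (σ.symm c) := by
  rw [RingEquiv.symm_apply_eq, hE, RingEquiv.apply_symm_apply]

theorem co7_symm' {σ : K ≃+* K} {L L' : Type} [Field L] [Field L'] [Algebra K L] [Algebra K L']
    {ρ : L ≃+* L'} (hρ : ∀ c, ρ (algebraMap K L c) = algebraMap K L' (σ c)) (c : K) :
    ρ.symm (algebraMap K L' c) = algebraMap K L (σ.symm c) := by
  rw [RingEquiv.symm_apply_eq, hρ, RingEquiv.apply_symm_apply]

/-- the bijection between the embeddings -/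
noncomputable def co7_equiv (σ : K ≃+* K) (E : AlgebraicClosure K ≃+* AlgebraicClosure K)
    (hE : ∀ c : K, E (algebraMap K (AlgebraicClosure K) c) =
      algebraMap K (AlgebraicClosure K) (σ c))
    {L L' : Type} [Field L] [Field L'] [Algebra K L] [Algebra K L'] (ρ : L ≃+* L')
    (hρ : ∀ c, ρ (algebraMap K L c) = algebraMap K L' (σ c)) :
    (L →ₐ[K] AlgebraicClosure K) ≃ (L' →ₐ[K] AlgebraicClosure K) where
  toFun := co7_emb σ E hE ρ hρ
  invFun := co7_emb σ.symm E.symm (co7_symm hE) ρ.symm (co7_symm' hρ)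
  left_inv φ := by
    ext x
    rw [co7_emb_apply, co7_emb_apply]
    simp
  right_inv φ := by
    ext x
    rw [co7_emb_apply, co7_emb_apply]
    simp

/-- the conjugate of an automorphism -/
noncomputable def co7_conj (σ : K ≃+* K) (E : AlgebraicClosure K ≃+* AlgebraicClosure K)
    (hE : ∀ c : K, E (algebraMap K (AlgebraicClosure K) c) =
      algebraMap K (AlgebraicClosure K) (σ c))
    (τ : AlgebraicClosure K ≃ₐ[K] AlgebraicClosure K) :
    AlgebraicClosure K ≃ₐ[K] AlgebraicClosure K :=
  { (E.symm.trans (τ : AlgebraicClosure K ≃+* AlgebraicClosure K)).trans E with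
    commutes' := by
      intro c
      change E (τ (E.symm (algebraMap K (AlgebraicClosure K) c))) =
        algebraMap K (AlgebraicClosure K) c
      rw [co7_symm hE, AlgEquiv.commutes, hE, RingEquiv.apply_symm_apply] }

theorem co7_conj_apply (σ : K ≃+* K) (E : AlgebraicClosure K ≃+* AlgebraicClosure K)
    (hE : ∀ c : K, E (algebraMap K (AlgebraicClosure K) c) =
      algebraMap K (AlgebraicClosure K) (σ c))
    (τ : AlgebraicClosure K ≃ₐ[K] AlgebraicClosure K) (x : AlgebraicClosure K) :
    co7_conj σ E hE τ x = E (τ (E.symm x)) := rfl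

theorem co7_group (σ : K ≃+* K) (E : AlgebraicClosure K ≃+* AlgebraicClosure K)
    (hE : ∀ c : K, E (algebraMap K (AlgebraicClosure K) c) =
      algebraMap K (AlgebraicClosure K) (σ c))
    (L L' : IntermediateField K (AlgebraicClosure K)) (ρ : L ≃+* L')
    (hρ : ∀ c, ρ (algebraMap K L c) = algebraMap K L' (σ c)) (n : ℕ)
    (G : Subgroup (Equiv.Perm (Fin n))) (h : HasGroup K n G L) : HasGroup K n G L' := by
  obtain ⟨e, he⟩ := h
  refine ⟨(co7_equiv σ E hE ρ hρ).symm.trans e, fun π => (he π).trans ⟨?_, ?_⟩⟩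
  · rintro ⟨τ, hτ⟩
    refine ⟨co7_conj σ E hE τ, fun ψ => ?_⟩
    have h1 := hτ ((co7_equiv σ E hE ρ hρ).symm ψ)
    rw [Equiv.trans_apply, Equiv.trans_apply, ← h1]
    congr 1
    ext x
    change E.symm (co7_conj σ E hE τ (ψ (ρ.symm.symm x))) = τ (E.symm (ψ (ρ.symm.symm x)))
    rw [co7_conj_apply, RingEquiv.symm_apply_apply]
  · rintro ⟨τ, hτ⟩
    refine ⟨co7_conj σ.symm E.symm (co7_symm hE) τ, fun φ => ?_⟩
    have h1 := hτ (co7_equiv σ E hE ρ hρ φ)
    rw [Equiv.trans_apply, Equiv.trans_apply, Equiv.symm_apply_apply] at h1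
    rw [← h1]
    congr 1
    ext x
    change E.symm (τ (E.symm.symm (φ x))) = E.symm (τ (E (φ (ρ.symm (ρ.symm.symm x)))))
    simp

theorem co7_gen (σ : K ≃+* K) (L : IntermediateField K (AlgebraicClosure K))
    [FiniteDimensional K L] :
    ∃ (L' : IntermediateField K (AlgebraicClosure K)) (ρ : L ≃+* L'),
      FiniteDimensional K L' ∧ (∀ c, ρ (algebraMap K L c) = algebraMap K L' (σ c)) ∧
      ∀ (n : ℕ) (G : Subgroup (Equiv.Perm (Fin n))), HasGroup K n G L → HasGroup K n G L' := by
  obtain ⟨E, hE⟩ := co7_ext σ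
  have hmem : ∀ c : K, algebraMap K (AlgebraicClosure K) c ∈
      L.toSubfield.map (E : AlgebraicClosure K →+* AlgebraicClosure K) := by
    intro c
    refine ⟨algebraMap K (AlgebraicClosure K) (σ.symm c), L.algebraMap_mem _, ?_⟩
    change E (algebraMap K (AlgebraicClosure K) (σ.symm c)) = _
    rw [hE, RingEquiv.apply_symm_apply]
  let L' : IntermediateField K (AlgebraicClosure K) :=
    (L.toSubfield.map (E : AlgebraicClosure K →+* AlgebraicClosure K)).toIntermediateField hmem
  have hL' : ∀ y, y ∈ L' ↔ ∃ x ∈ L, E x = y := fun y => Iff.rfl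
  have hinv : ∀ y ∈ L', E.symm y ∈ L := by
    intro y hy
    obtain ⟨x, hx, rfl⟩ := (hL' y).mp hy
    rwa [RingEquiv.symm_apply_apply]
  let ρ : L ≃+* L' :=
    { toFun := fun x => ⟨E x.1, (hL' _).mpr ⟨x.1, x.2, rfl⟩⟩
      invFun := fun y => ⟨E.symm y.1, hinv _ y.2⟩
      left_inv := fun x => Subtype.ext (E.symm_apply_apply x.1)
      right_inv := fun y => Subtype.ext (E.apply_symm_apply y.1)
      map_mul' := fun x y => Subtype.ext (map_mul E x.1 y.1)
      map_add' := fun x y => Subtype.ext (map_add E x.1 y.1) }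
  have hρ : ∀ c, ρ (algebraMap K L c) = algebraMap K L' (σ c) := by
    intro c
    apply Subtype.ext
    change E (algebraMap K (AlgebraicClosure K) c) = algebraMap K (AlgebraicClosure K) (σ c)
    exact hE c
  refine ⟨L', ρ, ?_, hρ, fun n G h => co7_group σ E hE L L' ρ hρ n G h⟩
  have : RingHomSurjective (σ : K →+* K) := ⟨σ.surjective⟩
  let f : L →ₛₗ[(σ : K →+* K)] L' :=
    { toFun := ρ
      map_add' := fun x y => map_add ρ x y
      map_smul' := fun c x => by
        change ρ (c • x) = (σ c) • ρ x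
        rw [Algebra.smul_def, Algebra.smul_def, map_mul, hρ] }
  exact Module.Finite.of_surjective f ρ.surjective

end General

section Twist

variable {k : Type} [Field k] [CharZero k]

omit [CharZero k] in
theorem co7_twist (σ : RatFunc k ≃ₐ[k] RatFunc k)
    (L : IntermediateField (RatFunc k) (AlgebraicClosure (RatFunc k)))
    [FiniteDimensional (RatFunc k) L] :
    ∃ (L' : IntermediateField (RatFunc k) (AlgebraicClosure (RatFunc k))) (ρ : L ≃+* L'),
      FiniteDimensional (RatFunc k) L' ∧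
      (∀ c, ρ (algebraMap (RatFunc k) L c) = algebraMap (RatFunc k) L' (σ c)) ∧
      ∀ (n : ℕ) (G : Subgroup (Equiv.Perm (Fin n))), HasGroup (RatFunc k) n G L →
        HasGroup (RatFunc k) n G L' :=
  co7_gen (K := RatFunc k) (σ : RatFunc k ≃+* RatFunc k) L

theorem exists_twist (σ : RatFunc k ≃ₐ[k] RatFunc k)
    (L : IntermediateField (RatFunc k) (AlgebraicClosure (RatFunc k)))
    [FiniteDimensional (RatFunc k) L] :
    ∃ (L' : IntermediateField (RatFunc k) (AlgebraicClosure (RatFunc k))) (ρ : L ≃+* L'),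
      FiniteDimensional (RatFunc k) L' ∧
      (∀ c, ρ (algebraMap (RatFunc k) L c) = algebraMap (RatFunc k) L' (σ c)) ∧
      ∀ (n : ℕ) (G : Subgroup (Equiv.Perm (Fin n))), HasGroup (RatFunc k) n G L →
        HasGroup (RatFunc k) n G L' :=
  co7_twist σ L

end Twist

end Pool.Agent.H20.ML
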