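import Mathlib
import Pool.Agent.H20.ML.Defs

/-!
# Project ML (MP_a3214d), block CONST, CO-8: transport of the data
-/

set_option autoImplicit false

open Polynomial IsDedekindDomain NumberField

namespace Pool.Agent.H20.ML

section Weight

variable {k : Type} [Field k] [CharZero k] (L : Type) [Field L] [Algebra (RatFunc k) L]
  [Algebra k[X] L] [IsScalarTower k[X] (RatFunc k) L] [Algebra k L]
  [IsScalarTower k (RatFunc k) L] [FiniteDimensional (RatFunc k) L]
  (L' : Type) [Field L'] [Algebra (RatFunc k) L']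
  [Algebra k[X] L'] [IsScalarTower k[X] (RatFunc k) L'] [Algebra k L']
  [IsScalarTower k (RatFunc k) L'] [FiniteDimensional (RatFunc k) L']

theorem finrank_twist (σ : RatFunc k ≃ₐ[k] RatFunc k)
    (ρ : L ≃+* L') (hρ : ∀ c, ρ (algebraMap (RatFunc k) L c) = algebraMap (RatFunc k) L' (σ c)) :
    Module.finrank (RatFunc k) L' = Module.finrank (RatFunc k) L := by
  symm
  refine Algebra.finrank_eq_of_equiv_equiv σ.toRingEquiv ρ ?_
  ext c
  simpa using (hρ c).symm

theorem const_twist (σ : RatFunc k ≃ₐ[k] RatFunc k)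
    (ρ : L ≃+* L') (hρ : ∀ c, ρ (algebraMap (RatFunc k) L c) = algebraMap (RatFunc k) L' (σ c))
    (h : IntermediateField.adjoin (RatFunc k) {x : L' | IsAlgebraic k x} = ⊤) :
    IntermediateField.adjoin (RatFunc k) {x : L | IsAlgebraic k x} = ⊤ := by
  have hk : ∀ c : k, ρ (algebraMap k L c) = algebraMap k L' c := by
    intro c
    rw [IsScalarTower.algebraMap_apply k (RatFunc k) L, hρ, AlgEquiv.commutes,
      ← IsScalarTower.algebraMap_apply k (RatFunc k) L']
  let ρk : L ≃ₐ[k] L' := AlgEquiv.ofRingEquiv (f := ρ) hk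
  have hsymm : ∀ c, ρ.symm (algebraMap (RatFunc k) L' c) =
      algebraMap (RatFunc k) L (σ.symm c) := by
    intro c
    rw [RingEquiv.symm_apply_eq, hρ, AlgEquiv.apply_symm_apply]
  rw [eq_top_iff]
  intro y _
  have hy : ρ y ∈ IntermediateField.adjoin (RatFunc k) {x : L' | IsAlgebraic k x} := by
    rw [h]
    exact IntermediateField.mem_top
  have key : ∀ z ∈ IntermediateField.adjoin (RatFunc k) {x : L' | IsAlgebraic k x},
      ρ.symm z ∈ IntermediateField.adjoin (RatFunc k) {x : L | IsAlgebraic k x} := by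
    intro z hz
    induction hz using IntermediateField.adjoin_induction with
    | mem x hx =>
      apply IntermediateField.subset_adjoin
      have hx' : IsAlgebraic k x := hx
      have h1 : IsAlgebraic k (ρk.symm.toAlgHom x) :=
        (isAlgebraic_algHom_iff ρk.symm.toAlgHom ρk.symm.injective).2 hx'
      exact h1
    | algebraMap c =>
      rw [hsymm]
      exact IntermediateField.algebraMap_mem _ _
    | add x y _ _ hx hy =>
      rw [map_add]
      exact add_mem hx hy
    | inv x _ hx =>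
      rw [map_inv₀]
      exact inv_mem hx
    | mul x y _ _ hx hy =>
      rw [map_mul]
      exact mul_mem hx hy
  have := key _ hy
  rwa [RingEquiv.symm_apply_apply] at this

theorem linInd_twist (σ : RatFunc k ≃ₐ[k] RatFunc k)
    (ρ : L ≃+* L') (hρ : ∀ c, ρ (algebraMap (RatFunc k) L c) = algebraMap (RatFunc k) L' (σ c))
    {n : ℕ} (ω : Fin n → L) (hω : LinearIndependent (RatFunc k) ω) (a : Fin n → ℕ) :
    LinearIndependent (RatFunc k) (fun i => algebraMap k[X] L' X ^ a i * ρ (ω i)) := by
  have hsymm : ∀ c, ρ.symm (algebraMap (RatFunc k) L' c) =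
      algebraMap (RatFunc k) L (σ.symm c) := by
    intro c
    rw [RingEquiv.symm_apply_eq, hρ, AlgEquiv.apply_symm_apply]
  rw [Fintype.linearIndependent_iff] at hω ⊢
  intro g hg i
  have h1 : ∑ i, σ.symm (g i * RatFunc.X ^ a i) • ω i = 0 := by
    have h2 := congrArg ρ.symm hg
    rw [map_zero, map_sum] at h2
    rw [← h2]
    refine Finset.sum_congr rfl fun i _ => ?_
    rw [Algebra.smul_def, Algebra.smul_def, IsScalarTower.algebraMap_apply k[X] (RatFunc k) L',
      RatFunc.algebraMap_X, ← map_pow, map_mul ρ.symm, map_mul ρ.symm, hsymm, hsymm,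
      RingEquiv.symm_apply_apply, map_mul σ.symm, map_mul, mul_assoc]
  have h3 := hω _ h1 i
  have h4 : g i * RatFunc.X ^ a i = 0 := by
    have := congrArg σ h3
    rwa [AlgEquiv.apply_symm_apply, map_zero] at this
  rcases mul_eq_zero.1 h4 with h5 | h5
  · exact h5
  · exact absurd h5 (pow_ne_zero _ RatFunc.X_ne_zero)

/-- the polynomial `t^m c(s + 1/t)` -/
noncomputable def co8_tw (s : k) (m : ℕ) (c : k[X]) : k[X] :=
  ∑ i ∈ Finset.range (m + 1), C (c.coeff i) * (C s * X + 1) ^ i * X ^ (m - i)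

omit [CharZero k] in
theorem co8_tw_natDegree (s : k) (m : ℕ) (c : k[X]) : (co8_tw s m c).natDegree ≤ m := by
  unfold co8_tw
  refine natDegree_sum_le_of_forall_le _ _ fun i hi => ?_
  have hi' : i ≤ m := by
    have := Finset.mem_range.1 hi
    omega
  have h1 : (C s * X + 1 : k[X]).natDegree ≤ 1 := by
    refine natDegree_add_le_of_degree_le ?_ ?_
    · exact (natDegree_C_mul_le _ _).trans natDegree_X_le
    · simp
  calc (C (c.coeff i) * (C s * X + 1) ^ i * X ^ (m - i)).natDegree
      ≤ (C (c.coeff i) * (C s * X + 1) ^ i).natDegree + (X ^ (m - i) : k[X]).natDegree :=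
        natDegree_mul_le
    _ ≤ i * 1 + (m - i) := by
        refine add_le_add ?_ ?_
        · calc (C (c.coeff i) * (C s * X + 1) ^ i).natDegree
              ≤ ((C s * X + 1) ^ i : k[X]).natDegree := natDegree_C_mul_le _ _
            _ ≤ i * (C s * X + 1 : k[X]).natDegree := natDegree_pow_le
            _ ≤ i * 1 := Nat.mul_le_mul_left _ h1
        · rw [natDegree_X_pow]
    _ = m := by omega

omit [CharZero k] in
theorem co8_tw_one (s : k) : co8_tw s 0 1 = 1 := by
  simp [co8_tw]

omit [CharZero k] in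
theorem co8_tw_spec (s : k) (σ : RatFunc k ≃ₐ[k] RatFunc k)
    (hσ : σ RatFunc.X = RatFunc.C s + RatFunc.X⁻¹) (m : ℕ) (c : k[X]) (hc : c.natDegree ≤ m) :
    algebraMap k[X] (RatFunc k) (co8_tw s m c) =
      RatFunc.X ^ m * σ (algebraMap k[X] (RatFunc k) c) := by
  have hX : (RatFunc.X : RatFunc k) ≠ 0 := RatFunc.X_ne_zero
  conv_rhs => rw [c.as_sum_range_C_mul_X_pow' (n := m + 1) (by omega)]
  unfold co8_tw
  rw [map_sum, map_sum, map_sum, Finset.mul_sum]
  refine Finset.sum_congr rfl fun i hi => ?_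
  have hi' : i ≤ m := by
    have := Finset.mem_range.1 hi
    omega
  have hC : σ (RatFunc.C (c.coeff i)) = RatFunc.C (c.coeff i) := by
    have := σ.commutes (c.coeff i)
    rwa [RatFunc.algebraMap_eq_C] at this
  simp only [map_mul, map_pow, map_add, map_one, RatFunc.algebraMap_X, RatFunc.algebraMap_C]
  rw [hC, hσ]
  have h1 : (RatFunc.X : RatFunc k) ^ m = RatFunc.X ^ i * RatFunc.X ^ (m - i) := by
    rw [← pow_add]
    congr 1
    omega
  rw [h1]
  have h2 : (RatFunc.C s * RatFunc.X + 1 : RatFunc k) = RatFunc.X * (RatFunc.C s + RatFunc.X⁻¹) := by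
    rw [mul_add, mul_inv_cancel₀ hX]
    ring
  rw [h2, mul_pow]
  ring

theorem weight_twist (s : k) (σ : RatFunc k ≃ₐ[k] RatFunc k)
    (hσ : σ RatFunc.X = RatFunc.C s + RatFunc.X⁻¹)
    (ρ : L ≃+* L') (hρ : ∀ c, ρ (algebraMap (RatFunc k) L c) = algebraMap (RatFunc k) L' (σ c))
    (a : ℕ) (x : L) (hx : Weight k L a x) :
    Weight k L' a (algebraMap k[X] L' X ^ a * ρ x) := by
  obtain ⟨P, hP, hPx, hdeg⟩ := hx
  obtain ⟨N, hN⟩ : ∃ N, N = P.natDegree := ⟨_, rfl⟩
  rw [← hN] at hdeg
  set Q : k[X][X] := ∑ j ∈ Finset.range (N + 1), C (co8_tw s (a * (N - j)) (P.coeff j)) * X ^ j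
    with hQ
  have hcoeff : ∀ j, j ≤ N → Q.coeff j = co8_tw s (a * (N - j)) (P.coeff j) := by
    intro j hj
    rw [hQ, finsetSum_coeff]
    simp only [coeff_C_mul_X_pow]
    rw [Finset.sum_eq_single j]
    · simp
    · intro i _ hij
      rw [if_neg (Ne.symm hij)]
    · intro hj'
      exact absurd (Finset.mem_range.2 (by omega)) hj'
  have hQle : Q.natDegree ≤ N := by
    rw [hQ]
    refine natDegree_sum_le_of_forall_le _ _ fun j hj => ?_
    have : j ≤ N := by
      have := Finset.mem_range.1 hj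
      omega
    exact (natDegree_C_mul_X_pow_le _ _).trans this
  have hQN : Q.coeff N = 1 := by
    rw [hcoeff N le_rfl, Nat.sub_self, Nat.mul_zero, hN, coeff_natDegree, hP.leadingCoeff,
      co8_tw_one]
  have hQm : Q.Monic := monic_of_natDegree_le_of_coeff_eq_one N hQle hQN
  have hQd : Q.natDegree = N := by
    refine le_antisymm hQle (le_natDegree_of_ne_zero ?_)
    rw [hQN]
    exact one_ne_zero
  refine ⟨Q, hQm, ?_, ?_⟩
  · rw [aeval_eq_sum_range, ← hN] at hPx
    have h1 := congrArg ρ hPx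
    rw [map_zero, map_sum] at h1
    rw [aeval_eq_sum_range, hQd]
    have h2 : ∀ j ∈ Finset.range (N + 1),
        Q.coeff j • (algebraMap k[X] L' X ^ a * ρ x) ^ j =
          (algebraMap k[X] L' X) ^ (a * N) * ρ (P.coeff j • x ^ j) := by
      intro j hj
      have hj' : j ≤ N := by
        have := Finset.mem_range.1 hj
        omega
      rw [hcoeff j hj', Algebra.smul_def, Algebra.smul_def, map_mul, map_pow,
        IsScalarTower.algebraMap_apply k[X] (RatFunc k) L',
        co8_tw_spec s σ hσ _ _ (hdeg j hj'), IsScalarTower.algebraMap_apply k[X] (RatFunc k) L,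
        hρ, IsScalarTower.algebraMap_apply k[X] (RatFunc k) L' X, RatFunc.algebraMap_X, map_mul,
        map_pow]
      have h3 : a * N = a * (N - j) + a * j := by
        rw [← Nat.mul_add]
        congr 1
        omega
      rw [h3, pow_add, mul_pow, ← pow_mul]
      ring
    rw [Finset.sum_congr rfl h2, ← Finset.mul_sum, h1, mul_zero]
  · intro j hj
    rw [hQd] at hj ⊢
    rw [hcoeff j hj]
    exact co8_tw_natDegree _ _ _

end Weight

end Pool.Agent.H20.ML
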