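import Pool.Agent.H20.ML.ConstRH
import Pool.Agent.H20.ML.ConstMob
import Pool.Agent.H20.ML.ConstTwist
import Pool.Agent.H20.ML.ConstWeight
import Pool.Agent.H20.ML.ConstPlace

/-!
# Project ML, block CONST: the choice of the coordinate
-/

set_option autoImplicit false

open Polynomial IsDedekindDomain NumberField

namespace Pool.Agent.H20.ML

section Poly

variable {k : Type} [Field k]

theorem co10_reverse_degree {f : k[X]} (h : f.coeff 0 ≠ 0) : f.reverse.natDegree = f.natDegree := by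
  rw [reverse_natDegree, natTrailingDegree_eq_zero_of_constantCoeff_ne_zero (by simpa using h)]
  simp

theorem co10_reverse_reverse {f : k[X]} (h : f.coeff 0 ≠ 0) : f.reverse.reverse = f := by
  rw [reverse, co10_reverse_degree h, reverse, reflect_reflect]

theorem co10_reverse_irred {f : k[X]} (hf : Irreducible f) (h : f.coeff 0 ≠ 0) :
    Irreducible f.reverse := by
  have h0 : f.reverse.coeff 0 ≠ 0 := by
    rw [coeff_zero_reverse]
    exact leadingCoeff_ne_zero.mpr hf.ne_zero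
  constructor
  · intro hu
    have h1 := natDegree_eq_zero_of_isUnit hu
    rw [co10_reverse_degree h] at h1
    exact hf.natDegree_pos.ne' h1
  · intro g q hgq
    have hg : g.coeff 0 ≠ 0 := by
      intro h2
      rw [hgq, mul_coeff_zero, h2, zero_mul] at h0
      exact h0 rfl
    have hq : q.coeff 0 ≠ 0 := by
      intro h2
      rw [hgq, mul_coeff_zero, h2, mul_zero] at h0
      exact h0 rfl
    have h3 : f = g.reverse * q.reverse := by
      rw [← reverse_mul_of_domain, ← hgq, co10_reverse_reverse h]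
    rcases hf.isUnit_or_isUnit h3 with h4 | h4
    · left
      have h5 := natDegree_eq_zero_of_isUnit h4
      rw [co10_reverse_degree hg] at h5
      rw [eq_C_of_natDegree_eq_zero h5]
      exact isUnit_C.mpr (Ne.isUnit hg)
    · right
      have h5 := natDegree_eq_zero_of_isUnit h4
      rw [co10_reverse_degree hq] at h5
      rw [eq_C_of_natDegree_eq_zero h5]
      exact isUnit_C.mpr (Ne.isUnit hq)

/-- an irreducible polynomial with root `c` is a multiple of `X - c` -/
theorem co10_linear {f : k[X]} (hf : Irreducible f) {c : k} (h : f.eval c = 0) :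
    ∃ a : k, a ≠ 0 ∧ f = C a * (X - C c) := by
  obtain ⟨g, hg⟩ := dvd_iff_isRoot.mpr h
  rcases hf.isUnit_or_isUnit hg with h1 | h1
  · exact absurd h1 (not_isUnit_X_sub_C c)
  · obtain ⟨a, ha, rfl⟩ := Polynomial.isUnit_iff.mp h1
    exact ⟨a, ha.ne_zero, by rw [hg, mul_comm]⟩

/-- an irreducible polynomial of degree one is a multiple of `X - c` -/
theorem co10_deg_one {f : k[X]} (hf : f.natDegree = 1) :
    ∃ c : k, f.eval c = 0 := by
  obtain ⟨c, hc⟩ := exists_root_of_degree_eq_one (degree_eq_iff_natDegree_eq_of_pos one_pos |>.mpr hf)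
  exact ⟨c, hc⟩

end Poly

section Sel

variable {k : Type} [Field k]

/-- ramification does not change with a constant factor -/
theorem co10_unit (L : Type) [Field L] [Algebra k[X] L] {a : k} (ha : a ≠ 0) {f : k[X]}
    (h : Ramified L (C a * f)) : Ramified L f := by
  obtain ⟨P, hP, hP0, h1⟩ := h
  refine ⟨P, hP, hP0, ?_⟩
  have h2 := Ideal.mul_mem_left _ (algebraMap k[X] (RR k L) (C a⁻¹)) h1
  rw [← map_mul, ← mul_assoc, ← C_mul, inv_mul_cancel₀ ha, C_1, one_mul] at h2
  exact h2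

theorem co10_symm (s : k) (σ : RatFunc k ≃ₐ[k] RatFunc k)
    (hσ : σ RatFunc.X = RatFunc.C s + RatFunc.X⁻¹) :
    σ.symm RatFunc.X * (RatFunc.X - RatFunc.C s) = 1 := by
  have h1 : σ (RatFunc.C s) = RatFunc.C s := by
    rw [← RatFunc.algebraMap_eq_C]
    exact σ.commutes s
  have h2 : σ (RatFunc.X - RatFunc.C s) = RatFunc.X⁻¹ := by
    rw [map_sub, hσ, h1]
    ring
  apply σ.injective
  rw [map_mul, h2, AlgEquiv.apply_symm_apply, map_one, mul_inv_cancel₀ RatFunc.X_ne_zero]

/-- a polynomial is its value at `X` -/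
theorem co10_self (f : k[X]) : algebraMap k[X] (RatFunc k) f = aeval RatFunc.X f := by
  rw [← RatFunc.algebraMap_X, aeval_algebraMap_apply, aeval_X_left_apply]

/-- value of a polynomial in a rational function -/
theorem co10_alg (σ : RatFunc k ≃ₐ[k] RatFunc k) (f : k[X]) :
    σ (algebraMap k[X] (RatFunc k) f) = aeval (σ RatFunc.X) f := by
  rw [co10_self]
  exact (aeval_algHom_apply σ.toAlgHom RatFunc.X f).symm

/-- the reversed polynomial and the inverse of the variable -/
theorem co10_reverse_eval (f : k[X]) :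
    aeval (RatFunc.X⁻¹ : RatFunc k) f.reverse * algebraMap k[X] (RatFunc k) (X ^ f.natDegree) =
      algebraMap k[X] (RatFunc k) f := by
  let _ : Invertible (RatFunc.X : RatFunc k) := invertibleOfNonzero RatFunc.X_ne_zero
  have h := eval₂_reverse_mul_pow (algebraMap k (RatFunc k)) (RatFunc.X : RatFunc k) f
  rw [invOf_eq_inv] at h
  rw [map_pow, RatFunc.algebraMap_X, co10_self, aeval_def, aeval_def]
  exact h

end Sel

section Main

variable {k : Type} [Field k] [CharZero k]

theorem co10_exists (L : IntermediateField (RatFunc k) (AlgebraicClosure (RatFunc k)))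
    [FiniteDimensional (RatFunc k) L]
    (hL : IntermediateField.adjoin (RatFunc k) {x : L | IsAlgebraic k x} ≠ ⊤) :
    ∃ f : k[X], Irreducible f ∧ Ramified L f := by
  by_contra hno
  push Not at hno
  obtain ⟨σ, hσ⟩ := exists_mob (0 : k)
  rw [map_zero, zero_add] at hσ
  obtain ⟨L', ρ, hfd, hρ, -⟩ := exists_twist σ L
  exact hL (const_of_unram L L' σ hσ ρ hρ hno)

theorem co10_comp {L L₁ L₂ : IntermediateField (RatFunc k) (AlgebraicClosure (RatFunc k))}
    (σ₁ σ₂ : RatFunc k ≃ₐ[k] RatFunc k) (ρ₁ : L ≃+* L₁) (ρ₂ : L ≃+* L₂)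
    (h₁ : ∀ c, ρ₁ (algebraMap (RatFunc k) L c) = algebraMap (RatFunc k) L₁ (σ₁ c))
    (h₂ : ∀ c, ρ₂ (algebraMap (RatFunc k) L c) = algebraMap (RatFunc k) L₂ (σ₂ c)) (c : RatFunc k) :
    (ρ₁.symm.trans ρ₂) (algebraMap (RatFunc k) L₁ c) =
      algebraMap (RatFunc k) L₂ ((σ₁.symm.trans σ₂) c) := by
  have h3 : ρ₁.symm (algebraMap (RatFunc k) L₁ c) = algebraMap (RatFunc k) L (σ₁.symm c) := by
    rw [RingEquiv.symm_apply_eq, h₁, AlgEquiv.apply_symm_apply]
  rw [RingEquiv.trans_apply, h3, h₂, AlgEquiv.trans_apply]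

theorem exists_coord (L : IntermediateField (RatFunc k) (AlgebraicClosure (RatFunc k)))
    [FiniteDimensional (RatFunc k) L]
    (hL : IntermediateField.adjoin (RatFunc k) {x : L | IsAlgebraic k x} ≠ ⊤) :
    RamHyp k L ∨ ∃ (s : k) (σ : RatFunc k ≃ₐ[k] RatFunc k)
      (L' : IntermediateField (RatFunc k) (AlgebraicClosure (RatFunc k))) (ρ : L ≃+* L'),
      FiniteDimensional (RatFunc k) L' ∧ σ RatFunc.X = RatFunc.C s + RatFunc.X⁻¹ ∧
      (∀ c, ρ (algebraMap (RatFunc k) L c) = algebraMap (RatFunc k) L' (σ c)) ∧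
      (∀ (n : ℕ) (G : Subgroup (Equiv.Perm (Fin n))), HasGroup (RatFunc k) n G L →
        HasGroup (RatFunc k) n G L') ∧ RamHyp k L' := by
  by_cases hR : RamHyp k L
  · exact Or.inl hR
  right
  have hR' := hR
  rw [RamHyp, not_or] at hR'
  obtain ⟨hR1, hR2⟩ := hR'
  -- every ramified irreducible polynomial has a root
  have hroot : ∀ f : k[X], Irreducible f → Ramified L f → ∃ c : k, f.eval c = 0 := by
    intro f hf hr
    by_cases h2 : 2 ≤ f.natDegree
    · exact absurd ⟨f, hf, h2, hr⟩ hR1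
    · have h3 := hf.natDegree_pos
      exact co10_deg_one (by omega)
  have hram : ∀ (f : k[X]) (c : k), Irreducible f → Ramified L f → f.eval c = 0 →
      Ramified L (X - C c) := by
    intro f c hf hr h0
    obtain ⟨a, ha, rfl⟩ := co10_linear hf h0
    exact co10_unit L ha hr
  obtain ⟨f₀, hf₀, hr₀⟩ := co10_exists L hL
  obtain ⟨c, hc⟩ := hroot f₀ hf₀ hr₀
  have hRc := hram f₀ c hf₀ hr₀ hc
  have huniq : ∀ c' : k, Ramified L (X - C c') → c' = c := by
    intro c' h
    by_contra hne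
    exact hR2 ⟨c', c, hne, h, hRc⟩
  -- the twist by `c + 1/t`
  obtain ⟨σ₁, hσ₁⟩ := exists_mob c
  obtain ⟨L₁, ρ₁, hfd₁, hρ₁, -⟩ := exists_twist σ₁ L
  have hL₁ : IntermediateField.adjoin (RatFunc k) {x : L₁ | IsAlgebraic k x} ≠ ⊤ :=
    fun h => hL (const_twist L L₁ σ₁ ρ₁ hρ₁ h)
  obtain ⟨f₁, hf₁, hr₁⟩ := co10_exists L₁ hL₁
  have hf₁0 : f₁.coeff 0 = 0 := by
    by_contra h0
    have hnX : ¬ f₁ ∣ X := by
      intro hd
      have h1 : Associated f₁ X := hf₁.associated_of_dvd irreducible_X hd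
      obtain ⟨u, hu⟩ := h1.symm.dvd
      rw [hu, mul_coeff_zero, coeff_X_zero, zero_mul] at h0
      exact h0 rfl
    have hρ₁' : ∀ e, ρ₁.symm (algebraMap (RatFunc k) L₁ e) = algebraMap (RatFunc k) L (σ₁.symm e) := by
      intro e
      rw [RingEquiv.symm_apply_eq, hρ₁, AlgEquiv.apply_symm_apply]
    have hX0 : (RatFunc.X : RatFunc k) ≠ 0 := RatFunc.X_ne_zero
    have h2 : Ramified L ((f₁.reverse).comp (X - C c)) := by
      refine ramified_twist L₁ L σ₁.symm ρ₁.symm hρ₁' f₁ _ hf₁ hr₁ (C c * X + 1) X 1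
        (X ^ f₁.natDegree) hnX ?_ ?_ ?_ ?_
      · rw [AlgEquiv.symm_symm, hσ₁, map_add, map_mul, map_one, RatFunc.algebraMap_X,
          RatFunc.algebraMap_C]
        field_simp
      · rw [← isUnit_iff_dvd_one]
        exact hf₁.not_isUnit
      · exact fun h => hnX (hf₁.prime.dvd_of_dvd_pow h)
      · rw [AlgEquiv.symm_symm, co10_alg, hσ₁, aeval_comp, map_sub, aeval_X, aeval_C, mul_one,
          RatFunc.algebraMap_eq_C, add_sub_cancel_left]
        exact co10_reverse_eval f₁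
    have h3 : Irreducible ((f₁.reverse).comp (X - C c)) := by
      have h4 := co10_reverse_irred hf₁ h0
      have h5 : (f₁.reverse).comp (X - C c) = algEquivAevalXAddC (-c) f₁.reverse := by
        simp [algEquivAevalXAddC, comp, aeval_def, sub_eq_add_neg, algebraMap_eq]
      rw [h5]
      exact (MulEquiv.irreducible_iff (algEquivAevalXAddC (-c))).mpr h4
    obtain ⟨c', hc'⟩ := hroot _ h3 h2
    have h6 := huniq c' (hram _ c' h3 h2 hc')
    rw [h6, eval_comp, eval_sub, eval_X, eval_C, sub_self, ← coeff_zero_eq_eval_zero,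
      coeff_zero_reverse, leadingCoeff_eq_zero] at hc'
    exact hf₁.ne_zero hc'
  have hr₁X : Ramified L₁ (X : k[X]) := by
    obtain ⟨a, ha, hfa⟩ := co10_linear (c := 0) hf₁ (by rw [← coeff_zero_eq_eval_zero, hf₁0])
    rw [hfa] at hr₁
    have := co10_unit L₁ ha hr₁
    rwa [C_0, sub_zero] at this
  -- the twist by `(c - 1) + 1/t`
  obtain ⟨σ₂, hσ₂⟩ := exists_mob (c - 1)
  obtain ⟨L₂, ρ₂, hfd₂, hρ₂, hG₂⟩ := exists_twist σ₂ L
  refine ⟨c - 1, σ₂, L₂, ρ₂, hfd₂, hσ₂, hρ₂, hG₂, Or.inr ⟨1, 0, one_ne_zero, ?_, ?_⟩⟩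
  · have h1 := co10_symm _ σ₂ hσ₂
    have hne : (RatFunc.X : RatFunc k) - RatFunc.C (c - 1) ≠ 0 := right_ne_zero_of_mul_eq_one h1
    refine ramified_twist L L₂ σ₂ ρ₂ hρ₂ (X - C c) _ (irreducible_X_sub_C c) hRc 1
      (X - C (c - 1)) (-1) (X - C (c - 1)) ?_ ?_ ?_ ?_ ?_
    · rw [dvd_iff_isRoot, IsRoot.def, eval_sub, eval_X, eval_C]
      simp
    · rw [map_sub, map_one, RatFunc.algebraMap_X, RatFunc.algebraMap_C]
      exact h1
    · rw [dvd_iff_isRoot, IsRoot.def]
      simp
    · rw [dvd_iff_isRoot, IsRoot.def, eval_sub, eval_X, eval_C]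
      simp
    · rw [map_sub (algebraMap k[X] (RatFunc k)), RatFunc.algebraMap_X, RatFunc.algebraMap_C, map_one,
        map_sub σ₂.symm, map_one, map_sub (algebraMap k[X] (RatFunc k)), RatFunc.algebraMap_X,
        RatFunc.algebraMap_C, sub_mul, h1, map_mul, map_sub (algebraMap k[X] (RatFunc k)),
        RatFunc.algebraMap_X, RatFunc.algebraMap_C, map_neg, map_one, map_sub, map_one]
      ring
  · rw [C_0, sub_zero]
    have h1 := co10_symm _ σ₂ hσ₂
    have h2 := congrArg σ₁ h1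
    rw [map_mul, map_one, map_sub, hσ₁] at h2
    have h3 : σ₁ (RatFunc.C (c - 1)) = RatFunc.C (c - 1) := by
      rw [← RatFunc.algebraMap_eq_C]
      exact σ₁.commutes _
    have hX0 : (RatFunc.X : RatFunc k) ≠ 0 := RatFunc.X_ne_zero
    have h4 : σ₁ (σ₂.symm RatFunc.X) * (RatFunc.X + 1) = RatFunc.X := by
      rw [h3, map_sub, map_one] at h2
      field_simp at h2
      linear_combination h2
    refine ramified_twist L₁ L₂ (σ₁.symm.trans σ₂) (ρ₁.symm.trans ρ₂)
      (co10_comp σ₁ σ₂ ρ₁ ρ₂ hρ₁ hρ₂) (X : k[X]) _ irreducible_X hr₁X (X : k[X]) (X + 1) 1 (X + 1)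
      ?_ ?_ ?_ ?_ ?_
    · rw [X_dvd_iff]
      simp
    · rw [map_add, map_one, RatFunc.algebraMap_X]
      exact h4
    · rw [X_dvd_iff]
      simp
    · rw [X_dvd_iff]
      simp
    · rw [map_add, map_one, mul_one, RatFunc.algebraMap_X]
      exact h4

end Main

end Pool.Agent.H20.ML
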