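import Pool.Agent.H20.ML.Defs

/-!
# Project ML (MP_a3214d), block CONST, row CO-1: derivations and discrete valuations
-/

set_option autoImplicit false

open Polynomial IsDedekindDomain NumberField

namespace Pool.Agent.H20.ML

/-! ### CO-1 ConstVal.lean : derivations and discrete valuations -/

section Val

variable {k L : Type} [Field k] [CharZero k] [Field L] [Algebra k L]

theorem co1_le_exp {x : WithZero (Multiplicative ℤ)} (hx : x < 1) :
    x ≤ WithZero.exp (-1 : ℤ) := by
  by_cases h0 : x = 0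
  · rw [h0]
    exact zero_le
  · rw [← WithZero.exp_zero (M := ℤ), ← WithZero.log_lt_iff_lt_exp h0] at hx
    rw [← WithZero.log_le_iff_le_exp h0]
    omega

omit [CharZero k] in
theorem co1_eval_le (v : Valuation L (WithZero (Multiplicative ℤ)))
    (hk : ∀ c : k, c ≠ 0 → v (algebraMap k L c) = 1) (y : L) (hy : v y ≤ 1) (g : k[X]) :
    v (aeval y g) ≤ 1 := by
  rw [aeval_eq_sum_range]
  refine Valuation.map_sum_le v (fun i _ => ?_)
  rw [Algebra.smul_def, map_mul, map_pow]
  have h1 : v (algebraMap k L (g.coeff i)) ≤ 1 := by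
    by_cases h0 : g.coeff i = 0
    · rw [h0, map_zero, map_zero]
      exact zero_le
    · exact (hk _ h0).le
  exact mul_le_one' h1 (pow_le_one' hy i)

omit [CharZero k] in
theorem co1_irred (v : Valuation L (WithZero (Multiplicative ℤ)))
    (hk : ∀ c : k, c ≠ 0 → v (algebraMap k L c) = 1) (y : L) (hy : v y ≤ 1) (g : k[X]) :
    g ≠ 0 → v (aeval y g) < 1 → ∃ f : k[X], Irreducible f ∧ v (aeval y f) < 1 := by
  induction g using WfDvdMonoid.induction_on_irreducible with
  | zero => intro h; exact absurd rfl h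
  | unit u hu =>
    intro _ h
    exfalso
    rw [Polynomial.isUnit_iff] at hu
    obtain ⟨c, hc, rfl⟩ := hu
    rw [aeval_C, hk c hc.ne_zero] at h
    exact lt_irrefl _ h
  | mul a i ha hi ih =>
    intro _ h
    by_cases h1 : v (aeval y i) < 1
    · exact ⟨i, hi, h1⟩
    · apply ih ha
      have h2 : v (aeval y i) = 1 := le_antisymm (co1_eval_le v hk y hy i) (not_lt.1 h1)
      rwa [map_mul, map_mul, h2, one_mul] at h

theorem co1_key (v : Valuation L (WithZero (Multiplicative ℤ)))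
    (hk : ∀ c : k, c ≠ 0 → v (algebraMap k L c) = 1)
    (hres : ∀ y, v y ≤ 1 → ∃ g : k[X], g ≠ 0 ∧ v (aeval y g) < 1) (y : L) (hy : v y ≤ 1) :
    ∃ f : k[X], v (aeval y f) < 1 ∧ v (aeval y (derivative f)) = 1 := by
  obtain ⟨g, hg, hgy⟩ := hres y hy
  obtain ⟨f, hf, hfy⟩ := co1_irred v hk y hy g hg hgy
  refine ⟨f, hfy, le_antisymm (co1_eval_le v hk y hy _) ?_⟩
  obtain ⟨a, b, hab⟩ : IsCoprime f (derivative f) := hf.separable
  by_contra hlt
  rw [not_le] at hlt
  have h1 : (1 : L) = aeval y a * aeval y f + aeval y b * aeval y (derivative f) := by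
    rw [← map_mul, ← map_mul, ← map_add, hab, map_one]
  have h2 : v (aeval y a * aeval y f) < 1 := by
    rw [map_mul]
    exact (mul_le_of_le_one_left' (co1_eval_le v hk y hy a)).trans_lt hfy
  have h3 : v (aeval y b * aeval y (derivative f)) < 1 := by
    rw [map_mul]
    exact (mul_le_of_le_one_left' (co1_eval_le v hk y hy b)).trans_lt hlt
  have h4 := Valuation.map_add_lt v h2 h3
  rw [← h1, map_one] at h4
  exact lt_irrefl _ h4

theorem co1_step (v : Valuation L (WithZero (Multiplicative ℤ))) (D : Derivation k L L)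
    (hk : ∀ c : k, c ≠ 0 → v (algebraMap k L c) = 1)
    (hres : ∀ y, v y ≤ 1 → ∃ g : k[X], g ≠ 0 ∧ v (aeval y g) < 1) (c : ℕ)
    (hc : ∀ y, v y ≤ 1 → v (D y) ≤ WithZero.exp ((c + 1 : ℕ) : ℤ))
    (u : L) (hu : v u = WithZero.exp (-1 : ℤ)) (hDu : v (D u) ≤ WithZero.exp (c : ℤ)) (y : L)
    (hy : v y ≤ 1) : v (D y) ≤ WithZero.exp (c : ℤ) := by
  obtain ⟨f, hf1, hf2⟩ := co1_key v hk hres y hy
  have hu0 : u ≠ 0 := by
    intro h0
    rw [h0, map_zero] at hu
    exact WithZero.exp_ne_zero hu.symm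
  set z : L := aeval y f / u with hz
  have hz1 : aeval y f = u * z := by
    rw [hz, mul_div_cancel₀ _ hu0]
  have hz2 : v z ≤ 1 := by
    have h1 := co1_le_exp hf1
    rw [hz1, map_mul, hu] at h1
    have h2 : (WithZero.exp (-1 : ℤ)) * v z ≤ WithZero.exp (-1 : ℤ) * 1 := by rwa [mul_one]
    exact le_of_mul_le_mul_left h2 (zero_lt_iff.2 WithZero.exp_ne_zero)
  have h1 : aeval y (derivative f) * D y = u * D z + z * D u := by
    have h2 := Derivation.map_aeval D f y
    rw [hz1, Derivation.leibniz, smul_eq_mul, smul_eq_mul, smul_eq_mul] at h2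
    exact h2.symm
  have h2 : v (D y) = v (u * D z + z * D u) := by
    rw [← h1, map_mul, hf2, one_mul]
  rw [h2]
  refine Valuation.map_add_le v ?_ ?_
  · rw [map_mul, hu]
    calc WithZero.exp (-1 : ℤ) * v (D z) ≤ WithZero.exp (-1 : ℤ) * WithZero.exp ((c + 1 : ℕ) : ℤ) :=
          mul_le_mul_right (hc z hz2) _
      _ = WithZero.exp (c : ℤ) := by
          rw [← WithZero.exp_add]
          congr 1
          push_cast
          ring
  · rw [map_mul]
    calc v z * v (D u) ≤ 1 * WithZero.exp (c : ℤ) := mul_le_mul' hz2 hDu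
      _ = WithZero.exp (c : ℤ) := one_mul _

theorem val_deriv_unram (v : Valuation L (WithZero (Multiplicative ℤ))) (D : Derivation k L L)
    (hk : ∀ c : k, c ≠ 0 → v (algebraMap k L c) = 1)
    (hres : ∀ y, v y ≤ 1 → ∃ g : k[X], g ≠ 0 ∧ v (aeval y g) < 1)
    (hb : ∃ c : ℕ, ∀ y, v y ≤ 1 → v (D y) ≤ WithZero.exp (c : ℤ))
    (u : L) (hu : v u = WithZero.exp (-1 : ℤ)) (hDu : v (D u) ≤ 1) (y : L) (hy : v y ≤ 1) :
    v (D y) ≤ 1 := by
  obtain ⟨c, hc⟩ := hb
  have h : ∀ c : ℕ, (∀ y, v y ≤ 1 → v (D y) ≤ WithZero.exp (c : ℤ)) → ∀ y, v y ≤ 1 →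
      v (D y) ≤ 1 := by
    intro c
    induction c with
    | zero =>
      intro h0 y hy
      have := h0 y hy
      rwa [Nat.cast_zero, WithZero.exp_zero] at this
    | succ c ih =>
      intro h1
      apply ih
      intro y hy
      refine co1_step v D hk hres c h1 u hu (hDu.trans ?_) y hy
      rw [← WithZero.exp_zero (M := ℤ), WithZero.exp_le_exp]
      omega
  exact h c hc y hy

theorem val_deriv_tame (v : Valuation L (WithZero (Multiplicative ℤ))) (E : Derivation k L L)
    (hk : ∀ c : k, c ≠ 0 → v (algebraMap k L c) = 1)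
    (hres : ∀ y, v y ≤ 1 → ∃ g : k[X], g ≠ 0 ∧ v (aeval y g) < 1)
    (hb : ∃ c : ℕ, ∀ y, v y ≤ 1 → v (E y) ≤ WithZero.exp (c : ℤ))
    (hπ : ∃ π, v π = WithZero.exp (-1 : ℤ))
    (τ : L) (hτ0 : τ ≠ 0) (hτ : v τ < 1) (hEτ : v (E τ) ≤ v τ) (y : L) :
    v (E y) ≤ v y := by
  obtain ⟨π, hπ⟩ := hπ
  have hπ0 : π ≠ 0 := by
    intro h0
    rw [h0, map_zero] at hπ
    exact WithZero.exp_ne_zero hπ.symm
  have hvτ : v τ ≠ 0 := (Valuation.ne_zero_iff v).2 hτ0
  obtain ⟨e, he⟩ : ∃ e : ℕ, v τ = WithZero.exp (-((e + 1 : ℕ) : ℤ)) := by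
    have h1 : WithZero.log (v τ) < 0 := by
      rw [WithZero.log_lt_iff_lt_exp hvτ, WithZero.exp_zero]
      exact hτ
    refine ⟨(-WithZero.log (v τ) - 1).toNat, ?_⟩
    conv_lhs => rw [← WithZero.exp_log hvτ]
    congr 1
    push_cast
    omega
  have hpow : ∀ m : ℕ, v (π ^ m) = WithZero.exp (-(m : ℤ)) := by
    intro m
    rw [map_pow, hπ, ← WithZero.exp_nsmul]
    congr 1
    rw [nsmul_eq_mul]
    ring
  set ε : L := τ / π ^ (e + 1) with hε
  have hτε : τ = π ^ (e + 1) * ε := by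
    rw [hε, mul_div_cancel₀ _ (pow_ne_zero _ hπ0)]
  have hvε : v ε = 1 := by
    rw [hε, map_div₀, hpow, he, div_self WithZero.exp_ne_zero]
  have hEE : ((e + 1 : ℕ) : L) * π ^ e * E π * ε = E τ - π ^ (e + 1) * E ε := by
    have h1 : E τ = π ^ (e + 1) * E ε + ε * (((e + 1 : ℕ) : L) * (π ^ e * E π)) := by
      conv_lhs => rw [hτε]
      rw [Derivation.leibniz, Derivation.leibniz_pow, smul_eq_mul, smul_eq_mul, smul_eq_mul,
        Nat.add_sub_cancel, nsmul_eq_mul]
    rw [h1]
    ring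
  have hve : v ((e + 1 : ℕ) : L) = 1 := by
    have h1 := hk ((e + 1 : ℕ) : k) (by exact_mod_cast Nat.succ_ne_zero e)
    rwa [map_natCast] at h1
  have hEπ : ∀ c : ℕ, (∀ y, v y ≤ 1 → v (E y) ≤ WithZero.exp (c : ℤ)) →
      v (E π) ≤ WithZero.exp ((c : ℤ) - 1) := by
    intro c hc
    have h1 : v (((e + 1 : ℕ) : L) * π ^ e * E π * ε) ≤ WithZero.exp ((c : ℤ) - (e + 1)) := by
      rw [hEE]
      refine (Valuation.map_sub v _ _).trans (max_le ?_ ?_)
      · refine hEτ.trans ?_
        rw [he, WithZero.exp_le_exp]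
        push_cast
        omega
      · rw [map_mul, hpow]
        calc WithZero.exp (-((e + 1 : ℕ) : ℤ)) * v (E ε)
            ≤ WithZero.exp (-((e + 1 : ℕ) : ℤ)) * WithZero.exp (c : ℤ) :=
              mul_le_mul_right (hc ε hvε.le) _
          _ = WithZero.exp ((c : ℤ) - (e + 1)) := by
              rw [← WithZero.exp_add]
              refine congrArg _ ?_
              push_cast
              ring
    rw [map_mul, map_mul, map_mul, hve, hvε, one_mul, mul_one, hpow] at h1
    have h2 : WithZero.exp (-(e : ℤ)) * v (E π) ≤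
        WithZero.exp (-(e : ℤ)) * WithZero.exp ((c : ℤ) - 1) := by
      rw [← WithZero.exp_add]
      refine h1.trans (le_of_eq ?_)
      congr 1
      ring
    exact le_of_mul_le_mul_left h2 (zero_lt_iff.2 WithZero.exp_ne_zero)
  have h : ∀ c : ℕ, (∀ y, v y ≤ 1 → v (E y) ≤ WithZero.exp (c : ℤ)) → ∀ y, v y ≤ 1 →
      v (E y) ≤ WithZero.exp ((0 : ℕ) : ℤ) := by
    intro c
    induction c with
    | zero => exact fun h0 => h0
    | succ c ih =>
      intro h1
      apply ih
      refine co1_step v E hk hres c h1 π hπ ?_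
      have h2 := hEπ (c + 1) h1
      refine h2.trans (le_of_eq ?_)
      congr 1
      push_cast
      ring
  obtain ⟨c, hc⟩ := hb
  have h0 := h c hc
  have hπ1 : v (E π) ≤ WithZero.exp (-1 : ℤ) := by
    have := hEπ 0 h0
    simpa using this
  -- the elements of valuation `exp (-m)`
  have hint : ∀ y : L, y ≠ 0 → v y ≤ 1 → v (E y) ≤ v y := by
    intro y hy0 hy
    have hvy : v y ≠ 0 := (Valuation.ne_zero_iff v).2 hy0
    obtain ⟨m, hm⟩ : ∃ m : ℕ, v y = WithZero.exp (-(m : ℤ)) := by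
      have h1 : WithZero.log (v y) ≤ 0 := by
        rw [WithZero.log_le_iff_le_exp hvy, WithZero.exp_zero]
        exact hy
      refine ⟨(-WithZero.log (v y)).toNat, ?_⟩
      conv_lhs => rw [← WithZero.exp_log hvy]
      congr 1
      omega
    have hyη : y = π ^ m * (y / π ^ m) := by
      rw [mul_div_cancel₀ _ (pow_ne_zero _ hπ0)]
    have hvη : v (y / π ^ m) = 1 := by
      rw [map_div₀, hpow, hm, div_self WithZero.exp_ne_zero]
    have hEη := h0 _ hvη.le
    rw [Nat.cast_zero, WithZero.exp_zero] at hEη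
    have h1 : E y = π ^ m * E (y / π ^ m) + (y / π ^ m) * ((m : L) * (π ^ (m - 1) * E π)) := by
      conv_lhs => rw [hyη]
      rw [Derivation.leibniz, Derivation.leibniz_pow, smul_eq_mul, smul_eq_mul, smul_eq_mul,
        nsmul_eq_mul]
    rw [h1, hm]
    refine Valuation.map_add_le v ?_ ?_
    · rw [map_mul, hpow]
      exact mul_le_of_le_one_right' hEη
    · rw [map_mul, hvη, one_mul]
      rcases Nat.eq_zero_or_pos m with h2 | h2
      · rw [h2, Nat.cast_zero, zero_mul, map_zero]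
        exact zero_le
      · have h3 : v (m : L) = 1 := by
          have h4 := hk (m : k) (by exact_mod_cast h2.ne')
          rwa [map_natCast] at h4
        rw [map_mul, h3, one_mul, map_mul, hpow]
        calc WithZero.exp (-((m - 1 : ℕ) : ℤ)) * v (E π)
            ≤ WithZero.exp (-((m - 1 : ℕ) : ℤ)) * WithZero.exp (-1 : ℤ) :=
              mul_le_mul_right hπ1 _
          _ = WithZero.exp (-(m : ℤ)) := by
              rw [← WithZero.exp_add]
              congr 1
              omega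
  by_cases hy0 : y = 0
  · rw [hy0, map_zero, map_zero]
  by_cases hy : v y ≤ 1
  · exact hint y hy0 hy
  · rw [not_le] at hy
    have hvy : v y ≠ 0 := (Valuation.ne_zero_iff v).2 hy0
    have h1 : v y⁻¹ ≤ 1 := by
      rw [map_inv₀]
      exact inv_le_one_of_one_le₀ hy.le
    have h2 := hint y⁻¹ (inv_ne_zero hy0) h1
    rw [Derivation.leibniz_inv, smul_eq_mul, map_mul, Valuation.map_neg, map_pow, map_inv₀] at h2
    have h3 : v y ^ 2 * ((v y)⁻¹ ^ 2 * v (E y)) ≤ v y ^ 2 * (v y)⁻¹ :=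
      mul_le_mul_right h2 _
    rw [← mul_assoc, ← mul_pow, mul_inv_cancel₀ hvy, one_pow, one_mul, pow_two, mul_assoc,
      mul_inv_cancel₀ hvy, mul_one] at h3
    exact h3

end Val

end Pool.Agent.H20.ML
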