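import Pool.Agent.H20.ML.Roots

/-!
# Project ML, row ML-17: one of two nonproportional solutions is exact
-/

set_option autoImplicit false

open Polynomial IsDedekindDomain NumberField Filter

namespace Pool.Agent.H20.ML

open Pool.Agent.H35.AN

/-- the coefficients of a polynomial are integral at large primes -/
theorem ml17_coeff {k : Type} [Field k] [NumberField k] (g : k[X]) :
    ∃ N : ℕ, ∀ (P : HeightOneSpectrum (𝓞 k)) (p : ℕ), p.Prime → N < p →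
      ((p : ℕ) : 𝓞 k) ∈ P.asIdeal → ∀ i, Ge P 0 (g.coeff i) := by
  choose N hN using fun i : ℕ => ml14_int (g.coeff i)
  refine ⟨∑ i ∈ g.support, N i, fun P p hp hY hP i => ?_⟩
  by_cases hi : i ∈ g.support
  · refine hN i P p hp ?_ hP
    have := Finset.single_le_sum (f := N) (fun j _ => Nat.zero_le _) hi
    omega
  · rw [notMem_support_iff.1 hi]
    exact ge_zero P 0

theorem ml17_ge_mul {k : Type} [Field k] [NumberField k] (P : HeightOneSpectrum (𝓞 k)) {m : ℤ}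
    {x y : k} (hx : Ge P 0 x) (hy : Ge P m y) : Ge P m (x * y) := by
  have := ge_mul P hx hy
  rwa [zero_add] at this

theorem ml17_ge_pow {k : Type} [Field k] [NumberField k] (P : HeightOneSpectrum (𝓞 k))
    {x : k} (hx : Ge P 0 x) (n : ℕ) : Ge P 0 (x ^ n) := by
  have := ge_pow P hx n
  rwa [mul_zero] at this

theorem ml17_eval {k : Type} [Field k] [NumberField k] (P : HeightOneSpectrum (𝓞 k)) {x : k}
    (hx : Ge P 0 x) (g : k[X]) (hg : ∀ i, Ge P 0 (g.coeff i)) : Ge P 0 (g.eval x) := by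
  rw [eval_eq_sum, Polynomial.sum]
  exact ge_sum P _ _ fun i _ => ml17_ge_mul P (hg i) (ml17_ge_pow P hx i)

/-- first order congruence -/
theorem ml17_cong {k : Type} [Field k] [NumberField k] (P : HeightOneSpectrum (𝓞 k)) {x y : k}
    (hx : Ge P 0 x) (hy : Ge P 0 y) (hxy : Ge P 1 (x - y)) (g : k[X])
    (hg : ∀ i, Ge P 0 (g.coeff i)) : Ge P 1 (g.eval x - g.eval y) := by
  rw [eval_eq_sum, eval_eq_sum, Polynomial.sum, Polynomial.sum, ← Finset.sum_sub_distrib]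
  refine ge_sum P _ _ fun i _ => ?_
  rw [← mul_sub]
  exact ml17_ge_mul P (hg i) (ml14_pow P hx hy hxy i)

/-- second order congruence for powers -/
theorem ml17_pow {k : Type} [Field k] [NumberField k] (P : HeightOneSpectrum (𝓞 k)) {x y : k}
    (hx : Ge P 0 x) (hy : Ge P 0 y) (hxy : Ge P 1 (x - y)) (n : ℕ) :
    Ge P 2 (x ^ n - y ^ n - (n : k) * y ^ (n - 1) * (x - y)) := by
  induction n with
  | zero => simpa using ge_zero P 2
  | succ n ih =>
    rcases Nat.eq_zero_or_pos n with rfl | hn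
    · simpa using ge_zero P 2
    · obtain ⟨m, rfl⟩ : ∃ m, n = m + 1 := ⟨n - 1, by omega⟩
      have h : x ^ (m + 1 + 1) - y ^ (m + 1 + 1) -
          ((m + 1 + 1 : ℕ) : k) * y ^ (m + 1 + 1 - 1) * (x - y) =
          x * (x ^ (m + 1) - y ^ (m + 1) - ((m + 1 : ℕ) : k) * y ^ (m + 1 - 1) * (x - y)) +
            (((m + 1 : ℕ) : k) * y ^ m) * ((x - y) * (x - y)) := by
        simp only [Nat.add_sub_cancel]
        push_cast
        ring
      rw [h]
      refine ge_add P (ml17_ge_mul P hx ih) (ml17_ge_mul P ?_ (ge_mul P hxy hxy))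
      exact ml17_ge_mul P (ge_nat P _) (ml17_ge_pow P hy m)

/-- second order congruence -/
theorem ml17_taylor {k : Type} [Field k] [NumberField k] (P : HeightOneSpectrum (𝓞 k)) {x y : k}
    (hx : Ge P 0 x) (hy : Ge P 0 y) (hxy : Ge P 1 (x - y)) (g : k[X])
    (hg : ∀ i, Ge P 0 (g.coeff i)) :
    Ge P 2 (g.eval x - g.eval y - (derivative g).eval y * (x - y)) := by
  have h : g.eval x - g.eval y - (derivative g).eval y * (x - y) =
      ∑ i ∈ g.support, g.coeff i * (x ^ i - y ^ i - (i : k) * y ^ (i - 1) * (x - y)) := by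
    rw [eval_eq_sum, eval_eq_sum, derivative_eval, Polynomial.sum, Polynomial.sum, Polynomial.sum,
      Finset.sum_mul, ← Finset.sum_sub_distrib, ← Finset.sum_sub_distrib]
    refine Finset.sum_congr rfl fun i _ => ?_
    ring
  rw [h]
  exact ge_sum P _ _ fun i _ => ml17_ge_mul P (hg i) (ml17_pow P hx hy hxy i)

/-- the quotient is integral and congruent to `r` -/
theorem ml17_quot {k : Type} [Field k] [NumberField k] (P : HeightOneSpectrum (𝓞 k)) {a b : 𝓞 k}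
    {r : ℤ} (h : a - r * b ∈ P.asIdeal) (hb : b ∉ P.asIdeal) :
    (b : k) ≠ 0 ∧ Ge P 0 ((a : k) / (b : k)) ∧ Ge P 1 ((a : k) / (b : k) - (r : k)) := by
  have hb0 : (b : k) ≠ 0 := by
    intro h0
    apply hb
    have : b = 0 := by exact_mod_cast h0
    rw [this]
    exact P.asIdeal.zero_mem
  have h1 : ord P (b : k) = 0 := an1_ord_coe_eq_zero P hb
  refine ⟨hb0, ml14_ge_of_mul P hb0 h1 ?_, ml14_ge_of_mul P hb0 h1 ?_⟩
  · rw [mul_div_cancel₀ _ hb0]
    exact an1_ge_coe P a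
  · have h2 := (mem_iff_ge_one P _).1 h
    have h3 : (b : k) * ((a : k) / (b : k) - (r : k)) = ((a - r * b : 𝓞 k) : k) := by
      rw [mul_sub, mul_div_cancel₀ _ hb0]
      simp
      ring
    rw [h3]
    exact h2

section

variable (k : Type) [Field k] [NumberField k]

theorem exact_one (f : k[X]) (hf : Irreducible f) : ∃ Y : ℕ,
    ∀ (p : ℕ) (𝔭 : HeightOneSpectrum (𝓞 k)) (r : ℤ) (a b a' b' : 𝓞 k), p.Prime → Y < p →
      Ideal.absNorm 𝔭.asIdeal = p → Ge 𝔭 1 (f.eval (r : k)) → a - r * b ∈ 𝔭.asIdeal →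
      a' - r * b' ∈ 𝔭.asIdeal → b ∉ 𝔭.asIdeal → b' ∉ 𝔭.asIdeal →
      a * b' - a' * b ∉ 𝔭.asIdeal ^ 2 → f.eval ((a : k) / (b : k)) ≠ 0 →
      f.eval ((a' : k) / (b' : k)) ≠ 0 →
      ord 𝔭 (f.eval ((a : k) / (b : k))) = 1 ∨ ord 𝔭 (f.eval ((a' : k) / (b' : k))) = 1 := by
  obtain ⟨A, B, hAB⟩ := hf.separable
  obtain ⟨N1, hN1⟩ := ml17_coeff f
  obtain ⟨N2, hN2⟩ := ml17_coeff (derivative f)
  obtain ⟨N3, hN3⟩ := ml17_coeff A
  obtain ⟨N4, hN4⟩ := ml17_coeff B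
  refine ⟨N1 + N2 + N3 + N4, fun p 𝔭 r a b a' b' hp hY hnorm hr ha ha' hb hb' hdet h0 h0' => ?_⟩
  have hP : ((p : ℕ) : 𝓞 k) ∈ 𝔭.asIdeal := by
    have := Ideal.absNorm_mem 𝔭.asIdeal
    rwa [hnorm] at this
  have c1 := hN1 𝔭 p hp (by omega) hP
  have c2 := hN2 𝔭 p hp (by omega) hP
  have c3 := hN3 𝔭 p hp (by omega) hP
  have c4 := hN4 𝔭 p hp (by omega) hP
  obtain ⟨hb0, hx0, hxr⟩ := ml17_quot 𝔭 ha hb
  obtain ⟨hb0', hy0, hyr⟩ := ml17_quot 𝔭 ha' hb'
  set x : k := (a : k) / (b : k) with hx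
  set y : k := (a' : k) / (b' : k) with hy
  have hr0 : Ge 𝔭 0 (r : k) := ge_int 𝔭 r
  have hxy : Ge 𝔭 1 (x - y) := by
    have := ge_sub 𝔭 hxr hyr
    rwa [sub_sub_sub_cancel_right] at this
  -- the values are divisible by the prime
  have hfx : Ge 𝔭 1 (f.eval x) := by
    have := ge_add 𝔭 (ml17_cong 𝔭 hx0 hr0 hxr f c1) hr
    rwa [sub_add_cancel] at this
  have hfy : Ge 𝔭 1 (f.eval y) := by
    have := ge_add 𝔭 (ml17_cong 𝔭 hy0 hr0 hyr f c1) hr
    rwa [sub_add_cancel] at this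
  by_contra hcon
  push Not at hcon
  rw [ge_iff 𝔭 h0] at hfx
  rw [ge_iff 𝔭 h0'] at hfy
  have hfx2 : Ge 𝔭 2 (f.eval x) := by
    rw [ge_iff 𝔭 h0]
    have := hcon.1
    omega
  have hfy2 : Ge 𝔭 2 (f.eval y) := by
    rw [ge_iff 𝔭 h0']
    have := hcon.2
    omega
  -- the derivative is a unit
  have hd : ¬ Ge 𝔭 1 ((derivative f).eval y) := by
    intro hd
    have h1 : A.eval y * f.eval y + B.eval y * (derivative f).eval y = 1 := by
      rw [← eval_mul, ← eval_mul, ← eval_add, hAB, eval_one]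
    have h2 : Ge 𝔭 1 (1 : k) := by
      rw [← h1]
      refine ge_add 𝔭 (ml17_ge_mul 𝔭 (ml17_eval 𝔭 hy0 A c3) ?_)
        (ml17_ge_mul 𝔭 (ml17_eval 𝔭 hy0 B c4) hd)
      exact ge_mono 𝔭 (by norm_num) hfy2
    rw [ge_iff 𝔭 one_ne_zero, ord_one] at h2
    omega
  have hd0 : (derivative f).eval y ≠ 0 := by
    intro h
    apply hd
    rw [h]
    exact ge_zero 𝔭 1
  have hd1 : ord 𝔭 ((derivative f).eval y) = 0 := by
    have h1 := (ge_iff 𝔭 hd0).1 (ml17_eval 𝔭 hy0 _ c2)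
    rw [ge_iff 𝔭 hd0] at hd
    omega
  have h3 : Ge 𝔭 2 ((derivative f).eval y * (x - y)) := by
    have := ge_sub 𝔭 (ge_sub 𝔭 hfx2 hfy2) (ml17_taylor 𝔭 hx0 hy0 hxy f c1)
    rwa [sub_sub_cancel] at this
  have h4 : Ge 𝔭 2 (x - y) := ml14_ge_of_mul 𝔭 hd0 hd1 h3
  apply hdet
  have h5 : ((a * b' - a' * b : 𝓞 k) : k) = ((b : k) * (b' : k)) * (x - y) := by
    rw [hx, hy]
    push_cast
    field_simp
  have h6 : Ge 𝔭 (2 : ℕ) ((a * b' - a' * b : 𝓞 k) : k) := by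
    rw [h5]
    exact ml17_ge_mul 𝔭 (ml17_ge_mul 𝔭 (an1_ge_coe 𝔭 b) (an1_ge_coe 𝔭 b')) h4
  exact (mem_pow_iff 𝔭 _ 2).2 h6

end

end Pool.Agent.H20.ML
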