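import Pool.Agent.H20.ML.Defs

/-!
# Project ML, row ML-9: from the Galois specialisation to the field of degree `n`
-/

set_option autoImplicit false

open Polynomial IsDedekindDomain NumberField

namespace Pool.Agent.H20.ML

open Pool.Agent.H35.AN

section ml9

variable {F Ω N L : Type} [Field F] [Field Ω] [Algebra F Ω] [Field N] [Algebra F N] [Field L]
  [Algebra F L]

/-- the embedding of `L` attached to an automorphism of `N` -/
def ml9_q (ι : N →ₐ[F] Ω) (i : L →ₐ[F] N) (g : N ≃ₐ[F] N) : L →ₐ[F] Ω :=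
  (ι.comp (g : N →ₐ[F] N)).comp i

theorem ml9_q_apply (ι : N →ₐ[F] Ω) (i : L →ₐ[F] N) (g : N ≃ₐ[F] N) (x : L) :
    ml9_q ι i g x = ι (g (i x)) := rfl

theorem ml9_surj [Normal F N] [IsAlgClosed Ω] (ι : N →ₐ[F] Ω) (i : L →ₐ[F] N)
    (φ : L →ₐ[F] Ω) : ∃ g : N ≃ₐ[F] N, ml9_q ι i g = φ := by
  let a1 : Algebra L N := i.toRingHom.toAlgebra
  have s1 : IsScalarTower F L N := IsScalarTower.of_algebraMap_eq' i.comp_algebraMap.symm
  let a2 : Algebra L Ω := φ.toRingHom.toAlgebra
  have s2 : IsScalarTower F L Ω := IsScalarTower.of_algebraMap_eq' φ.comp_algebraMap.symm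
  have : Algebra.IsAlgebraic L N := Algebra.IsAlgebraic.tower_top (K := F) L
  let ρ : N →ₐ[L] Ω := IsAlgClosed.lift
  let ρ' : N →ₐ[F] Ω := ρ.restrictScalars F
  let a3 : Algebra N Ω := ι.toRingHom.toAlgebra
  have s3 : IsScalarTower F N Ω := IsScalarTower.of_algebraMap_eq' ι.comp_algebraMap.symm
  refine ⟨AlgHom.restrictNormal' ρ' N, ?_⟩
  ext x
  have h1 : ι ((AlgHom.restrictNormal' ρ' N) (i x)) = ρ' (i x) :=
    AlgHom.restrictNormal_commutes ρ' N (i x)
  rw [ml9_q_apply, h1]
  have h2 : ρ (algebraMap L N x) = algebraMap L Ω x := ρ.commutes x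
  exact h2

theorem ml9_lift [Normal F Ω] (ι : N →ₐ[F] Ω) (g : N ≃ₐ[F] N) :
    ∃ σ : Ω ≃ₐ[F] Ω, ∀ x, σ (ι x) = ι (g x) := by
  let a3 : Algebra N Ω := ι.toRingHom.toAlgebra
  have s3 : IsScalarTower F N Ω := IsScalarTower.of_algebraMap_eq' ι.comp_algebraMap.symm
  exact ⟨AlgEquiv.liftNormal g Ω, fun x => AlgEquiv.liftNormal_commutes g Ω x⟩

theorem ml9_restrict [Normal F N] (ι : N →ₐ[F] Ω) (σ : Ω ≃ₐ[F] Ω) :
    ∃ g : N ≃ₐ[F] N, ∀ x, σ (ι x) = ι (g x) := by
  let a3 : Algebra N Ω := ι.toRingHom.toAlgebra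
  have s3 : IsScalarTower F N Ω := IsScalarTower.of_algebraMap_eq' ι.comp_algebraMap.symm
  exact ⟨AlgEquiv.restrictNormal σ N, fun x => (AlgEquiv.restrictNormal_commutes σ N x).symm⟩

theorem ml9_group_iff [Normal F N] [Normal F Ω] [IsAlgClosed Ω] (ι : N →ₐ[F] Ω)
    (i : L →ₐ[F] N) {n : ℕ} (e : (L →ₐ[F] Ω) ≃ Fin n) (π : Equiv.Perm (Fin n)) :
    (∃ σ : Ω ≃ₐ[F] Ω, ∀ φ : L →ₐ[F] Ω, e (σ.toAlgHom.comp φ) = π (e φ)) ↔
      ∃ g : N ≃ₐ[F] N, ∀ h : N ≃ₐ[F] N, e (ml9_q ι i (g * h)) = π (e (ml9_q ι i h)) := by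
  constructor
  · rintro ⟨σ, hσ⟩
    obtain ⟨g, hg⟩ := ml9_restrict ι σ
    refine ⟨g, fun h => ?_⟩
    rw [← hσ]
    congr 1
    ext x
    exact (hg (h (i x))).symm
  · rintro ⟨g, hg⟩
    obtain ⟨σ, hσ⟩ := ml9_lift (Ω := Ω) ι g
    refine ⟨σ, fun φ => ?_⟩
    obtain ⟨h, rfl⟩ := ml9_surj ι i φ
    rw [← hg]
    congr 1
    ext x
    exact hσ (h (i x))

theorem ml9_q_eq_iff (ι : N →ₐ[F] Ω) (i : L →ₐ[F] N) (g h : N ≃ₐ[F] N) :
    ml9_q ι i g = ml9_q ι i h ↔ g⁻¹ * h ∈ (i.fieldRange).fixingSubgroup := by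
  rw [IntermediateField.mem_fixingSubgroup_iff]
  constructor
  · rintro H x ⟨y, rfl⟩
    have h1 := DFunLike.congr_fun H y
    rw [ml9_q_apply, ml9_q_apply] at h1
    have h2 := ι.injective h1
    show g⁻¹ (h (i y)) = i y
    rw [← h2]
    exact AlgEquiv.symm_apply_apply g (i y)
  · intro H
    ext x
    rw [ml9_q_apply, ml9_q_apply]
    have h1 : g⁻¹ (h (i x)) = i x := H (i x) ⟨x, rfl⟩
    congr 1
    have h2 : g (g⁻¹ (h (i x))) = h (i x) := AlgEquiv.apply_symm_apply g _
    rw [h1] at h2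
    exact h2

end ml9

section ml9core

variable (k : Type) [Field k] [NumberField k]

theorem ml9_core {n : ℕ} {G : Subgroup (Equiv.Perm (Fin n))}
    (L : IntermediateField (RatFunc k) (AlgebraicClosure (RatFunc k)))
    (hn : Module.finrank (RatFunc k) L = n) [FiniteDimensional (RatFunc k) L]
    (hG : HasGroup (RatFunc k) n G L)
    (N : Type) [Field N] [Algebra (RatFunc k) N] [Algebra k[X] N]
    [IsScalarTower k[X] (RatFunc k) N] [FiniteDimensional (RatFunc k) N]
    [IsGalois (RatFunc k) N] (ι : N →ₐ[RatFunc k] AlgebraicClosure (RatFunc k))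
    (i : L →ₐ[RatFunc k] N) (t : k) (S : Spc k N t) : Nonempty (FieldAt k n G L t) := by
  obtain ⟨E, sp, sp_alg, Γ, heq⟩ := S
  have : FiniteDimensional k E := Module.Finite.of_restrictScalars_finite ℚ k E
  set H : Subgroup (N ≃ₐ[RatFunc k] N) := (i.fieldRange).fixingSubgroup with hH
  set H' : Subgroup (E ≃ₐ[k] E) := H.map Γ.toMonoidHom with hH'
  set K0 : IntermediateField k E := IntermediateField.fixedField H' with hK0
  let j : E →ₐ[k] AlgebraicClosure k := IsAlgClosed.lift
  let K : IntermediateField k (AlgebraicClosure k) := K0.map j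
  let eK : K0 ≃ₐ[k] K := K0.equivMap j
  let i' : K →ₐ[k] E := K0.val.comp (eK.symm : K →ₐ[k] K0)
  have hrange : i'.fieldRange = K0 := by
    ext x
    constructor
    · rintro ⟨y, rfl⟩
      exact (eK.symm y).2
    · intro hx
      refine ⟨eK ⟨x, hx⟩, ?_⟩
      show ((eK.symm (eK ⟨x, hx⟩) : K0) : E) = x
      rw [AlgEquiv.symm_apply_apply]
  have hfix : (i'.fieldRange).fixingSubgroup = H' := by
    rw [hrange, hK0, IntermediateField.fixingSubgroup_fixedField]
  have hker : ∀ g h : N ≃ₐ[RatFunc k] N, ml9_q ι i g = ml9_q ι i h ↔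
      ml9_q j i' (Γ g) = ml9_q j i' (Γ h) := by
    intro g h
    rw [ml9_q_eq_iff, ml9_q_eq_iff, hfix, ← map_inv, ← map_mul, hH']
    constructor
    · intro hx
      exact ⟨_, hx, rfl⟩
    · rintro ⟨y, hy, hyx⟩
      have : y = g⁻¹ * h := Γ.injective hyx
      rw [← this]
      exact hy
  choose s hs using ml9_surj ι i
  have hinj : Function.Injective (fun φ : L →ₐ[RatFunc k] AlgebraicClosure (RatFunc k) =>
      ml9_q j i' (Γ (s φ))) := by
    intro φ ψ h
    have h1 := (hker (s φ) (s ψ)).mpr h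
    rw [hs, hs] at h1
    exact h1
  have hval : ∀ g, ml9_q j i' (Γ (s (ml9_q ι i g))) = ml9_q j i' (Γ g) := by
    intro g
    exact (hker _ _).mp (hs _)
  have hsurj : Function.Surjective (fun φ : L →ₐ[RatFunc k] AlgebraicClosure (RatFunc k) =>
      ml9_q j i' (Γ (s φ))) := by
    intro ψ
    obtain ⟨γ, rfl⟩ := ml9_surj j i' ψ
    obtain ⟨g, rfl⟩ := Γ.surjective γ
    exact ⟨ml9_q ι i g, hval g⟩
  let θ : (L →ₐ[RatFunc k] AlgebraicClosure (RatFunc k)) ≃ (K →ₐ[k] AlgebraicClosure k) :=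
    Equiv.ofBijective _ ⟨hinj, hsurj⟩
  have hθ : ∀ φ, θ φ = ml9_q j i' (Γ (s φ)) := fun φ => rfl
  have hθs : ∀ g, θ.symm (ml9_q j i' (Γ g)) = ml9_q ι i g := by
    intro g
    rw [Equiv.symm_apply_eq, hθ, hval]
  have hfin : Module.finrank k K = n := by
    have h1 : Module.finrank k K = Module.finrank k K0 := (LinearEquiv.finrank_eq eK.toLinearEquiv).symm
    have h2 : Module.finrank k K0 = H'.index := by
      rw [IntermediateField.finrank_eq_fixingSubgroup_index E K0, hK0,
        IntermediateField.fixingSubgroup_fixedField]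
    have h3 : H'.index = H.index := by
      rw [hH']
      exact Subgroup.index_map_equiv H Γ
    have h4 : Module.finrank (RatFunc k) i.fieldRange = H.index :=
      IntermediateField.finrank_eq_fixingSubgroup_index N i.fieldRange
    have h5 : Module.finrank (RatFunc k) L = Module.finrank (RatFunc k) i.fieldRange :=
      LinearEquiv.finrank_eq (AlgEquiv.ofInjectiveField i).toLinearEquiv
    rw [h1, h2, h3, ← h4, ← h5, hn]
  have hKfin : Module.Finite k K := Module.Finite.equiv eK.toLinearEquiv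
  have nfK : NumberField K := NumberField.of_module_finite k K
  -- the specialisation map
  let iR : RR k L →ₐ[k[X]] RR k N := (i.restrictScalars k[X]).mapIntegralClosure
  have hiR : ∀ y : RR k L, ((iR y : RR k N) : N) = i (y : L) := fun y => rfl
  have hmem : ∀ y : RR k L, sp (iR y) ∈ K0 := by
    intro y
    rw [hK0, IntermediateField.mem_fixedField_iff]
    rintro _ ⟨g, hg, rfl⟩
    have h1 : (iR y : N) = g (iR y : N) := by
      rw [hiR]
      exact ((IntermediateField.mem_fixingSubgroup_iff _ _).mp hg (i y) ⟨_, rfl⟩).symm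
    exact (heq g (iR y) (iR y) h1).symm
  let sp0 : RR k L →+* K0 := (sp.comp (iR : RR k L →+* RR k N)).codRestrict K0 hmem
  let spK : RR k L →+* K := (eK : K0 →+* K).comp sp0
  have hspK : ∀ y, i' (spK y) = sp (iR y) := by
    intro y
    show ((eK.symm (eK (sp0 y)) : K0) : E) = sp (iR y)
    rw [AlgEquiv.symm_apply_apply]
    rfl
  have hspalg : ∀ p : k[X], spK (algebraMap k[X] (RR k L) p) = algebraMap k K (p.eval t) := by
    intro p
    have h1 : sp0 (algebraMap k[X] (RR k L) p) = algebraMap k K0 (p.eval t) := by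
      apply Subtype.ext
      show sp (iR (algebraMap k[X] (RR k L) p)) = _
      rw [AlgHom.commutes, sp_alg]
      rfl
    show eK (sp0 (algebraMap k[X] (RR k L) p)) = _
    rw [h1, AlgEquiv.commutes]
  -- conjugates
  let Y : RR k L → (L →ₐ[RatFunc k] AlgebraicClosure (RatFunc k)) → RR k N := fun y φ =>
    (((s φ : N →ₐ[RatFunc k] N)).restrictScalars k[X]).mapIntegralClosure (iR y)
  have hY : ∀ y φ, ((Y y φ : RR k N) : N) = s φ (i (y : L)) := fun y φ => rfl
  have hιY : ∀ (y : RR k L) φ, ι ((Y y φ : RR k N) : N) = φ (y : L) := by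
    intro y φ
    rw [hY, ← ml9_q_apply, hs]
  have hjY : ∀ (y : RR k L) φ, j (sp (Y y φ)) = θ φ (spK y) := by
    intro y φ
    have h1 : sp (Y y φ) = Γ (s φ) (sp (iR y)) := heq (s φ) (iR y) (Y y φ) rfl
    rw [h1, hθ, ml9_q_apply, hspK]
  have hnorm : ∀ (y : RR k L) (p : k[X]),
      algebraMap k[X] (RatFunc k) p = Algebra.norm (RatFunc k) (y : L) →
        Algebra.norm k (spK y) = p.eval t := by
    intro y p hp
    apply (algebraMap k (AlgebraicClosure k)).injective
    have h1 : ∏ φ, Y y φ = algebraMap k[X] (RR k N) p := by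
      apply Subtype.ext
      apply ι.injective
      show ι ((∏ φ, Y y φ : RR k N) : N) = ι ((algebraMap k[X] (RR k N) p : RR k N) : N)
      have h2 : (((∏ φ, Y y φ : RR k N)) : N) = ∏ φ, ((Y y φ : RR k N) : N) :=
        map_prod (integralClosure k[X] N).val _ _
      rw [h2, map_prod, Finset.prod_congr rfl (fun φ _ => hιY y φ),
        ← Algebra.norm_eq_prod_embeddings, ← hp]
      show _ = ι (algebraMap k[X] N p)
      rw [IsScalarTower.algebraMap_apply k[X] (RatFunc k) N, AlgHom.commutes]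
    have h3 : j (sp (∏ φ, Y y φ)) = j (algebraMap k E (p.eval t)) := by
      rw [h1, sp_alg]
    rw [map_prod, map_prod, AlgHom.commutes, Finset.prod_congr rfl (fun φ _ => hjY y φ)] at h3
    rw [← h3, Algebra.norm_eq_prod_embeddings]
    exact (Fintype.prod_equiv θ _ _ (fun φ => rfl)).symm
  have htrace : ∀ (y : RR k L) (p : k[X]),
      algebraMap k[X] (RatFunc k) p = Algebra.trace (RatFunc k) L (y : L) →
        Algebra.trace k K (spK y) = p.eval t := by
    intro y p hp
    apply (algebraMap k (AlgebraicClosure k)).injective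
    have h1 : ∑ φ, Y y φ = algebraMap k[X] (RR k N) p := by
      apply Subtype.ext
      apply ι.injective
      show ι ((∑ φ, Y y φ : RR k N) : N) = ι ((algebraMap k[X] (RR k N) p : RR k N) : N)
      have h2 : (((∑ φ, Y y φ : RR k N)) : N) = ∑ φ, ((Y y φ : RR k N) : N) :=
        map_sum (integralClosure k[X] N).val _ _
      rw [h2, map_sum, Finset.sum_congr rfl (fun φ _ => hιY y φ),
        ← trace_eq_sum_embeddings, ← hp]
      show _ = ι (algebraMap k[X] N p)
      rw [IsScalarTower.algebraMap_apply k[X] (RatFunc k) N, AlgHom.commutes]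
    have h3 : j (sp (∑ φ, Y y φ)) = j (algebraMap k E (p.eval t)) := by
      rw [h1, sp_alg]
    rw [map_sum, map_sum, AlgHom.commutes, Finset.sum_congr rfl (fun φ _ => hjY y φ)] at h3
    rw [← h3, trace_eq_sum_embeddings (AlgebraicClosure k)]
    exact (Fintype.sum_equiv θ _ _ (fun φ => rfl)).symm
  have hgal : HasGroup k n G K := by
    obtain ⟨e, he⟩ := hG
    refine ⟨θ.symm.trans e, fun π => ?_⟩
    rw [he, ml9_group_iff ι i e π, ml9_group_iff j i' (θ.symm.trans e) π]
    have hstep : ∀ g h : N ≃ₐ[RatFunc k] N,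
        (e (ml9_q ι i (g * h)) = π (e (ml9_q ι i h)) ↔
          (θ.symm.trans e) (ml9_q j i' (Γ g * Γ h)) =
            π ((θ.symm.trans e) (ml9_q j i' (Γ h)))) := by
      intro g h
      rw [Equiv.trans_apply, Equiv.trans_apply, ← map_mul, hθs, hθs]
    constructor
    · rintro ⟨g, hg⟩
      refine ⟨Γ g, fun η => ?_⟩
      obtain ⟨h, rfl⟩ := Γ.surjective η
      exact (hstep g h).mp (hg h)
    · rintro ⟨γ, hγ⟩
      obtain ⟨g, rfl⟩ := Γ.surjective γ
      exact ⟨g, fun h => (hstep g h).mpr (hγ (Γ h))⟩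
  exact ⟨{ K := K, nf := nfK, fin := hfin, gal := hgal, sp := spK, sp_alg := hspalg,
           norm := hnorm, trace := htrace }⟩

/-! ### ML-9 FieldEx.lean : from the Galois specialisation to the field of degree `n` -/

theorem exists_fieldAt {n : ℕ} {G : Subgroup (Equiv.Perm (Fin n))}
    (L : IntermediateField (RatFunc k) (AlgebraicClosure (RatFunc k)))
    (hn : Module.finrank (RatFunc k) L = n) [FiniteDimensional (RatFunc k) L]
    (hG : HasGroup (RatFunc k) n G L) :
    ∃ (N : Type) (_ : Field N) (_ : Algebra (RatFunc k) N) (_ : Algebra k[X] N)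
      (_ : IsScalarTower k[X] (RatFunc k) N) (_ : FiniteDimensional (RatFunc k) N)
      (_ : IsGalois (RatFunc k) N), ∀ t : k, Nonempty (Spc k N t) →
        Nonempty (FieldAt k n G L t) := by
  let N := IntermediateField.normalClosure (RatFunc k) L (AlgebraicClosure (RatFunc k))
  have hN : Normal (RatFunc k) N :=
    normalClosure.normal (RatFunc k) L (AlgebraicClosure (RatFunc k))
  have hfin : FiniteDimensional (RatFunc k) N :=
    normalClosure.is_finiteDimensional (RatFunc k) L (AlgebraicClosure (RatFunc k))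
  have hgal : IsGalois (RatFunc k) N := ⟨⟩
  refine ⟨N, inferInstance, inferInstance, inferInstance, inferInstance, hfin, hgal, ?_⟩
  rintro t ⟨S⟩
  exact ml9_core k L hn hG N N.val
    (IntermediateField.inclusion (IntermediateField.le_normalClosure L)) t S

end ml9core

end Pool.Agent.H20.ML
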