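import Mathlib
import Pool.Agent.H20.ML.Defs
import Pool.Agent.H35.AN.Val
import Pool.Agent.H35.AN.Tower
import Pool.Agent.H35.AN.Inert
import Pool.Agent.H9.Dyn.Chebo

/-!
# Project ML (MP_a3214d), row 4: a prime modulo which an irreducible polynomial has no root
-/

set_option autoImplicit false

open Polynomial IsDedekindDomain NumberField Filter Topology

namespace Pool.Agent.H20.ML

open Pool.Agent.H35.AN Pool.Agent.H9.Dyn

/-- a transitive action of a finite group on at least two points has a fixed point free element -/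
theorem ml4_derange {G X : Type*} [Group G] [Finite G] [MulAction G X] [Finite X]
    [MulAction.IsPretransitive G X] [Nontrivial X] : ∃ g : G, ∀ x : X, g • x ≠ x := by
  classical
  by_contra h
  push Not at h
  cases nonempty_fintype G
  cases nonempty_fintype X
  have h1 := MulAction.sum_card_fixedBy_eq_card_orbits_mul_card_group G X
  have h2 : Fintype.card (MulAction.orbitRel.Quotient G X) = 1 := by
    rw [Fintype.card_eq_one_iff_nonempty_unique]
    have h3 : Nonempty (MulAction.orbitRel.Quotient G X) :=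
      ⟨Quotient.mk'' (Classical.arbitrary X)⟩
    have h4 : Subsingleton (MulAction.orbitRel.Quotient G X) :=
      MulAction.pretransitive_iff_subsingleton_quotient G X |>.mp inferInstance
    exact ⟨⟨⟨Classical.choice h3⟩, fun a => Subsingleton.elim _ _⟩⟩
  rw [h2, one_mul] at h1
  have h3 : ∀ g ∈ (Finset.univ : Finset G), 1 ≤ Fintype.card (MulAction.fixedBy X g) := by
    intro g _
    obtain ⟨x, hx⟩ := h g
    exact Fintype.card_pos_iff.mpr ⟨⟨x, hx⟩⟩
  have h4 : 1 < Fintype.card (MulAction.fixedBy X (1 : G)) := by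
    obtain ⟨x, y, hxy⟩ := exists_pair_ne X
    rw [Fintype.one_lt_card_iff]
    exact ⟨⟨x, one_smul G x⟩, ⟨y, one_smul G y⟩, fun he => hxy (congrArg Subtype.val he)⟩
  have h5 : ∑ _g : G, 1 < ∑ g : G, Fintype.card (MulAction.fixedBy X g) :=
    Finset.sum_lt_sum h3 ⟨1, Finset.mem_univ _, h4⟩
  rw [h1, Finset.sum_const, Finset.card_univ, smul_eq_mul, mul_one] at h5
  exact lt_irrefl _ h5

section

variable {M : Type} [Field M] [NumberField M]

theorem ml4_conj [IsGalois ℚ M] (g x y : Gal(M/ℚ)) (h : Subgroup.zpowers y = Subgroup.zpowers x) :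
    Subgroup.zpowers (g⁻¹ * y * g) = Subgroup.zpowers (g⁻¹ * x * g) := by
  have h1 : ∀ z : Gal(M/ℚ), Subgroup.zpowers (g⁻¹ * z * g) =
      (Subgroup.zpowers z).map (MulAut.conj g⁻¹).toMonoidHom := by
    intro z
    rw [MonoidHom.map_zpowers]
    congr 1
  rw [h1, h1, h]

theorem ml4_inf [IsGalois ℚ M] (σ : Gal(M/ℚ)) :
    {p : Nat.Primes | ∃ g : Gal(M/ℚ),
      Subgroup.zpowers (g⁻¹ * frob M p * g) = Subgroup.zpowers σ}.Infinite := by
  classical
  intro hfin
  set D : Set Gal(M/ℚ) := {x | ∃ g : Gal(M/ℚ),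
    Subgroup.zpowers (g⁻¹ * x * g) = Subgroup.zpowers σ} with hD
  have h1 := frobenius_density D (fun x hx y hy => by
      obtain ⟨g, hg⟩ := hx
      exact ⟨g, (ml4_conj g x y hy).trans hg⟩) (fun x hx g => by
      obtain ⟨g', hg⟩ := hx
      refine ⟨g⁻¹ * g', ?_⟩
      rw [← hg]
      congr 1
      group)
  have h2 : DD (fun p => ind D (frob M p)) 0 := by
    refine DD.of_finite (hfin.subset ?_)
    intro p hp
    by_contra hc
    apply hp
    unfold ind
    exact if_neg hc
  have h3 := tendsto_nhds_unique h1 h2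
  rw [div_eq_zero_iff] at h3
  have h4 : (Nat.card Gal(M/ℚ) : ℝ) ≠ 0 := by exact_mod_cast Nat.card_pos.ne'
  have h5 : (Nat.card D : ℝ) ≠ 0 := by
    have : Nonempty D := ⟨⟨σ, 1, by simp⟩⟩
    exact_mod_cast Nat.card_pos.ne'
  tauto

open scoped Pointwise in
theorem ml4_frob_smul [IsGalois ℚ M] (p : Nat.Primes) :
    frob M p • frobIdeal M p = frobIdeal M p := by
  have h1 : frobIdeal M p ≤ (frob M p)⁻¹ • frobIdeal M p := by
    intro y hy
    rw [Ideal.mem_pointwise_smul_iff_inv_smul_mem, inv_inv]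
    have h2 := frob_smul_sub p y
    have h3 : y ^ (p : ℕ) ∈ frobIdeal M p := Ideal.pow_mem_of_mem _ hy _ p.2.pos
    have h4 := Ideal.add_mem _ h2 h3
    rwa [sub_add_cancel] at h4
  have h2 : (frob M p)⁻¹ • frobIdeal M p ≠ ⊤ := by
    intro h
    have h3 : (1 : 𝓞 M) ∈ (frob M p)⁻¹ • frobIdeal M p := by
      rw [h]
      exact Submodule.mem_top
    rw [Ideal.mem_pointwise_smul_iff_inv_smul_mem, inv_inv, smul_one] at h3
    exact (frobIdeal_isMaximal M p).ne_top ((Ideal.eq_top_iff_one _).mpr h3)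
  have h3 := (frobIdeal_isMaximal M p).eq_of_le h2 h1
  rw [← eq_inv_smul_iff]
  exact h3

open scoped Pointwise in
theorem ml4_prime [IsGalois ℚ M] (σ : Gal(M/ℚ)) (p : Nat.Primes) (g : Gal(M/ℚ))
    (h : Subgroup.zpowers (g⁻¹ * frob M p * g) = Subgroup.zpowers σ) :
    ∃ P : HeightOneSpectrum (𝓞 M), (((p : ℕ) : ℕ) : 𝓞 M) ∈ P.asIdeal ∧
      σ • P.asIdeal = P.asIdeal := by
  have hp : (((p : ℕ) : ℕ) : 𝓞 M) ∈ g⁻¹ • frobIdeal M p := by
    rw [Ideal.mem_pointwise_smul_iff_inv_smul_mem, inv_inv]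
    have h1 : g • (((p : ℕ) : ℕ) : 𝓞 M) = (((p : ℕ) : ℕ) : 𝓞 M) :=
      map_natCast (MulSemiringAction.toRingHom Gal(M/ℚ) (𝓞 M) g) _
    rw [h1]
    have h2 := (intCast_mem_frobIdeal (M := M) p ((p : ℕ) : ℤ)).mpr (dvd_refl _)
    simpa using h2
  have hpr : (g⁻¹ • frobIdeal M p).IsPrime := by
    have : (frobIdeal M p).IsPrime := (frobIdeal_isMaximal M p).isPrime
    infer_instance
  refine ⟨⟨g⁻¹ • frobIdeal M p, hpr, ?_⟩, hp, ?_⟩
  · intro h0
    rw [h0, Ideal.mem_bot] at hp
    exact p.2.ne_zero (by exact_mod_cast hp)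
  · have h1 : Subgroup.zpowers (g⁻¹ * frob M p * g) ≤
        MulAction.stabilizer Gal(M/ℚ) (g⁻¹ • frobIdeal M p) := by
      rw [Subgroup.zpowers_le, MulAction.mem_stabilizer_iff, mul_smul, smul_inv_smul, mul_smul,
        ml4_frob_smul]
    rw [h, Subgroup.zpowers_le, MulAction.mem_stabilizer_iff] at h1
    exact h1

theorem ml4_large (z : M) (hz : z ≠ 0) : ∃ Y : ℕ, ∀ (P : HeightOneSpectrum (𝓞 M)) (r : ℕ),
    r.Prime → Y < r → ((r : ℕ) : 𝓞 M) ∈ P.asIdeal → ¬ Ge P 1 z := by
  obtain ⟨a, b, hb, rfl⟩ := IsFractionRing.div_surjective (A := 𝓞 M) z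
  have ha : a ≠ 0 := by
    rintro rfl
    simp at hz
  have hb0 : (b : M) ≠ 0 := by
    intro h
    exact hz (by rw [show (algebraMap (𝓞 M) M) b = 0 from h, div_zero])
  refine ⟨Ideal.absNorm (Ideal.span {a}), fun P r hr hYr hP hge => ?_⟩
  have h1 : Ge P 1 (a : M) := by
    have h2 := ge_mul P hge (ge_of_isIntegral P (RingOfIntegers.isIntegral_coe b))
    rw [add_zero, div_mul_cancel₀ _ hb0] at h2
    exact h2
  rw [← mem_iff_ge_one] at h1
  have h2 : ((Ideal.absNorm (Ideal.span {a}) : ℕ) : 𝓞 M) ∈ P.asIdeal := by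
    have h3 := Ideal.absNorm_mem (Ideal.span {a})
    have h4 : Ideal.span {a} ≤ P.asIdeal := by
      rw [Ideal.span_le, Set.singleton_subset_iff]; exact h1
    exact h4 h3
  have hN0 : Ideal.absNorm (Ideal.span {a}) ≠ 0 := by
    rw [Ne, Ideal.absNorm_eq_zero_iff, Ideal.span_singleton_eq_bot]
    exact ha
  rw [mem_iff_ge_one] at h2
  have h3 := ord_int_unit P hr hP (m := ((Ideal.absNorm (Ideal.span {a}) : ℕ) : ℤ)) (by
    intro h
    have h4 := Nat.le_of_dvd (Nat.pos_of_ne_zero hN0) (Int.natCast_dvd_natCast.mp h)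
    omega)
  have h4 : ((((Ideal.absNorm (Ideal.span {a}) : ℕ) : 𝓞 M) : 𝓞 M) : M) ≠ 0 := by
    simp only [map_natCast]
    exact_mod_cast hN0
  rw [ge_iff P h4] at h2
  simp only [map_natCast] at h2
  rw [Int.cast_natCast] at h3
  omega

end

section

variable (k : Type) [Field k] [NumberField k]

theorem ml4_field (q : k[X]) : ∃ (M : Type) (_ : Field M) (_ : NumberField M)
    (_ : IsGalois ℚ M) (_ : Algebra k M), (q.map (algebraMap k M)).Splits := by
  have hE : NumberField q.SplittingField := NumberField.of_module_finite k q.SplittingField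
  have hA : Algebra.IsAlgebraic ℚ (AlgebraicClosure q.SplittingField) :=
    Algebra.IsAlgebraic.trans ℚ q.SplittingField _
  have hB : IsAlgClosure ℚ (AlgebraicClosure q.SplittingField) := ⟨inferInstance, hA⟩
  have hC : Normal ℚ (AlgebraicClosure q.SplittingField) := IsAlgClosure.normal ℚ _
  let N := IntermediateField.normalClosure ℚ q.SplittingField (AlgebraicClosure q.SplittingField)
  have h1 : @Normal ℚ N _ _ N.algebra' :=
    normalClosure.normal ℚ q.SplittingField (AlgebraicClosure q.SplittingField)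
  have h2 : @FiniteDimensional ℚ N _ _ N.algebra'.toModule :=
    normalClosure.is_finiteDimensional ℚ q.SplittingField (AlgebraicClosure q.SplittingField)
  have he : (N.algebra' : Algebra ℚ N) = DivisionRing.toRatAlgebra := Subsingleton.elim _ _
  rw [he] at h1 h2
  have h3 : NumberField N := { to_charZero := inferInstance, to_finiteDimensional := h2 }
  let _ : Algebra k N :=
    ((algebraMap q.SplittingField N).comp (algebraMap k q.SplittingField)).toAlgebra
  refine ⟨N, inferInstance, h3, ?_, inferInstance, ?_⟩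
  · exact { to_normal := h1 }
  have h4 := (SplittingField.splits q).map (algebraMap q.SplittingField N)
  rw [Polynomial.map_map] at h4
  exact h4

variable {k} in
theorem ml4_prod (P : HeightOneSpectrum (𝓞 k)) (s : Multiset k) (h : Ge P 1 s.prod) :
    ∃ z ∈ s, Ge P 1 z := by
  induction s using Multiset.induction_on with
  | empty =>
    exfalso
    rw [Multiset.prod_zero, ge_iff P one_ne_zero, ord_one] at h
    omega
  | cons a s ih =>
    rw [Multiset.prod_cons] at h
    by_cases ha : Ge P 1 a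
    · exact ⟨a, Multiset.mem_cons_self a s, ha⟩
    · have ha0 : a ≠ 0 := by
        rintro rfl
        exact ha (ge_zero P 1)
      have hs : Ge P 1 s.prod := by
        by_cases hs0 : s.prod = 0
        · rw [hs0]
          exact ge_zero P 1
        · rw [ge_iff P (mul_ne_zero ha0 hs0), ord_mul P ha0 hs0] at h
          rw [ge_iff P ha0] at ha
          rw [ge_iff P hs0]
          omega
      obtain ⟨z, hz, hz'⟩ := ih hs
      exact ⟨z, Multiset.mem_cons_of_mem hz, hz'⟩

theorem exists_noroot (q : k[X]) (hq : q.Monic) (hirr : Irreducible q) (hdeg : 2 ≤ q.natDegree)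
    (Y : ℕ) : ∃ (𝔮 : HeightOneSpectrum (𝓞 k)) (r : ℕ), r.Prime ∧ Y < r ∧
      (r : 𝓞 k) ∈ 𝔮.asIdeal ∧ ∀ x : k, Ge 𝔮 0 x → ¬ Ge 𝔮 1 (q.eval x) := by
  classical
  obtain ⟨M, _, _, _, _, hsplit⟩ := ml4_field k q
  have hgal : IsGalois k M := IsGalois.tower_top_of_isGalois ℚ k M
  have hfin : Finite (M ≃ₐ[k] M) := inferInstance
  have hcard : Fintype.card (q.rootSet M) = q.natDegree :=
    card_rootSet_eq_natDegree hirr.separable hsplit
  have hnt : Nontrivial (q.rootSet M) := by
    rw [← Fintype.one_lt_card_iff_nontrivial]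
    omega
  have htr : MulAction.IsPretransitive (M ≃ₐ[k] M) (q.rootSet M) := by
    refine ⟨fun a b => ?_⟩
    have ha := (mem_rootSet.mp a.2).2
    have hb := (mem_rootSet.mp b.2).2
    have h1 : minpoly k (a : M) = minpoly k (b : M) := by
      rw [← minpoly.eq_of_irreducible_of_monic hirr ha hq,
        ← minpoly.eq_of_irreducible_of_monic hirr hb hq]
    obtain ⟨σ, hσ⟩ := (isConjRoot_iff_exists_algEquiv (K := k) (x := (b : M)) (y := (a : M))).mp
      h1.symm
    exact ⟨σ, Subtype.ext hσ⟩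
  obtain ⟨σ, hσ⟩ := ml4_derange (G := M ≃ₐ[k] M) (X := q.rootSet M)
  have hσ' : ∀ θ ∈ q.rootSet M, σ θ ≠ θ := by
    intro θ hθ h
    exact hσ ⟨θ, hθ⟩ (Subtype.ext h)
  have hlarge : ∀ θ : q.rootSet M, ∃ Y : ℕ, ∀ (P : HeightOneSpectrum (𝓞 M)) (r : ℕ),
      r.Prime → Y < r → ((r : ℕ) : 𝓞 M) ∈ P.asIdeal → ¬ Ge P 1 (σ θ - (θ : M)) := by
    intro θ
    exact ml4_large _ (sub_ne_zero.mpr (hσ' θ.1 θ.2))
  choose Yf hYf using hlarge
  set τ : Gal(M/ℚ) := σ.restrictScalars ℚ with hτ
  have hinf := ml4_inf τ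
  have hfinY : {p : Nat.Primes | (p : ℕ) ≤ Y + ∑ θ, Yf θ}.Finite := by
    have h1 : {p : Nat.Primes | (p : ℕ) ≤ Y + ∑ θ, Yf θ} =
        Subtype.val ⁻¹' (Set.Iic (Y + ∑ θ, Yf θ)) := rfl
    rw [h1]
    exact (Set.finite_Iic _).preimage Subtype.val_injective.injOn
  obtain ⟨p, ⟨g, hg⟩, hpY⟩ := (hinf.sdiff hfinY).nonempty
  rw [Set.mem_ofPred_eq, not_le] at hpY
  obtain ⟨P, hpP, hτP⟩ := ml4_prime τ p g hg
  refine ⟨below k P, p, p.2, by omega, (mem_below P _).mpr hpP, fun x _ hx => ?_⟩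
  have h1 := ge_algebraMap P hx
  have h2 : Ge P 1 (algebraMap k M (q.eval x)) := by
    refine ge_mono P ?_ h1
    have := erel_pos (k := k) P
    rw [mul_one]
    omega
  have h3 : algebraMap k M (q.eval x) =
      ((q.map (algebraMap k M)).roots.map fun a => algebraMap k M x - a).prod := by
    have h4 := hsplit.eq_prod_roots_of_monic (hq.map (algebraMap k M))
    have h5 := congrArg (Polynomial.eval (algebraMap k M x)) h4
    rw [eval_map_apply, eval_multiset_prod, Multiset.map_map] at h5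
    rw [h5]
    simp
  rw [h3] at h2
  obtain ⟨z, hz, hz1⟩ := ml4_prod P _ h2
  obtain ⟨θ, hθ, rfl⟩ := Multiset.mem_map.mp hz
  have hθ' : θ ∈ q.rootSet M := by
    rw [rootSet, Finset.mem_coe, Multiset.mem_toFinset]
    exact hθ
  have h4 : Ge P 1 (τ (algebraMap k M x - θ)) := by
    unfold Ge at hz1 ⊢
    rw [an4_val P hτP]
    exact hz1
  have h5 : τ (algebraMap k M x - θ) = algebraMap k M x - σ θ := by
    rw [hτ, AlgEquiv.restrictScalars_apply, map_sub, AlgEquiv.commutes]
  rw [h5] at h4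
  have h6 := ge_sub P hz1 h4
  rw [sub_sub_sub_cancel_left] at h6
  refine hYf ⟨θ, hθ'⟩ P p p.2 ?_ hpP h6
  have h7 : Yf ⟨θ, hθ'⟩ ≤ ∑ θ, Yf θ :=
    Finset.single_le_sum (f := Yf) (fun _ _ => Nat.zero_le _) (Finset.mem_univ _)
  omega

end

end Pool.Agent.H20.ML
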