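import Pool.Agent.H20.ML.Defs

/-!
# Project ML, row ML-7: specialised characteristic polynomials are powers
-/

set_option autoImplicit false

open Polynomial IsDedekindDomain NumberField Filter

namespace Pool.Agent.H20.ML

open Pool.Agent.H35.AN

/-- A monic polynomial over `k` that becomes the product of `X - τ x` over the Galois group of
`E / k` is a power of the minimal polynomial of `x`. -/
theorem ml7_pow {k E : Type} [Field k] [Field E] [Algebra k E] [FiniteDimensional k E]
    (x : E) (Q : k[X]) (hQ : Q.Monic)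
    (h : Q.map (algebraMap k E) = ∏ τ : E ≃ₐ[k] E, (X - C (τ x))) :
    ∃ j : ℕ, Q = minpoly k x ^ j := by
  classical
  have hint : IsIntegral k x := Algebra.IsIntegral.isIntegral x
  have hirr := minpoly.irreducible hint
  have hmon := minpoly.monic hint
  have key : ∀ g ∈ UniqueFactorizationMonoid.normalizedFactors Q, g = minpoly k x := by
    intro g hg
    have hgirr : Irreducible g := UniqueFactorizationMonoid.irreducible_of_normalized_factor g hg
    have hgn : normalize g = g := UniqueFactorizationMonoid.normalize_normalized_factor g hg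
    have hgdvd : g ∣ Q := UniqueFactorizationMonoid.dvd_of_mem_normalizedFactors hg
    have hgm : g.Monic := by
      rw [← hgn]
      exact Polynomial.monic_normalize hgirr.ne_zero
    -- `g` has a root in `E` of the form `τ x`
    have hdvd : g.map (algebraMap k E) ∣ ∏ τ : E ≃ₐ[k] E, (X - C (τ x)) := by
      rw [← h]
      exact Polynomial.map_dvd _ hgdvd
    have hspl : (g.map (algebraMap k E)).Splits := by
      refine Polynomial.Splits.of_dvd (Polynomial.Splits.prod fun τ _ => Polynomial.Splits.X_sub_C _) ?_ hdvd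
      exact (Polynomial.monic_prod_of_monic _ _ fun τ _ => monic_X_sub_C _).ne_zero
    have hdeg : (g.map (algebraMap k E)).degree ≠ 0 := by
      rw [Polynomial.degree_map]
      exact (Polynomial.degree_pos_of_irreducible hgirr).ne'
    obtain ⟨y, hy⟩ := hspl.exists_eval_eq_zero hdeg
    have hy2 : (∏ τ : E ≃ₐ[k] E, (X - C (τ x))).eval y = 0 :=
      Polynomial.eval_eq_zero_of_dvd_of_eval_eq_zero hdvd hy
    rw [Polynomial.eval_prod, Finset.prod_eq_zero_iff] at hy2
    obtain ⟨τ, -, hτ⟩ := hy2
    rw [eval_sub, eval_X, eval_C, sub_eq_zero] at hτ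
    have hroot : aeval (τ x) g = 0 := by
      rw [← hτ, Polynomial.aeval_def, ← Polynomial.eval_map]
      exact hy
    have hroot2 : aeval x g = 0 := by
      have := Polynomial.aeval_algHom_apply (τ : E →ₐ[k] E) x g
      have h3 : (τ : E →ₐ[k] E) (aeval x g) = 0 := by
        rw [← this]
        exact hroot
      exact (map_eq_zero_iff _ τ.injective).mp h3
    exact minpoly.eq_of_irreducible_of_monic hgirr hroot2 hgm
  refine ⟨Multiset.card (UniqueFactorizationMonoid.normalizedFactors Q), ?_⟩
  have hrep := Multiset.eq_replicate_card.2 key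
  have hassoc := UniqueFactorizationMonoid.prod_normalizedFactors hQ.ne_zero
  rw [hrep, Multiset.prod_replicate] at hassoc
  exact (Polynomial.eq_of_monic_of_associated (hmon.pow _) hQ hassoc).symm

section

variable (k : Type) [Field k] [NumberField k]

theorem chi_spec_pow {N : Type} [Field N] [Algebra (RatFunc k) N] [Algebra k[X] N]
    [IsScalarTower k[X] (RatFunc k) N] [FiniteDimensional (RatFunc k) N]
    [IsGalois (RatFunc k) N] {t : k} (S : Spc k N t) (θ : RR k N) (P : k[X][X])
    (hP : IsChi N (θ : N) P) :
    ∃ (q : k[X]) (j : ℕ), q.Monic ∧ Irreducible q ∧ P.map (evalRingHom t) = q ^ j := by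
  classical
  obtain ⟨hPm, hPe⟩ := hP
  let _ := S.field
  let _ := S.nf
  let _ := S.alg
  let _ := S.gal
  have _ : FiniteDimensional k S.E := by
    have _ : IsScalarTower ℚ k S.E := inferInstance
    exact FiniteDimensional.right ℚ k S.E
  -- the conjugates of `θ` as elements of the integral closure
  have hint : ∀ σ : N ≃ₐ[RatFunc k] N, IsIntegral k[X] (σ (θ : N)) := by
    intro σ
    have h1 : IsIntegral k[X] (θ : N) := θ.2
    exact h1.map (σ.restrictScalars k[X] : N ≃ₐ[k[X]] N)
  let θσ : (N ≃ₐ[RatFunc k] N) → RR k N := fun σ => ⟨σ (θ : N), hint σ⟩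
  have h1 : P.map (algebraMap k[X] (RR k N)) = ∏ σ : N ≃ₐ[RatFunc k] N, (X - C (θσ σ)) := by
    apply Polynomial.map_injective (algebraMap (RR k N) N) Subtype.val_injective
    rw [Polynomial.map_map, ← IsScalarTower.algebraMap_eq, hPe, Polynomial.map_prod,
      finprod_eq_prod_of_fintype]
    refine Finset.prod_congr rfl fun σ _ => ?_
    rw [Polynomial.map_sub, Polynomial.map_X, Polynomial.map_C]
    rfl
  have h2 : (P.map (evalRingHom t)).map (algebraMap k S.E) =
      ∏ τ : S.E ≃ₐ[k] S.E, (X - C (τ (S.sp θ))) := by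
    have h3 : (algebraMap k S.E).comp (evalRingHom t) = S.sp.comp (algebraMap k[X] (RR k N)) := by
      ext p
      · simpa using (S.sp_alg (C p)).symm
      · simpa using (S.sp_alg X).symm
    rw [Polynomial.map_map, h3, ← Polynomial.map_map, h1, Polynomial.map_prod]
    refine Fintype.prod_equiv S.Γ.toEquiv _ _ fun σ => ?_
    rw [Polynomial.map_sub, Polynomial.map_X, Polynomial.map_C, S.equiv σ θ (θσ σ) rfl]
    rfl
  have hQm : (P.map (evalRingHom t)).Monic := hPm.map _
  obtain ⟨j, hj⟩ := ml7_pow (S.sp θ) _ hQm h2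
  have hintx : IsIntegral k (S.sp θ) := Algebra.IsIntegral.isIntegral _
  exact ⟨minpoly k (S.sp θ), j, minpoly.monic hintx, minpoly.irreducible hintx, hj⟩

end

end Pool.Agent.H20.ML
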