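import Mathlib
import Pool.Agent.H20.ML.Defs
import Pool.Agent.H20.ML.Chi

/-!
# Project ML, row ML-6: existence of the specialisation
-/

set_option autoImplicit false

open Polynomial IsDedekindDomain NumberField

open scoped Pointwise

namespace Pool.Agent.H20.ML

section

variable (k : Type) [Field k] [NumberField k]

attribute [local instance] Ideal.Quotient.field in
/-- The abstract form: a finite group `G` acting on a finite extension `S` of `k[t]` with
invariants `k[t]`. -/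
theorem ml6_abs (S : Type) [CommRing S] [IsDomain S] [Algebra k[X] S] [Module.Finite k[X] S]
    [FaithfulSMul k[X] S] (G : Type) [Group G] [Finite G] [MulSemiringAction G S]
    [SMulCommClass G k[X] S] [Algebra.IsInvariant k[X] S G]
    (θ : {U : Subgroup G // U ≠ ⊤} → S) (P : {U : Subgroup G // U ≠ ⊤} → k[X][X])
    (hθ : ∀ U, ∀ σ ∈ U.1, σ • θ U = θ U) (hP : ∀ U, aeval (θ U) (P U) = 0)
    (D : k[X]) (θ₀ : S) (hD : ∀ σ : G, σ ≠ 1 → (σ • θ₀ - θ₀) ∣ algebraMap k[X] S D)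
    (t : k) (hDt : D.eval t ≠ 0)
    (hr : ∀ U, ∀ x : k, ((P U).map (evalRingHom t)).eval x ≠ 0) :
    ∃ (E : Type) (_ : Field E) (_ : NumberField E) (_ : Algebra k E) (_ : IsGalois k E)
      (sp : S →+* E) (Γ : G ≃* (E ≃ₐ[k] E)),
      (∀ p : k[X], sp (algebraMap k[X] S p) = algebraMap k E (p.eval t)) ∧
        ∀ (σ : G) (s : S), sp (σ • s) = Γ σ (sp s) := by
  classical
  set 𝔭 : Ideal k[X] := RingHom.ker (evalRingHom t) with h𝔭
  have hsurj : Function.Surjective (evalRingHom t) := fun c => ⟨C c, by simp⟩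
  haveI : 𝔭.IsMaximal := RingHom.ker_isMaximal_of_surjective _ hsurj
  obtain ⟨Q, hQm, hQ⟩ := Ideal.exists_maximal_ideal_liesOver_of_isIntegral (S := S) 𝔭
  haveI := hQm
  haveI := hQ
  haveI : Q.IsPrime := hQm.isPrime
  -- the residue field
  letI algE : Algebra k (S ⧸ Q) :=
    ((algebraMap (k[X] ⧸ 𝔭) (S ⧸ Q)).comp (algebraMap k (k[X] ⧸ 𝔭))).toAlgebra
  haveI : IsScalarTower k (k[X] ⧸ 𝔭) (S ⧸ Q) :=
    IsScalarTower.of_algebraMap_eq (R := k) (S := k[X] ⧸ 𝔭) (A := S ⧸ Q) fun _ => rfl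
  have hmkC : ∀ p : k[X], algebraMap k (k[X] ⧸ 𝔭) (p.eval t) = Ideal.Quotient.mk 𝔭 p := by
    intro p
    show Ideal.Quotient.mk 𝔭 (C (p.eval t)) = Ideal.Quotient.mk 𝔭 p
    rw [Ideal.Quotient.eq, h𝔭, RingHom.mem_ker]
    simp
  have hks : Function.Surjective (algebraMap k (k[X] ⧸ 𝔭)) := by
    intro y
    obtain ⟨p, rfl⟩ := Ideal.Quotient.mk_surjective y
    exact ⟨p.eval t, hmkC p⟩
  have hfin : Module.Finite (k[X] ⧸ 𝔭) (S ⧸ Q) := inferInstance
  haveI : Module.Finite k (k[X] ⧸ 𝔭) :=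
    Module.Finite.of_surjective (Algebra.linearMap k (k[X] ⧸ 𝔭)) hks
  haveI : Module.Finite k (S ⧸ Q) := Module.Finite.trans (k[X] ⧸ 𝔭) (S ⧸ Q)
  haveI nfE : NumberField (S ⧸ Q) := NumberField.of_module_finite k (S ⧸ Q)
  haveI : CharZero (k[X] ⧸ 𝔭) := charZero_of_injective_algebraMap
    (algebraMap k (k[X] ⧸ 𝔭)).injective
  haveI : Normal (k[X] ⧸ 𝔭) (S ⧸ Q) := Ideal.Quotient.normal G 𝔭 Q
  haveI galE' : IsGalois (k[X] ⧸ 𝔭) (S ⧸ Q) := { }
  let e : k ≃+* (k[X] ⧸ 𝔭) := RingEquiv.ofBijective (algebraMap k (k[X] ⧸ 𝔭))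
    ⟨(algebraMap k (k[X] ⧸ 𝔭)).injective, hks⟩
  haveI galE : IsGalois k (S ⧸ Q) := by
    refine IsGalois.of_equiv_equiv (F := k[X] ⧸ 𝔭) (E := S ⧸ Q) (f := e.symm)
      (g := RingEquiv.refl (S ⧸ Q)) ?_
    refine RingHom.ext fun x => ?_
    obtain ⟨y, rfl⟩ := e.surjective x
    show algebraMap k (S ⧸ Q) (e.symm (e y)) = algebraMap (k[X] ⧸ 𝔭) (S ⧸ Q) (e y)
    rw [e.symm_apply_apply]
    rfl
  have hsp : ∀ p : k[X], Ideal.Quotient.mk Q (algebraMap k[X] S p) =
      algebraMap k (S ⧸ Q) (p.eval t) := by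
    intro p
    show Ideal.Quotient.mk Q (algebraMap k[X] S p) =
      algebraMap (k[X] ⧸ 𝔭) (S ⧸ Q) (algebraMap k (k[X] ⧸ 𝔭) (p.eval t))
    rw [hmkC]
    rfl
  -- nontrivial elements act nontrivially on the image of `θ₀`
  have hDQ : ∀ σ : G, σ ≠ 1 → Ideal.Quotient.mk Q (σ • θ₀) ≠ Ideal.Quotient.mk Q θ₀ := by
    intro σ hσ h
    rw [Ideal.Quotient.eq] at h
    have h1 : algebraMap k[X] S D ∈ Q := Ideal.mem_of_dvd Q (hD σ hσ) h
    have h2 := hsp D
    rw [Ideal.Quotient.eq_zero_iff_mem.mpr h1] at h2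
    exact hDt ((map_eq_zero_iff _ (algebraMap k (S ⧸ Q)).injective).mp h2.symm)
  -- the stabiliser is everything
  have hstab : MulAction.stabilizer G Q = ⊤ := by
    by_contra hne
    set U : {U : Subgroup G // U ≠ ⊤} := ⟨MulAction.stabilizer G Q, hne⟩ with hU
    have hfix : ∀ g : (S ⧸ Q) ≃ₐ[k[X] ⧸ 𝔭] (S ⧸ Q),
        g (Ideal.Quotient.mk Q (θ U)) = Ideal.Quotient.mk Q (θ U) := by
      intro g
      obtain ⟨σ, rfl⟩ := Ideal.Quotient.stabilizerHom_surjective G 𝔭 Q g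
      rw [Ideal.Quotient.stabilizerHom_apply]
      exact congrArg (Ideal.Quotient.mk Q) (hθ U σ.1 σ.2)
    obtain ⟨y, hy⟩ := (IsGalois.mem_range_algebraMap_iff_fixed
      (Ideal.Quotient.mk Q (θ U))).mpr hfix
    obtain ⟨x, rfl⟩ := hks y
    refine hr U x ?_
    have h1 : Ideal.Quotient.mk Q (aeval (θ U) (P U)) = 0 := by rw [hP U, map_zero]
    rw [aeval_def, hom_eval₂, ← hy] at h1
    have h2 : (Ideal.Quotient.mk Q).comp (algebraMap k[X] S) =
        (algebraMap k (S ⧸ Q)).comp (evalRingHom t) := RingHom.ext hsp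
    rw [h2] at h1
    have h3 : algebraMap (k[X] ⧸ 𝔭) (S ⧸ Q) (algebraMap k (k[X] ⧸ 𝔭) x) =
        algebraMap k (S ⧸ Q) x := rfl
    rw [h3, ← eval₂_map, eval₂_at_apply] at h1
    exact (map_eq_zero_iff _ (algebraMap k (S ⧸ Q)).injective).mp h1
  -- the isomorphism of the groups
  let st : G →* MulAction.stabilizer G Q :=
    { toFun := fun σ => ⟨σ, by rw [hstab]; exact Subgroup.mem_top σ⟩
      map_one' := rfl
      map_mul' := fun _ _ => rfl }
  let f : G →* ((S ⧸ Q) ≃ₐ[k] (S ⧸ Q)) :=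
    (AlgEquiv.restrictScalarsHom (S := k[X] ⧸ 𝔭) k).comp
      ((Ideal.Quotient.stabilizerHom Q 𝔭 G).comp st)
  have hf : ∀ (σ : G) (s : S), f σ (Ideal.Quotient.mk Q s) = Ideal.Quotient.mk Q (σ • s) :=
    fun _ _ => rfl
  have hinj : Function.Injective f := by
    rw [injective_iff_map_eq_one]
    intro σ hσ
    by_contra hne
    refine hDQ σ hne ?_
    rw [← hf, hσ]
    rfl
  have hsur : Function.Surjective f := by
    intro g
    obtain ⟨σ, hσ⟩ := Ideal.Quotient.stabilizerHom_surjective G 𝔭 Q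
      (AlgEquiv.extendScalarsOfSurjective hks g)
    refine ⟨σ.1, ?_⟩
    refine AlgEquiv.ext fun x => ?_
    obtain ⟨s, rfl⟩ := Ideal.Quotient.mk_surjective x
    have h := congrArg (fun φ : (S ⧸ Q) ≃ₐ[k[X] ⧸ 𝔭] (S ⧸ Q) => φ (Ideal.Quotient.mk Q s)) hσ
    exact h
  exact ⟨S ⧸ Q, inferInstance, nfE, algE, galE, Ideal.Quotient.mk Q,
    MulEquiv.ofBijective f ⟨hinj, hsur⟩, hsp, fun σ s => (hf σ s).symm⟩

/-! ### ML-6 SpcEx.lean : existence of the specialisation -/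

theorem exists_spc (N : Type) [Field N] [Algebra (RatFunc k) N] [Algebra k[X] N]
    [IsScalarTower k[X] (RatFunc k) N] [FiniteDimensional (RatFunc k) N]
    [IsGalois (RatFunc k) N] :
    ∃ (ι : Type) (_ : Finite ι) (θ : ι → RR k N) (P : ι → k[X][X]) (D : k[X]), D ≠ 0 ∧
      (∀ i, IsChi N (θ i : N) (P i)) ∧
      (∀ i, ∀ c : RatFunc k, (θ i : N) ≠ algebraMap (RatFunc k) N c) ∧
      ∀ t : k, D.eval t ≠ 0 → (∀ i, ∀ x : k, ((P i).map (evalRingHom t)).eval x ≠ 0) →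
        Nonempty (Spc k N t) := by
  classical
  haveI : CharZero (RatFunc k) := charZero_of_injective_algebraMap
    (algebraMap k (RatFunc k)).injective
  haveI : IsFractionRing (RR k N) N :=
    integralClosure.isFractionRing_of_finite_extension (RatFunc k) N
  letI : MulSemiringAction (N ≃ₐ[RatFunc k] N) (RR k N) :=
    IsIntegralClosure.MulSemiringAction k[X] (RatFunc k) N (RR k N)
  haveI : Algebra.IsInvariant k[X] (RR k N) (N ≃ₐ[RatFunc k] N) :=
    Algebra.isInvariant_of_isGalois k[X] (RatFunc k) N (RR k N)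
  haveI : Module.Finite k[X] (RR k N) := IsIntegralClosure.finite k[X] (RatFunc k) N (RR k N)
  have hsm : ∀ (σ : N ≃ₐ[RatFunc k] N) (s : RR k N), ((σ • s : RR k N) : N) = σ (s : N) :=
    fun σ s => algebraMap_galRestrict_apply k[X] σ s
  have hinjN : Function.Injective (algebraMap k[X] N) := by
    rw [IsScalarTower.algebraMap_eq k[X] (RatFunc k) N]
    exact (algebraMap (RatFunc k) N).injective.comp (IsFractionRing.injective k[X] (RatFunc k))
  have hinjS : Function.Injective (algebraMap k[X] (RR k N)) := by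
    intro a b h
    exact hinjN (congrArg (fun z : RR k N => (z : N)) h)
  haveI : FaithfulSMul k[X] (RR k N) := (faithfulSMul_iff_algebraMap_injective _ _).mpr hinjS
  haveI : SMulCommClass (N ≃ₐ[RatFunc k] N) k[X] (RR k N) := by
    refine ⟨fun σ p s => ?_⟩
    apply Subtype.ext
    rw [hsm]
    show σ (p • (s : N)) = p • ((σ • s : RR k N) : N)
    rw [hsm, ← algebraMap_smul (RatFunc k) p (s : N), map_smul, algebraMap_smul]
  choose θ hθ using fun U : {U : Subgroup (N ≃ₐ[RatFunc k] N) // U ≠ ⊤} => exists_stab N U.1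
  choose P hP using fun U : {U : Subgroup (N ≃ₐ[RatFunc k] N) // U ≠ ⊤} => exists_isChi N (θ U)
  obtain ⟨θ₀, hθ₀⟩ := exists_stab N (⊥ : Subgroup (N ≃ₐ[RatFunc k] N))
  have hd0 : ∏ σ ∈ (Finset.univ.erase (1 : N ≃ₐ[RatFunc k] N)), (σ • θ₀ - θ₀) ≠ 0 := by
    rw [Finset.prod_ne_zero_iff]
    intro σ hσ h
    rw [sub_eq_zero] at h
    have h1 : σ (θ₀ : N) = θ₀ := by rw [← hsm, h]
    exact (Finset.ne_of_mem_erase hσ) (Subgroup.mem_bot.mp ((hθ₀ σ).mp h1))
  obtain ⟨D, hDmem, hD0⟩ := Submodule.exists_mem_ne_zero_of_ne_bot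
    (Ideal.comap_ne_bot_of_integral_mem (R := k[X]) hd0
      (Ideal.mem_span_singleton_self _) (Algebra.IsIntegral.isIntegral _))
  have hDd : ∏ σ ∈ (Finset.univ.erase (1 : N ≃ₐ[RatFunc k] N)), (σ • θ₀ - θ₀) ∣
      algebraMap k[X] (RR k N) D := Ideal.mem_span_singleton.mp hDmem
  refine ⟨{U : Subgroup (N ≃ₐ[RatFunc k] N) // U ≠ ⊤}, inferInstance, θ, P, D, hD0, hP, ?_, ?_⟩
  · intro U c hc
    refine U.2 (top_le_iff.mp fun σ _ => ?_)
    rw [← hθ U σ, hc]
    exact σ.commutes c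
  · intro t hDt hr
    obtain ⟨E, hE1, hE2, hE3, hE4, sp, Γ, h1, h2⟩ := ml6_abs k (RR k N)
      (N ≃ₐ[RatFunc k] N) θ P
      (fun U σ hσ => Subtype.ext (by rw [hsm]; exact (hθ U σ).mpr hσ))
      (fun U => by
        apply Subtype.ext
        have h3 : ((P U).map (algebraMap k[X] N)).eval (θ U : N) = 0 := by
          rw [(hP U).2, finprod_eq_prod_of_fintype, eval_prod]
          refine Finset.prod_eq_zero (Finset.mem_univ 1) ?_
          simp
        rw [eval_map, ← aeval_def] at h3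
        have h4 : ((aeval (θ U) (P U) : RR k N) : N) = aeval (θ U : N) (P U) :=
          (aeval_algebraMap_apply N (θ U) (P U)).symm
        rw [h4, h3]
        rfl)
      D θ₀
      (fun σ hσ => (Finset.dvd_prod_of_mem (fun σ => σ • θ₀ - θ₀)
        (Finset.mem_erase.mpr ⟨hσ, Finset.mem_univ σ⟩)).trans hDd)
      t hDt hr
    exact ⟨{ E := E, field := hE1, nf := hE2, alg := hE3, gal := hE4, sp := sp, sp_alg := h1,
             Γ := Γ
             equiv := fun σ s s' h => by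
              have : s' = σ • s := Subtype.ext (by rw [hsm, h])
              rw [this, h2] }⟩

end

end Pool.Agent.H20.ML
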