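import Pool.Agent.H20.ML.Hensel

/-!
# ML-3: the weak form of Hilbert's irreducibility theorem
-/

set_option autoImplicit false

namespace Pool.Agent.H20.ML

open Polynomial NumberField

/-- the squarefree part of a monic polynomial over an integrally closed domain, with a Bezout
identity -/
theorem ml1_radical {A : Type*} [CommRing A] [IsDomain A] [IsIntegrallyClosed A] [CharZero A]
    (P : A[X]) (hP : P.Monic) :
    ∃ g : A[X], g.Monic ∧ g ∣ P ∧ (∃ n : ℕ, P ∣ g ^ n) ∧
      ∃ (a b : A[X]) (d : A), d ≠ 0 ∧ a * g + b * derivative g = C d := by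
  classical
  let K := FractionRing A
  have hinj : Function.Injective (algebraMap A K) := IsFractionRing.injective A K
  have : CharZero K := charZero_of_injective_algebraMap hinj
  have hPm : (P.map (algebraMap A K)).Monic := hP.map _
  obtain ⟨n, hn⟩ := UniqueFactorizationMonoid.exists_dvd_radical_self_pow hPm.ne_zero
  set g1 : K[X] := UniqueFactorizationMonoid.radical (P.map (algebraMap A K)) with hg1
  have h1 : g1 ∣ P.map (algebraMap A K) := UniqueFactorizationMonoid.radical_dvd_self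
  have hsq : Squarefree g1 := UniqueFactorizationMonoid.squarefree_radical
  have hg1ne : g1 ≠ 0 := ne_zero_of_dvd_ne_zero hPm.ne_zero h1
  have hsep : g1.Separable := PerfectField.separable_iff_squarefree.2 hsq
  obtain ⟨g, hg⟩ := IsIntegrallyClosed.eq_map_mul_C_of_dvd K hP h1
  have hlc : g1.leadingCoeff ≠ 0 := leadingCoeff_ne_zero.2 hg1ne
  have hgKm : (g.map (algebraMap A K)).Monic := by
    have h2 := congrArg leadingCoeff hg
    rw [leadingCoeff_mul, leadingCoeff_C] at h2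
    exact mul_right_cancel₀ hlc (by rw [h2, one_mul])
  have hgm : g.Monic := monic_of_injective hinj hgKm
  have hunit : IsUnit (C g1.leadingCoeff : K[X]) := isUnit_C.2 (isUnit_iff_ne_zero.2 hlc)
  have hgg1 : g.map (algebraMap A K) ∣ g1 := ⟨_, hg.symm⟩
  have hg1g : g1 ∣ g.map (algebraMap A K) := by
    rw [← hg]
    exact (hunit.dvd_mul_right.1 dvd_rfl : _)
  refine ⟨g, hgm, ?_, ⟨n, ?_⟩, ?_⟩
  · exact (map_dvd_map _ hinj hgm).1 (hgg1.trans h1)
  · refine (map_dvd_map _ hinj hP).1 ?_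
    rw [Polynomial.map_pow]
    exact hn.trans (pow_dvd_pow_of_dvd hg1g n)
  · have hsepg : (g.map (algebraMap A K)).Separable := hsep.of_dvd hgg1
    obtain ⟨a1, b1, hab⟩ := hsepg
    obtain ⟨d1, hd1, ha⟩ := IsLocalization.integerNormalization_spec (nonZeroDivisors A) a1
    obtain ⟨d2, hd2, hb⟩ := IsLocalization.integerNormalization_spec (nonZeroDivisors A) b1
    refine ⟨C d2 * IsLocalization.integerNormalization (nonZeroDivisors A) a1,
      C d1 * IsLocalization.integerNormalization (nonZeroDivisors A) b1, d1 * d2,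
      mul_ne_zero (nonZeroDivisors.ne_zero hd1) (nonZeroDivisors.ne_zero hd2), ?_⟩
    refine Polynomial.map_injective _ hinj ?_
    rw [Polynomial.map_add, Polynomial.map_mul, Polynomial.map_mul, Polynomial.map_mul,
      Polynomial.map_mul, ha, hb, ← derivative_map, Polynomial.map_C, Polynomial.map_C,
      Polynomial.map_C, map_mul]
    rw [← IsScalarTower.algebraMap_smul K d1 a1, ← IsScalarTower.algebraMap_smul K d2 b1,
      smul_eq_C_mul, smul_eq_C_mul]
    calc _ = C (algebraMap A K d1) * C (algebraMap A K d2) *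
          (a1 * g.map (algebraMap A K) + b1 * derivative (g.map (algebraMap A K))) := by ring
      _ = _ := by rw [hab, mul_one, ← C_mul]

variable {k : Type*} [Field k] [NumberField k]

theorem ml1_denom (x : k) : ∃ c : ℕ, c ≠ 0 ∧ ∃ y : 𝓞 k, (y : k) = (c : k) * x := by
  obtain ⟨a, b, hb, rfl⟩ := IsFractionRing.div_surjective (A := 𝓞 k) x
  have hb0 : b ≠ 0 := nonZeroDivisors.ne_zero hb
  refine ⟨Ideal.absNorm (Ideal.span {b}), ?_, ?_⟩
  · rw [Ne, Ideal.absNorm_eq_zero_iff, Ideal.span_singleton_eq_bot]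
    exact hb0
  · obtain ⟨e, he⟩ := Ideal.mem_span_singleton.1 (Ideal.absNorm_mem (Ideal.span {b}))
    refine ⟨e * a, ?_⟩
    have h1 : ((Ideal.absNorm (Ideal.span {b}) : ℕ) : k) = (b : k) * (e : k) := by
      have := congrArg (algebraMap (𝓞 k) k) he
      rw [map_mul, map_natCast] at this
      exact this
    have h2 : algebraMap (𝓞 k) k b ≠ 0 := by
      simpa using hb0
    rw [h1]
    have h3 : ((e * a : 𝓞 k) : k) = (e : k) * (a : k) := map_mul _ _ _
    rw [h3]
    field_simp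

theorem ml1_denoms (S : Finset k) : ∃ c : ℕ, c ≠ 0 ∧ ∀ x ∈ S, ∃ y : 𝓞 k, (y : k) = (c : k) * x := by
  classical
  induction S using Finset.induction_on with
  | empty => exact ⟨1, one_ne_zero, by simp⟩
  | insert x S _ ih =>
    obtain ⟨c, hc, h⟩ := ih
    obtain ⟨c', hc', y', hy'⟩ := ml1_denom x
    refine ⟨c * c', mul_ne_zero hc hc', fun z hz => ?_⟩
    rcases Finset.mem_insert.1 hz with rfl | hz
    · refine ⟨(c : 𝓞 k) * y', ?_⟩
      have h3 : (((c : 𝓞 k) * y' : 𝓞 k) : k) = (c : k) * (y' : k) := by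
        have := map_mul (algebraMap (𝓞 k) k) (c : 𝓞 k) y'
        rw [map_natCast] at this
        exact this
      rw [h3, hy']
      push_cast
      ring
    · obtain ⟨y, hy⟩ := h z hz
      refine ⟨(c' : 𝓞 k) * y, ?_⟩
      have h3 : (((c' : 𝓞 k) * y : 𝓞 k) : k) = (c' : k) * (y : k) := by
        have := map_mul (algebraMap (𝓞 k) k) (c' : 𝓞 k) y
        rw [map_natCast] at this
        exact this
      rw [h3, hy]
      push_cast
      ring

theorem ml1_scale (P : k[X][X]) (hP : P.Monic) :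
    ∃ (c : ℕ) (P0 : (𝓞 k)[X][X]), c ≠ 0 ∧ P0.Monic ∧
      P0.map (mapRingHom (algebraMap (𝓞 k) k)) = P.scaleRoots (C (c : k)) := by
  classical
  obtain ⟨c, hc, h⟩ := ml1_denoms
    ((Finset.range (P.natDegree + 1)).biUnion fun j => (P.coeff j).coeffs)
  have hx : ∀ j i, j ≤ P.natDegree → ∃ y : 𝓞 k, (y : k) = (c : k) * (P.coeff j).coeff i := by
    intro j i hj
    by_cases h0 : (P.coeff j).coeff i = 0
    · exact ⟨0, by simp [h0]⟩
    · refine h _ (Finset.mem_biUnion.2 ⟨j, by simpa [Nat.lt_succ_iff] using hj, ?_⟩)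
      exact coeff_mem_coeffs h0
  have hlift : P.scaleRoots (C (c : k)) ∈ lifts (mapRingHom (algebraMap (𝓞 k) k)) := by
    rw [lifts_iff_coeff_lifts]
    intro j
    rcases lt_trichotomy j P.natDegree with hj | rfl | hj
    · have h1 : (P.scaleRoots (C (c : k))).coeff j ∈ lifts (algebraMap (𝓞 k) k) := by
        rw [lifts_iff_coeff_lifts]
        intro i
        obtain ⟨y, hy⟩ := hx j i hj.le
        obtain ⟨e, he⟩ := Nat.exists_eq_add_of_lt hj
        refine ⟨(c : 𝓞 k) ^ e * y, ?_⟩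
        rw [coeff_scaleRoots, ← C_pow, coeff_mul_C, map_mul, map_pow, map_natCast]
        have h2 : P.natDegree - j = e + 1 := by omega
        rw [h2]
        change (c : k) ^ e * (y : k) = _
        rw [hy]
        ring
      obtain ⟨q, hq⟩ := (mem_lifts _).1 h1
      exact ⟨q, hq⟩
    · refine ⟨1, ?_⟩
      rw [map_one, coeff_scaleRoots_natDegree, hP.leadingCoeff]
    · refine ⟨0, ?_⟩
      rw [map_zero, coeff_scaleRoots, coeff_eq_zero_of_natDegree_lt hj, zero_mul]
  obtain ⟨P0, h1, _, h2⟩ := lifts_and_degree_eq_and_monic hlift ((monic_scaleRoots_iff _).2 hP)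
  exact ⟨c, P0, hc, h2, h1⟩

omit [NumberField k] in
theorem ml1_map_eval (G : (𝓞 k)[X][X]) (t : ℕ) :
    (G.map (mapRingHom (algebraMap (𝓞 k) k))).map (evalRingHom (t : k))
      = (G.map (evalRingHom (t : 𝓞 k))).map (algebraMap (𝓞 k) k) := by
  rw [Polynomial.map_map, Polynomial.map_map]
  congr 1
  ext x
  · simp
  · simp

/-- one polynomial -/
theorem ml1_single (P : k[X][X]) (hP : P.Monic) (hroot : ∀ q : k[X], P.eval q ≠ 0) (T : ℕ) :
    ∃ t : ℕ, T ≤ t ∧ ∀ x : k, (P.map (evalRingHom (t : k))).eval x ≠ 0 := by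
  classical
  by_contra hcon
  push Not at hcon
  obtain ⟨c, P0, hc, hP0, hP0P⟩ := ml1_scale P hP
  have hck : (c : k) ≠ 0 := by exact_mod_cast hc
  obtain ⟨g, hgm, hgP, ⟨n, hPg⟩, a, b, d, hd, hab⟩ := ml1_radical P0 hP0
  -- `s₀`
  obtain ⟨s0, hs0T, hs0⟩ : ∃ s0 : ℕ, max 1 T ≤ s0 ∧ d.eval (s0 : 𝓞 k) ≠ 0 := by
    by_contra hno
    push Not at hno
    refine hd (Polynomial.eq_zero_of_infinite_isRoot d ?_)
    refine Set.Infinite.mono (s := (fun m : ℕ => ((m : ℕ) : 𝓞 k)) '' Set.Ici (max 1 T)) ?_ ?_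
    · rintro _ ⟨m, hm, rfl⟩
      exact hno m hm
    · exact (Set.Ici_infinite _).image (Nat.cast_injective.injOn)
  set e : 𝓞 k := d.eval (s0 : 𝓞 k) with he
  set N : ℕ := Ideal.absNorm (Ideal.span {e}) with hN
  have hN0 : N ≠ 0 := by
    rw [hN, Ne, Ideal.absNorm_eq_zero_iff, Ideal.span_singleton_eq_bot]
    exact hs0
  obtain ⟨e', he'⟩ := Ideal.mem_span_singleton.1 (Ideal.absNorm_mem (Ideal.span {e}))
  obtain ⟨p, hpN, hp⟩ := Nat.exists_infinite_primes (N + 1)
  have hcop : IsCoprime (N : ℤ) (p : ℤ) := by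
    rw [Nat.isCoprime_iff_coprime]
    refine Nat.Coprime.symm ((Nat.Prime.coprime_iff_not_dvd hp).2 fun h => ?_)
    have := Nat.le_of_dvd (Nat.pos_of_ne_zero hN0) h
    omega
  obtain ⟨u, v, huv⟩ := hcop
  refine ml1_wh_core g hgm ?_ s0 p (le_trans (le_max_left _ _) hs0T) hp.two_le ?_ ?_
  · intro Q hQ
    have h1 : (P0.map (mapRingHom (algebraMap (𝓞 k) k))).eval Q = 0 := by
      obtain ⟨w, hw⟩ := hgP
      rw [hw, Polynomial.map_mul, eval_mul, hQ, zero_mul]
    rw [hP0P] at h1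
    have h2 := scaleRoots_eval₂_mul (p := P) (RingHom.id k[X]) (C ((c : k)⁻¹) * Q) (C (c : k))
    have h3 : (RingHom.id k[X]) (C (c : k)) * (C ((c : k)⁻¹) * Q) = Q := by
      rw [RingHom.id_apply, ← mul_assoc, ← C_mul, mul_inv_cancel₀ hck, C_1, one_mul]
    rw [h3] at h2
    change eval Q _ = _ * eval _ P at h2
    rw [h1] at h2
    have h4 : (RingHom.id k[X]) (C (c : k)) ^ P.natDegree ≠ 0 :=
      pow_ne_zero _ (by simpa using hck)
    exact (mul_ne_zero h4 (hroot _)) h2.symm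
  · intro y hy
    refine ⟨(u : 𝓞 k) * e' * (b.map (evalRingHom (s0 : 𝓞 k))).eval y, ?_⟩
    have h1 := congrArg (fun G : (𝓞 k)[X][X] => (G.map (evalRingHom (s0 : 𝓞 k))).eval y) hab
    simp only [Polynomial.map_add, Polynomial.map_mul, eval_add, eval_mul, Polynomial.map_C,
      coe_evalRingHom, eval_C] at h1
    rw [← he] at h1
    obtain ⟨z, hz⟩ := hy
    rw [hz] at h1
    have h2 : (N : 𝓞 k) = e * e' := he'
    have h3 : (u : 𝓞 k) * (N : 𝓞 k) + (v : 𝓞 k) * (p : 𝓞 k) = 1 := by exact_mod_cast huv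
    refine ⟨- (u : 𝓞 k) * e' * (a.map (evalRingHom (s0 : 𝓞 k))).eval y * z - v, ?_⟩
    have h4 : (b.map (evalRingHom (s0 : 𝓞 k))).eval y *
        (g.derivative.map (evalRingHom (s0 : 𝓞 k))).eval y
        = e - (a.map (evalRingHom (s0 : 𝓞 k))).eval y * ((p : 𝓞 k) * z) := by
      rw [← h1]; ring
    calc _ = (u : 𝓞 k) * e' * ((b.map (evalRingHom (s0 : 𝓞 k))).eval y *
        (g.derivative.map (evalRingHom (s0 : 𝓞 k))).eval y) - 1 := by ring
      _ = (u : 𝓞 k) * (e * e') - (u : 𝓞 k) * e' *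
        (a.map (evalRingHom (s0 : 𝓞 k))).eval y * ((p : 𝓞 k) * z) - 1 := by rw [h4]; ring
      _ = ((u : 𝓞 k) * (N : 𝓞 k) + (v : 𝓞 k) * (p : 𝓞 k)) - (v : 𝓞 k) * (p : 𝓞 k)
        - (u : 𝓞 k) * e' *
        (a.map (evalRingHom (s0 : 𝓞 k))).eval y * ((p : 𝓞 k) * z) - 1 := by rw [← h2]; ring
      _ = _ := by rw [h3]; ring
  · intro t ht
    obtain ⟨x, hx⟩ := hcon t (le_trans (le_trans (le_max_right _ _) hs0T) ht)
    have h1 : ((P.scaleRoots (C (c : k))).map (evalRingHom (t : k))).eval ((c : k) * x) = 0 := by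
      rw [eval_map]
      have h2 := scaleRoots_eval₂_eq_zero (p := P) (evalRingHom (t : k)) (r := x)
        (s := C (c : k)) (by rwa [← eval_map])
      simpa using h2
    rw [← hP0P, ml1_map_eval, eval_map] at h1
    have hint : IsIntegral (𝓞 k) ((c : k) * x) :=
      ⟨P0.map (evalRingHom (t : 𝓞 k)), hP0.map _, h1⟩
    obtain ⟨y, hy⟩ := IsIntegrallyClosed.isIntegral_iff.1 hint
    refine ⟨y, ?_⟩
    have h3 : (P0.map (evalRingHom (t : 𝓞 k))).eval y = 0 := by
      rw [← hy, eval₂_at_apply] at h1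
      exact (map_eq_zero_iff _ (RingOfIntegers.coe_injective (K := k))).1 h1
    obtain ⟨w, hw⟩ := hPg
    have h4 := congrArg (fun G : (𝓞 k)[X][X] => (G.map (evalRingHom (t : 𝓞 k))).eval y) hw
    simp only [Polynomial.map_pow, Polynomial.map_mul, eval_pow, eval_mul] at h4
    rw [h3, zero_mul] at h4
    exact eq_zero_of_pow_eq_zero h4

end Pool.Agent.H20.ML

namespace Pool.Agent.H20.ML

open Polynomial NumberField

theorem weak_hilbert (k : Type) [Field k] [NumberField k] (ι : Type) [Finite ι] (P : ι → k[X][X])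
    (hP : ∀ i, (P i).Monic)
    (hroot : ∀ i, ∀ q : k[X], (P i).eval q ≠ 0) (D : k[X]) (hD : D ≠ 0) :
    ∃ t₀ : ℕ, D.eval (t₀ : k) ≠ 0 ∧
      ∀ i, ∀ x : k, ((P i).map (evalRingHom (t₀ : k))).eval x ≠ 0 := by
  classical
  have := Fintype.ofFinite ι
  obtain ⟨T, hT⟩ : ∃ T : ℕ, ∀ t : ℕ, T ≤ t → D.eval (t : k) ≠ 0 := by
    have hfin : {t : ℕ | D.eval (t : k) = 0}.Finite := by
      have h1 : {x : k | D.IsRoot x}.Finite := by
        by_contra hinf
        exact hD (Polynomial.eq_zero_of_infinite_isRoot D hinf)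
      exact Set.Finite.preimage (f := fun t : ℕ => (t : k)) (Nat.cast_injective.injOn) h1
    obtain ⟨B, hB⟩ := hfin.bddAbove
    refine ⟨B + 1, fun t ht h0 => ?_⟩
    have := hB h0
    omega
  obtain ⟨t, ht, h⟩ := ml1_single (∏ i, P i) (monic_prod_of_monic _ _ fun i _ => hP i)
    (fun q => by
      rw [eval_prod]
      exact Finset.prod_ne_zero_iff.2 fun i _ => hroot i q) T
  refine ⟨t, hT t ht, fun i x h0 => h x ?_⟩
  rw [Polynomial.map_prod, eval_prod]
  exact Finset.prod_eq_zero (Finset.mem_univ i) h0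

end Pool.Agent.H20.ML
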