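import Pool.Agent.H20.ML.Defs
import Pool.Agent.H35.AN.Val
import Pool.Agent.H20.ML.WeakHilbert
import Pool.Agent.H20.ML.NoRoot
import Pool.Agent.H20.ML.SpcEx
import Pool.Agent.H20.ML.Power

/-!
# Project ML (MP_a3214d), row 8: congruences that force the full Galois group
-/

set_option autoImplicit false

open Polynomial IsDedekindDomain NumberField Filter

namespace Pool.Agent.H20.ML

open Pool.Agent.H35.AN

section Val

variable {K : Type} [Field K] [NumberField K] (P : HeightOneSpectrum (𝓞 K))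

/-- dividing by an element of order zero -/
theorem ml8_ge_of_mul {m : ℤ} {x y : K} (hy : y ≠ 0) (h0 : ord P y = 0) (h : Ge P m (x * y)) :
    Ge P m x := by
  by_cases hx : x = 0
  · rw [hx]
    exact ge_zero P m
  · rw [ge_iff P (mul_ne_zero hx hy), ord_mul P hx hy, h0, add_zero] at h
    exact (ge_iff P hx).mpr h

/-- every element of `K` is integral at all the primes over large rational primes -/
theorem ml8_large (x : K) : ∃ Y : ℕ, ∀ (𝔮 : HeightOneSpectrum (𝓞 K)) (r : ℕ), r.Prime → Y < r →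
    (r : 𝓞 K) ∈ 𝔮.asIdeal → Ge 𝔮 0 x := by
  have halg : IsAlgebraic ℤ x :=
    (IsFractionRing.isAlgebraic_iff ℤ ℚ K).mpr (Algebra.IsAlgebraic.isAlgebraic x)
  obtain ⟨y, hy, hint⟩ := halg.exists_integral_multiple
  refine ⟨y.natAbs, fun 𝔮 r hr hYr hr𝔮 => ?_⟩
  have h1 : ¬ (r : ℤ) ∣ y := by
    intro h
    have h2 : r ∣ y.natAbs := Int.natCast_dvd.mp h
    have h3 := Nat.le_of_dvd (Int.natAbs_pos.mpr hy) h2
    omega
  have h2 := ord_int_unit 𝔮 hr hr𝔮 h1
  refine ml8_ge_of_mul 𝔮 (Int.cast_ne_zero.mpr hy) h2 ?_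
  rw [zsmul_eq_mul, mul_comm] at hint
  exact ge_of_isIntegral 𝔮 hint

/-- all the coefficients of a polynomial in two variables are integral at all the primes over
large rational primes -/
theorem ml8_large_poly (F : K[X][X]) : ∃ Y : ℕ, ∀ (𝔮 : HeightOneSpectrum (𝓞 K)) (r : ℕ),
    r.Prime → Y < r → (r : 𝓞 K) ∈ 𝔮.asIdeal → ∀ i j, Ge 𝔮 0 ((F.coeff i).coeff j) := by
  choose Y hY using ml8_large (K := K)
  refine ⟨F.support.sup (fun i => (F.coeff i).support.sup (fun j => Y ((F.coeff i).coeff j))),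
    fun 𝔮 r hr hYr hr𝔮 i j => ?_⟩
  by_cases hi : i ∈ F.support
  · by_cases hj : j ∈ (F.coeff i).support
    · refine hY _ 𝔮 r hr (lt_of_le_of_lt ?_ hYr) hr𝔮
      exact (Finset.le_sup (f := fun j => Y ((F.coeff i).coeff j)) hj).trans
        (Finset.le_sup (f := fun i => (F.coeff i).support.sup
          (fun j => Y ((F.coeff i).coeff j))) hi)
    · rw [notMem_support_iff.mp hj]
      exact ge_zero 𝔮 0
  · rw [notMem_support_iff.mp hi, coeff_zero]
    exact ge_zero 𝔮 0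

/-- values of a polynomial with integral coefficients -/
theorem ml8_ge_eval {p : K[X]} (hp : ∀ i, Ge P 0 (p.coeff i)) {x : K} (hx : Ge P 0 x) :
    Ge P 0 (p.eval x) := by
  rw [eval_eq_sum_range]
  refine ge_sum P _ _ fun i _ => ?_
  have h := ge_mul P (hp i) (ge_pow P hx i)
  rwa [mul_zero, zero_add] at h

theorem ml8_ge_pow_sub {x y : K} (hx : Ge P 0 x) (hy : Ge P 0 y) (h : Ge P 1 (x - y)) (n : ℕ) :
    Ge P 1 (x ^ n - y ^ n) := by
  induction n with
  | zero =>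
    rw [pow_zero, pow_zero, sub_self]
    exact ge_zero P 1
  | succ n ih =>
    have h1 : x ^ (n + 1) - y ^ (n + 1) = x ^ n * (x - y) + (x ^ n - y ^ n) * y := by ring
    rw [h1]
    have h2 := ge_mul P (ge_pow P hx n) h
    rw [mul_zero, zero_add] at h2
    have h3 := ge_mul P ih hy
    rw [add_zero] at h3
    exact ge_add P h2 h3

/-- congruences between values -/
theorem ml8_ge_eval_sub {p : K[X]} (hp : ∀ i, Ge P 0 (p.coeff i)) {x y : K} (hx : Ge P 0 x)
    (hy : Ge P 0 y) (h : Ge P 1 (x - y)) : Ge P 1 (p.eval x - p.eval y) := by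
  rw [eval_eq_sum_range, eval_eq_sum_range, ← Finset.sum_sub_distrib]
  refine ge_sum P _ _ fun i _ => ?_
  have h1 := ge_mul P (hp i) (ml8_ge_pow_sub P hx hy h i)
  rwa [zero_add, mul_sub] at h1

/-- a root of a monic polynomial with integral coefficients is integral -/
theorem ml8_integral {G : K[X]} (hG : ∀ i, Ge P 0 (G.coeff i)) (hm : G.Monic) {x : K}
    (hx : G.eval x = 0) : Ge P 0 x := by
  by_contra hneg
  have hx0 : x ≠ 0 := by
    rintro rfl
    exact hneg (ge_zero P 0)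
  rw [ge_iff P hx0, not_le] at hneg
  rw [eval_eq_sum_range, Finset.sum_range_succ, hm.coeff_natDegree, one_mul] at hx
  have h1 : x ^ G.natDegree ≠ 0 := pow_ne_zero _ hx0
  have h2 : x ^ G.natDegree = -∑ i ∈ Finset.range G.natDegree, G.coeff i * x ^ i := by
    linear_combination hx
  refine ord_not_cancel P h1 h2 (ge_neg P (ge_sum P _ _ fun i hi => ?_))
  rw [Finset.mem_range] at hi
  rw [ord_pow]
  have h4 := ge_mul P (hG i) (ge_pow P ((ge_iff P hx0).mpr le_rfl) i)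
  refine ge_mono P ?_ h4
  have h5 : (i : ℤ) + 1 ≤ G.natDegree := by exact_mod_cast hi
  nlinarith

/-- positive order of a power -/
theorem ml8_ge_one_of_pow {x : K} {j : ℕ} (h : Ge P 1 (x ^ j)) : Ge P 1 x := by
  by_cases hx : x = 0
  · rw [hx]
    exact ge_zero P 1
  · rw [ge_iff P (pow_ne_zero _ hx), ord_pow] at h
    rw [ge_iff P hx]
    by_contra hlt
    rw [not_le] at hlt
    have h1 : ord P x ≤ 0 := by omega
    have h2 : (j : ℤ) * ord P x ≤ 0 := mul_nonpos_of_nonneg_of_nonpos (by positivity) h1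
    omega

end Val

section Chi

variable (k : Type) [Field k]
variable (N : Type) [Field N] [Algebra (RatFunc k) N] [Algebra k[X] N]
  [IsScalarTower k[X] (RatFunc k) N] [FiniteDimensional (RatFunc k) N]

omit [IsScalarTower k[X] (RatFunc k) N] in
/-- the values of the characteristic polynomial -/
theorem ml8_chi_eval {θ : N} {P : k[X][X]} (hP : IsChi N θ P) (x : N) :
    (P.map (algebraMap k[X] N)).eval x = ∏ σ : N ≃ₐ[RatFunc k] N, (x - σ θ) := by
  rw [hP.2, finprod_eq_prod_of_fintype, eval_prod]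
  refine Finset.prod_congr rfl fun σ _ => ?_
  rw [eval_sub, eval_X, eval_C]

/-- the characteristic polynomial of an element outside `k(t)` has no root in `k[t]` -/
theorem ml8_noroot {θ : N} {P : k[X][X]} (hP : IsChi N θ P)
    (hθ : ∀ c : RatFunc k, θ ≠ algebraMap (RatFunc k) N c) (q : k[X]) : P.eval q ≠ 0 := by
  intro h
  have h1 : (P.map (algebraMap k[X] N)).eval (algebraMap k[X] N q) = 0 := by
    rw [eval_map_algebraMap, aeval_algebraMap_apply, coe_aeval_eq_eval, h, map_zero]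
  rw [ml8_chi_eval k N hP, Finset.prod_eq_zero_iff] at h1
  obtain ⟨σ, -, hσ⟩ := h1
  refine hθ (algebraMap k[X] (RatFunc k) q) ?_
  rw [sub_eq_zero] at hσ
  have h2 := congrArg σ.symm hσ
  rw [AlgEquiv.symm_apply_apply, IsScalarTower.algebraMap_apply k[X] (RatFunc k) N,
    AlgEquiv.commutes] at h2
  exact h2.symm

omit [IsScalarTower k[X] (RatFunc k) N] in
/-- the characteristic polynomial is not constant -/
theorem ml8_ne_one {θ : N} {P : k[X][X]} (hP : IsChi N θ P) : P ≠ 1 := by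
  intro h
  have h1 : (P.map (algebraMap k[X] N)).eval θ = 0 := by
    rw [ml8_chi_eval k N hP]
    exact Finset.prod_eq_zero (Finset.mem_univ 1) (by simp)
  rw [h, Polynomial.map_one, eval_one] at h1
  exact one_ne_zero h1

end Chi

section

variable (k : Type) [Field k] [NumberField k]

/-- ML-8: congruences that force the full Galois group -/
theorem exists_force (N : Type) [Field N] [Algebra (RatFunc k) N] [Algebra k[X] N]
    [IsScalarTower k[X] (RatFunc k) N] [FiniteDimensional (RatFunc k) N]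
    [IsGalois (RatFunc k) N] :
    ∃ (M : ℕ) (τ : ℤ) (D : k[X]), 0 < M ∧ D ≠ 0 ∧ ∀ a b : 𝓞 k, (M : 𝓞 k) ∣ a - τ →
      (M : 𝓞 k) ∣ b - 1 → b ≠ 0 → D.eval ((a : k) / (b : k)) ≠ 0 →
      Nonempty (Spc k N ((a : k) / (b : k))) := by
  obtain ⟨ι, hι, θ, P, D, hD, hchi, hθ, hsp⟩ := exists_spc k N
  obtain ⟨t₀, ht₀, hrt⟩ := weak_hilbert k ι P (fun i => (hchi i).1)
    (fun i q => ml8_noroot k N (hchi i) (hθ i) q) D hD
  obtain ⟨S⟩ := hsp (t₀ : k) ht₀ hrt
  have hpow : ∀ i, ∃ (q : k[X]) (j : ℕ), q.Monic ∧ Irreducible q ∧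
      (P i).map (evalRingHom (t₀ : k)) = q ^ j := fun i => chi_spec_pow k S (θ i) (P i) (hchi i)
  choose q j hqm hqi hqj using hpow
  have hj : ∀ i, j i ≠ 0 := by
    intro i h
    have h1 := hqj i
    rw [h, pow_zero] at h1
    have h2 : (P i).natDegree = 0 := by
      rw [← (hchi i).1.natDegree_map (evalRingHom (t₀ : k)), h1, natDegree_one]
    exact ml8_ne_one k N (hchi i) ((hchi i).1.natDegree_eq_zero.mp h2)
  have hdeg : ∀ i, 2 ≤ (q i).natDegree := by
    intro i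
    by_contra hlt
    have h1 : (q i).natDegree ≠ 0 := (hqi i).natDegree_pos.ne'
    have h2 : (q i).natDegree = 1 := by omega
    obtain ⟨x, hx⟩ := exists_root_of_degree_eq_one
      ((degree_eq_iff_natDegree_eq_of_pos one_pos).mpr h2)
    refine hrt i x ?_
    rw [hqj i, eval_pow, hx, zero_pow (hj i)]
  choose Y hY using fun i => ml8_large_poly (P i)
  choose 𝔮 r hr hYr hr𝔮 hnr using fun i => exists_noroot k (q i) (hqm i) (hqi i) (hdeg i) (Y i)
  have hfin : Fintype ι := Fintype.ofFinite ι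
  refine ⟨∏ i, r i, (t₀ : ℤ), D, Finset.prod_pos fun i _ => (hr i).pos, hD, ?_⟩
  intro a b ha hb hb0 hDab
  refine hsp _ hDab fun i x hx => ?_
  have hri : ((r i : ℕ) : 𝓞 k) ∣ ((∏ i, r i : ℕ) : 𝓞 k) :=
    Nat.cast_dvd_cast (Finset.dvd_prod_of_mem _ (Finset.mem_univ i))
  have ha1 : a - ((t₀ : ℤ) : 𝓞 k) ∈ (𝔮 i).asIdeal :=
    Ideal.mem_of_dvd _ (hri.trans ha) (hr𝔮 i)
  have hb1 : b - 1 ∈ (𝔮 i).asIdeal := Ideal.mem_of_dvd _ (hri.trans hb) (hr𝔮 i)
  have hb2 : b ∉ (𝔮 i).asIdeal := by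
    intro h
    have h1 := (𝔮 i).asIdeal.sub_mem h hb1
    rw [sub_sub_cancel] at h1
    exact (𝔮 i).isPrime.ne_top ((Ideal.eq_top_iff_one _).mpr h1)
  have hbk : (b : k) ≠ 0 := by
    intro h
    exact hb0 (RingOfIntegers.coe_eq_zero_iff.mp h)
  have hb3 : ord (𝔮 i) (b : k) = 0 := an1_ord_coe_eq_zero (𝔮 i) hb2
  -- `t` is close to `t₀`
  have ht1 : Ge (𝔮 i) 1 ((a : k) / (b : k) - (t₀ : k)) := by
    refine ml8_ge_of_mul (𝔮 i) hbk hb3 ?_
    have h1 : (a - ((t₀ : ℤ) : 𝓞 k)) - ((t₀ : ℤ) : 𝓞 k) * (b - 1) ∈ (𝔮 i).asIdeal :=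
      (𝔮 i).asIdeal.sub_mem ha1 ((𝔮 i).asIdeal.mul_mem_left _ hb1)
    rw [mem_iff_ge_one] at h1
    have h2 : (((a - ((t₀ : ℤ) : 𝓞 k)) - ((t₀ : ℤ) : 𝓞 k) * (b - 1) : 𝓞 k) : k) =
        ((a : k) / (b : k) - (t₀ : k)) * (b : k) := by
      push_cast
      field_simp
      ring
    rwa [h2] at h1
  have ht0 : Ge (𝔮 i) 0 (t₀ : k) := ge_nat (𝔮 i) t₀
  have ht : Ge (𝔮 i) 0 ((a : k) / (b : k)) := by
    have h1 := ge_add (𝔮 i) (ge_mono (𝔮 i) zero_le_one ht1) ht0
    rwa [sub_add_cancel] at h1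
  have hco := hY i (𝔮 i) (r i) (hr i) (hYr i) (hr𝔮 i)
  -- the root is integral
  have hxi : Ge (𝔮 i) 0 x := by
    refine ml8_integral (𝔮 i) (fun l => ?_) ((hchi i).1.map _) hx
    rw [coeff_map, coe_evalRingHom]
    exact ml8_ge_eval (𝔮 i) (fun l' => hco l l') ht
  refine hnr i x hxi (ml8_ge_one_of_pow (𝔮 i) (j := j i) ?_)
  rw [← eval_pow, ← hqj i]
  have h1 : Ge (𝔮 i) 1 (((P i).map (evalRingHom ((a : k) / (b : k)))).eval x -
      ((P i).map (evalRingHom (t₀ : k))).eval x) := by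
    rw [eval_eq_sum_range, eval_eq_sum_range, (hchi i).1.natDegree_map, (hchi i).1.natDegree_map,
      ← Finset.sum_sub_distrib]
    refine ge_sum (𝔮 i) _ _ fun l _ => ?_
    rw [coeff_map, coeff_map, coe_evalRingHom, coe_evalRingHom, ← sub_mul]
    have h2 := ge_mul (𝔮 i) (ml8_ge_eval_sub (𝔮 i) (fun l' => hco l l') ht ht0 ht1)
      (ge_pow (𝔮 i) hxi l)
    rwa [mul_zero, add_zero] at h2
  rw [hx, zero_sub] at h1
  have h2 := ge_neg (𝔮 i) h1
  rwa [neg_neg] at h2

end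

end Pool.Agent.H20.ML
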