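import Pool.Agent.H20.ML.Vdw

/-!
# The main argument of the weak form of Hilbert's irreducibility theorem
-/

namespace Pool.Agent.H20.ML

open Polynomial NumberField

section general

variable {R : Type*} [CommRing R]

theorem ml1_ev_eq (F : R[X][X]) (t y : R) :
    (F.map (evalRingHom t)).eval y = (F.eval (C y)).eval t := by
  have h := eval_map_apply (p := F) (f := evalRingHom t) (C y)
  simpa using h

theorem ml1_eval_evalQ (F : R[X][X]) (Q : R[X]) (t : R) :
    (F.eval Q).eval t = (F.map (evalRingHom t)).eval (Q.eval t) := by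
  have h := eval_map_apply (p := F) (f := evalRingHom t) Q
  simpa using h.symm

theorem ml1_ev_sub_dvd (F : R[X][X]) (t t' y : R) :
    t - t' ∣ (F.map (evalRingHom t)).eval y - (F.map (evalRingHom t')).eval y := by
  rw [ml1_ev_eq, ml1_ev_eq]
  exact sub_dvd_eval_sub _ _ _

/-- evaluating at `(s₀ + p X, y)` modulo `p` -/
theorem ml1_comp_dvd (H : R[X]) (s0 p : R) (h : p ∣ H.eval s0) :
    C p ∣ H.comp (C s0 + C p * X) := by
  have h1 : (C s0 + C p * X) - C s0 ∣ (H.map C).eval (C s0 + C p * X) - (H.map C).eval (C s0) :=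
    sub_dvd_eval_sub _ _ _
  rw [add_sub_cancel_left, eval_map_apply, ← eval₂_eq_eval_map] at h1
  have h2 : C p ∣ (C (H.eval s0) : R[X]) := _root_.map_dvd C h
  have h3 : C p ∣ eval₂ C (C s0 + C p * X) H - C (H.eval s0) := (dvd_mul_right _ _).trans h1
  have := dvd_add h3 h2
  rwa [sub_add_cancel] at this

end general

variable {k : Type*} [Field k] [NumberField k]

/-- polynomial bound for the roots of a monic polynomial with coefficients in `𝓞 k [t]` -/
theorem ml1_root_bound (F : (𝓞 k)[X][X]) (hF : F.Monic) :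
    ∃ C : ℝ, ∃ μ : ℕ, 1 ≤ C ∧ ∀ t : ℕ, 1 ≤ t → ∀ y : 𝓞 k,
      (F.map (evalRingHom (t : 𝓞 k))).eval y = 0 → ∀ σ : k →+* ℂ,
        ‖σ (y : k)‖ ≤ C * (t : ℝ) ^ μ := by
  classical
  set S : (k →+* ℂ) → ℕ → ℝ := fun σ j =>
    ∑ i ∈ Finset.range ((F.coeff j).natDegree + 1), ‖σ ((F.coeff j).coeff i : k)‖ with hS
  have hS0 : ∀ σ j, 0 ≤ S σ j := fun σ j => Finset.sum_nonneg fun _ _ => norm_nonneg _
  set μ : ℕ := (Finset.range F.natDegree).sup (fun j => (F.coeff j).natDegree) with hμ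
  refine ⟨1 + ∑ σ : k →+* ℂ, ∑ j ∈ Finset.range F.natDegree, S σ j, μ, ?_, ?_⟩
  · have : 0 ≤ ∑ σ : k →+* ℂ, ∑ j ∈ Finset.range F.natDegree, S σ j :=
      Finset.sum_nonneg fun _ _ => Finset.sum_nonneg fun _ _ => hS0 _ _
    linarith
  intro t ht y hy σ
  have ht' : (1 : ℝ) ≤ t := by exact_mod_cast ht
  set φ : (𝓞 k)[X] →+* ℂ := (σ.comp (algebraMap (𝓞 k) k)).comp (evalRingHom (t : 𝓞 k)) with hφ
  set p : ℂ[X] := F.map φ with hp
  have hpm : p.Monic := hF.map _
  have hroot : p.IsRoot (σ (y : k)) := by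
    have h1 := eval_map_apply (p := F.map (evalRingHom (t : 𝓞 k)))
      (f := σ.comp (algebraMap (𝓞 k) k)) y
    rw [hy, map_zero, Polynomial.map_map] at h1
    exact h1
  have h2 := Polynomial.IsRoot.norm_lt_cauchyBound hpm.ne_zero hroot
  have h3 : ‖σ (y : k)‖ < (cauchyBound p : ℝ) := by exact_mod_cast h2
  have hcoeff : ∀ j ∈ Finset.range F.natDegree, ‖p.coeff j‖ ≤ S σ j * (t : ℝ) ^ μ := by
    intro j hj
    have h4 : p.coeff j = ∑ i ∈ Finset.range ((F.coeff j).natDegree + 1),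
        σ ((F.coeff j).coeff i : k) * (t : ℂ) ^ i := by
      rw [hp, coeff_map, hφ]
      simp only [RingHom.comp_apply, coe_evalRingHom]
      rw [eval_eq_sum_range, map_sum, map_sum]
      refine Finset.sum_congr rfl fun i _ => ?_
      simp
    rw [h4, hS, Finset.sum_mul]
    refine (norm_sum_le _ _).trans (Finset.sum_le_sum fun i hi => ?_)
    rw [norm_mul, norm_pow, Complex.norm_natCast]
    refine mul_le_mul_of_nonneg_left ?_ (norm_nonneg _)
    refine pow_le_pow_right₀ ht' ?_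
    have h5 : (F.coeff j).natDegree ≤ μ :=
      Finset.le_sup (f := fun j => (F.coeff j).natDegree) hj
    have := Finset.mem_range.1 hi
    omega
  have hcb : (cauchyBound p : ℝ) ≤ 1 + ∑ j ∈ Finset.range F.natDegree, S σ j * (t : ℝ) ^ μ := by
    have h6 : cauchyBound p = ((Finset.range p.natDegree).sup (‖p.coeff ·‖₊)) + 1 := by
      rw [cauchyBound, hpm.leadingCoeff, nnnorm_one, div_one]
    have hdeg : p.natDegree = F.natDegree := hF.natDegree_map _
    rw [h6, hdeg]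
    push_cast
    rw [add_comm]
    have h7 : (((Finset.range F.natDegree).sup (‖p.coeff ·‖₊) : NNReal) : ℝ)
        ≤ ((∑ j ∈ Finset.range F.natDegree, ‖p.coeff j‖₊ : NNReal) : ℝ) := by
      have : (Finset.range F.natDegree).sup (‖p.coeff ·‖₊)
          ≤ ∑ j ∈ Finset.range F.natDegree, ‖p.coeff j‖₊ :=
        Finset.sup_le fun j hj =>
          Finset.single_le_sum (f := fun j => ‖p.coeff j‖₊) (fun _ _ => zero_le) hj
      exact_mod_cast this
    refine add_le_add_right (h7.trans ?_) 1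
    push_cast
    exact Finset.sum_le_sum hcoeff
  have h8 : ∑ j ∈ Finset.range F.natDegree, S σ j * (t : ℝ) ^ μ
      ≤ (∑ σ : k →+* ℂ, ∑ j ∈ Finset.range F.natDegree, S σ j) * (t : ℝ) ^ μ := by
    rw [← Finset.sum_mul]
    refine mul_le_mul_of_nonneg_right ?_ (by positivity)
    exact Finset.single_le_sum (f := fun σ => ∑ j ∈ Finset.range F.natDegree, S σ j)
      (fun _ _ => Finset.sum_nonneg fun _ _ => hS0 _ _) (Finset.mem_univ σ)
  have h9 : (1 : ℝ) ≤ (t : ℝ) ^ μ := one_le_pow₀ ht'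
  rw [add_mul, one_mul]
  linarith

theorem ml1_degree_bound {K : Type*} [Field K] (P : K[X][X]) (D : ℕ) :
    ∃ E : ℕ, ∀ Q : K[X], Q.natDegree ≤ D → (P.eval Q).natDegree ≤ E := by
  refine ⟨(Finset.range (P.natDegree + 1)).sup (fun i => (P.coeff i).natDegree + i * D), ?_⟩
  intro Q hQ
  rw [eval_eq_sum_range]
  refine natDegree_sum_le_of_forall_le _ _ fun i hi => ?_
  refine natDegree_mul_le.trans ?_
  refine le_trans ?_ (Finset.le_sup (f := fun i => (P.coeff i).natDegree + i * D) hi)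
  exact Nat.add_le_add_left (natDegree_pow_le.trans (Nat.mul_le_mul_left _ hQ)) _

/-- **The main argument.** -/
theorem ml1_wh_core (F : (𝓞 k)[X][X]) (hF : F.Monic)
    (hr : ∀ Q : k[X], (F.map (mapRingHom (algebraMap (𝓞 k) k))).eval Q ≠ 0)
    (s0 p : ℕ) (hs0 : 1 ≤ s0) (hp : 2 ≤ p)
    (hsep : ∀ y : 𝓞 k, (p : 𝓞 k) ∣ (F.map (evalRingHom (s0 : 𝓞 k))).eval y →
      ∃ u, (p : 𝓞 k) ∣ u * (F.derivative.map (evalRingHom (s0 : 𝓞 k))).eval y - 1)
    (hall : ∀ t : ℕ, s0 ≤ t → ∃ y : 𝓞 k, (F.map (evalRingHom (t : 𝓞 k))).eval y = 0) :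
    False := by
  classical
  obtain ⟨B, μ, hB, hbd⟩ := ml1_root_bound F hF
  set D := μ + 1 with hD
  set P := F.map (mapRingHom (algebraMap (𝓞 k) k)) with hP
  obtain ⟨E, hE⟩ := ml1_degree_bound P D
  set Len := max (E + 1) (D + 1) with hLen
  have hpne : (p : 𝓞 k) ≠ 0 := by
    have : p ≠ 0 := by omega
    exact_mod_cast this
  have hfin : Finite (𝓞 k ⧸ Ideal.span {(p : 𝓞 k)}) := by
    refine Ideal.finiteQuotientOfFreeOfNeBot _ ?_
    rw [Ne, Ideal.span_singleton_eq_bot]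
    exact hpne
  obtain ⟨W, hW⟩ := ml1_bounded_vdw Len (𝓞 k ⧸ Ideal.span {(p : 𝓞 k)})
  choose y hy using fun n : ℕ => hall (s0 + n) (Nat.le_add_right _ _)
  -- the power of `p`
  set M : ℝ := 2 ^ D * B * ((s0 : ℝ) + p * W) ^ μ with hM
  obtain ⟨j, hj⟩ := pow_unbounded_of_one_lt M (show (1 : ℝ) < p by exact_mod_cast hp)
  set q : ℕ := p ^ j with hq
  have hq1 : 1 ≤ q := Nat.one_le_pow _ _ (by omega)
  obtain ⟨a, d, hd, had, c, hc⟩ := hW fun n => Ideal.Quotient.mk _ (y (p * (q * n)))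
  -- the sequence
  set f : ℕ → 𝓞 k := fun l => y (p * (q * (a + l * d))) with hf
  set tt : ℕ → ℕ := fun l => s0 + p * (q * (a + l * d)) with htt
  have hroot : ∀ l, (F.map (evalRingHom ((tt l : ℕ) : 𝓞 k))).eval (f l) = 0 := fun l => hy _
  have hcong : ∀ l, l < Len → (p : 𝓞 k) ∣ f l - f 0 := by
    intro l hl
    have h1 := hc l hl
    have h2 := hc 0 (by omega)
    rw [← h2] at h1
    rw [Ideal.Quotient.eq, Ideal.mem_span_singleton] at h1
    simpa [hf] using h1
  have hcast : ∀ l, ((tt l : ℕ) : 𝓞 k) - (s0 : 𝓞 k) = (p : 𝓞 k) * ((q : 𝓞 k) * (a + l * d)) := by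
    intro l
    simp only [htt]
    push_cast
    ring
  -- separability at the points of the progression
  have hF0 : ∀ l, (p : 𝓞 k) ∣ (F.map (evalRingHom (s0 : 𝓞 k))).eval (f l) := by
    intro l
    have h1 := ml1_ev_sub_dvd F ((tt l : ℕ) : 𝓞 k) (s0 : 𝓞 k) (f l)
    rw [hroot, hcast, zero_sub, dvd_neg] at h1
    exact (dvd_mul_right _ _).trans h1
  have hder : ∀ l, ∃ u, (p : 𝓞 k) ∣
      u * ((F.map (evalRingHom ((tt l : ℕ) : 𝓞 k))).derivative).eval (f l) - 1 := by
    intro l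
    obtain ⟨u, hu⟩ := hsep (f l) (hF0 l)
    refine ⟨u, ?_⟩
    have h1 := ml1_ev_sub_dvd F.derivative ((tt l : ℕ) : 𝓞 k) (s0 : 𝓞 k) (f l)
    rw [hcast] at h1
    have h2 : (p : 𝓞 k) ∣ u * ((F.derivative.map (evalRingHom ((tt l : ℕ) : 𝓞 k))).eval (f l)
        - (F.derivative.map (evalRingHom (s0 : 𝓞 k))).eval (f l)) :=
      ((dvd_mul_right _ _).trans h1).mul_left u
    have h3 := dvd_add h2 hu
    rw [derivative_map]
    have h4 : u * ((F.derivative.map (evalRingHom ((tt l : ℕ) : 𝓞 k))).eval (f l)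
        - (F.derivative.map (evalRingHom (s0 : 𝓞 k))).eval (f l))
        + (u * (F.derivative.map (evalRingHom (s0 : 𝓞 k))).eval (f l) - 1)
        = u * (F.derivative.map (evalRingHom ((tt l : ℕ) : 𝓞 k))).eval (f l) - 1 := by ring
    rwa [h4] at h3
  -- Hensel in `𝓞 k [s]`
  set g : (𝓞 k)[X] := C (s0 : 𝓞 k) + C (p : 𝓞 k) * X with hg
  set F' : (𝓞 k)[X][X] := F.map (compRingHom g) with hF'
  have hcomp : ∀ (G : (𝓞 k)[X][X]) (z : 𝓞 k),
      (G.map (compRingHom g)).eval (C z) = (G.eval (C z)).comp g := by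
    intro G z
    have h1 := eval_map_apply (p := G) (f := compRingHom g) (C z)
    simpa using h1
  obtain ⟨u, hu⟩ := hsep (f 0) (hF0 0)
  obtain ⟨R, hR1, hR2⟩ := ml1_hensel_exists F' (C (p : 𝓞 k)) (C (f 0)) (C u)
    (by
      rw [hF', hcomp]
      refine ml1_comp_dvd _ _ _ ?_
      rw [← ml1_ev_eq]
      exact hF0 0)
    (by
      rw [hF', derivative_map, hcomp]
      have h1 : C u * (F.derivative.eval (C (f 0))).comp g - 1
          = (C u * F.derivative.eval (C (f 0)) - 1).comp g := by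
        simp
      rw [h1]
      refine ml1_comp_dvd _ _ _ ?_
      rw [eval_sub, eval_mul, eval_C, eval_one, ← ml1_ev_eq]
      exact hu) (j * D)
  -- the values of the Hensel polynomial
  have hval : ∀ s : 𝓞 k, (F'.eval R).eval s
      = (F.map (evalRingHom ((s0 : 𝓞 k) + p * s))).eval (R.eval s) := by
    intro s
    rw [ml1_eval_evalQ, hF', Polynomial.map_map]
    congr 2
    ext x
    · simp
    · simp [hg]
  have hKs : ∀ l, l < Len → ((p : 𝓞 k)) ^ (j * D) ∣
      R.eval (((q * a : ℕ) : 𝓞 k) + l * ((q * d : ℕ) : 𝓞 k)) - f l := by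
    intro l hl
    set s : 𝓞 k := ((q * a : ℕ) : 𝓞 k) + l * ((q * d : ℕ) : 𝓞 k) with hs
    have hts : (s0 : 𝓞 k) + p * s = ((tt l : ℕ) : 𝓞 k) := by
      simp only [htt, hs]
      push_cast
      ring
    obtain ⟨u', hu'⟩ := hder l
    refine ml1_hensel_unique (F.map (evalRingHom ((tt l : ℕ) : 𝓞 k))) (p : 𝓞 k) (f l)
      (R.eval s) u' (j * D) ?_ ?_ ?_ hu'
    · rw [hroot]; exact dvd_zero _
    · rw [← hts, ← hval]
      obtain ⟨e, he⟩ := hR1
      rw [he, eval_mul, eval_pow, eval_C]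
      exact dvd_mul_right _ _
    · obtain ⟨e, he⟩ := hR2
      have h1 := congrArg (eval s) he
      rw [eval_sub, eval_mul, eval_C, eval_C] at h1
      have h2 : R.eval s - f l = (R.eval s - f 0) - (f l - f 0) := by ring
      rw [h2]
      exact dvd_sub (by rw [h1]; exact dvd_mul_right _ _) (hcong l hl)
  -- the differences are divisible by `q ^ D`
  have hdiv : ∀ l, l + D < Len → ((q ^ D : ℕ) : 𝓞 k) ∣ (fwdDiff (1 : ℕ))^[D] f l := by
    intro l hl
    have h1 := ml1_dvd_fwdDiff_sub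
      (fun l : ℕ => R.eval (((q * a : ℕ) : 𝓞 k) + l * ((q * d : ℕ) : 𝓞 k))) f
      ((p : 𝓞 k) ^ (j * D)) D l (fun i hi => hKs (l + i) (by omega))
    have h2 := ml1_pow_dvd_fwdDiff D R ((q * a : ℕ) : 𝓞 k) ((q * d : ℕ) : 𝓞 k) l
    have h3 : ((q ^ D : ℕ) : 𝓞 k) = (p : 𝓞 k) ^ (j * D) := by
      rw [hq, ← pow_mul]
      push_cast
      rfl
    have h4 : ((q ^ D : ℕ) : 𝓞 k) ∣ ((q * d : ℕ) : 𝓞 k) ^ D := by
      push_cast
      rw [mul_pow]
      exact dvd_mul_right _ _
    rw [← h3] at h1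
    have h5 := dvd_sub (h4.trans h2) h1
    rwa [sub_sub_cancel] at h5
  -- the differences vanish
  have hzero : ∀ l, l + D < Len → (fwdDiff (1 : ℕ))^[D] f l = 0 := by
    intro l hl
    refine ml1_eq_zero_of_dvd_of_lt _ (q ^ D) (by positivity) (hdiv l hl) fun σ => ?_
    have h1 : σ (((fwdDiff (1 : ℕ))^[D] f l : 𝓞 k) : k)
        = (fwdDiff (1 : ℕ))^[D] (fun i => σ (f i : k)) l :=
      ml1_map_fwdDiff (σ.comp (algebraMap (𝓞 k) k)) f D l
    rw [h1]
    have h2 : ∀ i, i ≤ D → ‖(fun i => σ (f i : k)) (l + i)‖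
        ≤ B * ((((s0 : ℝ) + p * W) * q) ^ μ) := by
      intro i hi
      have h3 := hbd (tt (l + i)) (by simp only [htt]; omega) (f (l + i)) (hroot _) σ
      refine h3.trans (mul_le_mul_of_nonneg_left ?_ (by linarith))
      refine pow_le_pow_left₀ (Nat.cast_nonneg _) ?_ _
      have h4 : a + (l + i) * d ≤ W := by
        refine le_trans ?_ had
        exact Nat.add_le_add_left (Nat.mul_le_mul_right _ (by omega)) _
      have h5 : tt (l + i) ≤ (s0 + p * W) * q := by
        simp only [htt]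
        have h6 : p * (q * (a + (l + i) * d)) ≤ p * (q * W) :=
          Nat.mul_le_mul_left _ (Nat.mul_le_mul_left _ h4)
        nlinarith
      exact_mod_cast h5
    refine lt_of_le_of_lt (ml1_norm_fwdDiff_le _ _ D l h2) ?_
    have h7 : (2 : ℝ) ^ D * (B * ((((s0 : ℝ) + p * W) * q) ^ μ)) = M * (q : ℝ) ^ μ := by
      rw [hM, mul_pow]
      ring
    rw [h7]
    have h8 : (((q ^ D : ℕ)) : ℝ) = (q : ℝ) * (q : ℝ) ^ μ := by
      rw [hD]
      push_cast
      ring
    rw [h8]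
    have hq' : (0 : ℝ) < (q : ℝ) := by exact_mod_cast hq1
    refine mul_lt_mul_of_pos_right ?_ (by positivity)
    rw [hq]
    push_cast
    exact hj
  -- interpolation
  obtain ⟨Q0, hQ0d, hQ0⟩ := ml1_exists_interp (fun l => (f l : k)) D Len (fun l hl => by
    have h1 : (((fwdDiff (1 : ℕ))^[D] f l : 𝓞 k) : k)
        = (fwdDiff (1 : ℕ))^[D] (fun i => (f i : k)) l :=
      ml1_map_fwdDiff (algebraMap (𝓞 k) k) f D l
    rw [← h1, hzero l hl]
    simp)
  have hpk : (p : k) ≠ 0 := by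
    have : p ≠ 0 := by omega
    exact_mod_cast this
  have hqk : (q : k) ≠ 0 := by
    have : q ≠ 0 := by omega
    exact_mod_cast this
  have hdk : (d : k) ≠ 0 := by
    have : d ≠ 0 := by omega
    exact_mod_cast this
  set α : k := ((p : k) * q * d)⁻¹ with hα
  set Q : k[X] := Q0.comp (C α * X + C (-(s0 : k) * α - (a : k) * (d : k)⁻¹)) with hQ
  have hQd : Q.natDegree ≤ D := by
    refine natDegree_comp_le.trans ?_
    calc Q0.natDegree * _ ≤ D * 1 := Nat.mul_le_mul hQ0d natDegree_linear_le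
      _ = D := mul_one _
  have hQv : ∀ l, l < Len → Q.eval (((tt l : ℕ) : k)) = (f l : k) := by
    intro l hl
    rw [hQ, eval_comp]
    have h1 : eval (((tt l : ℕ) : k)) (C α * X + C (-(s0 : k) * α - (a : k) * (d : k)⁻¹))
        = (l : k) := by
      simp only [eval_add, eval_mul, eval_C, eval_X, htt, hα]
      push_cast
      field_simp
      ring
    rw [h1]
    exact hQ0 l hl
  refine hr Q ?_
  refine Polynomial.eq_zero_of_natDegree_lt_card_of_eval_eq_zero _
    (f := fun l : Fin (E + 1) => (((tt l : ℕ) : k))) ?_ ?_ ?_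
  · intro l l' h
    have h1 : tt l = tt l' := by
      have h0 : ((tt l : ℕ) : k) = ((tt l' : ℕ) : k) := h
      exact_mod_cast h0
    simp only [htt] at h1
    have h2 : p * (q * (a + l * d)) = p * (q * (a + l' * d)) := by omega
    have h3 := Nat.eq_of_mul_eq_mul_left (by omega : 0 < p) h2
    have h4 := Nat.eq_of_mul_eq_mul_left (by omega : 0 < q) h3
    have h5 : (l : ℕ) * d = l' * d := by omega
    exact Fin.ext (Nat.eq_of_mul_eq_mul_right (by omega : 0 < d) h5)
  · intro l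
    have hl : (l : ℕ) < Len := lt_of_lt_of_le l.2 (le_max_left _ _)
    rw [ml1_eval_evalQ, hQv l hl]
    have h1 := eval_map_apply (p := F.map (evalRingHom ((tt l : ℕ) : 𝓞 k)))
      (f := algebraMap (𝓞 k) k) (f l)
    rw [hroot, map_zero, Polynomial.map_map] at h1
    rw [hP, Polynomial.map_map, ← h1]
    congr 2
    ext x
    · simp
    · simp
  · rw [Fintype.card_fin]
    exact Nat.lt_succ_of_le (hE Q hQd)

end Pool.Agent.H20.ML
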