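import Pool.Agent.H20.ML.Defs
import Pool.Agent.H35.AN.Val
import Pool.Agent.H35.AN.Tower
import Pool.Agent.H35.AN.Ram

/-!
# Project ML, row 11: ramification of the specialised field

A certificate of ramification of the place `f` of `L / k(t)` forces the primes `𝔭` of `k` with
`ord 𝔭 (f t) = 1` to ramify in the specialised field, if `𝔭` is large and `t` is `𝔭`-integral.
-/

set_option autoImplicit false

open Polynomial IsDedekindDomain NumberField Filter

namespace Pool.Agent.H20.ML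

open Pool.Agent.H35.AN

section Aux

variable {K : Type*} [Field K] [NumberField K] (P : HeightOneSpectrum (𝓞 K))

/-- a root of a monic polynomial with integral coefficients is integral (at a prime) -/
theorem ml11_ge_of_root {x : K} {d : ℕ} (c : ℕ → K) (hc : ∀ j < d, Ge P 0 (c j))
    (h : x ^ d + ∑ j ∈ Finset.range d, c j * x ^ j = 0) : Ge P 0 x := by
  by_cases hx : x = 0
  · rw [hx]
    exact ge_zero P 0
  by_contra hneg
  rw [ge_iff P hx] at hneg
  have h1 : Ge P (ord P x) x := (ge_iff P hx).2 le_rfl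
  have h2 : Ge P (((d : ℤ) - 1) * ord P x) (∑ j ∈ Finset.range d, c j * x ^ j) := by
    refine ge_sum P _ _ (fun j hj => ?_)
    rw [Finset.mem_range] at hj
    have h3 := ge_mul P (hc j hj) (ge_pow P h1 j)
    refine ge_mono P ?_ h3
    have h4 : (j : ℤ) ≤ (d : ℤ) - 1 := by omega
    rw [zero_add]
    exact mul_le_mul_of_nonpos_right h4 (by omega)
  have h5 : x ^ d = -∑ j ∈ Finset.range d, c j * x ^ j := eq_neg_of_add_eq_zero_left h
  have h6 := ge_neg P h2
  rw [← h5, ge_iff P (pow_ne_zero _ hx), ord_pow] at h6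
  nlinarith

/-- an element of a number field is integral at all primes above large rational primes -/
theorem ml11_ge_const (c : K) : ∃ Y : ℕ, ∀ (P : HeightOneSpectrum (𝓞 K)) (r : ℕ), r.Prime →
    Y < r → (r : 𝓞 K) ∈ P.asIdeal → Ge P 0 c := by
  have halg : IsAlgebraic ℤ c := by
    have h1 : IsAlgebraic ℚ c := Algebra.IsAlgebraic.isAlgebraic c
    exact (IsFractionRing.isAlgebraic_iff ℤ ℚ K).2 h1
  obtain ⟨m, hm, hmc⟩ := halg.exists_integral_multiple
  refine ⟨m.natAbs, fun P r hr hrm hrP => ?_⟩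
  by_cases hc : c = 0
  · rw [hc]
    exact ge_zero P 0
  have h1 : ¬ (r : ℤ) ∣ m := by
    intro h
    have h2 := Int.natAbs_dvd_natAbs.2 h
    rw [Int.natAbs_natCast] at h2
    have h3 := Nat.le_of_dvd (Int.natAbs_pos.2 hm) h2
    omega
  have h2 := ord_int_unit P hr hrP h1
  have h3 := ge_of_isIntegral P hmc
  have hmK : (m : K) ≠ 0 := Int.cast_ne_zero.2 hm
  rw [zsmul_eq_mul, ge_iff P (mul_ne_zero hmK hc), ord_mul P hmK hc, h2, zero_add] at h3
  exact (ge_iff P hc).2 h3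

/-- the values of a polynomial at integral points are integral at all primes above large
rational primes -/
theorem ml11_ge_eval (q : K[X]) : ∃ Y : ℕ, ∀ (t : K) (P : HeightOneSpectrum (𝓞 K)) (r : ℕ),
    r.Prime → Y < r → (r : 𝓞 K) ∈ P.asIdeal → Ge P 0 t → Ge P 0 (q.eval t) := by
  choose Y hY using fun c : K => ml11_ge_const c
  refine ⟨∑ i ∈ Finset.range (q.natDegree + 1), Y (q.coeff i), fun t P r hr hYr hrP ht => ?_⟩
  rw [eval_eq_sum_range]
  refine ge_sum P _ _ (fun i hi => ?_)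
  have h1 : Y (q.coeff i) < r :=
    lt_of_le_of_lt (Finset.single_le_sum (f := fun i => Y (q.coeff i))
      (fun _ _ => Nat.zero_le _) hi) hYr
  have h2 := hY (q.coeff i) P r hr h1 hrP
  have h3 := ge_mul P h2 (ge_pow P ht i)
  simpa using h3

end Aux

section

variable (k : Type) [Field k] [NumberField k]

/-- the specialisation of an element of the integral closure of `k[t]` is integral at the primes
above a large prime `𝔭` of `k`, if `t` is `𝔭`-integral -/
theorem ml11_ge_sp {n : ℕ} {G : Subgroup (Equiv.Perm (Fin n))} {L : Type} [Field L]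
    [Algebra (RatFunc k) L] [Algebra k[X] L] (y : RR k L) :
    ∃ Y : ℕ, ∀ (t : k) (S : FieldAt k n G L t) (𝔭 : HeightOneSpectrum (𝓞 k)) (r : ℕ), r.Prime →
      Y < r → (r : 𝓞 k) ∈ 𝔭.asIdeal → Ge 𝔭 0 t →
      letI := S.nf
      ∀ P : HeightOneSpectrum (𝓞 S.K), below k P = 𝔭 → Ge P 0 (S.sp y) := by
  obtain ⟨Q, hQ, hQy⟩ := integralClosure.isIntegral (R := k[X]) (A := L) y
  choose Y hY using fun q : k[X] => ml11_ge_eval (K := k) q
  refine ⟨∑ j ∈ Finset.range Q.natDegree, Y (Q.coeff j), fun t S 𝔭 r hr hYr hr𝔭 ht => ?_⟩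
  have := S.nf
  intro P hP
  refine ml11_ge_of_root P (d := Q.natDegree)
    (fun j => algebraMap k S.K ((Q.coeff j).eval t)) (fun j hj => ?_) ?_
  · have h1 : Y (Q.coeff j) < r :=
      lt_of_le_of_lt (Finset.single_le_sum (f := fun j => Y (Q.coeff j))
        (fun _ _ => Nat.zero_le _) (Finset.mem_range.2 hj)) hYr
    have h2 : Ge (below k P) 0 ((Q.coeff j).eval t) := by
      rw [hP]
      exact hY _ t 𝔭 r hr h1 hr𝔭 ht
    simpa using ge_algebraMap P h2
  · have h1 := congrArg S.sp hQy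
    rw [map_zero, eval₂_eq_sum_range, map_sum, Finset.sum_range_succ] at h1
    rw [add_comm]
    simp only [map_mul, map_pow, S.sp_alg] at h1
    rw [hQ.coeff_natDegree, eval_one, map_one, one_mul] at h1
    exact h1

/-! ### ML-11 Ramify.lean : ramification of the specialised field -/

theorem dvd_discr_of_cert {n : ℕ} {G : Subgroup (Equiv.Perm (Fin n))} {L : Type} [Field L]
    [Algebra (RatFunc k) L] [Algebra k[X] L] [IsScalarTower k[X] (RatFunc k) L] (f : k[X])
    (h : Cert L f) :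
    ∃ Y : ℕ, ∀ (t : k) (S : FieldAt k n G L t) (𝔭 : HeightOneSpectrum (𝓞 k)) (r : ℕ), r.Prime →
      Y < r → (r : 𝓞 k) ∈ 𝔭.asIdeal → Ge 𝔭 0 t → ord 𝔭 (f.eval t) = 1 →
      (r : ℤ) ∣ @NumberField.discr S.K _ S.nf := by
  obtain ⟨e, π, z, w, v, α, β, p, he, h1, h2, h3, g, hg⟩ := h
  obtain ⟨Yz, hYz⟩ := ml11_ge_sp k (n := n) (G := G) z
  obtain ⟨Yw, hYw⟩ := ml11_ge_sp k (n := n) (G := G) w
  obtain ⟨Yv, hYv⟩ := ml11_ge_sp k (n := n) (G := G) v
  obtain ⟨Yα, hYα⟩ := ml11_ge_sp k (n := n) (G := G) α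
  obtain ⟨Yβ, hYβ⟩ := ml11_ge_sp k (n := n) (G := G) β
  obtain ⟨Yg, hYg⟩ := ml11_ge_eval (K := k) g
  refine ⟨Yz + Yw + Yv + Yα + Yβ + Yg, fun t S 𝔭 r hr hYr hr𝔭 ht hord => ?_⟩
  have := S.nf
  have hf0 : f.eval t ≠ 0 := by
    intro h0
    rw [h0, ord_zero] at hord
    omega
  have hfK : algebraMap k S.K (f.eval t) ≠ 0 := by simpa using hf0
  have hf1 : Ge 𝔭 1 (f.eval t) := (ge_iff 𝔭 hf0).2 (by omega)
  -- the relations in `K`
  have e1 : algebraMap k S.K (f.eval t) * S.sp z = S.sp π ^ e * S.sp w := by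
    rw [← S.sp_alg, ← map_mul, h1, map_mul, map_pow]
  have e2 : 1 = S.sp z * S.sp w * S.sp v + S.sp α * S.sp π +
      S.sp β * algebraMap k S.K (f.eval t) := by
    rw [← S.sp_alg, ← map_mul, ← map_mul, ← map_mul, ← map_mul, ← map_add, ← map_add, ← h2,
      map_one]
  have hnot1 : ∀ P : HeightOneSpectrum (𝓞 S.K), ¬ Ge P 1 (1 : S.K) := by
    intro P hP
    rw [ge_iff P one_ne_zero, ord_one] at hP
    omega
  have hfP : ∀ P : HeightOneSpectrum (𝓞 S.K), below k P = 𝔭 →
      Ge P 1 (algebraMap k S.K (f.eval t)) := by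
    intro P hP
    have h4 : Ge (below k P) 1 (f.eval t) := by rwa [hP]
    refine ge_mono P ?_ (ge_algebraMap P h4)
    have := erel_pos (k := k) P
    omega
  by_cases hπ : S.sp π = 0
  · exfalso
    obtain ⟨P, hP⟩ := exists_above S.K 𝔭
    rw [hπ, zero_pow (by omega), zero_mul, mul_eq_zero, or_iff_right hfK] at e1
    rw [e1, hπ, zero_mul, zero_mul, mul_zero, zero_add, zero_add] at e2
    apply hnot1 P
    rw [e2]
    simpa using ge_mul P (hYβ t S 𝔭 r hr (by omega) hr𝔭 ht P hP) (hfP P hP)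
  · have hN := S.norm π p h3
    rw [hg, eval_mul] at hN
    have hN0 : Algebra.norm k (S.sp π) ≠ 0 := Algebra.norm_ne_zero_iff.2 hπ
    have hg0 : g.eval t ≠ 0 := by
      intro h0
      rw [h0, mul_zero] at hN
      exact hN0 hN
    have hgo : 0 ≤ ord 𝔭 (g.eval t) :=
      (ge_iff 𝔭 hg0).1 (hYg t 𝔭 r hr (by omega) hr𝔭 ht)
    have hinv : Algebra.norm k (S.sp π)⁻¹ = (Algebra.norm k (S.sp π))⁻¹ := by
      apply eq_inv_of_mul_eq_one_left
      rw [← map_mul, inv_mul_cancel₀ hπ, map_one]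
    have hNo : ord 𝔭 (Algebra.norm k (S.sp π)⁻¹) < 0 := by
      rw [hinv, ord_inv, hN, ord_mul 𝔭 hf0 hg0, hord]
      omega
    obtain ⟨P, hP, hPo⟩ := exists_ord_neg (inv_ne_zero hπ) 𝔭 hNo
    rw [ord_inv] at hPo
    have gz := hYz t S 𝔭 r hr (by omega) hr𝔭 ht P hP
    have gw := hYw t S 𝔭 r hr (by omega) hr𝔭 ht P hP
    have gv := hYv t S 𝔭 r hr (by omega) hr𝔭 ht P hP
    have gα := hYα t S 𝔭 r hr (by omega) hr𝔭 ht P hP
    have gβ := hYβ t S 𝔭 r hr (by omega) hr𝔭 ht P hP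
    have gπ : Ge P 1 (S.sp π) := (ge_iff P hπ).2 (by omega)
    have h5 : ¬ Ge P 1 (S.sp z * S.sp w * S.sp v) := by
      intro h6
      apply hnot1 P
      rw [e2]
      refine ge_add P (ge_add P h6 ?_) ?_
      · simpa using ge_mul P gα gπ
      · simpa using ge_mul P gβ (hfP P hP)
    have h6 : S.sp z * S.sp w * S.sp v ≠ 0 := by
      intro h7
      rw [h7] at h5
      exact h5 (ge_zero P 1)
    have hz0 : S.sp z ≠ 0 := left_ne_zero_of_mul (left_ne_zero_of_mul h6)
    have hw0 : S.sp w ≠ 0 := right_ne_zero_of_mul (left_ne_zero_of_mul h6)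
    have hv0 : S.sp v ≠ 0 := right_ne_zero_of_mul h6
    rw [ge_iff P h6, ord_mul P (mul_ne_zero hz0 hw0) hv0, ord_mul P hz0 hw0] at h5
    rw [ge_iff P hz0] at gz
    rw [ge_iff P hw0] at gw
    rw [ge_iff P hv0] at gv
    have h7 := congrArg (ord P) e1
    rw [ord_mul P hfK hz0, ord_mul P (pow_ne_zero _ hπ) hw0, ord_pow, ord_algebraMap, hP,
      hord, mul_one] at h7
    have h8 : (erel k P : ℤ) = e * ord P (S.sp π) := by
      have : ord P (S.sp z) = 0 := by omega
      have : ord P (S.sp w) = 0 := by omega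
      omega
    have h9 : 2 ≤ erel k P := by
      have h10 : (2 : ℤ) ≤ e := by exact_mod_cast he
      have h11 : (1 : ℤ) ≤ ord P (S.sp π) := by omega
      have h12 : (2 : ℤ) ≤ erel k P := by
        rw [h8]
        nlinarith
      exact_mod_cast h12
    have hrP : ((r : ℕ) : 𝓞 S.K) ∈ P.asIdeal := by
      rw [← mem_below (k := k) P r, hP]
      exact hr𝔭
    exact dvd_discr_of_erel P hr hrP h9

end

end Pool.Agent.H20.ML
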