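import Pool.Agent.H20.ML.Defs
import Pool.Agent.H35.AN.DiscLe

/-!
# ML-12: the discriminant bound for the specialised fields
-/

set_option autoImplicit false

open Polynomial IsDedekindDomain NumberField

namespace Pool.Agent.H20.ML

open Pool.Agent.H35.AN

/-- a Cauchy type bound for the roots of a monic polynomial -/
theorem ml12_root_le (N : ℕ) (b : ℕ → ℂ) (z : ℂ) (B R : ℝ) (hB : 1 ≤ B) (hR : 0 ≤ R)
    (h : z ^ N + ∑ j ∈ Finset.range N, b j * z ^ j = 0)
    (hb : ∀ j < N, ‖b j‖ ≤ B * R ^ (N - j)) : ‖z‖ ≤ N * B * R := by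
  rcases Nat.eq_zero_or_pos N with h0 | h0
  · subst h0
    simp at h
  by_contra hlt
  push Not at hlt
  have hN1 : (1 : ℝ) ≤ N := by exact_mod_cast h0
  have hRz : R ≤ ‖z‖ := by
    have : 1 * R ≤ N * B * R := by
      apply mul_le_mul_of_nonneg_right _ hR
      nlinarith
    linarith
  have hz0 : 0 < ‖z‖ := by
    have : 0 ≤ (N : ℝ) * B * R := by positivity
    linarith
  have h1 : z ^ N = -∑ j ∈ Finset.range N, b j * z ^ j := by
    rw [eq_neg_iff_add_eq_zero, h]
  have h2 : ‖z‖ ^ N ≤ ∑ j ∈ Finset.range N, B * R * ‖z‖ ^ (N - 1) := by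
    rw [← norm_pow, h1, norm_neg]
    refine (norm_sum_le _ _).trans (Finset.sum_le_sum fun j hj => ?_)
    have hj' := Finset.mem_range.mp hj
    rw [norm_mul, norm_pow]
    have h3 : ‖b j‖ * ‖z‖ ^ j ≤ B * R ^ (N - j) * ‖z‖ ^ j :=
      mul_le_mul_of_nonneg_right (hb j hj') (by positivity)
    refine h3.trans ?_
    have h4 : N - j = (N - 1 - j) + 1 := by omega
    have h5 : R ^ (N - j) * ‖z‖ ^ j ≤ R * ‖z‖ ^ (N - 1) := by
      rw [h4, pow_succ]
      have h6 : R ^ (N - 1 - j) ≤ ‖z‖ ^ (N - 1 - j) := pow_le_pow_left₀ hR hRz _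
      have h7 : ‖z‖ ^ (N - 1) = ‖z‖ ^ (N - 1 - j) * ‖z‖ ^ j := by
        rw [← pow_add]
        congr 1
        omega
      rw [h7]
      calc R ^ (N - 1 - j) * R * ‖z‖ ^ j = R * (R ^ (N - 1 - j) * ‖z‖ ^ j) := by ring
        _ ≤ R * (‖z‖ ^ (N - 1 - j) * ‖z‖ ^ j) := by
          apply mul_le_mul_of_nonneg_left _ hR
          exact mul_le_mul_of_nonneg_right h6 (by positivity)
    calc B * R ^ (N - j) * ‖z‖ ^ j = B * (R ^ (N - j) * ‖z‖ ^ j) := by ring
      _ ≤ B * (R * ‖z‖ ^ (N - 1)) := mul_le_mul_of_nonneg_left h5 (by linarith)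
      _ = B * R * ‖z‖ ^ (N - 1) := by ring
  rw [Finset.sum_const, Finset.card_range, nsmul_eq_mul] at h2
  have h8 : ‖z‖ ^ N = ‖z‖ * ‖z‖ ^ (N - 1) := by
    rw [← pow_succ']
    congr 1
    omega
  rw [h8] at h2
  have h9 : (N : ℝ) * (B * R * ‖z‖ ^ (N - 1)) = (N * B * R) * ‖z‖ ^ (N - 1) := by ring
  rw [h9] at h2
  have h10 : 0 < ‖z‖ ^ (N - 1) := by positivity
  have := mul_lt_mul_of_pos_right hlt h10
  linarith

variable (k : Type) [Field k] [NumberField k]

/-- the integral multiple of the value of an element of weight `a` -/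
theorem ml12_elt (P : k[X][X]) (hP : P.Monic) (a : ℕ)
    (hdeg : ∀ j ≤ P.natDegree, (P.coeff j).natDegree ≤ a * (P.natDegree - j)) :
    ∃ (c : 𝓞 k) (C : ℝ), c ≠ 0 ∧ 0 < C ∧ ∀ T : ℝ, 1 ≤ T → ∀ u v : 𝓞 k, v ≠ 0 →
      (∀ φ : k →+* ℂ, ‖φ (u : k)‖ ≤ T ∧ ‖φ (v : k)‖ ≤ T) →
      ∀ (K : Type) [Field K] [NumberField K] [Algebra k K] (y : K),
        eval₂ ((algebraMap k K).comp (evalRingHom ((u : k) / (v : k)))) y P = 0 →
        IsIntegral ℤ (algebraMap k K ((c : k) * (v : k) ^ a) * y) ∧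
          ∀ φ : K →+* ℂ, ‖φ (algebraMap k K ((c : k) * (v : k) ^ a) * y)‖ ≤ C * T ^ a := by
  classical
  set N := P.natDegree with hN
  obtain ⟨c, hc⟩ := IsLocalization.exist_integer_multiples_of_finset (nonZeroDivisors (𝓞 k))
    ((Finset.range (N + 1) ×ˢ Finset.range (a * N + 1)).image
      (fun x => ((P.coeff x.1).coeff x.2 : k)))
  have hc0 : ((c : 𝓞 k)) ≠ 0 := nonZeroDivisors.ne_zero c.2
  have hc' : ∀ j l : ℕ, ∃ e : 𝓞 k, j ≤ N → l ≤ a * N →
      ((c : 𝓞 k) : k) * (P.coeff j).coeff l = (e : k) := by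
    intro j l
    by_cases hj : j ≤ N ∧ l ≤ a * N
    · obtain ⟨e, he⟩ := hc ((P.coeff j).coeff l) (Finset.mem_image.mpr ⟨(j, l), by
        simp only [Finset.mem_product, Finset.mem_range]
        omega, rfl⟩)
      refine ⟨e, fun _ _ => ?_⟩
      change ((c : 𝓞 k) : k) * (P.coeff j).coeff l = algebraMap (𝓞 k) k e
      rw [he, Algebra.smul_def]
    · exact ⟨0, fun h1 h2 => absurd ⟨h1, h2⟩ hj⟩
  choose e he using hc'
  let E : ℝ := 1 + ∑ ψ : k →+* ℂ, ∑ j ∈ Finset.range N, ∑ l ∈ Finset.range (a * N + 1),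
    ‖ψ (e j l : k)‖ * ‖ψ ((c : 𝓞 k) : k)‖ ^ (N - j - 1)
  have hE0 : 0 ≤ ∑ ψ : k →+* ℂ, ∑ j ∈ Finset.range N, ∑ l ∈ Finset.range (a * N + 1),
      ‖ψ (e j l : k)‖ * ‖ψ ((c : 𝓞 k) : k)‖ ^ (N - j - 1) :=
    Finset.sum_nonneg fun _ _ => Finset.sum_nonneg fun _ _ => Finset.sum_nonneg fun _ _ => by
      positivity
  have hE1 : 1 ≤ E := by simp only [E]; linarith
  refine ⟨(c : 𝓞 k), N * E + 1, hc0, by positivity, ?_⟩
  intro T hT u v hv huv K _ _ _ y hy
  set t : k := (u : k) / (v : k) with ht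
  have hv' : (v : k) ≠ 0 := by
    intro h0
    exact hv (RingOfIntegers.ext h0)
  set s : k := ((c : 𝓞 k) : k) * (v : k) ^ a with hs
  -- the integral coefficients
  let b : ℕ → 𝓞 k := fun j => ∑ l ∈ Finset.range (a * (N - j) + 1),
    e j l * (c : 𝓞 k) ^ (N - j - 1) * u ^ l * v ^ (a * (N - j) - l)
  have hbk : ∀ j < N, (P.coeff j).eval t * s ^ (N - j) = (b j : k) := by
    intro j hj
    have h1 : (P.coeff j).natDegree < a * (N - j) + 1 := by
      have := hdeg j hj.le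
      omega
    rw [eval_eq_sum_range' h1, Finset.sum_mul]
    change _ = algebraMap (𝓞 k) k (b j)
    simp only [b, map_sum, map_mul, map_pow]
    refine Finset.sum_congr rfl fun l hl => ?_
    have hl' : l ≤ a * (N - j) := by
      have := Finset.mem_range.mp hl
      omega
    have hl2 : l ≤ a * N := hl'.trans (Nat.mul_le_mul_left a (Nat.sub_le _ _))
    have h2 := he j l hj.le hl2
    have h3 : s ^ (N - j) = ((c : 𝓞 k) : k) * ((c : 𝓞 k) : k) ^ (N - j - 1) *
        ((v : k) ^ l * (v : k) ^ (a * (N - j) - l)) := by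
      rw [hs, mul_pow, ← pow_mul, ← pow_succ', ← pow_add]
      congr 2
      · omega
      · omega
    rw [h3, ht, div_pow]
    change _ = ((e j l : 𝓞 k) : k) * ((c : 𝓞 k) : k) ^ (N - j - 1) * (u : k) ^ l *
      (v : k) ^ (a * (N - j) - l)
    rw [← h2]
    field_simp
  -- the equation
  set x : K := algebraMap k K s * y with hx
  have heq : x ^ N + ∑ j ∈ Finset.range N, algebraMap k K (b j : k) * x ^ j = 0 := by
    have h1 : ∑ j ∈ Finset.range (N + 1), algebraMap k K ((P.coeff j).eval t) * y ^ j = 0 := by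
      rw [eval₂_eq_sum_range] at hy
      rw [← hN] at hy
      simpa using hy
    have h2 : algebraMap k K s ^ N *
        ∑ j ∈ Finset.range (N + 1), algebraMap k K ((P.coeff j).eval t) * y ^ j = 0 := by
      rw [h1, mul_zero]
    rw [Finset.sum_range_succ, mul_add, Finset.mul_sum] at h2
    have h3 : P.coeff N = 1 := by
      rw [hN]
      exact hP
    rw [h3, eval_one, map_one, one_mul, ← mul_pow, ← hx, add_comm] at h2
    rw [← h2]
    congr 1
    refine Finset.sum_congr rfl fun j hj => ?_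
    have hj' := Finset.mem_range.mp hj
    rw [← hbk j hj', hx, map_mul, map_pow]
    have h4 : algebraMap k K s ^ N = algebraMap k K s ^ (N - j) * algebraMap k K s ^ j := by
      rw [← pow_add]
      congr 1
      omega
    rw [h4]
    ring
  refine ⟨?_, ?_⟩
  · -- integrality
    have h5 : IsIntegral (𝓞 k) x := by
      refine ⟨X ^ N + ∑ j ∈ Finset.range N, C (b j) * X ^ j, ?_, ?_⟩
      · apply monic_X_pow_add
        refine (degree_sum_le _ _).trans_lt ?_
        rw [Finset.sup_lt_iff (by exact WithBot.bot_lt_coe _)]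
        intro j hj
        refine (degree_C_mul_X_pow_le _ _).trans_lt ?_
        exact_mod_cast Finset.mem_range.mp hj
      · rw [eval₂_add, eval₂_pow, eval₂_X, eval₂_finsetSum]
        rw [← heq]
        congr 1
        refine Finset.sum_congr rfl fun j _ => ?_
        rw [eval₂_mul, eval₂_C, eval₂_pow, eval₂_X]
        rfl
    exact isIntegral_trans x h5
  · intro φ
    let ψ : k →+* ℂ := φ.comp (algebraMap k K)
    have h6 : (φ x) ^ N + ∑ j ∈ Finset.range N, ψ (b j : k) * (φ x) ^ j = 0 := by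
      have := congrArg φ heq
      simpa [ψ] using this
    have hTa : (0 : ℝ) ≤ T ^ a := by positivity
    have h7 := ml12_root_le N (fun j => ψ (b j : k)) (φ x) E (T ^ a) hE1 hTa h6 ?_
    · refine h7.trans ?_
      nlinarith
    intro j hj
    have hu := (huv ψ).1
    have hvv := (huv ψ).2
    have h8 : ‖ψ (b j : k)‖ ≤ ∑ l ∈ Finset.range (a * (N - j) + 1),
        ‖ψ (e j l : k)‖ * ‖ψ ((c : 𝓞 k) : k)‖ ^ (N - j - 1) * T ^ (a * (N - j)) := by
      simp only [b, map_sum, map_mul, map_pow]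
      refine (norm_sum_le _ _).trans (Finset.sum_le_sum fun l hl => ?_)
      have hl' : l ≤ a * (N - j) := by
        have := Finset.mem_range.mp hl
        omega
      rw [norm_mul, norm_mul, norm_mul, norm_pow, norm_pow, norm_pow]
      have h9 : T ^ (a * (N - j)) = T ^ l * T ^ (a * (N - j) - l) := by
        rw [← pow_add]
        congr 1
        omega
      rw [h9, mul_assoc (‖ψ (e j l : k)‖ * ‖ψ ((c : 𝓞 k) : k)‖ ^ (N - j - 1))]
      apply mul_le_mul_of_nonneg_left _ (by positivity)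
      exact mul_le_mul (pow_le_pow_left₀ (norm_nonneg _) hu _)
        (pow_le_pow_left₀ (norm_nonneg _) hvv _) (by positivity) (by positivity)
    rw [← Finset.sum_mul] at h8
    refine h8.trans ?_
    rw [← pow_mul]
    apply mul_le_mul_of_nonneg_right _ (by positivity)
    have h10 : ∑ l ∈ Finset.range (a * (N - j) + 1),
        ‖ψ (e j l : k)‖ * ‖ψ ((c : 𝓞 k) : k)‖ ^ (N - j - 1) ≤
        ∑ l ∈ Finset.range (a * N + 1),
          ‖ψ (e j l : k)‖ * ‖ψ ((c : 𝓞 k) : k)‖ ^ (N - j - 1) := by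
      apply Finset.sum_le_sum_of_subset_of_nonneg
      · apply Finset.range_mono
        have : a * (N - j) ≤ a * N := Nat.mul_le_mul_left a (Nat.sub_le _ _)
        omega
      · intro _ _ _
        positivity
    have h11 : ∑ l ∈ Finset.range (a * N + 1),
          ‖ψ (e j l : k)‖ * ‖ψ ((c : 𝓞 k) : k)‖ ^ (N - j - 1) ≤
        ∑ j ∈ Finset.range N, ∑ l ∈ Finset.range (a * N + 1),
          ‖ψ (e j l : k)‖ * ‖ψ ((c : 𝓞 k) : k)‖ ^ (N - j - 1) :=
      Finset.single_le_sum (f := fun j => ∑ l ∈ Finset.range (a * N + 1),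
          ‖ψ (e j l : k)‖ * ‖ψ ((c : 𝓞 k) : k)‖ ^ (N - j - 1))
        (fun _ _ => Finset.sum_nonneg fun _ _ => by positivity) (Finset.mem_range.mpr hj)
    have h12 : ∑ j ∈ Finset.range N, ∑ l ∈ Finset.range (a * N + 1),
          ‖ψ (e j l : k)‖ * ‖ψ ((c : 𝓞 k) : k)‖ ^ (N - j - 1) ≤
        ∑ ψ : k →+* ℂ, ∑ j ∈ Finset.range N, ∑ l ∈ Finset.range (a * N + 1),
          ‖ψ (e j l : k)‖ * ‖ψ ((c : 𝓞 k) : k)‖ ^ (N - j - 1) :=
      Finset.single_le_sum (f := fun ψ : k →+* ℂ => ∑ j ∈ Finset.range N,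
          ∑ l ∈ Finset.range (a * N + 1),
            ‖ψ (e j l : k)‖ * ‖ψ ((c : 𝓞 k) : k)‖ ^ (N - j - 1))
        (fun _ _ => Finset.sum_nonneg fun _ _ => Finset.sum_nonneg fun _ _ => by positivity)
        (Finset.mem_univ ψ)
    simp only [E]
    linarith

theorem ml12_key {n : ℕ} {L : Type} [Field L] [Algebra (RatFunc k) L] [Algebra k[X] L]
    {a : Fin n → ℕ} (P : Fin n → k[X][X]) (c : Fin n → 𝓞 k) (C : Fin n → ℝ) (C0 : ℝ)
    (w : Fin n → RR k L) (p : Fin n → Fin n → k[X])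
    (hwr : ∀ i, eval₂ (algebraMap k[X] (RR k L)) (w i) (P i) = 0)
    (hp : ∀ i j, algebraMap k[X] (RatFunc k) (p i j) =
      Algebra.trace (RatFunc k) L ((w i * w j : RR k L) : L))
    (hc : ∀ i, c i ≠ 0)
    (hb : ∀ i, ∀ T : ℝ, 1 ≤ T → ∀ u v : 𝓞 k, v ≠ 0 →
      (∀ φ : k →+* ℂ, ‖φ (u : k)‖ ≤ T ∧ ‖φ (v : k)‖ ≤ T) →
      ∀ (K : Type) [Field K] [NumberField K] [Algebra k K] (y : K),
        eval₂ ((algebraMap k K).comp (evalRingHom ((u : k) / (v : k)))) y (P i) = 0 →
        IsIntegral ℤ (algebraMap k K ((c i : k) * (v : k) ^ (a i)) * y) ∧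
          ∀ φ : K →+* ℂ, ‖φ (algebraMap k K ((c i : k) * (v : k) ^ (a i)) * y)‖ ≤
            C i * T ^ (a i))
    (hrel : ∀ (K : Type) [Field K] [NumberField K] [Algebra k K], Module.finrank k K = n →
      ∀ (ω : Fin n → K), (∀ j, IsIntegral ℤ (ω j)) → LinearIndependent k ω →
      ∀ (B : Fin n → ℝ), (∀ (φ : K →+* ℂ) j, ‖φ (ω j)‖ ≤ B j) →
      |(NumberField.discr K : ℝ)| ≤ C0 * (∏ j, B j) ^ (2 * Module.finrank ℚ k))
    (T : ℝ) (hT : 1 ≤ T) (u v : 𝓞 k) (hv : v ≠ 0)
    (huv : ∀ φ : k →+* ℂ, ‖φ (u : k)‖ ≤ T ∧ ‖φ (v : k)‖ ≤ T)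
    (hΔ : (Matrix.of p).det.eval ((u : k) / (v : k)) ≠ 0)
    (K : Type) [Field K] [NumberField K] [Algebra k K] (hfin : Module.finrank k K = n)
    (sp : RR k L →+* K)
    (sp_alg : ∀ q : k[X], sp (algebraMap k[X] (RR k L) q) =
      algebraMap k K (q.eval ((u : k) / (v : k))))
    (htrace : ∀ (y : RR k L) (q : k[X]),
      algebraMap k[X] (RatFunc k) q = Algebra.trace (RatFunc k) L (y : L) →
        Algebra.trace k K (sp y) = q.eval ((u : k) / (v : k))) :
    |(NumberField.discr K : ℝ)| ≤ C0 * (∏ i, C i) ^ (2 * Module.finrank ℚ k) *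
      T ^ (2 * Module.finrank ℚ k * ∑ i, a i) := by
  classical
  have hv' : (v : k) ≠ 0 := by
    intro h0
    exact hv (RingOfIntegers.ext h0)
  set t : k := (u : k) / (v : k) with ht
  have hli : LinearIndependent k (fun i => sp (w i)) := by
    by_contra hcon
    have h1 := Algebra.discr_zero_of_not_linearIndependent k hcon
    apply hΔ
    rw [Algebra.discr_def] at h1
    rw [← h1, ← coe_evalRingHom, RingHom.map_det]
    congr 1
    ext i j
    rw [RingHom.mapMatrix_apply, Matrix.map_apply, Matrix.of_apply,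
      Algebra.traceMatrix_apply, Algebra.traceForm_apply, ← map_mul]
    exact (htrace (w i * w j) (p i j) (hp i j)).symm
  have hs0 : ∀ i, ((c i : 𝓞 k) : k) * (v : k) ^ (a i) ≠ 0 := by
    intro i
    apply mul_ne_zero
    · intro h0
      exact hc i (RingOfIntegers.ext h0)
    · exact pow_ne_zero _ hv'
  let η : Fin n → K := fun i =>
    algebraMap k K (((c i : 𝓞 k) : k) * (v : k) ^ (a i)) * sp (w i)
  have hηli : LinearIndependent k η := by
    have h1 := hli.units_smul (fun i => Units.mk0 _ (hs0 i))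
    convert h1 using 1
    funext i
    simp only [η, Pi.smul_apply', Units.smul_def, Units.val_mk0, Algebra.smul_def]
  have hroot : ∀ i, eval₂ ((algebraMap k K).comp (evalRingHom t)) (sp (w i)) (P i) = 0 := by
    intro i
    have h1 := congrArg sp (hwr i)
    rw [hom_eval₂, map_zero] at h1
    have h2 : sp.comp (algebraMap k[X] (RR k L)) = (algebraMap k K).comp (evalRingHom t) := by
      refine RingHom.ext fun q => ?_
      rw [RingHom.comp_apply, RingHom.comp_apply, sp_alg, coe_evalRingHom]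
    rwa [h2] at h1
  have hη : ∀ i, IsIntegral ℤ (η i) ∧ ∀ φ : K →+* ℂ, ‖φ (η i)‖ ≤ C i * T ^ (a i) :=
    fun i => hb i T hT u v hv huv K (sp (w i)) (hroot i)
  have hfin := hrel K hfin η (fun i => (hη i).1) hηli (fun i => C i * T ^ (a i))
    (fun φ i => (hη i).2 φ)
  refine hfin.trans (le_of_eq ?_)
  rw [Finset.prod_mul_distrib, Finset.prod_pow_eq_pow_sum, mul_pow, ← pow_mul,
    mul_assoc, mul_comm (∑ i, a i)]

theorem discr_bound {n : ℕ} {G : Subgroup (Equiv.Perm (Fin n))} {L : Type} [Field L]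
    [Algebra (RatFunc k) L] [Algebra k[X] L] [IsScalarTower k[X] (RatFunc k) L]
    [FiniteDimensional (RatFunc k) L] (hn : Module.finrank (RatFunc k) L = n)
    (ω : Fin n → L) (hω : LinearIndependent (RatFunc k) ω) (a : Fin n → ℕ)
    (ha : ∀ i, Weight k L (a i) (ω i)) :
    ∃ (C : ℝ) (Δ : k[X]), 0 < C ∧ Δ ≠ 0 ∧ ∀ (T : ℝ), 1 ≤ T → ∀ u v : 𝓞 k, v ≠ 0 →
      (∀ φ : k →+* ℂ, ‖φ (u : k)‖ ≤ T ∧ ‖φ (v : k)‖ ≤ T) → Δ.eval ((u : k) / (v : k)) ≠ 0 →
      ∀ S : FieldAt k n G L ((u : k) / (v : k)),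
        |((@NumberField.discr S.K _ S.nf : ℤ) : ℝ)| ≤
          C * T ^ (2 * Module.finrank ℚ k * ∑ i, a i) := by
  classical
  have hnpos : 0 < n := by
    rw [← hn]
    exact Module.finrank_pos
  have : Nonempty (Fin n) := ⟨⟨0, hnpos⟩⟩
  choose P hPm hPr hPd using ha
  choose c C hc hC hb using fun i => ml12_elt k (P i) (hPm i) (a i) (hPd i)
  obtain ⟨C0, hC0, hrel⟩ := discr_le_rel k n
  let w : Fin n → RR k L := fun i => ⟨ω i, ⟨P i, hPm i, by
    have := hPr i
    rwa [aeval_def] at this⟩⟩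
  have hwr : ∀ i, eval₂ (algebraMap k[X] (RR k L)) (w i) (P i) = 0 := by
    intro i
    have h1 : algebraMap (RR k L) L (eval₂ (algebraMap k[X] (RR k L)) (w i) (P i)) = 0 := by
      rw [hom_eval₂]
      have h2 := hPr i
      rw [aeval_def] at h2
      exact h2
    exact (FaithfulSMul.algebraMap_injective (RR k L) L) (by rw [h1, map_zero])
  have htr : ∀ i j, ∃ p : k[X], algebraMap k[X] (RatFunc k) p =
      Algebra.trace (RatFunc k) L ((w i * w j : RR k L) : L) := by
    intro i j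
    have h1 : IsIntegral k[X] ((w i * w j : RR k L) : L) := (w i * w j).2
    have h2 : IsIntegral k[X] (Algebra.trace (RatFunc k) L ((w i * w j : RR k L) : L)) :=
      Algebra.isIntegral_trace h1
    exact IsIntegrallyClosed.isIntegral_iff.mp h2
  choose p hp using htr
  refine ⟨C0 * (∏ i, C i) ^ (2 * Module.finrank ℚ k), (Matrix.of p).det, ?_, ?_, ?_⟩
  · have : 0 < ∏ i, C i := Finset.prod_pos fun i _ => hC i
    positivity
  · intro h0
    have h1 : algebraMap k[X] (RatFunc k) (Matrix.of p).det = Algebra.discr (RatFunc k) ω := by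
      rw [Algebra.discr_def, RingHom.map_det]
      congr 1
      ext i j
      rw [RingHom.mapMatrix_apply, Matrix.map_apply, Matrix.of_apply, hp i j,
        Algebra.traceMatrix_apply, Algebra.traceForm_apply]
      rfl
    have hcard : Fintype.card (Fin n) = Module.finrank (RatFunc k) L := by
      rw [Fintype.card_fin, hn]
    have h2 := Algebra.discr_not_zero_of_basis (RatFunc k)
      (basisOfLinearIndependentOfCardEqFinrank hω hcard)
    rw [coe_basisOfLinearIndependentOfCardEqFinrank, ← h1, h0, map_zero] at h2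
    exact h2 rfl
  · intro T hT u v hv huv hΔ S
    have key := ml12_key k P c C C0 w p hwr hp hc hb hrel T hT u v hv huv hΔ
    exact @key S.K _ S.nf _ S.fin S.sp S.sp_alg S.trace

end Pool.Agent.H20.ML
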