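import Pool.Agent.H20.ML.Force
import Pool.Agent.H20.ML.FieldEx
import Pool.Agent.H20.ML.Certify
import Pool.Agent.H20.ML.Ramify
import Pool.Agent.H20.ML.Size
import Pool.Agent.H20.ML.CaseOne
import Pool.Agent.H20.ML.CaseTwo
import Pool.Agent.H20.ML.Avoid

set_option autoImplicit false

open Polynomial IsDedekindDomain NumberField Filter

namespace Pool.Agent.H20.ML

open Pool.Agent.H35.AN

section

variable (k : Type) [Field k] [NumberField k]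

/-- the rpow estimate for the discriminant -/
theorem ml21_pow (C : ℝ) (A m w : ℕ) (hm : 0 < m) (ε ε₁ : ℝ)
    (h1 : 2 * (m : ℝ) * A * ε₁ < ε) :
    ∀ᶠ X : ℕ in atTop, C * ((X : ℝ) ^ ((w : ℝ) / (2 * (m : ℝ)) + ε₁)) ^ (2 * m * A) ≤
      (X : ℝ) ^ ((w : ℝ) * A + ε) := by
  have hδ : 0 < ε - 2 * (m : ℝ) * A * ε₁ := by linarith
  have ht : Tendsto (fun X : ℕ => (X : ℝ) ^ (ε - 2 * (m : ℝ) * A * ε₁)) atTop atTop :=
    (tendsto_rpow_atTop hδ).comp tendsto_natCast_atTop_atTop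
  filter_upwards [ht.eventually_ge_atTop C, eventually_ge_atTop 1] with X hX hX1
  have hX0 : (0 : ℝ) < X := by exact_mod_cast hX1
  have hm' : (m : ℝ) ≠ 0 := by exact_mod_cast hm.ne'
  rw [← Real.rpow_natCast, ← Real.rpow_mul hX0.le]
  have e1 : ((w : ℝ) / (2 * (m : ℝ)) + ε₁) * ((2 * m * A : ℕ) : ℝ) =
      (w : ℝ) * A + 2 * (m : ℝ) * A * ε₁ := by
    push_cast
    field_simp
  rw [e1]
  have e2 : (w : ℝ) * A + ε = (ε - 2 * (m : ℝ) * A * ε₁) +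
      ((w : ℝ) * A + 2 * (m : ℝ) * A * ε₁) := by ring
  rw [e2, Real.rpow_add hX0 (ε - 2 * (m : ℝ) * A * ε₁)]
  exact mul_le_mul_of_nonneg_right hX (Real.rpow_nonneg hX0.le _)

/-- primes in the range are eventually larger than `Y` -/
theorem ml21_large (Y : ℕ) (ε₁ : ℝ) (h1 : ε₁ < 1) :
    ∀ᶠ X : ℕ in atTop, ∀ p : ℕ, (X : ℝ) ^ (1 - ε₁) < (p : ℝ) → Y < p := by
  have hδ : 0 < 1 - ε₁ := by linarith
  have ht : Tendsto (fun X : ℕ => (X : ℝ) ^ (1 - ε₁)) atTop atTop :=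
    (tendsto_rpow_atTop hδ).comp tendsto_natCast_atTop_atTop
  filter_upwards [ht.eventually_ge_atTop (Y : ℝ)] with X hX p hp
  exact_mod_cast lt_of_le_of_lt hX hp

theorem key (n : ℕ) (G : Subgroup (Equiv.Perm (Fin n)))
    (L : IntermediateField (RatFunc k) (AlgebraicClosure (RatFunc k)))
    (hn : Module.finrank (RatFunc k) L = n) [FiniteDimensional (RatFunc k) L]
    (hG : HasGroup (RatFunc k) n G L) (hram : RamHyp k L)
    (ω : Fin n → L) (hω : LinearIndependent (RatFunc k) ω) (a : Fin n → ℕ)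
    (ha : ∀ i, Weight k L (a i) (ω i)) :
    KeyCount k n G (∑ i, a i) 1 ∨ KeyCount k n G (∑ i, a i) 2 := by
  obtain ⟨N, iF, iA, iA2, iST, iFD, iG, hN⟩ := exists_fieldAt k L hn hG
  obtain ⟨M, τ, D, hM, hD, hforce⟩ := exists_force k N
  obtain ⟨C₀, Δ, hC, hΔ, hbound⟩ := discr_bound k (G := G) (L := L) hn ω hω a ha
  have hm : 0 < Module.finrank ℚ k := Module.finrank_pos
  have hDΔ : D * Δ ≠ 0 := mul_ne_zero hD hΔ
  rcases hram with ⟨f, hf, hd, hr⟩ | ⟨c₁, c₂, hc, hr1, hr2⟩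
  · left
    intro ε hε
    obtain ⟨Y, hY⟩ := dvd_discr_of_cert k (n := n) (G := G) f (cert_of_ramified k L f hf hr)
    obtain ⟨Y', hY'⟩ := avoid k f hf (D * Δ) hDΔ
    obtain ⟨ε₁, hε₁, h1, h2, h3⟩ : ∃ ε₁ : ℝ, 0 < ε₁ ∧ ε₁ < 1 ∧ ε₁ ≤ ε ∧
        2 * (Module.finrank ℚ k : ℝ) * (∑ i, a i : ℕ) * ε₁ < ε := by
      refine ⟨min ε 1 / (2 * (Module.finrank ℚ k : ℝ) * (∑ i, a i : ℕ) + 2), ?_, ?_, ?_, ?_⟩
      · positivity
      · rw [div_lt_iff₀ (by positivity)]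
        have h0 : (0 : ℝ) ≤ 2 * (Module.finrank ℚ k : ℝ) * (∑ i, a i : ℕ) := by positivity
        have := min_le_right ε 1
        linarith
      · rw [div_le_iff₀ (by positivity)]
        have h0 : (0 : ℝ) ≤ 2 * (Module.finrank ℚ k : ℝ) * (∑ i, a i : ℕ) := by positivity
        have := min_le_left ε 1
        nlinarith
      · have h0 : (0 : ℝ) ≤ 2 * (Module.finrank ℚ k : ℝ) * (∑ i, a i : ℕ) := by positivity
        have h4 := min_le_left ε 1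
        have h5 : 0 < min ε 1 := by positivity
        rw [← mul_div_assoc, div_lt_iff₀ (by positivity)]
        nlinarith
    filter_upwards [case_one k f hf hd M hM τ ε₁ hε₁,
      ml21_pow C₀ (∑ i, a i) (Module.finrank ℚ k) 1 hm ε ε₁ h3,
      ml21_large Y ε₁ h1, ml21_large Y' ε₁ h1, eventually_ge_atTop 1] with X hX hXp hXY hXY' hX1
    have hX1' : (1 : ℝ) ≤ X := by exact_mod_cast hX1
    have hmono : (X : ℝ) ^ (1 - ε) ≤ (X : ℝ) ^ (1 - ε₁) :=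
      Real.rpow_le_rpow_of_exponent_le hX1' (by linarith)
    obtain ⟨S, hS, hSp⟩ := hX
    refine ⟨S.image (fun p => (p, p)), ?_, ?_⟩
    · rw [Finset.card_image_of_injective _ (fun x y h => (Prod.mk.inj h).1)]
      simpa using hmono.trans hS
    · intro p hp
      obtain ⟨q, hq, rfl⟩ := Finset.mem_image.mp hp
      obtain ⟨hqp, hq1, hq2, 𝔭, u, v, hq𝔭, hMa, hMb, hb, hsz, hge, hord⟩ := hSp q hq
      have hne := hY' ((u : k) / (v : k)) 𝔭 q hqp (hXY' q hq1) hq𝔭 hord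
      rw [eval_mul] at hne
      obtain ⟨spc⟩ := hforce u v hMa hMb hb (left_ne_zero_of_mul hne)
      obtain ⟨Sf⟩ := hN _ ⟨spc⟩
      have hdiv := hY ((u : k) / (v : k)) Sf 𝔭 q hqp (hXY q hq1) hq𝔭 hge hord
      have hT : (1 : ℝ) ≤ (X : ℝ) ^ (1 / (2 * (Module.finrank ℚ k : ℝ)) + ε₁) :=
        Real.one_le_rpow hX1' (by positivity)
      have hbd := hbound _ hT u v hb hsz (right_ne_zero_of_mul hne) Sf
      refine ⟨hqp, hqp, lt_of_le_of_lt hmono hq1, lt_of_le_of_lt hmono hq1, Sf.K, Sf.nf, Sf.fin,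
        Sf.gal, ?_, hdiv, hdiv⟩
      refine hbd.trans (le_trans (le_of_eq ?_) hXp)
      simp
  · right
    intro ε hε
    obtain ⟨Y₁, hY₁⟩ := dvd_discr_of_cert k (n := n) (G := G) (Polynomial.X - C c₁)
      (cert_of_ramified k L _ (irreducible_X_sub_C c₁) hr1)
    obtain ⟨Y₂, hY₂⟩ := dvd_discr_of_cert k (n := n) (G := G) (Polynomial.X - C c₂)
      (cert_of_ramified k L _ (irreducible_X_sub_C c₂) hr2)
    obtain ⟨Y', hY'⟩ := avoid k (Polynomial.X - C c₁) (irreducible_X_sub_C c₁) (D * Δ) hDΔ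
    obtain ⟨ε₁, hε₁, h1, h2, h3⟩ : ∃ ε₁ : ℝ, 0 < ε₁ ∧ ε₁ < 1 ∧ ε₁ ≤ ε ∧
        2 * (Module.finrank ℚ k : ℝ) * (∑ i, a i : ℕ) * ε₁ < ε := by
      refine ⟨min ε 1 / (2 * (Module.finrank ℚ k : ℝ) * (∑ i, a i : ℕ) + 2), ?_, ?_, ?_, ?_⟩
      · positivity
      · rw [div_lt_iff₀ (by positivity)]
        have h0 : (0 : ℝ) ≤ 2 * (Module.finrank ℚ k : ℝ) * (∑ i, a i : ℕ) := by positivity
        have := min_le_right ε 1
        linarith
      · rw [div_le_iff₀ (by positivity)]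
        have h0 : (0 : ℝ) ≤ 2 * (Module.finrank ℚ k : ℝ) * (∑ i, a i : ℕ) := by positivity
        have := min_le_left ε 1
        nlinarith
      · have h0 : (0 : ℝ) ≤ 2 * (Module.finrank ℚ k : ℝ) * (∑ i, a i : ℕ) := by positivity
        have h4 := min_le_left ε 1
        have h5 : 0 < min ε 1 := by positivity
        rw [← mul_div_assoc, div_lt_iff₀ (by positivity)]
        nlinarith
    filter_upwards [case_two k c₁ c₂ hc M hM τ ε₁ hε₁,
      ml21_pow C₀ (∑ i, a i) (Module.finrank ℚ k) 2 hm ε ε₁ h3,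
      ml21_large Y₁ ε₁ h1, ml21_large Y₂ ε₁ h1, ml21_large Y' ε₁ h1,
      eventually_ge_atTop 1] with X hX hXp hXY₁ hXY₂ hXY' hX1
    have hX1' : (1 : ℝ) ≤ X := by exact_mod_cast hX1
    have hmono : (X : ℝ) ^ (1 - ε) ≤ (X : ℝ) ^ (1 - ε₁) :=
      Real.rpow_le_rpow_of_exponent_le hX1' (by linarith)
    obtain ⟨S, hS, hSp⟩ := hX
    refine ⟨S, ?_, ?_⟩
    · refine le_trans ?_ hS
      push_cast
      exact Real.rpow_le_rpow_of_exponent_le hX1' (by linarith)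
    · intro p hp
      obtain ⟨hqp₁, hqp₂, hq₁, hq₂, 𝔭₁, 𝔭₂, u, v, hq𝔭₁, hq𝔭₂, hMa, hMb, hb, hsz, hge₁, hord₁,
        hge₂, hord₂⟩ := hSp p hp
      have hord₁' : ord 𝔭₁ ((Polynomial.X - Polynomial.C c₁ : k[X]).eval ((u : k) / (v : k))) = 1 := by
        simpa using hord₁
      have hord₂' : ord 𝔭₂ ((Polynomial.X - Polynomial.C c₂ : k[X]).eval ((u : k) / (v : k))) = 1 := by
        simpa using hord₂
      have hne := hY' ((u : k) / (v : k)) 𝔭₁ p.1 hqp₁ (hXY' _ hq₁) hq𝔭₁ hord₁'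
      rw [eval_mul] at hne
      obtain ⟨spc⟩ := hforce u v hMa hMb hb (left_ne_zero_of_mul hne)
      obtain ⟨Sf⟩ := hN _ ⟨spc⟩
      have hdiv₁ := hY₁ ((u : k) / (v : k)) Sf 𝔭₁ p.1 hqp₁ (hXY₁ _ hq₁) hq𝔭₁ hge₁ hord₁'
      have hdiv₂ := hY₂ ((u : k) / (v : k)) Sf 𝔭₂ p.2 hqp₂ (hXY₂ _ hq₂) hq𝔭₂ hge₂ hord₂'
      have hT : (1 : ℝ) ≤ (X : ℝ) ^ (1 / (Module.finrank ℚ k : ℝ) + ε₁) :=
        Real.one_le_rpow hX1' (by positivity)
      have hbd := hbound _ hT u v hb hsz (right_ne_zero_of_mul hne) Sf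
      refine ⟨hqp₁, hqp₂, lt_of_le_of_lt hmono hq₁, lt_of_le_of_lt hmono hq₂, Sf.K, Sf.nf, Sf.fin,
        Sf.gal, ?_, hdiv₁, hdiv₂⟩
      refine hbd.trans (le_trans (le_of_eq ?_) hXp)
      have e : (1 : ℝ) / (Module.finrank ℚ k : ℝ) = ((2 : ℕ) : ℝ) / (2 * (Module.finrank ℚ k : ℝ)) := by
        have hm' : (Module.finrank ℚ k : ℝ) ≠ 0 := by exact_mod_cast hm.ne'
        push_cast
        field_simp
      rw [e]

end

end Pool.Agent.H20.ML
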