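import Mathlib
import Pool.Agent.H20.ML.Defs
import Pool.Agent.H20.ML.ConstMain

/-!
# Project ML: rational functions

For `t = A(x) / B(x)` with coprime `A`, `B` of degree `n`, the field `L = k(x)` has degree `n` over
`k(t)`, is not constant, and has a basis with the weights `0, 1, ..., 1`.
-/

set_option autoImplicit false

open Polynomial IsDedekindDomain NumberField

namespace Pool.Agent.H20.ML

section Charpoly

variable {k : Type} [Field k]

/-- total degree at most `d` -/
def TotLe (d : ℕ) (p : k[X][X]) : Prop := ∀ j, p.coeff j = 0 ∨ (p.coeff j).natDegree + j ≤ d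

theorem totLe_zero (d : ℕ) : TotLe d (0 : k[X][X]) := fun j => Or.inl (by simp)

theorem TotLe.add {d : ℕ} {p q : k[X][X]} (hp : TotLe d p) (hq : TotLe d q) : TotLe d (p + q) := by
  intro j
  by_cases h : (p + q).coeff j = 0
  · exact Or.inl h
  right
  rw [coeff_add] at h ⊢
  have h1 := natDegree_add_le (p.coeff j) (q.coeff j)
  rcases hp j with h2 | h2 <;> rcases hq j with h3 | h3
  · exact absurd (by rw [h2, h3, add_zero]) h
  · rw [h2, zero_add]; exact h3
  · rw [h3, add_zero]; exact h2
  · omega

theorem TotLe.neg {d : ℕ} {p : k[X][X]} (hp : TotLe d p) : TotLe d (-p) := by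
  intro j
  rw [coeff_neg, neg_eq_zero, natDegree_neg]
  exact hp j

theorem TotLe.sum {ι : Type*} {d : ℕ} (s : Finset ι) (p : ι → k[X][X])
    (hp : ∀ i ∈ s, TotLe d (p i)) : TotLe d (∑ i ∈ s, p i) := by
  classical
  induction s using Finset.induction_on with
  | empty => simpa using totLe_zero d
  | insert a s ha ih =>
    rw [Finset.sum_insert ha]
    exact (hp a (Finset.mem_insert_self _ _)).add
      (ih fun i hi => hp i (Finset.mem_insert_of_mem hi))

theorem TotLe.mul {d e : ℕ} {p q : k[X][X]} (hp : TotLe d p) (hq : TotLe e q) :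
    TotLe (d + e) (p * q) := by
  intro j
  by_cases h : (p * q).coeff j = 0
  · exact Or.inl h
  right
  have hj : j ≤ d + e := by
    by_contra hj
    apply h
    rw [coeff_mul]
    refine Finset.sum_eq_zero fun x hx => ?_
    have := Finset.HasAntidiagonal.mem_antidiagonal.mp hx
    rcases hp x.1 with h2 | h2
    · rw [h2, zero_mul]
    · rcases hq x.2 with h3 | h3
      · rw [h3, mul_zero]
      · omega
  have h1 : ((p * q).coeff j).natDegree ≤ d + e - j := by
    rw [coeff_mul]
    refine natDegree_sum_le_of_forall_le _ _ fun x hx => ?_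
    have := Finset.HasAntidiagonal.mem_antidiagonal.mp hx
    rcases hp x.1 with h2 | h2
    · rw [h2, zero_mul]; simp
    · rcases hq x.2 with h3 | h3
      · rw [h3, mul_zero]; simp
      · have := natDegree_mul_le (p := p.coeff x.1) (q := q.coeff x.2)
        omega
  omega

theorem TotLe.prod {ι : Type*} (s : Finset ι) (p : ι → k[X][X])
    (hp : ∀ i ∈ s, TotLe 1 (p i)) : TotLe s.card (∏ i ∈ s, p i) := by
  classical
  induction s using Finset.induction_on with
  | empty =>
    intro j
    rw [Finset.prod_empty, coeff_one, Finset.card_empty]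
    split_ifs with h
    · right; subst h; simp
    · left; rfl
  | insert a s ha ih =>
    rw [Finset.prod_insert ha, Finset.card_insert_of_notMem ha, add_comm]
    exact (hp a (Finset.mem_insert_self _ _)).mul
      (ih fun i hi => hp i (Finset.mem_insert_of_mem hi))

theorem totLe_charpoly {n : ℕ} (M : Matrix (Fin n) (Fin n) k[X])
    (hM : ∀ i j, (M i j).natDegree ≤ 1) : TotLe n M.charpoly := by
  rw [Matrix.charpoly, Matrix.det_apply]
  refine TotLe.sum _ _ fun σ _ => ?_
  have h1 : TotLe n (∏ i, M.charmatrix (σ i) i) := by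
    have h2 := TotLe.prod Finset.univ (fun i => M.charmatrix (σ i) i) fun i _ => ?_
    · simpa using h2
    · intro j
      rw [Matrix.charmatrix_apply, coeff_sub, Matrix.diagonal_apply]
      rcases j with _ | _ | j
      · right
        split_ifs <;> simp <;> exact hM _ _
      · right
        rw [coeff_C_succ, sub_zero]
        split_ifs <;> simp
      · left
        rw [coeff_C_succ, sub_zero]
        split_ifs
        · rw [coeff_X]; simp
        · simp
  rcases Int.units_eq_one_or (Equiv.Perm.sign σ) with h | h
  · rw [h, one_smul]; exact h1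
  · rw [h, Units.neg_smul, one_smul]; exact h1.neg

/-- an element with an eigenvector for a matrix of linear polynomials has weight one -/
theorem weight_one_of_matrix {L : Type} [Field L] [Algebra k[X] L] {n : ℕ}
    (M : Matrix (Fin n) (Fin n) k[X]) (hM : ∀ i j, (M i j).natDegree ≤ 1) (v : Fin n → L)
    (hv : v ≠ 0) (y : L) (h : ∀ i, y * v i = ∑ j, algebraMap k[X] L (M i j) * v j) :
    Weight k L 1 y := by
  refine ⟨M.charpoly, M.charpoly_monic, ?_, fun j hj => ?_⟩
  · have h1 : (Matrix.scalar (Fin n) y - M.map (algebraMap k[X] L)).det = 0 := by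
      rw [← Matrix.exists_mulVec_eq_zero_iff]
      refine ⟨v, hv, ?_⟩
      ext i
      rw [Matrix.sub_mulVec, Pi.sub_apply, Matrix.scalar_apply, Matrix.mulVec_diagonal, h i]
      simp [Matrix.mulVec, dotProduct]
    have h2 : aeval y M.charpoly = (Matrix.scalar (Fin n) y - M.map (algebraMap k[X] L)).det := by
      rw [aeval_def, ← eval_map, ← Matrix.charpoly_map, Matrix.eval_charpoly]
    rw [h2, h1]
  · rw [Matrix.charpoly_natDegree_eq_dim, Fintype.card_fin] at hj ⊢
    rcases totLe_charpoly M hM j with h1 | h1
    · rw [h1]; simp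
    · omega

end Charpoly

section Tau

variable {R : Type*} [CommRing R]

/-- the top part of a polynomial, divided by `X ^ j` -/
noncomputable def topPart (p : R[X]) (j : ℕ) : R[X] := (divX^[j]) p

theorem coeff_topPart (p : R[X]) (j l : ℕ) : (topPart p j).coeff l = p.coeff (l + j) := by
  induction j generalizing l with
  | zero => rfl
  | succ j ih =>
    rw [topPart, Function.iterate_succ_apply', coeff_divX]
    have := ih (l + 1)
    rw [topPart] at this
    rw [this]
    congr 1
    ring

theorem natDegree_topPart_le (p : R[X]) (j : ℕ) : (topPart p j).natDegree ≤ p.natDegree - j := by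
  rw [natDegree_le_iff_coeff_eq_zero]
  intro l hl
  rw [coeff_topPart]
  exact coeff_eq_zero_of_natDegree_lt (by omega)

theorem natDegree_topPart (p : R[X]) (hp : p ≠ 0) (j : ℕ) (hj : j ≤ p.natDegree) :
    (topPart p j).natDegree = p.natDegree - j := by
  refine le_antisymm (natDegree_topPart_le p j) (le_natDegree_of_ne_zero ?_)
  rw [coeff_topPart, Nat.sub_add_cancel hj]
  exact leadingCoeff_ne_zero.mpr hp

/-- the rows of the multiplication matrix -/
noncomputable def rowPoly (p : R[X]) (j i : ℕ) : R[X] :=
  if i < j then X ^ i * topPart p j else X ^ (i - j) * (X ^ j * topPart p j - p)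

theorem coeff_rowPoly (p : R[X]) (j i c : ℕ) :
    (rowPoly p j i).coeff c = 0 ∨ ∃ m, (rowPoly p j i).coeff c = p.coeff m ∨
      (rowPoly p j i).coeff c = - p.coeff m := by
  unfold rowPoly
  split_ifs with h
  · rw [coeff_X_pow_mul']
    split_ifs
    · exact Or.inr ⟨_, Or.inl (coeff_topPart p j _)⟩
    · exact Or.inl rfl
  · rw [coeff_X_pow_mul']
    split_ifs
    · rw [coeff_sub, coeff_X_pow_mul']
      split_ifs with h2
      · rw [coeff_topPart, Nat.sub_add_cancel h2, sub_self]
        exact Or.inl rfl
      · rw [zero_sub]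
        exact Or.inr ⟨_, Or.inr rfl⟩
    · exact Or.inl rfl

theorem natDegree_rowPoly (p : R[X]) {n : ℕ} (hn : p.natDegree = n) {j i : ℕ} (hj : 1 ≤ j)
    (hjn : j ≤ n) (hi : i < n) : (rowPoly p j i).natDegree < n := by
  unfold rowPoly
  split_ifs with h
  · have h1 := natDegree_mul_le (p := (X : R[X]) ^ i) (q := topPart p j)
    have h2 := natDegree_topPart_le p j
    have h3 := natDegree_X_pow_le (R := R) i
    omega
  · have h1 := natDegree_mul_le (p := (X : R[X]) ^ (i - j)) (q := X ^ j * topPart p j - p)
    have h3 := natDegree_X_pow_le (R := R) (i - j)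
    have h4 : (X ^ j * topPart p j - p).natDegree ≤ j - 1 := by
      rw [natDegree_le_iff_coeff_eq_zero]
      intro l hl
      rw [coeff_sub, coeff_X_pow_mul', if_pos (by omega), coeff_topPart,
        Nat.sub_add_cancel (by omega), sub_self]
    omega

theorem aeval_rowPoly {L : Type*} [CommRing L] [Algebra R L] (p : R[X]) (ξ : L)
    (h : aeval ξ p = 0) (j i : ℕ) : aeval ξ (rowPoly p j i) = aeval ξ (topPart p j) * ξ ^ i := by
  unfold rowPoly
  split_ifs with h1
  · rw [map_mul, map_pow, aeval_X, mul_comm]
  · rw [map_mul, map_sub, h, sub_zero, map_mul, map_pow, map_pow, aeval_X, ← mul_assoc, ← pow_add,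
      Nat.sub_add_cancel (by omega), mul_comm]

end Tau

section Data

variable {k : Type} [Field k] {L : Type} [Field L] [Algebra k[X] L]

theorem weight_topPart (p : k[X][X]) {n : ℕ} (hn : p.natDegree = n)
    (hp : ∀ i, (p.coeff i).natDegree ≤ 1) (ξ : L) (h : aeval ξ p = 0) {j : ℕ} (hj : 1 ≤ j)
    (hjn : j < n) : Weight k L 1 (aeval ξ (topPart p j)) := by
  refine weight_one_of_matrix (n := n) (Matrix.of fun i c => (rowPoly p j i).coeff c) ?_
    (fun i => ξ ^ (i : ℕ)) ?_ _ ?_
  · intro i c
    rw [Matrix.of_apply]
    rcases coeff_rowPoly p j i c with h1 | ⟨m, h1 | h1⟩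
    · rw [h1]; simp
    · rw [h1]; exact hp m
    · rw [h1, natDegree_neg]; exact hp m
  · intro h0
    have := congrFun h0 ⟨0, by omega⟩
    simp at this
  · intro i
    rw [← aeval_rowPoly p ξ h j i, aeval_eq_sum_range' (natDegree_rowPoly p hn hj hjn.le i.2),
      Finset.sum_range]
    refine Finset.sum_congr rfl fun c _ => ?_
    rw [Matrix.of_apply, Algebra.smul_def]

theorem weight_zero_one : Weight k L 0 (1 : L) := by
  refine ⟨X - 1, monic_X_sub_C 1, by simp, fun j _ => ?_⟩
  rw [zero_mul, Nat.le_zero]
  have : (X - 1 : k[X][X]) = X - C 1 := by simp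
  rw [this, coeff_sub, coeff_X, coeff_C]
  split_ifs <;> simp

theorem exists_data [Algebra (RatFunc k) L] [IsScalarTower k[X] (RatFunc k) L] (p : k[X][X])
    {n : ℕ} (hn : p.natDegree = n) (hn0 : 0 < n)
    (hp : ∀ i, (p.coeff i).natDegree ≤ 1) (ξ : L) (h : aeval ξ p = 0)
    (hmin : ∀ q : (RatFunc k)[X], q.natDegree < n → aeval ξ q = 0 → q = 0) :
    ∃ (ω : Fin n → L) (a : Fin n → ℕ), LinearIndependent (RatFunc k) ω ∧
      (∀ i, Weight k L (a i) (ω i)) ∧ ∑ i, a i = n - 1 := by
  classical
  have hp0 : p ≠ 0 := by
    rintro rfl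
    simp at hn
    omega
  -- the sequence of polynomials
  let S : Polynomial.Sequence (RatFunc k) :=
    { elems' := fun i => if i = 0 then 1 else if i < n then
        (topPart p (n - i)).map (algebraMap k[X] (RatFunc k)) else X ^ i
      degree_eq' := fun i => by
        split_ifs with h1 h2
        · subst h1; simp
        · rw [degree_map_eq_of_injective (IsFractionRing.injective k[X] (RatFunc k)),
            degree_eq_natDegree, natDegree_topPart p hp0 _ (by omega), hn]
          · congr 1
            omega
          · intro h3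
            have h4 := natDegree_topPart p hp0 (n - i) (by omega)
            rw [h3, natDegree_zero, hn] at h4
            omega
        · simp }
  have hS : ∀ i, S i = if i = 0 then 1 else if i < n then
      (topPart p (n - i)).map (algebraMap k[X] (RatFunc k)) else X ^ i := fun i => rfl
  refine ⟨fun i => aeval ξ (S i), fun i => if (i : ℕ) = 0 then 0 else 1, ?_, ?_, ?_⟩
  · rw [Fintype.linearIndependent_iff]
    intro g hg i
    have h1 : aeval ξ (∑ i : Fin n, g i • S i) = 0 := by
      rw [map_sum, ← hg]
      exact Finset.sum_congr rfl fun i _ => by rw [map_smul]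
    have h2 : (∑ i : Fin n, g i • S i).natDegree < n := by
      refine lt_of_le_of_lt (natDegree_sum_le_of_forall_le (n := n - 1) _ _ fun i _ => ?_)
        (by omega)
      refine (natDegree_smul_le _ _).trans ?_
      rw [S.natDegree_eq]
      omega
    have h3 := hmin _ h2 h1
    have h4 := S.linearIndependent
    have h5 := h4.comp (fun i : Fin n => (i : ℕ)) Fin.val_injective
    rw [Fintype.linearIndependent_iff] at h5
    exact h5 g h3 i
  · intro i
    dsimp only
    rw [hS]
    split_ifs with h1 h2
    · rw [map_one]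
      exact weight_zero_one
    · rw [aeval_map_algebraMap]
      exact weight_topPart p hn hp ξ h (by omega) (by omega)
    · exact absurd i.2 h2
  · obtain ⟨m, rfl⟩ : ∃ m, n = m + 1 := ⟨n - 1, by omega⟩
    rw [Fin.sum_univ_succ]
    simp

end Data

section Rat

variable {k : Type} [Field k]

/-- the polynomial `A(Y) - t B(Y)` -/
noncomputable def linPencil (A B : k[X]) : k[X][X] := A.map C - C X * B.map C

theorem coeff_linPencil (A B : k[X]) (i : ℕ) :
    (linPencil A B).coeff i = C (A.coeff i) - X * C (B.coeff i) := by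
  rw [linPencil, coeff_sub, coeff_map, coeff_C_mul, coeff_map]

theorem natDegree_coeff_linPencil (A B : k[X]) (i : ℕ) :
    ((linPencil A B).coeff i).natDegree ≤ 1 := by
  rw [coeff_linPencil]
  refine (natDegree_sub_le _ _).trans ?_
  rw [natDegree_C, max_le_iff]
  exact ⟨by omega, (natDegree_mul_le).trans (by rw [natDegree_C, add_zero]; exact natDegree_X_le)⟩

theorem coeff_linPencil_eq_zero (A B : k[X]) (i : ℕ) :
    (linPencil A B).coeff i = 0 ↔ A.coeff i = 0 ∧ B.coeff i = 0 := by
  rw [coeff_linPencil]
  constructor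
  · intro h
    have h0 := congrArg (fun p => coeff p 0) h
    have h1 := congrArg (fun p => coeff p 1) h
    simp only [coeff_sub, coeff_C_zero, mul_coeff_zero, coeff_X_zero, zero_mul, sub_zero,
      coeff_zero] at h0
    simp only [coeff_sub, coeff_C_succ, coeff_X_mul, coeff_C_zero, zero_sub, coeff_zero,
      neg_eq_zero] at h1
    exact ⟨h0, h1⟩
  · rintro ⟨h0, h1⟩
    rw [h0, h1]; simp

theorem natDegree_linPencil (A B : k[X]) :
    (linPencil A B).natDegree = max A.natDegree B.natDegree := by
  refine le_antisymm ?_ ?_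
  · rw [natDegree_le_iff_coeff_eq_zero]
    intro i hi
    rw [coeff_linPencil_eq_zero]
    exact ⟨coeff_eq_zero_of_natDegree_lt (lt_of_le_of_lt (le_max_left _ _) hi),
      coeff_eq_zero_of_natDegree_lt (lt_of_le_of_lt (le_max_right _ _) hi)⟩
  · rw [max_le_iff]
    constructor
    · by_cases hA : A.natDegree = 0
      · rw [hA]; exact Nat.zero_le _
      · refine le_natDegree_of_ne_zero fun h => ?_
        rw [coeff_linPencil_eq_zero] at h
        have := h.1
        rw [coeff_natDegree, leadingCoeff_eq_zero] at this
        rw [this, natDegree_zero] at hA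
        exact hA rfl
    · by_cases hB : B.natDegree = 0
      · rw [hB]; exact Nat.zero_le _
      · refine le_natDegree_of_ne_zero fun h => ?_
        rw [coeff_linPencil_eq_zero] at h
        have := h.2
        rw [coeff_natDegree, leadingCoeff_eq_zero] at this
        rw [this, natDegree_zero] at hB
        exact hB rfl

theorem linPencil_irreducible (A B : k[X]) (h : IsCoprime A B) (hB : B ≠ 0) :
    Irreducible (linPencil A B) := by
  have h1 : Bivariate.swap (linPencil A B) = C A - X * C B := by
    rw [linPencil, map_sub, map_mul, Bivariate.swap_X, Bivariate.swap_map_C, Bivariate.swap_map_C]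
  have h2 : Irreducible (C A - X * C B : k[X][X]) := by
    have h3 : (C A - X * C B : k[X][X]) = C (-B) * X + C A := by
      rw [C_neg]; ring
    rw [h3]
    exact irreducible_C_mul_X_add_C (neg_ne_zero.mpr hB) h.symm.neg_left.isRelPrime
  rw [← h1] at h2
  exact (MulEquiv.irreducible_iff (Bivariate.swap (R := k))).mp h2

theorem co10_self' (f : k[X]) : aeval RatFunc.X f = algebraMap k[X] (RatFunc k) f := by
  rw [← RatFunc.algebraMap_X, aeval_algebraMap_apply, aeval_X_left_apply]

theorem ratfun_aeval {Ω : Type} [Field Ω] [Algebra (RatFunc k) Ω] [Algebra k[X] Ω]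
    [IsScalarTower k[X] (RatFunc k) Ω] [Algebra k Ω] [IsScalarTower k k[X] Ω] (A B : k[X]) (x : Ω)
    (hx : aeval x A = algebraMap (RatFunc k) Ω RatFunc.X * aeval x B) :
    aeval x (linPencil A B) = 0 := by
  rw [linPencil, map_sub, map_mul, aeval_C, ← algebraMap_eq, aeval_map_algebraMap,
    aeval_map_algebraMap, hx, IsScalarTower.algebraMap_apply k[X] (RatFunc k) Ω,
    RatFunc.algebraMap_X, sub_self]

theorem ratfun_alg {x : AlgebraicClosure (RatFunc k)}
    {y : IntermediateField.adjoin (RatFunc k) {x}} (hy : IsAlgebraic k y) :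
    IsAlgebraic k (y : AlgebraicClosure (RatFunc k)) := by
  have : IsScalarTower k (IntermediateField.adjoin (RatFunc k) {x})
    (AlgebraicClosure (RatFunc k)) := IsScalarTower.of_algebraMap_eq' rfl
  exact hy.algHom (IsScalarTower.toAlgHom k (IntermediateField.adjoin (RatFunc k) {x})
    (AlgebraicClosure (RatFunc k)))

/-- the constants of `k(x)` -/
theorem ratfun_const (A B : k[X]) (hAB : IsCoprime A B)
    (x : AlgebraicClosure (RatFunc k))
    (hx : aeval x A =
      algebraMap (RatFunc k) (AlgebraicClosure (RatFunc k)) RatFunc.X * aeval x B)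
    (y : AlgebraicClosure (RatFunc k)) (hy : y ∈ IntermediateField.adjoin (RatFunc k) {x})
    (hyk : IsAlgebraic k y) : ∃ c : k, algebraMap k (AlgebraicClosure (RatFunc k)) c = y := by
  set t := algebraMap (RatFunc k) (AlgebraicClosure (RatFunc k)) RatFunc.X with ht
  have htt : Transcendental k t := by
    rw [ht, transcendental_algebraMap_iff (algebraMap (RatFunc k) _).injective]
    exact co6_X
  have hBx : aeval x B ≠ 0 := by
    intro h0
    rw [h0, mul_zero] at hx
    obtain ⟨u, v, huv⟩ := hAB
    have := congrArg (aeval x) huv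
    rw [map_add, map_mul, map_mul, hx, h0, mul_zero, mul_zero, add_zero, map_one] at this
    exact zero_ne_one this
  have htx : t = aeval x A / aeval x B := by rw [hx, mul_div_cancel_right₀ _ hBx]
  have hxt : Transcendental k x := by
    intro h
    apply htt
    rw [htx]
    have h1 : ∀ C : k[X], IsAlgebraic k (aeval x C) := fun C =>
      IsIntegral.isAlgebraic (adjoin_le_integralClosure h.isIntegral
        (Polynomial.aeval_mem_adjoin_singleton k x))
    rw [div_eq_mul_inv]
    exact (h1 A).mul (IsAlgebraic.inv_iff.mpr (h1 B))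
  have hinj := transcendental_iff_injective.1 hxt
  have hφ : nonZeroDivisors k[X] ≤
      (nonZeroDivisors (AlgebraicClosure (RatFunc k))).comap (aeval (R := k) x) := by
    intro p hp
    rw [Submonoid.mem_comap, mem_nonZeroDivisors_iff_ne_zero]
    intro h0
    exact nonZeroDivisors.ne_zero hp (hinj (h0.trans (map_zero _).symm))
  set j := RatFunc.liftAlgHom (aeval (R := k) x) hφ with hj
  have hj1 : ∀ p : k[X], j (algebraMap k[X] (RatFunc k) p) = aeval x p :=
    fun p => RatFunc.liftRingHom_algebraMap _ hφ _
  have hmem : ∀ c : RatFunc k, algebraMap (RatFunc k) (AlgebraicClosure (RatFunc k)) c ∈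
      (j : RatFunc k →+* AlgebraicClosure (RatFunc k)).fieldRange := by
    have h1 : ∀ p : k[X], algebraMap (RatFunc k) (AlgebraicClosure (RatFunc k))
        (algebraMap k[X] (RatFunc k) p) ∈
        (j : RatFunc k →+* AlgebraicClosure (RatFunc k)).fieldRange := by
      intro p
      have h2 : algebraMap (RatFunc k) (AlgebraicClosure (RatFunc k))
          (algebraMap k[X] (RatFunc k) p) = aeval t p := by
        rw [← co10_self', ht, aeval_algebraMap_apply]
      have h3 : aeval t p = j (aeval (algebraMap k[X] (RatFunc k) A /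
          algebraMap k[X] (RatFunc k) B) p) := by
        rw [← aeval_algHom_apply, map_div₀, hj1, hj1, ← htx]
      rw [h2, h3]
      exact ⟨_, rfl⟩
    intro c
    obtain ⟨p, q, hq, rfl⟩ := IsFractionRing.div_surjective (A := k[X]) c
    rw [map_div₀]
    exact div_mem (h1 p) (h1 q)
  have hyj : y ∈ (j : RatFunc k →+* AlgebraicClosure (RatFunc k)).fieldRange := by
    have h4 : IntermediateField.adjoin (RatFunc k) {x} ≤ Subfield.toIntermediateField
        (j : RatFunc k →+* AlgebraicClosure (RatFunc k)).fieldRange hmem := by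
      rw [IntermediateField.adjoin_simple_le_iff]
      refine ⟨RatFunc.X, ?_⟩
      have := hj1 X
      rwa [RatFunc.algebraMap_X, aeval_X] at this
    exact h4 hy
  obtain ⟨g, hg⟩ := hyj
  have hg' : j g = y := hg
  by_cases hc : ∃ c, g = RatFunc.C c
  · obtain ⟨c, rfl⟩ := hc
    refine ⟨c, ?_⟩
    rw [← hg', ← RatFunc.algebraMap_eq_C, AlgHom.commutes]
  · exfalso
    refine RatFunc.transcendental_of_ne_C g hc ?_
    rw [← hg'] at hyk
    exact (isAlgebraic_algHom_iff j j.toRingHom.injective).mp hyk

/-- The function field `k(x)` over `k(t)`, `t = A(x) / B(x)`. -/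
theorem ratfun_data [CharZero k] (A B : k[X]) (hAB : IsCoprime A B) {n : ℕ}
    (hn : max A.natDegree B.natDegree = n) (h2 : 2 ≤ n) (x : AlgebraicClosure (RatFunc k))
    (hx : aeval x A =
      algebraMap (RatFunc k) (AlgebraicClosure (RatFunc k)) RatFunc.X * aeval x B) :
    Module.finrank (RatFunc k) (IntermediateField.adjoin (RatFunc k) {x}) = n ∧
    FiniteDimensional (RatFunc k) (IntermediateField.adjoin (RatFunc k) {x}) ∧
    IntermediateField.adjoin (RatFunc k)
      {y : IntermediateField.adjoin (RatFunc k) {x} | IsAlgebraic k y} ≠ ⊤ ∧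
    ∃ (ω : Fin n → IntermediateField.adjoin (RatFunc k) {x}) (a : Fin n → ℕ),
      LinearIndependent (RatFunc k) ω ∧
      (∀ i, Weight k (IntermediateField.adjoin (RatFunc k) {x}) (a i) (ω i)) ∧
      ∑ i, a i = n - 1 := by
  have hB : B ≠ 0 := by
    rintro rfl
    have h3 := isCoprime_zero_right.mp hAB
    rw [natDegree_eq_zero_of_isUnit h3, natDegree_zero] at hn
    simp at hn
    omega
  have hdeg : (linPencil A B).natDegree = n := by rw [natDegree_linPencil, hn]
  have hirr := linPencil_irreducible A B hAB hB
  have hirr' : Irreducible ((linPencil A B).map (algebraMap k[X] (RatFunc k))) := by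
    rwa [← IsPrimitive.irreducible_iff_irreducible_map_fraction_map]
    exact hirr.isPrimitive (by rw [hdeg]; omega)
  have h0 : aeval x (linPencil A B) = 0 := ratfun_aeval A B x hx
  have h0' : aeval x ((linPencil A B).map (algebraMap k[X] (RatFunc k))) = 0 := by
    rwa [aeval_map_algebraMap]
  have hdeg' : ((linPencil A B).map (algebraMap k[X] (RatFunc k))).natDegree = n := by
    rw [natDegree_map_eq_of_injective (IsFractionRing.injective k[X] (RatFunc k)), hdeg]
  have hint : IsIntegral (RatFunc k) x :=
    Algebra.IsIntegral.isIntegral x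
  have hmin : (minpoly (RatFunc k) x).natDegree = n := by
    have h3 := (minpoly.irreducible hint).associated_of_dvd hirr' (minpoly.dvd _ _ h0')
    rw [natDegree_eq_of_degree_eq (degree_eq_degree_of_associated h3), hdeg']
  have hfin : FiniteDimensional (RatFunc k) (IntermediateField.adjoin (RatFunc k) {x}) :=
    IntermediateField.adjoin.finiteDimensional hint
  have hfr : Module.finrank (RatFunc k) (IntermediateField.adjoin (RatFunc k) {x}) = n := by
    rw [IntermediateField.adjoin.finrank hint, hmin]
  refine ⟨hfr, hfin, ?_, ?_⟩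
  · intro htop
    have hbot : IntermediateField.adjoin (RatFunc k)
        {y : IntermediateField.adjoin (RatFunc k) {x} | IsAlgebraic k y} ≤ ⊥ := by
      rw [IntermediateField.adjoin_le_iff]
      intro y hy
      obtain ⟨c, hc⟩ := ratfun_const A B hAB x hx (y : AlgebraicClosure (RatFunc k)) y.2
        (ratfun_alg hy)
      rw [SetLike.mem_coe, IntermediateField.mem_bot]
      refine ⟨algebraMap k (RatFunc k) c, ?_⟩
      apply Subtype.ext
      rw [← hc]
      rfl
    rw [htop] at hbot
    have h5 : (⊥ : IntermediateField (RatFunc k) (IntermediateField.adjoin (RatFunc k) {x})) = ⊤ :=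
      le_antisymm le_top hbot
    rw [IntermediateField.bot_eq_top_iff_finrank_eq_one, hfr] at h5
    omega
  · have htow : IsScalarTower k[X] (IntermediateField.adjoin (RatFunc k) {x})
        (AlgebraicClosure (RatFunc k)) := IsScalarTower.of_algebraMap_eq' rfl
    have hg := IntermediateField.AdjoinSimple.algebraMap_gen (RatFunc k) x
    refine exists_data (linPencil A B) hdeg (by omega) (natDegree_coeff_linPencil A B)
      (IntermediateField.AdjoinSimple.gen (RatFunc k) x) ?_ ?_
    · apply (algebraMap (IntermediateField.adjoin (RatFunc k) {x})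
        (AlgebraicClosure (RatFunc k))).injective
      rw [← aeval_algebraMap_apply, hg, map_zero, h0]
    · intro q hq h3
      by_contra hq0
      have h4 : aeval x q = 0 := by
        rw [← hg, aeval_algebraMap_apply, h3, map_zero]
      have h5 := natDegree_le_of_dvd (minpoly.dvd _ _ h4) hq0
      omega

end Rat

section Main

open Filter Pool.Agent.H35.AN

/-- the lower bound for the Galois group of `A(x) - t B(x)` over `k(t)` -/
theorem main_ratfun (k : Type) [Field k] [NumberField k] (n : ℕ)
    (G : Subgroup (Equiv.Perm (Fin n)))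
    (main : ∀ (L : IntermediateField (RatFunc k) (AlgebraicClosure (RatFunc k)))
      (_ : Module.finrank (RatFunc k) L = n) [FiniteDimensional (RatFunc k) L]
      (_ : HasGroup (RatFunc k) n G L) (_ : RamHyp k L)
      (ω : Fin n → L) (_ : LinearIndependent (RatFunc k) ω) (a : Fin n → ℕ)
      (_ : ∀ i, Weight k L (a i) (ω i)) (ε : ℝ) (_ : 0 < ε),
      ∀ᶠ B : ℝ in atTop, B ^ (1 / ((∑ i, a i : ℕ) : ℝ) - ε) ≤ (malleCount k n G B : ℝ))
    (h2 : 2 ≤ n) (P Q : k[X]) (hPQ : IsCoprime P Q) (hn : max P.natDegree Q.natDegree = n)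
    (x : AlgebraicClosure (RatFunc k))
    (hx : aeval x P =
      algebraMap (RatFunc k) (AlgebraicClosure (RatFunc k)) RatFunc.X * aeval x Q)
    (hG : HasGroup (RatFunc k) n G (IntermediateField.adjoin (RatFunc k) {x}))
    (ε : ℝ) (hε : 0 < ε) :
    ∀ᶠ B : ℝ in atTop, B ^ (1 / ((n : ℝ) - 1) - ε) ≤ (malleCount k n G B : ℝ) := by
  obtain ⟨h3, h4, h5, ω, a, hω, ha, hsum⟩ := ratfun_data P Q hPQ hn h2 x hx
  have h6 := main2 k n G main (IntermediateField.adjoin (RatFunc k) {x}) h3 hG h5 ω hω a ha ε hε
  rw [hsum, Nat.cast_sub (by omega), Nat.cast_one] at h6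
  exact h6

end Main

end Pool.Agent.H20.ML
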