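import Pool.Agent.H20.ML.Defs

/-!
# Project ML, closed form of the exponent: weights and integrality at infinity
-/

set_option autoImplicit false

open Polynomial

namespace Pool.Agent.H20.ML

section red

variable (k : Type) [Field k]

open Classical in
/-- the valuation ring at infinity of `k(t)` -/
noncomputable def Vinf : ValuationSubring (RatFunc k) := (RatFunc.inftyValuation k).valuationSubring

variable {k}

theorem mem_Vinf {c : RatFunc k} : c ∈ Vinf k ↔ c = 0 ∨ c.intDegree ≤ 0 := by
  classical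
  unfold Vinf
  rw [Valuation.mem_valuationSubring_iff]
  by_cases hc : c = 0
  · simp [hc]
  · have h2 : (@RatFunc.inftyValuation k _ (fun a b => Classical.propDecidable (a = b))) c =
        WithZero.exp c.intDegree := by
      rw [RatFunc.inftyValuation_apply, RatFunc.inftyValuation_of_nonzero k hc]
    rw [h2]
    simp only [hc, false_or]
    rw [← WithZero.exp_zero, WithZero.exp_le_exp]

theorem X_zpow_mem {e : ℤ} : (RatFunc.X : RatFunc k) ^ e ∈ Vinf k ↔ e ≤ 0 := by
  rw [mem_Vinf]
  have h0 : (RatFunc.X : RatFunc k) ^ e ≠ 0 := zpow_ne_zero _ RatFunc.X_ne_zero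
  simp only [h0, false_or]
  have : ((RatFunc.X : RatFunc k) ^ e).intDegree = e := by
    classical
    have h := RatFunc.inftyValuation.X_zpow k e
    rw [RatFunc.inftyValuation_apply, RatFunc.inftyValuation_of_nonzero k h0] at h
    exact WithZero.exp_injective h
  rw [this]

theorem intDegree_zpow_mul {e : ℤ} {c : RatFunc k} (hc : c ≠ 0) :
    ((RatFunc.X : RatFunc k) ^ e * c).intDegree = e + c.intDegree := by
  have h0 : (RatFunc.X : RatFunc k) ^ e ≠ 0 := zpow_ne_zero _ RatFunc.X_ne_zero
  rw [RatFunc.intDegree_mul h0 hc]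
  congr 1
  classical
  have h := RatFunc.inftyValuation.X_zpow k e
  rw [RatFunc.inftyValuation_apply, RatFunc.inftyValuation_of_nonzero k h0] at h
  exact WithZero.exp_injective h

theorem zpow_mul_mem {e : ℤ} {c : RatFunc k} :
    (RatFunc.X : RatFunc k) ^ e * c ∈ Vinf k ↔ c = 0 ∨ e + c.intDegree ≤ 0 := by
  have h0 : (RatFunc.X : RatFunc k) ^ e ≠ 0 := zpow_ne_zero _ RatFunc.X_ne_zero
  by_cases hc : c = 0
  · simp [hc, zero_mem]
  · rw [mem_Vinf, intDegree_zpow_mul hc]
    simp [hc, h0]

variable {L : Type} [Field L] [Algebra (RatFunc k) L]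

variable (L) in
/-- the embedding of the valuation ring at infinity in `L` -/
noncomputable def finf : Vinf k →+* L := (algebraMap (RatFunc k) L).comp (Vinf k).subtype

theorem finf_apply (c : Vinf k) : finf L c = algebraMap (RatFunc k) L (c : RatFunc k) := rfl

theorem isIntegralElem_iff [FiniteDimensional (RatFunc k) L] (y : L) :
    (finf (k := k) L).IsIntegralElem y ↔ ∀ j, (minpoly (RatFunc k) y).coeff j ∈ Vinf k := by
  constructor
  · intro h j
    let _ : Algebra (Vinf k) L := (finf (k := k) L).toAlgebra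
    have : IsScalarTower (Vinf k) (RatFunc k) L := IsScalarTower.of_algebraMap_eq (fun c => rfl)
    have h1 : IsIntegral (Vinf k) y := h
    have h2 := minpoly.isIntegrallyClosed_eq_field_fractions' (RatFunc k) h1
    rw [h2, coeff_map]
    exact ((minpoly (Vinf k) y).coeff j).2
  · intro h
    have hmon : (minpoly (RatFunc k) y).Monic := minpoly.monic (Algebra.IsIntegral.isIntegral y)
    have hlift : minpoly (RatFunc k) y ∈ Polynomial.lifts (Vinf k).subtype := by
      rw [Polynomial.lifts_iff_coeff_lifts]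
      intro j
      exact ⟨⟨_, h j⟩, rfl⟩
    obtain ⟨q, hq, _, hqm⟩ := Polynomial.lifts_and_natDegree_eq_and_monic hlift hmon
    refine ⟨q, hqm, ?_⟩
    have h3 : eval₂ (finf (k := k) L) y q = aeval y (q.map (Vinf k).subtype) := by
      rw [aeval_def, eval₂_map]
      rfl
    rw [h3, hq, minpoly.aeval]

theorem minpoly_smul [FiniteDimensional (RatFunc k) L] (c : RatFunc k) (hc : c ≠ 0) (y : L) :
    minpoly (RatFunc k) (algebraMap (RatFunc k) L c * y) = scaleRoots (minpoly (RatFunc k) y) c := by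
  symm
  have hy : IsIntegral (RatFunc k) y := Algebra.IsIntegral.isIntegral y
  refine minpoly.unique _ _ ?_ ?_ ?_
  · rw [monic_scaleRoots_iff]
    exact minpoly.monic hy
  · exact scaleRoots_aeval_eq_zero (minpoly.aeval _ _)
  · intro q hq hq0
    rw [degree_scaleRoots]
    have h1 : aeval y (scaleRoots q c⁻¹) = 0 := by
      have h2 := scaleRoots_aeval_eq_zero (A := L) (r := c⁻¹) hq0
      rwa [← mul_assoc, ← map_mul, inv_mul_cancel₀ hc, map_one, one_mul] at h2
    have h3 := minpoly.min (RatFunc k) y ((monic_scaleRoots_iff (c⁻¹)).2 hq) h1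
    rwa [degree_scaleRoots] at h3

theorem isIntegralElem_mul {c : RatFunc k} (hc : c ∈ Vinf k) {y : L}
    (hy : (finf (k := k) L).IsIntegralElem y) :
    (finf (k := k) L).IsIntegralElem (algebraMap (RatFunc k) L c * y) :=
  ((finf (k := k) L).isIntegralElem_map (x := ⟨c, hc⟩)).mul _ hy

section wt

variable [Algebra k[X] L]

variable (k) in
/-- `y` is integral over `k[t]` and `t^(-m) y` is integral at infinity -/
def Wt (m : ℤ) (y : L) : Prop :=
  IsIntegral k[X] y ∧
    (finf (k := k) L).IsIntegralElem (algebraMap (RatFunc k) L (RatFunc.X ^ (-m)) * y)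

theorem Wt.add {m : ℤ} {x y : L} (hx : Wt k m x) (hy : Wt k m y) : Wt k m (x + y) := by
  refine ⟨hx.1.add hy.1, ?_⟩
  rw [mul_add]
  exact hx.2.add _ hy.2

theorem Wt.zero (m : ℤ) : Wt k m (0 : L) := by
  refine ⟨isIntegral_zero, ?_⟩
  rw [mul_zero]
  exact (finf (k := k) L).isIntegralElem_zero

variable [IsScalarTower k[X] (RatFunc k) L]

theorem Wt.mul {m d : ℤ} {y : L} (hy : Wt k m y) (p : k[X]) (hp : p = 0 ∨ (p.natDegree : ℤ) ≤ d) :
    Wt k (m + d) (algebraMap k[X] L p * y) := by
  refine ⟨isIntegral_algebraMap.mul hy.1, ?_⟩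
  have h1 : algebraMap (RatFunc k) L (RatFunc.X ^ (-(m + d))) * (algebraMap k[X] L p * y) =
      algebraMap (RatFunc k) L (RatFunc.X ^ (-d) * algebraMap k[X] (RatFunc k) p) *
        (algebraMap (RatFunc k) L (RatFunc.X ^ (-m)) * y) := by
    rw [IsScalarTower.algebraMap_apply k[X] (RatFunc k) L, neg_add, zpow_add₀ RatFunc.X_ne_zero,
      map_mul, map_mul]
    ring
  rw [h1]
  refine isIntegralElem_mul ?_ hy.2
  rw [zpow_mul_mem]
  rcases hp with hp | hp
  · left
    rw [hp, map_zero]
  · right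
    rw [RatFunc.intDegree_polynomial]
    linarith

theorem Wt.of_mul {m : ℤ} {y : L} (hy : IsIntegral k[X] y) (p : k[X]) (hp : p ≠ 0)
    (h : Wt k (m + p.natDegree) (algebraMap k[X] L p * y)) : Wt k m y := by
  refine ⟨hy, ?_⟩
  have hp' : algebraMap k[X] (RatFunc k) p ≠ 0 := by
    simpa using hp
  have h1 : algebraMap (RatFunc k) L (RatFunc.X ^ (-m)) * y =
      algebraMap (RatFunc k) L (RatFunc.X ^ (p.natDegree : ℤ) * (algebraMap k[X] (RatFunc k) p)⁻¹) *
        (algebraMap (RatFunc k) L (RatFunc.X ^ (-(m + p.natDegree))) *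
          (algebraMap k[X] L p * y)) := by
    rw [IsScalarTower.algebraMap_apply k[X] (RatFunc k) L, neg_add, zpow_add₀ RatFunc.X_ne_zero,
      map_mul, map_mul]
    have h2 : algebraMap (RatFunc k) L (algebraMap k[X] (RatFunc k) p)⁻¹ *
        algebraMap (RatFunc k) L (algebraMap k[X] (RatFunc k) p) = 1 := by
      rw [← map_mul, inv_mul_cancel₀ hp', map_one]
    have h3 : algebraMap (RatFunc k) L (RatFunc.X ^ (p.natDegree : ℤ)) *
        algebraMap (RatFunc k) L (RatFunc.X ^ (-(p.natDegree : ℤ))) = 1 := by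
      rw [← map_mul, ← zpow_add₀ RatFunc.X_ne_zero, add_neg_cancel, zpow_zero, map_one]
    linear_combination (-(algebraMap (RatFunc k) L (RatFunc.X ^ (-m)) * y)) *
      (h2 * (algebraMap (RatFunc k) L (RatFunc.X ^ (p.natDegree : ℤ)) *
        algebraMap (RatFunc k) L (RatFunc.X ^ (-(p.natDegree : ℤ)))) + h3)
  rw [h1]
  refine isIntegralElem_mul ?_ h.2
  rw [zpow_mul_mem]
  right
  rw [RatFunc.intDegree_inv, RatFunc.intDegree_polynomial]
  linarith

theorem Wt.mono {m m' : ℤ} {y : L} (hy : Wt k m y) (h : m ≤ m') : Wt k m' y := by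
  have h1 := hy.mul (d := m' - m) 1 (Or.inr (by simpa using h))
  rwa [map_one, one_mul, add_sub_cancel] at h1

theorem Wt.neg {m : ℤ} {y : L} (hy : Wt k m y) : Wt k m (-y) := by
  have h1 := hy.mul (d := 0) (-1) (Or.inr (by simp))
  rwa [map_neg, map_one, neg_mul, one_mul, add_zero] at h1

omit [IsScalarTower k[X] (RatFunc k) L] in
theorem Wt.sum {ι : Type*} (s : Finset ι) (f : ι → L) {m : ℤ} (h : ∀ i ∈ s, Wt k m (f i)) :
    Wt k m (∑ i ∈ s, f i) := by
  classical
  induction s using Finset.induction_on with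
  | empty => simpa using Wt.zero (k := k) (L := L) m
  | insert i s hi ih =>
    rw [Finset.sum_insert hi]
    exact (h i (Finset.mem_insert_self i s)).add (ih fun j hj => h j (Finset.mem_insert_of_mem hj))

theorem wt_iff [FiniteDimensional (RatFunc k) L] (m : ℤ) (y : L) : Wt k m y ↔
    IsIntegral k[X] y ∧ ∀ j ≤ (minpoly k[X] y).natDegree, (minpoly k[X] y).coeff j = 0 ∨
      (((minpoly k[X] y).coeff j).natDegree : ℤ) ≤ m * ((minpoly k[X] y).natDegree - j) := by
  unfold Wt
  refine and_congr_right fun hy => ?_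
  have hX : (RatFunc.X : RatFunc k) ^ (-m) ≠ 0 := zpow_ne_zero _ RatFunc.X_ne_zero
  have h1 := minpoly.isIntegrallyClosed_eq_field_fractions' (RatFunc k) hy
  have hdeg : (minpoly (RatFunc k) y).natDegree = (minpoly k[X] y).natDegree := by
    rw [h1]
    exact natDegree_map_eq_of_injective (RatFunc.algebraMap_injective k) _
  have key : ∀ j, (minpoly (RatFunc k) (algebraMap (RatFunc k) L (RatFunc.X ^ (-m)) * y)).coeff j =
      RatFunc.X ^ (-m * ((((minpoly k[X] y).natDegree - j : ℕ)) : ℤ)) *
        algebraMap k[X] (RatFunc k) ((minpoly k[X] y).coeff j) := by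
    intro j
    rw [minpoly_smul _ hX, coeff_scaleRoots, hdeg, h1, coeff_map, zpow_mul, zpow_natCast, mul_comm]
  rw [isIntegralElem_iff]
  constructor
  · intro h j hj
    have h2 := h j
    rw [key, zpow_mul_mem] at h2
    rcases h2 with h2 | h2
    · left
      exact (map_eq_zero_iff _ (RatFunc.algebraMap_injective k)).1 h2
    · right
      rw [RatFunc.intDegree_polynomial, Nat.cast_sub hj] at h2
      linarith
  · intro h j
    rw [key, zpow_mul_mem]
    by_cases hj : j ≤ (minpoly k[X] y).natDegree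
    · rcases h j hj with h2 | h2
      · left
        rw [h2, map_zero]
      · right
        rw [RatFunc.intDegree_polynomial, Nat.cast_sub hj]
        linarith
    · left
      rw [coeff_eq_zero_of_natDegree_lt (not_le.1 hj), map_zero]

/-- an element of negative weight is zero -/
theorem Wt.eq_zero [FiniteDimensional (RatFunc k) L] {m : ℤ} (hm : m < 0) {y : L}
    (hy : Wt k m y) : y = 0 := by
  rw [wt_iff] at hy
  have hmon := minpoly.monic hy.1
  have h0 := minpoly.aeval k[X] y
  have h1 : minpoly k[X] y = X ^ (minpoly k[X] y).natDegree := by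
    ext j
    rw [coeff_X_pow]
    by_cases hj : j ≤ (minpoly k[X] y).natDegree
    · by_cases hj' : j = (minpoly k[X] y).natDegree
      · rw [if_pos hj', hj']
        exact congrArg (fun q : k[X] => q.coeff _) hmon.coeff_natDegree
      · rw [if_neg hj']
        rcases hy.2 j hj with h | h
        · rw [h]
        · exfalso
          have h2 : 0 < ((minpoly k[X] y).natDegree : ℤ) - j := by
            have : j < (minpoly k[X] y).natDegree := lt_of_le_of_ne hj hj'
            omega
          have h3 : m * (((minpoly k[X] y).natDegree : ℤ) - j) < 0 := mul_neg_of_neg_of_pos hm h2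
          have h4 : (0 : ℤ) ≤ (((minpoly k[X] y).coeff j).natDegree : ℤ) := Int.natCast_nonneg _
          linarith
    · rw [if_neg (by omega), coeff_eq_zero_of_natDegree_lt (not_le.1 hj)]
  rw [h1, map_pow, aeval_X] at h0
  exact eq_zero_of_pow_eq_zero h0

theorem wt_of_weight {m : ℕ} {y : L} (hy : Weight k L m y) : Wt k m y := by
  obtain ⟨P, hP, hP0, hdeg⟩ := hy
  refine ⟨⟨P, hP, hP0⟩, ?_⟩
  have hX : (RatFunc.X : RatFunc k) ^ (-(m : ℤ)) ≠ 0 := zpow_ne_zero _ RatFunc.X_ne_zero
  set Q := scaleRoots (P.map (algebraMap k[X] (RatFunc k))) (RatFunc.X ^ (-(m : ℤ))) with hQ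
  have hPm : (P.map (algebraMap k[X] (RatFunc k))).Monic := hP.map _
  have hQm : Q.Monic := (monic_scaleRoots_iff _).2 hPm
  have hnat : (P.map (algebraMap k[X] (RatFunc k))).natDegree = P.natDegree :=
    natDegree_map_eq_of_injective (RatFunc.algebraMap_injective k) _
  have hQ0 : aeval (algebraMap (RatFunc k) L (RatFunc.X ^ (-(m : ℤ))) * y) Q = 0 :=
    scaleRoots_aeval_eq_zero (by rwa [aeval_map_algebraMap])
  have hcoeff : ∀ j, Q.coeff j ∈ Vinf k := by
    intro j
    rw [hQ, coeff_scaleRoots, hnat, coeff_map, mul_comm, ← zpow_natCast, ← zpow_mul,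
      zpow_mul_mem]
    by_cases hj : j ≤ P.natDegree
    · right
      rw [RatFunc.intDegree_polynomial]
      have h1 := hdeg j hj
      have h2 : (((P.coeff j).natDegree : ℕ) : ℤ) ≤ (m : ℤ) * ((P.natDegree - j : ℕ) : ℤ) := by
        exact_mod_cast h1
      linarith
    · left
      rw [coeff_eq_zero_of_natDegree_lt (not_le.1 hj), map_zero]
  have hlift : Q ∈ Polynomial.lifts (Vinf k).subtype := by
    rw [Polynomial.lifts_iff_coeff_lifts]
    intro j
    exact ⟨⟨_, hcoeff j⟩, rfl⟩
  obtain ⟨q, hq, _, hqm⟩ := Polynomial.lifts_and_natDegree_eq_and_monic hlift hQm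
  refine ⟨q, hqm, ?_⟩
  have h3 : eval₂ (finf (k := k) L) (algebraMap (RatFunc k) L (RatFunc.X ^ (-(m : ℤ))) * y) q =
      aeval (algebraMap (RatFunc k) L (RatFunc.X ^ (-(m : ℤ))) * y) (q.map (Vinf k).subtype) := by
    rw [aeval_def, eval₂_map]
    rfl
  rw [h3, hq, hQ0]

theorem weight_iff_wt [FiniteDimensional (RatFunc k) L] {m : ℕ} {y : L} :
    Weight k L m y ↔ Wt k m y := by
  refine ⟨wt_of_weight, fun h => ?_⟩
  have h' := (wt_iff (m : ℤ) y).1 h
  refine ⟨minpoly k[X] y, minpoly.monic h.1, minpoly.aeval _ _, fun j hj => ?_⟩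
  rcases h'.2 j hj with h1 | h1
  · rw [h1, natDegree_zero]
    exact Nat.zero_le _
  · rw [← Nat.cast_sub hj] at h1
    exact_mod_cast h1

theorem exists_wt {y : L} (hy : IsIntegral k[X] y) : ∃ m : ℕ, Wt k m y := by
  obtain ⟨P, hP, hP0⟩ := hy
  refine ⟨(Finset.range (P.natDegree + 1)).sup fun j => (P.coeff j).natDegree,
    wt_of_weight ⟨P, hP, hP0, fun j hj => ?_⟩⟩
  rcases Nat.eq_or_lt_of_le hj with h | h
  · rw [h, hP.coeff_natDegree, natDegree_one]
    exact Nat.zero_le _
  · have h1 : (P.coeff j).natDegree ≤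
        (Finset.range (P.natDegree + 1)).sup fun j => (P.coeff j).natDegree :=
      Finset.le_sup (f := fun j => (P.coeff j).natDegree) (Finset.mem_range.2 (by omega))
    exact h1.trans (Nat.le_mul_of_pos_right _ (by omega))

end wt

end red

end Pool.Agent.H20.ML
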