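import Pool.Agent.H20.ML.Reduce1

/-!
# Project ML, closed form of the exponent: reduced bases from successive minima
-/

set_option autoImplicit false

open Polynomial

namespace Pool.Agent.H20.ML

section red2

variable {k : Type} [Field k] {L : Type} [Field L] [Algebra (RatFunc k) L]
  [Algebra k[X] L] [IsScalarTower k[X] (RatFunc k) L] [FiniteDimensional (RatFunc k) L]

omit [FiniteDimensional (RatFunc k) L] in
theorem smul_mem_iff' (U : Submodule (RatFunc k) L) {p : k[X]} (hp : p ≠ 0) (y : L) :
    algebraMap k[X] L p * y ∈ U ↔ y ∈ U := by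
  have hp' : algebraMap k[X] (RatFunc k) p ≠ 0 := by simpa using hp
  rw [IsScalarTower.algebraMap_apply k[X] (RatFunc k) L, ← Algebra.smul_def]
  exact U.smul_mem_iff hp'

theorem exists_min (U : Submodule (RatFunc k) L) (hU : U ≠ ⊤) : ∃ (y : L) (a : ℕ), y ∉ U ∧
    Wt k a y ∧ ∀ (z : L) (m : ℤ), z ∉ U → Wt k m z → (a : ℤ) ≤ m := by
  classical
  have hex : ∃ a : ℕ, ∃ y : L, y ∉ U ∧ Wt k a y := by
    obtain ⟨y, hy⟩ : ∃ y : L, y ∉ U := by
      by_contra h
      push Not at h
      exact hU (eq_top_iff.2 fun y _ => h y)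
    have halg : IsAlgebraic k[X] y :=
      (IsFractionRing.isAlgebraic_iff k[X] (RatFunc k) L).2 (Algebra.IsAlgebraic.isAlgebraic y)
    obtain ⟨p, hp, hpy⟩ := halg.exists_integral_multiple
    obtain ⟨a, ha⟩ := exists_wt (k := k) hpy
    refine ⟨a, _, ?_, ha⟩
    rwa [Algebra.smul_def, smul_mem_iff' U hp]
  refine ⟨(Nat.find_spec hex).choose, Nat.find hex, (Nat.find_spec hex).choose_spec.1,
    (Nat.find_spec hex).choose_spec.2, fun z m hz hW => ?_⟩
  have hm : 0 ≤ m := by
    by_contra hm
    apply hz
    rw [hW.eq_zero (not_le.1 hm)]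
    exact U.zero_mem
  lift m to ℕ using hm
  exact_mod_cast Nat.find_min' hex ⟨z, hz, hW⟩

variable (k L) in
open Classical in
/-- the successive minima -/
noncomputable def omg : ℕ → L × ℕ
  | i =>
    if h : Submodule.span (RatFunc k) (Set.range fun j : Fin i => (omg j.1).1) ≠ ⊤ then
      ((exists_min _ h).choose, (exists_min _ h).choose_spec.choose) else (0, 0)
termination_by i => i
decreasing_by all_goals exact j.2

theorem omg_spec (i : ℕ)
    (h : Submodule.span (RatFunc k) (Set.range fun j : Fin i => (omg k L j.1).1) ≠ ⊤) :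
    (omg k L i).1 ∉ Submodule.span (RatFunc k) (Set.range fun j : Fin i => (omg k L j.1).1) ∧
    Wt k (omg k L i).2 (omg k L i).1 ∧ ∀ (z : L) (m : ℤ),
      z ∉ Submodule.span (RatFunc k) (Set.range fun j : Fin i => (omg k L j.1).1) →
      Wt k m z → ((omg k L i).2 : ℤ) ≤ m := by
  have h1 : omg k L i = ((exists_min _ h).choose, (exists_min _ h).choose_spec.choose) := by
    conv_lhs => rw [omg]
    rw [dif_pos h]
  have h2 := (exists_min _ h).choose_spec.choose_spec
  rw [h1]
  exact h2

theorem omg_li (i : ℕ) (hi : i ≤ Module.finrank (RatFunc k) L) :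
    LinearIndependent (RatFunc k) (fun j : Fin i => (omg k L j.1).1) := by
  induction i with
  | zero => exact linearIndependent_empty_type
  | succ i ih =>
    have h1 := ih (by omega)
    have h2 : Submodule.span (RatFunc k) (Set.range fun j : Fin i => (omg k L j.1).1) ≠ ⊤ := by
      intro h
      have h3 := finrank_span_eq_card h1
      rw [h, finrank_top, Fintype.card_fin] at h3
      omega
    have h3 : (fun j : Fin (i + 1) => (omg k L j.1).1) =
        Fin.snoc (α := fun _ => L) (fun j : Fin i => (omg k L j.1).1) (omg k L i).1 := by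
      ext j
      refine Fin.lastCases ?_ (fun j => ?_) j
      · simp
      · simp
    rw [h3, linearIndependent_finSnoc]
    exact ⟨h1, (omg_spec i h2).1⟩

theorem exists_minima {n : ℕ} (hn : Module.finrank (RatFunc k) L = n) :
    ∃ (ω : Fin n → L) (a : Fin n → ℕ), LinearIndependent (RatFunc k) ω ∧
      (∀ i, Wt k (a i) (ω i)) ∧ ∀ (i : Fin n) (z : L) (m : ℤ),
        z ∉ Submodule.span (RatFunc k) (ω '' Set.Iio i) → Wt k m z → (a i : ℤ) ≤ m := by
  subst hn
  have hne : ∀ i : Fin (Module.finrank (RatFunc k) L),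
      Submodule.span (RatFunc k) (Set.range fun j : Fin i.1 => (omg k L j.1).1) ≠ ⊤ := by
    intro i h
    have h3 := finrank_span_eq_card (omg_li (k := k) (L := L) i.1 i.2.le)
    rw [h, finrank_top, Fintype.card_fin] at h3
    have := i.2
    omega
  refine ⟨fun i => (omg k L i.1).1, fun i => (omg k L i.1).2, omg_li _ le_rfl,
    fun i => (omg_spec i.1 (hne i)).2.1, fun i z m hz hW => (omg_spec i.1 (hne i)).2.2 z m ?_ hW⟩
  convert hz using 3
  ext x
  simp only [Set.mem_range, Set.mem_image, Set.mem_Iio]
  constructor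
  · rintro ⟨j, hj⟩
    exact ⟨⟨j.1, j.2.trans i.2⟩, j.2, hj⟩
  · rintro ⟨j, hj, hj'⟩
    exact ⟨⟨j.1, hj⟩, hj'⟩

variable {n : ℕ} (ω : Fin n → L) (a : Fin n → ℕ) (hli : LinearIndependent (RatFunc k) ω)
  (hW : ∀ i, Wt k (a i) (ω i))
  (hmin : ∀ (i : Fin n) (z : L) (m : ℤ),
        z ∉ Submodule.span (RatFunc k) (ω '' Set.Iio i) → Wt k m z → (a i : ℤ) ≤ m)

include hli hW hmin

omit [IsScalarTower k[X] (RatFunc k) L] [FiniteDimensional (RatFunc k) L] in
theorem min_mono {i j : Fin n} (hij : i ≤ j) : a i ≤ a j := by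
  have h := hmin i (ω j) (a j) (hli.notMem_span_image (by simpa using hij)) (hW j)
  exact_mod_cast h

omit hW hmin [FiniteDimensional (RatFunc k) L] in
/-- an element with a nonzero coefficient at `i₀` and no further coefficients -/
theorem notMem_of_coeff (q : Fin n → k[X]) (i₀ : Fin n) (hq : q i₀ ≠ 0)
    (hz : ∀ i, i₀ < i → q i = 0) :
    ∑ i, algebraMap k[X] L (q i) * ω i ∉ Submodule.span (RatFunc k) (ω '' Set.Iio i₀) := by
  classical
  intro h
  have hmem : ∀ i, i < i₀ →
      algebraMap k[X] L (q i) * ω i ∈ Submodule.span (RatFunc k) (ω '' Set.Iio i₀) := by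
    intro i hi
    rw [IsScalarTower.algebraMap_apply k[X] (RatFunc k) L, ← Algebra.smul_def]
    exact Submodule.smul_mem _ _ (Submodule.subset_span ⟨i, hi, rfl⟩)
  rw [← Finset.add_sum_erase _ _ (Finset.mem_univ i₀)] at h
  have h1 : ∑ i ∈ Finset.univ.erase i₀, algebraMap k[X] L (q i) * ω i ∈
      Submodule.span (RatFunc k) (ω '' Set.Iio i₀) := by
    refine Submodule.sum_mem _ fun i hi => ?_
    rcases lt_trichotomy i i₀ with h2 | h2 | h2
    · exact hmem i h2
    · exact absurd h2 (Finset.ne_of_mem_erase hi)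
    · rw [hz i h2, map_zero, zero_mul]
      exact Submodule.zero_mem _
  have h2 := (Submodule.add_mem_iff_left _ h1).1 h
  rw [smul_mem_iff' _ hq] at h2
  exact hli.notMem_span_image (by simp) h2

omit [FiniteDimensional (RatFunc k) L] in
theorem reduced (p : Fin n → k[X]) (M : ℤ) (h : Wt k M (∑ i, algebraMap k[X] L (p i) * ω i)) :
    ∀ i, p i ≠ 0 → ((p i).natDegree : ℤ) + a i ≤ M := by
  classical
  by_contra hcon
  push Not at hcon
  obtain ⟨i₁, hi₁, hi₁'⟩ := hcon
  set F := Finset.univ.filter (fun i => p i ≠ 0) with hF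
  have hFne : F.Nonempty := ⟨i₁, by simp [hF, hi₁]⟩
  obtain ⟨i₂, hi₂, hmax⟩ := Finset.exists_max_image F (fun i => (p i).natDegree + a i) hFne
  set M' := (p i₂).natDegree + a i₂ with hM'
  have hMM' : M < (M' : ℤ) := by
    have := hmax i₁ (by simp [hF, hi₁])
    have h2 : (((p i₁).natDegree + a i₁ : ℕ) : ℤ) ≤ (M' : ℤ) := by exact_mod_cast this
    push_cast at h2
    linarith
  set S := F.filter (fun i => (p i).natDegree + a i = M') with hS
  have hSne : S.Nonempty := ⟨i₂, by simp [hS, hi₂, hM']⟩
  set i₀ := S.max' hSne with hi₀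
  have hi₀S : i₀ ∈ S := S.max'_mem hSne
  have hi₀p : p i₀ ≠ 0 := by
    have := (Finset.mem_filter.1 hi₀S).1
    simpa [hF] using this
  have hi₀M : (p i₀).natDegree + a i₀ = M' := (Finset.mem_filter.1 hi₀S).2
  have hSlt : ∀ i, i₀ < i → i ∉ S := fun i hi hiS => absurd (S.le_max' i hiS) (not_le.2 hi)
  set e := (p i₀).natDegree with he
  set q : Fin n → k[X] := fun i =>
    if i ∈ S then monomial ((p i).natDegree - e) (p i).leadingCoeff else 0 with hq
  set r : Fin n → k[X] := fun i => if i ∈ S then (p i).eraseLead else p i with hr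
  have hle : ∀ i ∈ S, e ≤ (p i).natDegree := by
    intro i hi
    have h1 : i ≤ i₀ := S.le_max' i hi
    have h2 := min_mono ω a hli hW hmin h1
    have h3 := (Finset.mem_filter.1 hi).2
    omega
  have hpq : ∀ i, p i = X ^ e * q i + r i := by
    intro i
    by_cases hi : i ∈ S
    · simp only [hq, hr, if_pos hi]
      rw [X_pow_mul_monomial, Nat.sub_add_cancel (hle i hi), add_comm]
      exact ((p i).eraseLead_add_monomial_natDegree_leadingCoeff).symm
    · simp only [hq, hr, if_neg hi, mul_zero, zero_add]
  have hrW : ∀ i, Wt k (M' - 1 : ℤ) (algebraMap k[X] L (r i) * ω i) := by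
    intro i
    have h1 : (M' - 1 : ℤ) = a i + (M' - 1 - a i) := by ring
    rw [h1]
    refine (hW i).mul _ ?_
    by_cases hi : i ∈ S
    · have h3 := (Finset.mem_filter.1 hi).2
      simp only [hr, if_pos hi]
      rcases eraseLead_natDegree_lt_or_eraseLead_eq_zero (p i) with h2 | h2
      · right
        have h4 : (((p i).eraseLead.natDegree : ℕ) : ℤ) < ((p i).natDegree : ℤ) := by exact_mod_cast h2
        have h5 : (((p i).natDegree + a i : ℕ) : ℤ) = (M' : ℤ) := by exact_mod_cast h3
        push_cast at h5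
        linarith
      · left
        exact h2
    · simp only [hr, if_neg hi]
      by_cases hpi : p i = 0
      · left
        exact hpi
      · right
        have hiF : i ∈ F := by simp [hF, hpi]
        have h2 := hmax i hiF
        have h3 : (p i).natDegree + a i ≠ M' := fun h3 => hi (Finset.mem_filter.2 ⟨hiF, h3⟩)
        have h4 : (((p i).natDegree + a i : ℕ) : ℤ) < (M' : ℤ) := by
          exact_mod_cast lt_of_le_of_ne h2 h3
        push_cast at h4
        linarith
  have hsum : ∑ i, algebraMap k[X] L (p i) * ω i =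
      algebraMap k[X] L (X ^ e) * (∑ i, algebraMap k[X] L (q i) * ω i) +
        ∑ i, algebraMap k[X] L (r i) * ω i := by
    rw [Finset.mul_sum, ← Finset.sum_add_distrib]
    refine Finset.sum_congr rfl fun i _ => ?_
    rw [hpq i, map_add, map_mul]
    have h6 : r i = r i := rfl
    ring
  have hqint : IsIntegral k[X] (∑ i, algebraMap k[X] L (q i) * ω i) :=
    IsIntegral.sum _ fun i _ => isIntegral_algebraMap.mul (hW i).1
  have hy : Wt k (M' - 1 : ℤ) (algebraMap k[X] L (X ^ e) * (∑ i, algebraMap k[X] L (q i) * ω i)) := by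
    have h1 : algebraMap k[X] L (X ^ e) * (∑ i, algebraMap k[X] L (q i) * ω i) =
        ∑ i, algebraMap k[X] L (p i) * ω i + -∑ i, algebraMap k[X] L (r i) * ω i := by
      rw [hsum]
      ring
    rw [h1]
    exact (h.mono (by linarith)).add (Wt.sum _ _ fun i _ => hrW i).neg
  have hy' : Wt k (M' - 1 - e : ℤ) (∑ i, algebraMap k[X] L (q i) * ω i) := by
    refine Wt.of_mul hqint (X ^ e) (pow_ne_zero _ X_ne_zero) ?_
    rw [natDegree_X_pow, sub_add_cancel]
    exact hy
  have hnot := notMem_of_coeff ω hli q i₀ (by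
    simp only [hq, if_pos hi₀S]
    rw [Ne, monomial_eq_zero_iff]
    exact leadingCoeff_ne_zero.2 hi₀p) (fun i hi => by
      simp only [hq, if_neg (hSlt i hi)])
  have hfin := hmin i₀ _ _ hnot hy'
  have h7 : ((e + a i₀ : ℕ) : ℤ) = (M' : ℤ) := by exact_mod_cast hi₀M
  push_cast at h7
  linarith

theorem generate (hn : Module.finrank (RatFunc k) L = n) (y : L) (hy : IsIntegral k[X] y) :
    ∃ p : Fin n → k[X], y = ∑ i, algebraMap k[X] L (p i) * ω i := by
  classical
  have hn0 : Nonempty (Fin n) := by
    rw [← Fin.pos_iff_nonempty, ← hn]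
    exact Module.finrank_pos
  set b := basisOfLinearIndependentOfCardEqFinrank hli (by rw [hn, Fintype.card_fin]) with hb
  have hbω : ∀ i, b i = ω i := fun i => by
    rw [hb, coe_basisOfLinearIndependentOfCardEqFinrank]
  obtain ⟨h, hh⟩ := IsLocalization.exist_integer_multiples_of_finite
    (nonZeroDivisors k[X]) (fun i => b.repr y i)
  choose s hs using hh
  have hh0 : (h : k[X]) ≠ 0 := nonZeroDivisors.coe_ne_zero h
  have hys : algebraMap k[X] L h * y = ∑ i, algebraMap k[X] L (s i) * ω i := by
    conv_lhs => rw [← b.sum_repr y, Finset.mul_sum]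
    refine Finset.sum_congr rfl fun i _ => ?_
    have h1 := hs i
    rw [hbω, Algebra.smul_def, ← mul_assoc, IsScalarTower.algebraMap_apply k[X] (RatFunc k) L h,
      IsScalarTower.algebraMap_apply k[X] (RatFunc k) L (s i), ← map_mul, h1, Algebra.smul_def]
  set p : Fin n → k[X] := fun i => s i / (h : k[X]) with hp
  set q : Fin n → k[X] := fun i => s i % (h : k[X]) with hq
  have hpq : ∀ i, s i = (h : k[X]) * p i + q i := fun i =>
    (EuclideanDomain.div_add_mod (s i) (h : k[X])).symm
  set z := y - ∑ i, algebraMap k[X] L (p i) * ω i with hz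
  have hzint : IsIntegral k[X] z :=
    hy.sub (IsIntegral.sum _ fun i _ => isIntegral_algebraMap.mul (hW i).1)
  have hhz : algebraMap k[X] L h * z = ∑ i, algebraMap k[X] L (q i) * ω i := by
    rw [hz, mul_sub, hys, Finset.mul_sum, ← Finset.sum_sub_distrib]
    refine Finset.sum_congr rfl fun i _ => ?_
    rw [hpq i, map_add, map_mul]
    ring
  have hh1 : algebraMap k[X] L h ≠ 0 := by
    rw [IsScalarTower.algebraMap_apply k[X] (RatFunc k) L]
    simp
  have hall : ∀ i, q i = 0 := by
    by_contra hcon
    push Not at hcon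
    obtain ⟨i₁, hi₁⟩ := hcon
    set F := Finset.univ.filter (fun i => q i ≠ 0) with hF
    have hFne : F.Nonempty := ⟨i₁, by simp [hF, hi₁]⟩
    set i₀ := F.max' hFne with hi₀
    have hi₀F : q i₀ ≠ 0 := by
      have := F.max'_mem hFne
      simpa [hF] using this
    have hlt : ∀ i, i₀ < i → q i = 0 := by
      intro i hi
      by_contra hqi
      exact absurd (F.le_max' i (by simp [hF, hqi])) (not_le.2 hi)
    have hWz : Wt k ((a i₀ : ℤ) - 1 + (h : k[X]).natDegree) (algebraMap k[X] L h * z) := by
      rw [hhz]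
      refine Wt.sum _ _ fun i _ => ?_
      have h1 : ((a i₀ : ℤ) - 1 + (h : k[X]).natDegree) =
          a i + ((a i₀ : ℤ) - 1 + (h : k[X]).natDegree - a i) := by ring
      rw [h1]
      refine (hW i).mul _ ?_
      by_cases hqi : q i = 0
      · left
        exact hqi
      · right
        have h2 : i ≤ i₀ := by
          by_contra h2
          exact hqi (hlt i (not_le.1 h2))
        have h3 : (a i : ℤ) ≤ a i₀ := by exact_mod_cast min_mono ω a hli hW hmin h2
        have h4 : (q i).natDegree < (h : k[X]).natDegree :=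
          natDegree_lt_natDegree hqi (EuclideanDomain.mod_lt (s i) hh0)
        have h5 : ((q i).natDegree : ℤ) < (h : k[X]).natDegree := by exact_mod_cast h4
        linarith
    have hWz' : Wt k ((a i₀ : ℤ) - 1) z := Wt.of_mul hzint _ hh0 hWz
    have hnot : z ∉ Submodule.span (RatFunc k) (ω '' Set.Iio i₀) := by
      have h1 := notMem_of_coeff ω hli q i₀ hi₀F hlt
      rw [← hhz] at h1
      intro h2
      exact h1 ((smul_mem_iff' _ hh0 z).2 h2)
    have := hmin i₀ z _ hnot hWz'
    linarith
  refine ⟨p, ?_⟩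
  have h1 : algebraMap k[X] L h * z = 0 := by
    rw [hhz]
    refine Finset.sum_eq_zero fun i _ => ?_
    rw [hall i, map_zero, zero_mul]
  have h2 : z = 0 := by
    rcases mul_eq_zero.1 h1 with h3 | h3
    · exact absurd h3 hh1
    · exact h3
  rw [hz, sub_eq_zero] at h2
  exact h2

/-- the elements of weight at most `m` in terms of the reduced basis -/
theorem wt_iff_coeff (hn : Module.finrank (RatFunc k) L = n) (m : ℕ) (y : L) :
    Wt k m y ↔ ∃ p : Fin n → k[X], (∀ i, p i = 0 ∨ (p i).natDegree + a i ≤ m) ∧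
      y = ∑ i, algebraMap k[X] L (p i) * ω i := by
  constructor
  · intro h
    obtain ⟨p, hp⟩ := generate ω a hli hW hmin hn y h.1
    refine ⟨p, fun i => ?_, hp⟩
    by_cases hpi : p i = 0
    · left
      exact hpi
    · right
      rw [hp] at h
      exact_mod_cast reduced ω a hli hW hmin p m h i hpi
  · rintro ⟨p, hp, rfl⟩
    refine Wt.sum _ _ fun i _ => ?_
    have h1 : (m : ℤ) = a i + ((m : ℤ) - a i) := by ring
    rw [h1]
    refine (hW i).mul _ ?_
    rcases hp i with h | h
    · left
      exact h
    · right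
      have h2 : (((p i).natDegree + a i : ℕ) : ℤ) ≤ (m : ℤ) := by exact_mod_cast h
      push_cast at h2
      linarith

variable [Algebra k L] [IsScalarTower k (RatFunc k) L]

variable (k L) in
/-- the elements of weight at most `m` -/
def Wspace (m : ℕ) : Submodule k L := Submodule.span k {y : L | Weight k L m y}

/-- the dimension of the space of elements of weight at most `m` -/
theorem finrank_Wspace (hn : Module.finrank (RatFunc k) L = n) (m : ℕ) (hm : ∀ i, a i ≤ m) :
    Module.finrank k (Wspace k L m) + ∑ i, a i = n * (m + 1) := by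
  classical
  have htow : IsScalarTower k k[X] L := by
    refine IsScalarTower.of_algebraMap_eq fun c => ?_
    rw [IsScalarTower.algebraMap_apply k (RatFunc k) L,
      IsScalarTower.algebraMap_apply k k[X] (RatFunc k),
      ← IsScalarTower.algebraMap_apply k[X] (RatFunc k) L]
  set φ : (∀ i, degreeLT k (m - a i + 1)) →ₗ[k] L :=
    { toFun := fun p => ∑ i, algebraMap k[X] L (p i : k[X]) * ω i
      map_add' := fun p q => by
        rw [← Finset.sum_add_distrib]
        refine Finset.sum_congr rfl fun i _ => ?_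
        rw [Pi.add_apply, Submodule.coe_add, map_add, add_mul]
      map_smul' := fun c p => by
        rw [RingHom.id_apply, Finset.smul_sum]
        refine Finset.sum_congr rfl fun i _ => ?_
        rw [Pi.smul_apply, Submodule.coe_smul, Algebra.smul_def, map_mul, Algebra.smul_def,
          mul_assoc, ← IsScalarTower.algebraMap_apply k k[X] L] } with hφ
  have hφa : ∀ p, φ p = ∑ i, algebraMap k[X] L (p i : k[X]) * ω i := fun p => rfl
  have hinj : Function.Injective φ := by
    rw [← LinearMap.ker_eq_bot, LinearMap.ker_eq_bot']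
    intro p hp
    rw [hφa] at hp
    have h1 : ∀ i, algebraMap k[X] (RatFunc k) (p i : k[X]) = 0 := by
      refine (Fintype.linearIndependent_iff.1 hli) _ ?_
      rw [← hp]
      refine Finset.sum_congr rfl fun i _ => ?_
      rw [Algebra.smul_def, ← IsScalarTower.algebraMap_apply k[X] (RatFunc k) L]
    funext i
    apply Subtype.ext
    exact (map_eq_zero_iff _ (RatFunc.algebraMap_injective k)).1 (h1 i)
  have hrange : LinearMap.range φ = Wspace k L m := by
    have hset : ((LinearMap.range φ : Submodule k L) : Set L) = {y : L | Weight k L m y} := by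
      ext y
      rw [Set.mem_ofPred_eq, weight_iff_wt, wt_iff_coeff ω a hli hW hmin hn]
      constructor
      · rintro ⟨p, rfl⟩
        refine ⟨fun i => (p i : k[X]), fun i => ?_, hφa p⟩
        by_cases hpi : (p i : k[X]) = 0
        · left
          exact hpi
        · right
          have h1 := mem_degreeLT.1 (p i).2
          rw [degree_eq_natDegree hpi] at h1
          have h2 : (p i : k[X]).natDegree < m - a i + 1 := by exact_mod_cast h1
          have := hm i
          change (p i : k[X]).natDegree + a i ≤ m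
          omega
      · rintro ⟨p, hp, rfl⟩
        refine ⟨fun i => ⟨p i, ?_⟩, hφa _⟩
        rw [mem_degreeLT]
        rcases hp i with h | h
        · rw [h, degree_zero]
          exact WithBot.bot_lt_coe _
        · refine lt_of_le_of_lt degree_le_natDegree ?_
          exact_mod_cast (by omega : (p i).natDegree < m - a i + 1)
    rw [Wspace, ← hset, Submodule.span_eq]
  rw [← hrange, LinearMap.finrank_range_of_inj hinj, Module.finrank_pi_fintype]
  have hfin : ∀ N : ℕ, Module.finrank k (degreeLT k N) = N := by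
    intro N
    rw [LinearEquiv.finrank_eq (degreeLTEquiv k N), Module.finrank_fin_fun]
  simp only [hfin]
  rw [← Finset.sum_add_distrib]
  have h2 : ∀ i, m - a i + 1 + a i = m + 1 := fun i => by
    have := hm i
    omega
  simp only [h2, Finset.sum_const, Finset.card_univ, Fintype.card_fin, smul_eq_mul]

omit hli hW hmin in
/-- closed form: the sum of the weights of a reduced basis is determined by the dimensions of the
spaces of elements of bounded weight -/
theorem exists_weights (hn : Module.finrank (RatFunc k) L = n) (A : ℕ)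
    (hA : ∃ᶠ m : ℕ in Filter.atTop, Module.finrank k (Wspace k L m) + A = n * (m + 1)) :
    ∃ (ω : Fin n → L) (a : Fin n → ℕ), LinearIndependent (RatFunc k) ω ∧
      (∀ i, Weight k L (a i) (ω i)) ∧ ∑ i, a i = A := by
  obtain ⟨ω, a, hli, hW, hmin⟩ := exists_minima (k := k) (L := L) hn
  refine ⟨ω, a, hli, fun i => weight_iff_wt.2 (hW i), ?_⟩
  obtain ⟨m, hm, hA'⟩ := (hA.and_eventually
    (Filter.eventually_ge_atTop (Finset.univ.sup a))).exists
  have h1 := finrank_Wspace ω a hli hW hmin hn m
    (fun i => (Finset.le_sup (Finset.mem_univ i)).trans hA')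
  omega

end red2

end Pool.Agent.H20.ML
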