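import Pool.Agent.H20.ML.Defs
import Pool.Agent.H35.AN.Val
import Pool.Agent.H35.AN.Tower

/-!
# Project ML, row ML-14: roots of a polynomial modulo primes of degree one
-/

set_option autoImplicit false

open Polynomial IsDedekindDomain NumberField Filter

namespace Pool.Agent.H20.ML

open Pool.Agent.H35.AN

/-- a denominator -/
theorem ml14_den {K : Type} [Field K] [NumberField K] (x : K) :
    ∃ d : ℤ, d ≠ 0 ∧ IsIntegral ℤ ((d : K) * x) := by
  have halg : IsAlgebraic ℤ x :=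
    (IsFractionRing.isAlgebraic_iff ℤ ℚ K).2 (Algebra.IsAlgebraic.isAlgebraic x)
  obtain ⟨c, hc, hcx⟩ := halg.exists_integral_multiple
  exact ⟨c, hc, by rwa [zsmul_eq_mul] at hcx⟩

theorem ml14_ge_of_mul {K : Type} [Field K] [NumberField K] (P : HeightOneSpectrum (𝓞 K)) {m : ℤ}
    {d x : K} (hd : d ≠ 0) (h0 : ord P d = 0) (h : Ge P m (d * x)) : Ge P m x := by
  rcases eq_or_ne x 0 with rfl | hx
  · exact ge_zero P m
  · rw [ge_iff P hx]
    rw [ge_iff P (mul_ne_zero hd hx), ord_mul P hd hx, h0, zero_add] at h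
    exact h

theorem ml14_not_dvd {p : ℕ} {d : ℤ} (hd : d ≠ 0) (hp : d.natAbs < p) : ¬ (p : ℤ) ∣ d := by
  intro h
  have h1 := Int.natAbs_dvd_natAbs.mpr h
  rw [Int.natAbs_natCast] at h1
  have h2 := Nat.le_of_dvd (Int.natAbs_pos.mpr hd) h1
  omega

/-- integrality at large primes -/
theorem ml14_int {K : Type} [Field K] [NumberField K] (x : K) :
    ∃ N : ℕ, ∀ (P : HeightOneSpectrum (𝓞 K)) (p : ℕ), p.Prime → N < p →
      ((p : ℕ) : 𝓞 K) ∈ P.asIdeal → Ge P 0 x := by
  obtain ⟨d, hd, hdx⟩ := ml14_den x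
  refine ⟨d.natAbs, fun P p hp hN hP => ?_⟩
  refine ml14_ge_of_mul P (d := (d : K)) (by exact_mod_cast hd)
    (ord_int_unit P hp hP (ml14_not_dvd hd hN)) (ge_of_isIntegral P hdx)

theorem ml14_pow {K : Type} [Field K] [NumberField K] (P : HeightOneSpectrum (𝓞 K)) {x y : K}
    (hx : Ge P 0 x) (hy : Ge P 0 y) (hxy : Ge P 1 (x - y)) (n : ℕ) :
    Ge P 1 (x ^ n - y ^ n) := by
  induction n with
  | zero => simpa using ge_zero P 1
  | succ n ih =>
    have h : x ^ (n + 1) - y ^ (n + 1) = x * (x ^ n - y ^ n) + (x - y) * y ^ n := by ring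
    rw [h]
    have h1 := ge_mul P hx ih
    have h2 := ge_mul P hxy (ge_pow P hy n)
    rw [mul_zero, add_zero] at h2
    rw [zero_add] at h1
    exact ge_add P h1 h2

section

variable (k : Type) [Field k] [NumberField k]

theorem ml14_below {F : Type} [Field F] [NumberField F] [Algebra k F]
    (P : HeightOneSpectrum (𝓞 F)) {x : k} (h : Ge P 1 (algebraMap k F x)) :
    Ge (below k P) 1 x := by
  rcases eq_or_ne x 0 with rfl | hx
  · exact ge_zero _ 1
  · rw [ge_iff P (by simpa using hx), ord_algebraMap (k := k)] at h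
    rw [ge_iff _ hx]
    have he : (0 : ℤ) ≤ (erel k P : ℤ) := Int.natCast_nonneg _
    by_contra hcon
    push Not at hcon
    nlinarith

theorem ml14_norm_below {F : Type} [Field F] [NumberField F] [Algebra k F]
    (P : HeightOneSpectrum (𝓞 F)) {p : ℕ} (hp : p.Prime) (h : Ideal.absNorm P.asIdeal = p) :
    Ideal.absNorm (below k P).asIdeal = p := by
  have hne : Ideal.absNorm (below k P).asIdeal ≠ 1 := by
    rw [Ne, Ideal.absNorm_eq_one_iff]
    exact (below k P).isPrime.ne_top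
  have hdvd : Ideal.absNorm (below k P).asIdeal ∣ p := by
    rw [← h, Ideal.absNorm_apply, Ideal.absNorm_apply, Submodule.cardQuot_apply,
      Submodule.cardQuot_apply]
    let g : (𝓞 k ⧸ (below k P).asIdeal) →+* (𝓞 F ⧸ P.asIdeal) :=
      Ideal.quotientMap P.asIdeal (algebraMap (𝓞 k) (𝓞 F)) le_rfl
    have hg : Function.Injective g := Ideal.quotientMap_injective' le_rfl
    exact AddSubgroup.card_dvd_of_injective g.toAddMonoidHom hg
  exact ((Nat.dvd_prime hp).1 hdvd).resolve_left hne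

theorem exists_root_of_norm (f : k[X]) (hf : Irreducible f) :
    ∃ (F : Type) (_ : Field F) (_ : NumberField F) (Y : ℕ), ∀ p : ℕ, p.Prime → Y < p →
      (∃ I : Ideal (𝓞 F), Ideal.absNorm I = p) →
      ∃ (𝔭 : HeightOneSpectrum (𝓞 k)) (r : ℤ), Ideal.absNorm 𝔭.asIdeal = p ∧
        Ge 𝔭 1 (f.eval (r : k)) := by
  have hfact : Fact (Irreducible f) := ⟨hf⟩
  have hfin : FiniteDimensional k (AdjoinRoot f) := (AdjoinRoot.powerBasis hf.ne_zero).finite
  have hcz : CharZero (AdjoinRoot f) := charZero_of_injective_algebraMap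
    (algebraMap k (AdjoinRoot f)).injective
  have hfin2 : FiniteDimensional ℚ (AdjoinRoot f) := FiniteDimensional.trans ℚ k (AdjoinRoot f)
  have hnf : NumberField (AdjoinRoot f) := ⟨⟩
  set ξ : AdjoinRoot f := AdjoinRoot.root f with hξ
  have hroot : aeval ξ f = 0 := by
    rw [AdjoinRoot.aeval_eq, AdjoinRoot.mk_self]
  obtain ⟨d, hd, hdx⟩ := ml14_den ξ
  choose N hN using fun i : ℕ => ml14_int (f.coeff i)
  refine ⟨AdjoinRoot f, inferInstance, hnf, d.natAbs + ∑ i ∈ Finset.range (f.natDegree + 1), N i,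
    fun p hp hY hI => ?_⟩
  obtain ⟨I, hI⟩ := hI
  have hprime : I.IsPrime := Ideal.isPrime_of_irreducible_absNorm (by rw [hI]; exact hp)
  have hbot : I ≠ ⊥ := by
    rintro rfl
    rw [Ideal.absNorm_bot] at hI
    exact hp.ne_zero hI.symm
  let P : HeightOneSpectrum (𝓞 (AdjoinRoot f)) := ⟨I, hprime, hbot⟩
  have hPp : ((p : ℕ) : 𝓞 (AdjoinRoot f)) ∈ P.asIdeal := by
    have := Ideal.absNorm_mem I
    rwa [hI] at this
  have hpp : ((p : ℕ) : 𝓞 k) ∈ (below k P).asIdeal := (mem_below P p).2 hPp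
  -- the residue of `d ξ`
  have hfactp : Fact p.Prime := ⟨hp⟩
  have hcard : Nat.card (𝓞 (AdjoinRoot f) ⧸ I) = p := by
    rw [← hI, Ideal.absNorm_apply, Submodule.cardQuot_apply]
  have hnt : Nontrivial (𝓞 (AdjoinRoot f) ⧸ I) := Ideal.Quotient.nontrivial_iff.2 hprime.ne_top
  have htop := zmultiples_eq_top_of_prime_card hcard (one_ne_zero (α := 𝓞 (AdjoinRoot f) ⧸ I))
  have hsurj : ∀ y : 𝓞 (AdjoinRoot f), ∃ s : ℤ, y - (s : 𝓞 (AdjoinRoot f)) ∈ I := by
    intro y
    have h1 : (Ideal.Quotient.mk I y) ∈ AddSubgroup.zmultiples (1 : 𝓞 (AdjoinRoot f) ⧸ I) := by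
      rw [htop]
      exact AddSubgroup.mem_top _
    obtain ⟨s, hs⟩ := AddSubgroup.mem_zmultiples_iff.1 h1
    refine ⟨s, ?_⟩
    rw [← Ideal.Quotient.mk_eq_mk_iff_sub_mem, ← hs]
    simp
  obtain ⟨s, hs⟩ := hsurj ⟨(d : AdjoinRoot f) * ξ, hdx⟩
  have hpd : ¬ (p : ℤ) ∣ d := ml14_not_dvd hd (by omega)
  obtain ⟨u, e, hue⟩ := (Prime.coprime_iff_not_dvd (Nat.prime_iff_prime_int.mp hp)).mpr hpd
  -- `u p + e d = 1`
  have hordd : ord P ((d : ℤ) : AdjoinRoot f) = 0 := ord_int_unit P hp hPp hpd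
  have hd0 : ((d : ℤ) : AdjoinRoot f) ≠ 0 := by exact_mod_cast hd
  have h1 : Ge P 1 ((d : AdjoinRoot f) * ξ - (s : AdjoinRoot f)) := by
    have := (mem_iff_ge_one P _).1 hs
    simpa using this
  have h2 : Ge P 1 ((p : ℕ) : AdjoinRoot f) := by
    have := (mem_iff_ge_one P _).1 hPp
    simpa using this
  have h3 : Ge P 1 (ξ - ((e * s : ℤ) : AdjoinRoot f)) := by
    refine ml14_ge_of_mul P hd0 hordd ?_
    have h4 : ((d : ℤ) : AdjoinRoot f) * (ξ - ((e * s : ℤ) : AdjoinRoot f)) =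
        ((d : AdjoinRoot f) * ξ - (s : AdjoinRoot f)) +
          ((p : ℕ) : AdjoinRoot f) * ((u * s : ℤ) : AdjoinRoot f) := by
      have h5 : ((u : AdjoinRoot f) * (p : AdjoinRoot f) + (e : AdjoinRoot f) * (d : AdjoinRoot f))
          = 1 := by exact_mod_cast congrArg (Int.cast (R := AdjoinRoot f)) hue
      push_cast
      linear_combination (-(s : AdjoinRoot f)) * h5
    rw [h4]
    have h6 := ge_mul P h2 (ge_int P (u * s))
    rw [add_zero] at h6
    exact ge_add P h1 h6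
  have hξ0 : Ge P 0 ξ := by
    have h7 := ge_add P (ge_mono P (by norm_num) h3) (ge_int P (e * s))
    rwa [sub_add_cancel] at h7
  refine ⟨below k P, e * s, ml14_norm_below k P hp hI, ml14_below k P ?_⟩
  have h8 : algebraMap k (AdjoinRoot f) (f.eval ((e * s : ℤ) : k)) =
      ∑ i ∈ Finset.range (f.natDegree + 1), algebraMap k (AdjoinRoot f) (f.coeff i) *
        (((e * s : ℤ) : AdjoinRoot f) ^ i - ξ ^ i) := by
    have h9 : aeval ((e * s : ℤ) : AdjoinRoot f) f - aeval ξ f =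
        ∑ i ∈ Finset.range (f.natDegree + 1), algebraMap k (AdjoinRoot f) (f.coeff i) *
          (((e * s : ℤ) : AdjoinRoot f) ^ i - ξ ^ i) := by
      rw [aeval_eq_sum_range, aeval_eq_sum_range, ← Finset.sum_sub_distrib]
      refine Finset.sum_congr rfl fun i _ => ?_
      rw [Algebra.smul_def, Algebra.smul_def, mul_sub]
    rw [hroot, sub_zero] at h9
    rw [← h9, ← map_intCast (algebraMap k (AdjoinRoot f)), aeval_algebraMap_apply]
    rw [← coe_aeval_eq_eval]
  rw [h8]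
  refine ge_sum P _ _ fun i hi => ?_
  have h10 : Ge (below k P) 0 (f.coeff i) := by
    refine hN i _ p hp ?_ hpp
    have := Finset.single_le_sum (f := N) (fun j _ => Nat.zero_le _) hi
    omega
  have h11 := ge_algebraMap (k := k) P h10
  rw [mul_zero] at h11
  have h12 := ge_mul P h11 (ml14_pow P (ge_int P (e * s)) hξ0 (by
    have := ge_neg P h3
    rwa [neg_sub] at this) i)
  rwa [zero_add] at h12

end

end Pool.Agent.H20.ML
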