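import Mathlib

/-!
# Tools for the weak form of Hilbert's irreducibility theorem

Bounded van der Waerden progressions, Hensel's lemma in polynomial rings, and finite differences.
-/

namespace Pool.Agent.H20.ML

open Polynomial

/-- Van der Waerden with a bound: among `0, …, W` every colouring has a monochromatic
progression of length `Len`, with `W` depending only on `Len` and the set of colours. -/
theorem ml1_bounded_vdw (Len : ℕ) (κ : Type*) [Finite κ] :
    ∃ W : ℕ, ∀ C : ℕ → κ, ∃ a d : ℕ, 1 ≤ d ∧ a + Len * d ≤ W ∧ ∃ c, ∀ l, l < Len →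
      C (a + l * d) = c := by
  obtain ⟨ι, hfin, hι⟩ := Combinatorics.Line.exists_mono_in_high_dimension (Fin (Len + 1)) κ
  classical
  refine ⟨2 * Fintype.card ι * (Len + 1), fun C => ?_⟩
  obtain ⟨l, c, hl⟩ := hι (fun v => C (∑ i, (v i : ℕ)))
  set s : Finset ι := {i | l.idxFun i = none} with hs
  have hsum : ∀ x : Fin (Len + 1), ∑ i, ((l x i : Fin (Len + 1)) : ℕ)
      = ∑ i ∈ sᶜ, ((l 0 i : Fin (Len + 1)) : ℕ) + (x : ℕ) * s.card := by
    intro x
    rw [← Finset.sum_add_sum_compl s, add_comm]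
    congr 1
    · refine Finset.sum_congr rfl fun i hi => ?_
      have hi' : l.idxFun i ≠ none := by
        intro h
        rw [Finset.mem_compl] at hi
        exact hi (by simp [hs, h])
      obtain ⟨y, hy⟩ := Option.ne_none_iff_exists'.1 hi'
      rw [Combinatorics.Line.apply_some hy, Combinatorics.Line.apply_some hy]
    · rw [mul_comm, ← smul_eq_mul, ← Finset.sum_const]
      refine Finset.sum_congr rfl fun i hi => ?_
      have hi' : l.idxFun i = none := by simpa [hs] using hi
      rw [Combinatorics.Line.apply_none l x i hi']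
  refine ⟨∑ i ∈ sᶜ, ((l 0 i : Fin (Len + 1)) : ℕ), s.card, ?_, ?_, c, ?_⟩
  · obtain ⟨i, hi⟩ := l.proper
    exact Finset.card_pos.2 ⟨i, by simp [hs, hi]⟩
  · have h1 : ∑ i ∈ sᶜ, ((l 0 i : Fin (Len + 1)) : ℕ) ≤ Fintype.card ι * (Len + 1) := by
      calc ∑ i ∈ sᶜ, ((l 0 i : Fin (Len + 1)) : ℕ)
          ≤ ∑ i ∈ sᶜ, (Len + 1) := Finset.sum_le_sum fun i _ => (l 0 i).2.le
        _ = (sᶜ).card * (Len + 1) := by rw [Finset.sum_const, smul_eq_mul]
        _ ≤ Fintype.card ι * (Len + 1) := Nat.mul_le_mul_right _ (Finset.card_le_univ _)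
    have h2 : Len * s.card ≤ Fintype.card ι * (Len + 1) := by
      calc Len * s.card ≤ (Len + 1) * Fintype.card ι :=
            Nat.mul_le_mul (Nat.le_succ _) (Finset.card_le_univ _)
        _ = Fintype.card ι * (Len + 1) := mul_comm _ _
    linarith
  · intro m hm
    have := hl ⟨m, by omega⟩
    simp only at this
    rw [hsum] at this
    exact this

section Hensel

variable {A : Type*} [CommRing A]

theorem ml1_hensel_exists (F : A[X]) (p y0 u : A) (h0 : p ∣ F.eval y0)
    (hu : p ∣ u * F.derivative.eval y0 - 1) (K : ℕ) :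
    ∃ R : A, p ^ K ∣ F.eval R ∧ p ∣ R - y0 := by
  suffices h : ∀ K : ℕ, ∃ R : A, p ^ (K + 1) ∣ F.eval R ∧ p ∣ R - y0 by
    obtain ⟨R, h1, h2⟩ := h K
    exact ⟨R, (pow_dvd_pow p (Nat.le_succ K)).trans h1, h2⟩
  intro K
  induction K with
  | zero => exact ⟨y0, by simpa using h0, by simp⟩
  | succ K ih =>
    obtain ⟨R, hR, hR0⟩ := ih
    refine ⟨R - u * F.eval R, ?_, ?_⟩
    · obtain ⟨c, hc⟩ := F.binomExpansion R (-(u * F.eval R))
      rw [← sub_eq_add_neg] at hc
      have hder : p ∣ u * F.derivative.eval R - 1 := by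
        have h1 : R - y0 ∣ F.derivative.eval R - F.derivative.eval y0 :=
          sub_dvd_eval_sub _ _ _
        have h2 : p ∣ u * (F.derivative.eval R - F.derivative.eval y0) :=
          (hR0.trans h1).mul_left u
        have h3 := dvd_add h2 hu
        have h4 : u * (F.derivative.eval R - F.derivative.eval y0)
            + (u * F.derivative.eval y0 - 1) = u * F.derivative.eval R - 1 := by ring
        rwa [h4] at h3
      rw [hc]
      obtain ⟨e, he⟩ := hR
      obtain ⟨w, hw⟩ := hder
      have h5 : F.eval R + F.derivative.eval R * -(u * F.eval R) + c * (-(u * F.eval R)) ^ 2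
          = - (F.eval R * (u * F.derivative.eval R - 1)) + c * u ^ 2 * (F.eval R) ^ 2 := by ring
      rw [h5, hw, he]
      refine ⟨- (e * w) + c * u ^ 2 * p ^ K * e ^ 2, ?_⟩
      ring
    · have h1 : p ∣ F.eval R := (dvd_pow_self p (Nat.succ_ne_zero K)).trans hR
      have h2 : R - u * F.eval R - y0 = (R - y0) - u * F.eval R := by ring
      rw [h2]
      exact dvd_sub hR0 (h1.mul_left u)

theorem ml1_hensel_unique (F : A[X]) (p y y' u : A) (K : ℕ) (h : p ^ K ∣ F.eval y)
    (h' : p ^ K ∣ F.eval y') (hp : p ∣ y' - y) (hu : p ∣ u * F.derivative.eval y - 1) :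
    p ^ K ∣ y' - y := by
  obtain ⟨c, hc⟩ := F.binomExpansion y (y' - y)
  have h1 : y + (y' - y) = y' := by ring
  rw [h1] at hc
  have h2 : p ^ K ∣ (y' - y) * (F.derivative.eval y + c * (y' - y)) := by
    have h3 := dvd_sub h' h
    rw [hc] at h3
    have h4 : F.eval y + F.derivative.eval y * (y' - y) + c * (y' - y) ^ 2 - F.eval y
        = (y' - y) * (F.derivative.eval y + c * (y' - y)) := by ring
    rwa [h4] at h3
  have h3 : ∀ j, j ≤ K → p ^ j ∣ y' - y := by
    intro j
    induction j with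
    | zero => intro _; simp
    | succ j ih =>
      intro hj
      have ih' := ih (by omega)
      obtain ⟨w, hw⟩ := hu
      obtain ⟨z, hz⟩ := hp
      have h5 : y' - y = u * ((y' - y) * (F.derivative.eval y + c * (y' - y)))
          - (y' - y) * (p * (w + u * c * z)) := by
        have h6 : u * F.derivative.eval y = 1 + p * w := by rw [← hw]; ring
        calc y' - y = (y' - y) * (1 + p * w) + (y' - y) * u * c * (p * z)
              - (y' - y) * (p * (w + u * c * z)) := by ring
          _ = (y' - y) * (u * F.derivative.eval y) + (y' - y) * u * c * (y' - y)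
              - (y' - y) * (p * (w + u * c * z)) := by rw [h6, hz]
          _ = _ := by ring
      rw [h5]
      refine dvd_sub (((pow_dvd_pow p hj).trans h2).mul_left u) ?_
      rw [pow_succ]
      exact mul_dvd_mul ih' (dvd_mul_right _ _)
  exact h3 K le_rfl

/-- finite differences of a polynomial along a progression with step `h`. -/
theorem ml1_pow_dvd_fwdDiff (D : ℕ) : ∀ (R : A[X]) (a h : A) (l : ℕ),
    h ^ D ∣ (fwdDiff (1 : ℕ))^[D] (fun l : ℕ => R.eval (a + l * h)) l := by
  induction D with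
  | zero => intro R a h l; simp
  | succ D ih =>
    intro R a h l
    have h1 : ∃ R' : A[X], R.comp (X + C h) - R = C h * R' := by
      have h2 : (X + C h) - X ∣ (R.map C).eval (X + C h) - (R.map C).eval X :=
        sub_dvd_eval_sub _ _ _
      obtain ⟨R', hR'⟩ := h2
      refine ⟨R', ?_⟩
      rw [add_sub_cancel_left] at hR'
      rw [← hR', ← eval₂_eq_eval_map, ← eval₂_eq_eval_map]
      simp [comp, eval₂_C_X]
    obtain ⟨R', hR'⟩ := h1
    rw [Function.iterate_succ_apply]
    have h3 : fwdDiff (1 : ℕ) (fun l : ℕ => R.eval (a + l * h))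
        = h • (fun l : ℕ => R'.eval (a + l * h)) := by
      funext l
      simp only [fwdDiff, Pi.smul_apply, smul_eq_mul]
      have h4 := congrArg (Polynomial.eval (a + l * h)) hR'
      simp only [eval_sub, eval_comp, eval_add, eval_X, eval_C, eval_mul] at h4
      rw [← h4]
      push_cast
      ring_nf
    rw [h3, fwdDiff_iter_const_smul, Pi.smul_apply, smul_eq_mul, pow_succ']
    exact mul_dvd_mul dvd_rfl (ih R' a h l)

end Hensel

/-- congruent sequences have congruent differences. -/
theorem ml1_dvd_fwdDiff_sub {A : Type*} [CommRing A] (f g : ℕ → A) (m : A) (D l : ℕ)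
    (h : ∀ i, i ≤ D → m ∣ f (l + i) - g (l + i)) :
    m ∣ (fwdDiff (1 : ℕ))^[D] f l - (fwdDiff (1 : ℕ))^[D] g l := by
  rw [fwdDiff_iter_eq_sum_shift, fwdDiff_iter_eq_sum_shift, ← Finset.sum_sub_distrib]
  refine Finset.dvd_sum fun k hk => ?_
  rw [← smul_sub, zsmul_eq_mul]
  refine Dvd.dvd.mul_left ?_ _
  simpa using h k (by simpa [Nat.lt_succ_iff] using hk)

/-- size of the differences. -/
theorem ml1_norm_fwdDiff_le (f : ℕ → ℂ) (B : ℝ) (D l : ℕ) (h : ∀ i, i ≤ D → ‖f (l + i)‖ ≤ B) :
    ‖(fwdDiff (1 : ℕ))^[D] f l‖ ≤ 2 ^ D * B := by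
  rw [fwdDiff_iter_eq_sum_shift]
  refine (norm_sum_le _ _).trans ?_
  have h1 : (2 : ℝ) ^ D * B = ∑ k ∈ Finset.range (D + 1), (D.choose k : ℝ) * B := by
    rw [← Finset.sum_mul]
    congr 1
    have := Nat.sum_range_choose D
    exact_mod_cast this.symm
  rw [h1]
  refine Finset.sum_le_sum fun k hk => ?_
  rw [zsmul_eq_mul, norm_mul]
  refine mul_le_mul ?_ ?_ (norm_nonneg _) (Nat.cast_nonneg _)
  · push_cast
    rw [norm_mul, norm_pow, norm_neg, norm_one, one_pow, one_mul]
    simp
  · simpa using h k (by simpa [Nat.lt_succ_iff] using hk)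

theorem ml1_map_fwdDiff {A B : Type*} [CommRing A] [CommRing B] (φ : A →+* B) (f : ℕ → A)
    (D l : ℕ) : φ ((fwdDiff (1 : ℕ))^[D] f l) = (fwdDiff (1 : ℕ))^[D] (fun i => φ (f i)) l := by
  rw [fwdDiff_iter_eq_sum_shift, fwdDiff_iter_eq_sum_shift, map_sum]
  refine Finset.sum_congr rfl fun k _ => ?_
  rw [map_zsmul]

/-- A sequence (of length `Len`) whose `D`-th differences vanish is polynomial. -/
theorem ml1_exists_interp {k : Type*} [Field k] [CharZero k] (y : ℕ → k) (D Len : ℕ)
    (h : ∀ l, l + D < Len → (fwdDiff (1 : ℕ))^[D] y l = 0) :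
    ∃ Q : k[X], Q.natDegree ≤ D ∧ ∀ l, l < Len → Q.eval (l : k) = y l := by
  classical
  -- higher differences at `0` vanish
  have h0 : ∀ r, D ≤ r → r < Len → (fwdDiff (1 : ℕ))^[r] y 0 = 0 := by
    intro r hr hr'
    obtain ⟨e, rfl⟩ := Nat.exists_eq_add_of_le hr
    rw [add_comm D e, Function.iterate_add_apply, fwdDiff_iter_eq_sum_shift]
    refine Finset.sum_eq_zero fun k hk => ?_
    have : k ≤ e := by simpa [Nat.lt_succ_iff] using hk
    rw [h (0 + k • 1) (by simp; omega), smul_zero]
  refine ⟨∑ r ∈ Finset.range D, C ((fwdDiff (1 : ℕ))^[r] y 0 * ((r.factorial : k))⁻¹)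
    * (descPochhammer k r), ?_, ?_⟩
  · refine natDegree_sum_le_of_forall_le _ _ fun r hr => ?_
    refine (natDegree_C_mul_le _ _).trans ?_
    rw [descPochhammer_natDegree]
    exact (Finset.mem_range.1 hr).le
  · intro l hl
    have h1 := shift_eq_sum_fwdDiff_iter (1 : ℕ) y l 0
    rw [zero_add, smul_eq_mul, mul_one] at h1
    rw [h1, eval_finsetSum]
    have h2 : ∀ r : ℕ, (l.choose r) • (fwdDiff (1 : ℕ))^[r] y 0
        = ((fwdDiff (1 : ℕ))^[r] y 0 * ((r.factorial : k))⁻¹) * (descPochhammer k r).eval (l : k) := by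
      intro r
      rw [descPochhammer_eval_eq_descFactorial, Nat.descFactorial_eq_factorial_mul_choose,
        nsmul_eq_mul]
      have : (r.factorial : k) ≠ 0 := by exact_mod_cast r.factorial_ne_zero
      push_cast
      field_simp
    have h3 : ∑ r ∈ Finset.range (l + 1), (l.choose r) • (fwdDiff (1 : ℕ))^[r] y 0
        = ∑ r ∈ Finset.range (max D (l + 1)), (l.choose r) • (fwdDiff (1 : ℕ))^[r] y 0 := by
      refine Finset.sum_subset (Finset.range_mono (le_max_right _ _)) fun r _ hr => ?_
      rw [Nat.choose_eq_zero_of_lt (by simpa using hr), zero_smul]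
    have h4 : ∑ r ∈ Finset.range D, (l.choose r) • (fwdDiff (1 : ℕ))^[r] y 0
        = ∑ r ∈ Finset.range (max D (l + 1)), (l.choose r) • (fwdDiff (1 : ℕ))^[r] y 0 := by
      refine Finset.sum_subset (Finset.range_mono (le_max_left _ _)) fun r hr hr' => ?_
      by_cases hrl : r ≤ l
      · rw [h0 r (by simpa using hr') (by omega), smul_zero]
      · rw [Nat.choose_eq_zero_of_lt (by omega), zero_smul]
    rw [h3, ← h4]
    refine Finset.sum_congr rfl fun r _ => ?_
    rw [eval_mul, eval_C, h2]

/-- An algebraic integer divisible by `q` whose conjugates have absolute value `< q`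
is zero. -/
theorem ml1_eq_zero_of_dvd_of_lt {k : Type*} [Field k] [NumberField k]
    (δ : NumberField.RingOfIntegers k) (q : ℕ) (hq : 0 < q)
    (hd : (q : NumberField.RingOfIntegers k) ∣ δ)
    (h : ∀ σ : k →+* ℂ, ‖σ (δ : k)‖ < q) : δ = 0 := by
  obtain ⟨e, rfl⟩ := hd
  by_contra hne
  have he : e ≠ 0 := by
    rintro rfl
    simp at hne
  have h1 : ∀ z : NumberField.InfinitePlace k, z (e : k) < 1 := by
    intro z
    have h2 := h z.embedding
    have h3 : ‖z.embedding (e : k)‖ = z (e : k) := NumberField.InfinitePlace.norm_embedding_eq z _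
    have h5 : (((q : NumberField.RingOfIntegers k) * e : NumberField.RingOfIntegers k) : k)
        = (q : k) * (e : k) := by
      push_cast
      rfl
    rw [h5, map_mul, map_natCast, norm_mul, h3, Complex.norm_natCast] at h2
    have hq' : (0 : ℝ) < q := by exact_mod_cast hq
    nlinarith
  obtain ⟨w⟩ := (inferInstance : Nonempty (NumberField.InfinitePlace k))
  have h4 := NumberField.InfinitePlace.one_le_of_lt_one (w := w) he (fun z _ => h1 z)
  exact absurd (h1 w) (not_lt.2 h4)

end Pool.Agent.H20.ML
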